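import Pool.Agent.Helper58.E8Z.Core
import Pool.Agent.Helper73.E8.Xc.Defs
import Pool.Agent.Helper64.E8C.Mem

/-!
# Project E8Z, (E2): the lattices `L^(t^k)`, `k = 3, 5`, in explicit integral coordinates. Definitions.

`per k c`: Gaussian period of degree `k`. `E j c` is the element of `L` with orbit coordinates `per k (c + i)` at `j`.
`vec E k a = ∑ a j c • E j c`. The structure `LF` collects what is used in (E2): `t`, bracket, form, every `x` in `L` fixed by
`t ^ k` is a combination of the `E j c` up to a power of 31, explicit vectors are in `L` if the check `chkMem` is successful.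
-/

set_option autoImplicit false

open scoped TensorProduct

namespace Pool.Agent.Helper73.E8.Ez

open Chev Pool.Agent.Helper64.E8C Pool.Agent.Helper73.E8.Xc
open Pool.Agent.Helper2.E8A (K ζ σ hζ)

/-- Gaussian period of degree `k`. -/
noncomputable def per (k c : ℕ) : K := ∑ i ∈ Finset.range (30 / k), ζ ^ (3 ^ (c + k * i))

/-- `per k 0 * per k w = ∑ d < k, pT k w d * per k d`. -/
def pT (k w d : ℕ) : ℤ :=
  ((if k = 3 then [[-7, -6, -8], [4, 2, 4], [2, 4, 4]]
    else [[-4, -6, -6, -4, -5], [0, 1, 2, 1, 2], [0, 2, 2, 1, 1], [2, 1, 1, 0, 2], [1, 2, 1, 2, 0]] : List (List ℤ)).getD w []).getD d 0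

/-- Coefficient of `per k d` in `per k u * per k v`. -/
def pc (k u v d : ℕ) : ℤ := pT k ((v + (k - u % k)) % k) ((d + (k - u % k)) % k)

/-- Coordinates of the bracket. -/
def bF (k : ℕ) (a b : ℕ → ℕ → ℤ) (p d : ℕ) : ℤ :=
  ((tab.getD p []).map fun e => sgn e * ∑ u ∈ Finset.range k, ∑ v ∈ Finset.range k,
    a e.1 u * b e.2.2.1 v * pc k (u + e.2.1) (v + e.2.2.2.1) d).sum

/-- Coordinates of `t x`. -/
def tF (k : ℕ) (a : ℕ → ℕ → ℤ) (j c : ℕ) : ℤ := a j ((c + (k - 1)) % k)

/-- The form, divided by `30 / k`. -/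
def fF (k : ℕ) (a b : ℕ → ℕ → ℤ) : ℤ :=
  ∑ j ∈ Finset.range 8, (31 * ∑ c ∈ Finset.range k, a j c * b j c -
    (30 / k : ℕ) * (∑ c ∈ Finset.range k, a j c) * (∑ c ∈ Finset.range k, b j c))

/-- A list as a function. -/
def lf (l : List (List ℤ)) (j c : ℕ) : ℤ := (l.getD j []).getD c 0

/-- The columns of a list of 8 lists of length `k` repeated to length 30. -/
def ex30 (k : ℕ) (l : List (List ℤ)) : List (List ℤ) := l.map fun r => (List.range 30).map fun i => r.getD (i % k) 0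

variable {L : Type} [LieRing L] [Module.Free ℤ L] [Module.Finite ℤ L] {B : LinearMap.BilinForm ℤ L}

/-- Combination of the `E j c`. -/
def vec (E : ℕ → ℕ → L) (k : ℕ) (a : ℕ → ℕ → ℤ) : L := ∑ j ∈ Finset.range 8, ∑ c ∈ Finset.range k, a j c • E j c

/-- The explicit description of `L^(t^k)`. -/
structure LF (B : LinearMap.BilinForm ℤ L) (t : AutL L) (k : ℕ) where
  /-- the vectors -/
  E : ℕ → ℕ → L
  t_vec : ∀ a, t.1 (vec E k a) = vec E k (tF k a)
  fix : ∀ a, (t ^ k).1 (vec E k a) = vec E k a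
  br : ∀ a b, ⁅vec E k a, vec E k b⁆ = vec E k (bF k a b)
  form : ∀ a b, B (vec E k a) (vec E k b) = (30 / k : ℕ) * fF k a b
  span : ∀ x, (t ^ k).1 x = x → ∃ (N : ℕ) (a : ℕ → ℕ → ℤ), (31 : ℤ) ^ N • x = vec E k a
  mem : ∀ l : List (List ℤ), chkMem (ex30 k l) = true → ∃ u : L, (31 : ℤ) • u = vec E k (lf l)

end Pool.Agent.Helper73.E8.Ez
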