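import Pool.Agent.Helper58.E8Z.Base

/-!
# Block E8Z-PERA: products of Gaussian periods

`per_mul`: reduce to `u, v, d` by `per_mod` (below), then to `per k 0 * per k w` by applying `σ` (`per_sigma`), then a finite computation:
both sides are `∑ n < 31, c n * ζ ^ n` with integers `c n` obtained by counting exponents modulo 31 (`ζ ^ 31 = 1`), and the difference
of the two sequences `c` is constant (`∑ n < 31, ζ ^ n = 0`, `hζ.geom_sum_eq_zero`); `decide`. Any other proof is fine.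
-/

set_option autoImplicit false

namespace Pool.Agent.Helper73.E8.Ez

open Pool.Agent.Helper2.E8A (K ζ σ hζ)

private lemma zpow_h17 {a b : ℕ} (h : a % 31 = b % 31) : ζ ^ a = ζ ^ b := by
  rw [← Nat.div_add_mod a 31, ← Nat.div_add_mod b 31, pow_add, pow_add, pow_mul, pow_mul, hζ.pow_eq_one, one_pow,
    one_pow, h]

private lemma fib_h17 {ι : Type} (T : Finset ι) (e : ι → ℕ) :
    ∑ i ∈ T, ζ ^ (e i) = ∑ n ∈ Finset.range 31, ((T.filter (fun i => e i % 31 = n)).card : K) * ζ ^ n := by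
  rw [← Finset.sum_fiberwise_of_maps_to (t := Finset.range 31) (g := fun i => e i % 31)
    (fun i _ => Finset.mem_range.2 (Nat.mod_lt _ (by norm_num)))]
  refine Finset.sum_congr rfl fun n _ => ?_
  rw [← nsmul_eq_mul, ← Finset.sum_const]
  refine Finset.sum_congr rfl fun i hi => ?_
  rw [Finset.mem_filter] at hi
  apply zpow_h17
  rw [← hi.2, Nat.mod_mod]

theorem per_sigma (k c : ℕ) : σ (per k c) = per k (c + 1) := by
  unfold per
  rw [map_sum]
  refine Finset.sum_congr rfl fun i _ => ?_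
  rw [map_pow, Pool.Agent.Helper2.E8A.σ_ζ, ← pow_mul]
  congr 1
  rw [← pow_succ']
  congr 1
  ring

private lemma per_add_h17 {k : ℕ} (hk : k = 3 ∨ k = 5) (c : ℕ) : per k (c + k) = per k c := by
  unfold per
  obtain ⟨n, hn⟩ : ∃ n : ℕ, n = 30 / k := ⟨_, rfl⟩
  have hkn : k * n = 30 := by
    rcases hk with rfl | rfl <;> rw [hn]
  rw [← hn]
  have h1 : ∑ i ∈ Finset.range n, ζ ^ 3 ^ (c + k + k * i) = ∑ i ∈ Finset.range n, ζ ^ 3 ^ (c + k * (i + 1)) := by
    refine Finset.sum_congr rfl fun i _ => ?_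
    congr 2
    ring
  rw [h1]
  have h2 := Finset.sum_range_succ (fun i => ζ ^ 3 ^ (c + k * i)) n
  have h3 := Finset.sum_range_succ' (fun i => ζ ^ 3 ^ (c + k * i)) n
  rw [h3] at h2
  have h4 : ζ ^ 3 ^ (c + k * n) = ζ ^ 3 ^ (c + k * 0) := by
    apply zpow_h17
    rw [hkn, mul_zero, add_zero, pow_add, Nat.mul_mod]
    norm_num
  rw [h4] at h2
  exact add_right_cancel h2

theorem per_mod {k : ℕ} (hk : k = 3 ∨ k = 5) (c : ℕ) : per k (c % k) = per k c := by
  have h : ∀ (q r : ℕ), per k (r + k * q) = per k r := by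
    intro q
    induction q with
    | zero => intro r; rw [mul_zero, add_zero]
    | succ q ih =>
      intro r
      rw [mul_add, mul_one, ← add_assoc, per_add_h17 hk, ih]
  have h1 := h (c / k) (c % k)
  rw [Nat.mod_add_div] at h1
  exact h1.symm

private def cl_h17 (k d n : ℕ) : ℤ :=
  ((Finset.range (30 / k)).filter (fun i => 3 ^ (d + k * i) % 31 = n)).card

private def cn_h17 (k w n : ℕ) : ℤ :=
  ((Finset.range (30 / k) ×ˢ Finset.range (30 / k)).filter
    (fun p => (3 ^ (0 + k * p.1) + 3 ^ (w + k * p.2)) % 31 = n)).card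

private lemma per_cl_h17 (k d : ℕ) : per k d = ∑ n ∈ Finset.range 31, (cl_h17 k d n : K) * ζ ^ n := by
  unfold per
  rw [fib_h17]
  refine Finset.sum_congr rfl fun n _ => ?_
  unfold cl_h17
  push_cast
  rfl

private lemma per_cn_h17 (k w : ℕ) :
    per k 0 * per k w = ∑ n ∈ Finset.range 31, (cn_h17 k w n : K) * ζ ^ n := by
  unfold per
  rw [Finset.sum_mul_sum, ← Finset.sum_product']
  have h1 : ∀ p ∈ Finset.range (30 / k) ×ˢ Finset.range (30 / k),
      ζ ^ 3 ^ (0 + k * p.1) * ζ ^ 3 ^ (w + k * p.2) = ζ ^ (3 ^ (0 + k * p.1) + 3 ^ (w + k * p.2)) :=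
    fun p _ => (pow_add _ _ _).symm
  rw [Finset.sum_congr rfl h1, fib_h17]
  refine Finset.sum_congr rfl fun n _ => ?_
  unfold cn_h17
  push_cast
  rfl

private lemma geom_h17 : ∑ n ∈ Finset.range 31, ζ ^ n = 0 := hζ.geom_sum_eq_zero (by norm_num)

private lemma chk_h17 : ∀ k ∈ ([3, 5] : List ℕ), ∀ w < k, ∀ n < 31,
    cn_h17 k w n - ∑ d ∈ Finset.range k, pT k w d * cl_h17 k d n =
      cn_h17 k w 0 - ∑ d ∈ Finset.range k, pT k w d * cl_h17 k d 0 := by
  decide +kernel

private lemma base_h17 {k : ℕ} (hk : k = 3 ∨ k = 5) {w : ℕ} (hw : w < k) :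
    per k 0 * per k w = ∑ d ∈ Finset.range k, (pT k w d : K) * per k d := by
  have hk' : k ∈ ([3, 5] : List ℕ) := by
    rcases hk with rfl | rfl <;> simp
  have h1 := chk_h17 k hk' w hw
  obtain ⟨C, hC⟩ : ∃ C : ℤ, C = cn_h17 k w 0 - ∑ d ∈ Finset.range k, pT k w d * cl_h17 k d 0 := ⟨_, rfl⟩
  rw [← sub_eq_zero]
  have h2 : ∑ d ∈ Finset.range k, (pT k w d : K) * per k d =
      ∑ n ∈ Finset.range 31, ((∑ d ∈ Finset.range k, pT k w d * cl_h17 k d n : ℤ) : K) * ζ ^ n := by
    rw [Finset.sum_congr rfl fun d _ => by rw [per_cl_h17 k d, Finset.mul_sum]]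
    rw [Finset.sum_comm]
    refine Finset.sum_congr rfl fun n _ => ?_
    push_cast
    rw [Finset.sum_mul]
    refine Finset.sum_congr rfl fun d _ => ?_
    ring
  rw [h2, per_cn_h17, ← Finset.sum_sub_distrib]
  have h3 : ∀ n ∈ Finset.range 31, (cn_h17 k w n : K) * ζ ^ n -
      ((∑ d ∈ Finset.range k, pT k w d * cl_h17 k d n : ℤ) : K) * ζ ^ n = (C : K) * ζ ^ n := by
    intro n hn
    rw [← sub_mul, ← Int.cast_sub, h1 n (Finset.mem_range.1 hn), ← hC]
  rw [Finset.sum_congr rfl h3, ← Finset.mul_sum, geom_h17, mul_zero]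

private lemma chs_h17 : ∀ k ∈ ([3, 5] : List ℕ), ∀ n < 31,
    ∑ d ∈ Finset.range k, cl_h17 k d n = if n = 0 then 0 else 1 := by
  decide +kernel

theorem per_sum {k : ℕ} (hk : k = 3 ∨ k = 5) : ∑ c ∈ Finset.range k, per k c = -1 := by
  have hk' : k ∈ ([3, 5] : List ℕ) := by
    rcases hk with rfl | rfl <;> simp
  have h1 : ∑ c ∈ Finset.range k, per k c =
      ∑ n ∈ Finset.range 31, ((∑ d ∈ Finset.range k, cl_h17 k d n : ℤ) : K) * ζ ^ n := by
    rw [Finset.sum_congr rfl fun d _ => per_cl_h17 k d]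
    rw [Finset.sum_comm]
    refine Finset.sum_congr rfl fun n _ => ?_
    push_cast
    rw [Finset.sum_mul]
  have h2 : ∀ n ∈ Finset.range 31, ((∑ d ∈ Finset.range k, cl_h17 k d n : ℤ) : K) * ζ ^ n =
      ζ ^ n - (if n = 0 then 1 else 0) := by
    intro n hn
    rw [chs_h17 k hk' n (Finset.mem_range.1 hn)]
    by_cases h : n = 0
    · rw [if_pos h, if_pos h, h]
      simp
    · rw [if_neg h, if_neg h]
      simp
  rw [h1, Finset.sum_congr rfl h2, Finset.sum_sub_distrib, geom_h17]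
  simp

private lemma shift_h17 {k : ℕ} (hk : k = 3 ∨ k = 5) (u : ℕ) {w : ℕ} (hw : w < k) :
    per k u * per k (w + u) = ∑ d ∈ Finset.range k, (pT k w d : K) * per k (d + u) := by
  induction u with
  | zero => exact base_h17 hk hw
  | succ u ih =>
    have h := congrArg σ ih
    rw [map_mul, per_sigma, per_sigma, map_sum] at h
    rw [← add_assoc, h]
    refine Finset.sum_congr rfl fun d _ => ?_
    rw [map_mul, per_sigma, map_intCast]
    rfl

theorem per_mul {k : ℕ} (hk : k = 3 ∨ k = 5) (u v : ℕ) :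
    per k u * per k v = ∑ d ∈ Finset.range k, (pc k u v d : K) * per k d := by
  have hk0 : 0 < k := by omega
  obtain ⟨s, hs⟩ : ∃ s : ℕ, s = k - u % k := ⟨_, rfl⟩
  have hu : u % k < k := Nat.mod_lt _ hk0
  have hsu : ∀ x : ℕ, ((x + s) % k + u) % k = x % k := by
    intro x
    rw [hs, Nat.mod_add_mod]
    have h2 : x + (k - u % k) + u = x + k * (1 + u / k) := by
      have h3 := Nat.div_add_mod u k
      have h4 : k * (1 + u / k) = k + k * (u / k) := by ring
      omega
    rw [h2, Nat.add_mul_mod_self_left]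
  have hw : (v + s) % k < k := Nat.mod_lt _ hk0
  have h1 := shift_h17 hk u hw
  have h2 : per k ((v + s) % k + u) = per k v := by
    rw [← per_mod hk ((v + s) % k + u), hsu, per_mod hk]
  rw [h2] at h1
  rw [h1]
  unfold pc
  rw [← hs]
  symm
  refine Finset.sum_nbij' (fun d => (d + s) % k) (fun d => (d + u) % k) ?_ ?_ ?_ ?_ ?_
  · intro d _
    exact Finset.mem_range.2 (Nat.mod_lt _ hk0)
  · intro d _
    exact Finset.mem_range.2 (Nat.mod_lt _ hk0)
  · intro d hd
    rw [hsu, Nat.mod_eq_of_lt (Finset.mem_range.1 hd)]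
  · intro d hd
    have h3 := hsu d
    rw [Nat.mod_add_mod] at h3 ⊢
    rw [show d + u + s = d + s + u by ring, h3, Nat.mod_eq_of_lt (Finset.mem_range.1 hd)]
  · intro d hd
    have h4 : per k ((d + s) % k + u) = per k d := by
      rw [← per_mod hk ((d + s) % k + u), hsu, per_mod hk]
    change _ = (pT k ((v + s) % k) ((d + s) % k) : K) * per k ((d + s) % k + u)
    rw [h4]

end Pool.Agent.Helper73.E8.Ez
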