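import Pool.Agent.Helper58.E8Z.Base
import Pool.Agent.Helper2.E8A.KpC
import Pool.Agent.Helper2.E8A.Sig

/-!
# Block E8Z-PERB: integers of the fixed field of `σ ^ k`

`kpc_li`, `kpc_repr` (Pool/Agent/Helper2/E8A/KpC.lean): `1, ζ, ..., ζ ^ 29` are independent over `ℤ`; every integer is a `ℤ`-combination of `ζ, ..., ζ ^ 30`.
Reindex: every integer is `∑ i < 30, b i * ζ ^ (3 ^ i)` with unique `b` (3 is a primitive root modulo 31, `ζ ^ 31 = 1`), `σ` shifts `b`; so `σ ^ k x = x` gives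
`b (i + k) = b i` (indices modulo 30, `k ∣ 30`) and `x = ∑ c < k, b c * per k c`.
-/

set_option autoImplicit false

namespace Pool.Agent.Helper73.E8.Ez

open Pool.Agent.Helper2.E8A (K ζ σ hζ kpc_li kpc_repr kpc_z31 kpc_z0 σ_pow_ζ)

/-- the exponent -/
def e3_33 (i : ℕ) : ℕ := 3 ^ i % 31 - 1

/-- discrete logarithm of `j + 1` -/
def dl3_33 (j : ℕ) : ℕ := ([0, 24, 1, 18, 20, 25, 28, 12, 2, 14, 23, 19, 11, 22, 21, 6, 7, 26, 4, 8, 29,
  17, 27, 13, 10, 5, 3, 16, 9, 15] : List ℕ).getD j 0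

theorem e3_fact_33 : ∀ i < 30, e3_33 i < 30 ∧ dl3_33 (e3_33 i) = i ∧ e3_33 i + 1 = 3 ^ i % 31 := by decide

theorem dl3_fact_33 : ∀ j < 30, dl3_33 j < 30 ∧ e3_33 (dl3_33 j) = j := by decide

theorem z3_mod_33 (i : ℕ) : ζ ^ (3 ^ i) = ζ ^ (3 ^ i % 31) := pow_eq_pow_mod _ kpc_z31

theorem sum_e3_33 (b : ℕ → ℤ) : ∑ i ∈ Finset.range 30, (b i : K) * ζ ^ (3 ^ i) =
    ∑ j ∈ Finset.range 30, (b (dl3_33 j) : K) * ζ ^ (j + 1) := by
  refine Finset.sum_nbij' e3_33 dl3_33 ?_ ?_ ?_ ?_ ?_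
  · intro i hi
    exact Finset.mem_range.2 (e3_fact_33 i (Finset.mem_range.1 hi)).1
  · intro j hj
    exact Finset.mem_range.2 (dl3_fact_33 j (Finset.mem_range.1 hj)).1
  · intro i hi
    exact (e3_fact_33 i (Finset.mem_range.1 hi)).2.1
  · intro j hj
    exact (dl3_fact_33 j (Finset.mem_range.1 hj)).2
  · intro i hi
    obtain ⟨_, h2, h3⟩ := e3_fact_33 i (Finset.mem_range.1 hi)
    rw [h2, h3, ← z3_mod_33]

theorem li3_33 (b : ℕ → ℤ) (h : ∑ i ∈ Finset.range 30, (b i : K) * ζ ^ (3 ^ i) = 0) :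
    ∀ i < 30, b i = 0 := by
  rw [sum_e3_33] at h
  have h1 : ∑ j ∈ Finset.range 30, (b (dl3_33 j) : K) * ζ ^ j = 0 := by
    have h2 : ζ * ∑ j ∈ Finset.range 30, (b (dl3_33 j) : K) * ζ ^ j = 0 := by
      rw [Finset.mul_sum, ← h]
      refine Finset.sum_congr rfl fun j _ => ?_
      rw [pow_succ]
      ring
    rcases mul_eq_zero.1 h2 with h3 | h3
    · exact absurd h3 kpc_z0
    · exact h3
  have h2 := kpc_li (fun j => b (dl3_33 j)) h1
  intro i hi
  obtain ⟨h3, h4, _⟩ := e3_fact_33 i hi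
  have h5 := h2 (e3_33 i) h3
  simp only [h4] at h5
  exact h5

theorem per_sum_33 {k : ℕ} (hk : k = 3 ∨ k = 5) (a : ℕ → ℤ) :
    ∑ c ∈ Finset.range k, (a c : K) * per k c =
      ∑ m ∈ Finset.range 30, (a (m % k) : K) * ζ ^ (3 ^ m) := by
  have hk0 : 0 < k := by omega
  have hk1 : k * (30 / k) = 30 := by rcases hk with rfl | rfl <;> rfl
  simp only [per, Finset.mul_sum]
  rw [← Finset.sum_product']
  refine Finset.sum_nbij' (fun z => z.1 + k * z.2) (fun m => (m % k, m / k)) ?_ ?_ ?_ ?_ ?_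
  · rintro ⟨c, i⟩ h
    rw [Finset.mem_product, Finset.mem_range, Finset.mem_range] at h
    rw [Finset.mem_range]
    have h1 : i + 1 ≤ 30 / k := h.2
    have h2 := Nat.mul_le_mul_left k h1
    have h3 := h.1
    simp only at h3 ⊢
    rw [Nat.mul_add] at h2
    omega
  · intro m hm
    rw [Finset.mem_range] at hm
    rw [Finset.mem_product, Finset.mem_range, Finset.mem_range]
    refine ⟨Nat.mod_lt _ hk0, ?_⟩
    change m / k < 30 / k
    rw [Nat.div_lt_iff_lt_mul hk0, mul_comm, hk1]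
    exact hm
  · rintro ⟨c, i⟩ h
    rw [Finset.mem_product, Finset.mem_range, Finset.mem_range] at h
    have h1 : (c + k * i) % k = c := by
      rw [Nat.add_mul_mod_self_left, Nat.mod_eq_of_lt h.1]
    have h2 : (c + k * i) / k = i := by
      rw [Nat.add_mul_div_left _ _ hk0, Nat.div_eq_of_lt h.1, zero_add]
    simp only [h1, h2]
  · intro m _
    exact Nat.mod_add_div m k
  · rintro ⟨c, i⟩ h
    rw [Finset.mem_product, Finset.mem_range, Finset.mem_range] at h
    have h1 : (c + k * i) % k = c := by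
      rw [Nat.add_mul_mod_self_left, Nat.mod_eq_of_lt h.1]
    simp only [h1]

theorem per_li {k : ℕ} (hk : k = 3 ∨ k = 5) (a : ℕ → ℤ) (h : ∑ c ∈ Finset.range k, (a c : K) * per k c = 0) :
    ∀ c < k, a c = 0 := by
  rw [per_sum_33 hk] at h
  intro c hc
  have h1 := li3_33 (fun m => a (m % k)) h c (by omega)
  simp only [Nat.mod_eq_of_lt hc] at h1
  exact h1

theorem z3_mod30_33 (i : ℕ) : ζ ^ (3 ^ i) = ζ ^ (3 ^ (i % 30)) := by
  have h : 3 ^ i % 31 = 3 ^ (i % 30) % 31 := by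
    conv_lhs => rw [← Nat.mod_add_div i 30]
    rw [pow_add, pow_mul, Nat.mul_mod, Nat.pow_mod (3 ^ 30)]
    norm_num
  rw [z3_mod_33 i, h, ← z3_mod_33]

theorem per_span {k : ℕ} (hk : k = 3 ∨ k = 5) {x : K} (hx : IsIntegral ℤ x) (h : (σ ^ k) x = x) :
    ∃ a : ℕ → ℤ, x = ∑ c ∈ Finset.range k, (a c : K) * per k c := by
  obtain ⟨b, hb⟩ := kpc_repr x hx
  set B : ℕ → ℤ := fun m => b (e3_33 m) with hB
  have hxB : x = ∑ m ∈ Finset.range 30, (B m : K) * ζ ^ (3 ^ m) := by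
    rw [sum_e3_33, hb]
    refine Finset.sum_congr rfl fun j hj => ?_
    rw [hB]
    simp only
    rw [(dl3_fact_33 j (Finset.mem_range.1 hj)).2]
  have h1 : (σ ^ k) x = ∑ m ∈ Finset.range 30, (B ((m + 30 - k) % 30) : K) * ζ ^ (3 ^ m) := by
    rw [hxB, map_sum]
    refine Finset.sum_nbij' (fun m => (m + k) % 30) (fun m => (m + 30 - k) % 30) ?_ ?_ ?_ ?_ ?_
    · intro m _
      exact Finset.mem_range.2 (Nat.mod_lt _ (by norm_num))
    · intro m _
      exact Finset.mem_range.2 (Nat.mod_lt _ (by norm_num))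
    · intro m hm
      have := Finset.mem_range.1 hm
      omega
    · intro m hm
      have := Finset.mem_range.1 hm
      omega
    · intro m hm
      have := Finset.mem_range.1 hm
      have h2 : ((m + k) % 30 + 30 - k) % 30 = m := by omega
      rw [h2, map_mul, map_pow, map_intCast, σ_pow_ζ, ← pow_mul, ← pow_add, ← z3_mod30_33, add_comm k m]
  have h2 : ∀ m < 30, B ((m + 30 - k) % 30) = B m := by
    have h3 : ∑ m ∈ Finset.range 30, ((B ((m + 30 - k) % 30) - B m : ℤ) : K) * ζ ^ (3 ^ m) = 0 := by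
      have h4 : ∑ m ∈ Finset.range 30, ((B ((m + 30 - k) % 30) - B m : ℤ) : K) * ζ ^ (3 ^ m) =
          (σ ^ k) x - x := by
        rw [h1]
        conv_rhs => rw [hxB]
        rw [← Finset.sum_sub_distrib]
        refine Finset.sum_congr rfl fun m _ => ?_
        push_cast
        ring
      rw [h4, h, sub_self]
    intro m hm
    have := li3_33 (fun m => B ((m + 30 - k) % 30) - B m) h3 m hm
    omega
  have h3 : ∀ m < 30, B m = B (m % k) := by
    intro m
    induction m using Nat.strong_induction_on with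
    | _ m ih =>
      intro hm
      by_cases hmk : m < k
      · rw [Nat.mod_eq_of_lt hmk]
      · have h4 := h2 m hm
        have h5 : (m + 30 - k) % 30 = m - k := by omega
        rw [h5] at h4
        rw [← h4, ih (m - k) (by omega) (by omega)]
        congr 1
        exact (Nat.mod_eq_sub_mod (by omega)).symm
  refine ⟨B, ?_⟩
  rw [per_sum_33 hk, hxB]
  refine Finset.sum_congr rfl fun m hm => ?_
  rw [← h3 m (Finset.mem_range.1 hm)]

end Pool.Agent.Helper73.E8.Ez
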