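import Mathlib

/-!
# Project E8Z (MP_90bd9d_al), endgame (E4): characters. Definitions.

`F` is a finite group with a rational matrix representation `rho` which is irreducible over `R` and has an invariant
positive definite form `S`. `g` has order 31, `t` has order 30, `t` normalises `<g>` (through a generator of `(Z/31)^*`),
the space of the vectors fixed by `g` has dimension 8 and `t` satisfies `Phi_30(t) = 0` on it, and every element which
normalises `<t^5>` lies in `<t>`. The theorem of the file `Fin.lean` is that this is impossible.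
-/

set_option autoImplicit false

namespace Pool.Agent.Helper58.E8Z

open Matrix

/-- The data of the endgame. -/
structure CD (n : ℕ) (F : Type) [Group F] [Fintype F] where
  /-- the representation -/
  rho : F →* Matrix (Fin n) (Fin n) ℚ
  /-- the invariant form -/
  S : Matrix (Fin n) (Fin n) ℚ
  symm : Sᵀ = S
  pos : ∀ v : Fin n → ℝ, v ≠ 0 → 0 < v ⬝ᵥ (S.map (algebraMap ℚ ℝ)).mulVec v
  inv : ∀ x, (rho x)ᵀ * S * rho x = S
  irr : ∀ U : Submodule ℝ (Fin n → ℝ),
    (∀ x, ∀ u ∈ U, ((rho x).map (algebraMap ℚ ℝ)).mulVec u ∈ U) → U = ⊥ ∨ U = ⊤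
  /-- element of order 31 -/
  g : F
  /-- element of order 30 -/
  t : F
  /-- the exponent of the action of `t` on `<g>` -/
  r : ℕ
  hg : g ^ 31 = 1
  ht : orderOf t = 30
  hr : t * g * t⁻¹ = g ^ r
  hr' : ∀ j : ℕ, r ^ j % 31 = 1 → 30 ∣ j
  fix_dim : Module.finrank ℚ (LinearMap.ker ((rho g).mulVecLin - LinearMap.id)) = 8
  phi : ∀ v : Fin n → ℚ, (rho g).mulVec v = v →
    (rho (t ^ 8)).mulVec v + (rho (t ^ 7)).mulVec v - (rho (t ^ 5)).mulVec v - (rho (t ^ 4)).mulVec v
      - (rho (t ^ 3)).mulVec v + (rho t).mulVec v + v = 0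
  norm : ∀ y : F, y * t ^ 5 * y⁻¹ ∈ Subgroup.zpowers (t ^ 5) → y ∈ Subgroup.zpowers t

variable {n : ℕ} {F : Type} [Group F] [Fintype F]

namespace CD

variable (C : CD n F)

/-- The representation over `R`. -/
noncomputable def rR : F →* Matrix (Fin n) (Fin n) ℝ :=
  ((algebraMap ℚ ℝ).mapMatrix : Matrix (Fin n) (Fin n) ℚ →+* Matrix (Fin n) (Fin n) ℝ).toMonoidHom.comp C.rho

/-- The representation over `C`. -/
noncomputable def rC : F →* Matrix (Fin n) (Fin n) ℂ :=
  ((algebraMap ℚ ℂ).mapMatrix : Matrix (Fin n) (Fin n) ℚ →+* Matrix (Fin n) (Fin n) ℂ).toMonoidHom.comp C.rho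

theorem rR_apply (x : F) : C.rR x = (C.rho x).map (algebraMap ℚ ℝ) := rfl

theorem rC_apply (x : F) : C.rC x = (C.rho x).map (algebraMap ℚ ℂ) := rfl

theorem rC_eq (x : F) : C.rC x = (C.rR x).map (algebraMap ℝ ℂ) := by
  rw [rR_apply, rC_apply]
  ext i j
  simp

/-- The real matrices which commute with the representation. -/
def Com (X : Matrix (Fin n) (Fin n) ℝ) : Prop := ∀ x, C.rR x * X = X * C.rR x

end CD

/-- The primitive root of unity of order 30. -/
noncomputable def ze : ℂ := Complex.exp (2 * Real.pi * Complex.I / (30 : ℕ))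

theorem ze_prim : IsPrimitiveRoot ze 30 := Complex.isPrimitiveRoot_exp 30 (by norm_num)

/-- The units modulo 30. -/
def un : Finset ℕ := {1, 7, 11, 13, 17, 19, 23, 29}

/-- The exponents used for the count of classes. -/
def jj : Finset ℕ := {5, 25, 1, 7, 11, 13, 17, 19, 23, 29}

/-- Common eigenvectors of `g` (eigenvalue 1) and `t` (eigenvalue `ze ^ k`, `k` a unit modulo 30). -/
structure Eig (C : CD n F) (u : ℕ → Fin n → ℂ) : Prop where
  ne : ∀ k ∈ un, u k ≠ 0
  g : ∀ k ∈ un, (C.rC C.g).mulVec (u k) = u k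
  t : ∀ k ∈ un, (C.rC C.t).mulVec (u k) = ze ^ k • u k
  uniq : ∀ k ∈ un, ∀ v, (C.rC C.g).mulVec v = v → (C.rC C.t).mulVec v = ze ^ k • v → ∃ c : ℂ, v = c • u k
  span : ∀ v, (C.rC C.g).mulVec v = v → ∃ c : ℕ → ℂ, v = ∑ k ∈ un, c k • u k
  rat : ∀ X : Matrix (Fin n) (Fin n) ℚ, (∀ x, C.rho x * X = X * C.rho x) →
    ∃ p : Polynomial ℚ, ∀ k ∈ un, (X.map (algebraMap ℚ ℂ)).mulVec (u k) = (Polynomial.aeval (ze ^ k) p) • u k

end Pool.Agent.Helper58.E8Z
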