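import Pool.Agent.Helper58.E8Z.Core

/-!
# Block E8Z-CENT: the centraliser of `g` is `⟨g⟩`

Proof. Let `T = f ∘ (1 ⊗ x) ∘ f⁻¹ : Chev K → Chev K` (`cG K (toLie x)`, see `Helper73/E8/Ct.lean`, `Grp.lean`). It is `K`-linear, bijective, preserves brackets,
and commutes with `gz ζ` (because `gz ζ (f z) = f (cG K g z)` for all `z : K ⊗ L` by `hg` and linearity, and `x g = g x`) and with
`sV η` (`C.hσ`, `cT_cG`).
(1) `gz ζ y = y` iff `y.x = 0` (`ζ^(ht a) ≠ 1`, because `ht a ≠ 0` modulo 31: `|ht a| ≤ 29`, `ht_root_ne_zero`; see `Roots.lean`). So `T` preserves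
`{y : y.x = 0}` and `exists_mono` (with `τ = RingEquiv.refl K`) gives `T = mono 1 w k`, `IsCoc w k`. Since `T` commutes with `gz ζ`, applied to `e a`:
`ζ^(ht (w a)) = ζ^(ht a)`; so `ht (w v) = ht v` modulo 31 for all `v` (both sides are additive, the roots generate), `w = id` (`dyn`).
(2) `hom_ext`: `k a = u a` for a homomorphism `u : Multiplicative Lat →* Kˣ` (same argument as at the end of `lin_of` in `SemiOf.lean`). `T` commutes with `sV η`;
on `e a`: `u (W a) = σ (u a)` (the signs cancel), so `u (W v) = σ (u v)` for all `v` in `Lat`.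
(3) `AutL L` is finite (`AutL_finite`), `x^N = 1` for some `N > 0`, so `u^N = 1`: all `u v` are roots of unity in `K`, hence `(u v)^62 = 1`
(`IsPrimitiveRoot.dvd_of_isCyclotomicExtension` or the similar Mathlib lemma on roots of unity in cyclotomic fields: the order divides `2 * 31`).
`s v := (u v)^31 = ±1` satisfies `s (W v) = σ (s v) = s v`; applying the homomorphism `s` to `W_phi v` gives `s v = s v ^ (1+1-1-1-1+1+1) = 1`.
So `(u v)^31 = 1`, `u v = ζ^(r v)` for a homomorphism `r : Lat →+ ZMod 31` and `r (W v) = 3 r v`. (`exists_char` in `Gom.lean` is private, copy what you need.)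
(4) `r = c • ht` modulo 31 with `c = r (al 0)`: the vectors `W^[k] (al 0)`, `k < 8`, generate `Lat` (an explicit integer matrix, `decide`; or: it is enough that the
determinant of the 8 x 8 matrix of `W^[k] (al 0)` is prime to 31), and `r (W^[k] (al 0)) = 3^k r (al 0)`, `ht (W^[k] (al 0)) = 3^k` (`ht_W`).
So `u a = ζ^(c ht a)` and `T = (gz ζ)^c`; hence `f (1 ⊗ x y) = f (1 ⊗ g^c y)` for all `y` and `x = g^c` (`C.co_injective`).
-/

set_option autoImplicit false

open scoped TensorProduct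

namespace Pool.Agent.Helper73.E8.Ez

open Chev
open Pool.Agent.Helper2.E8A (K ζ σ)

variable {L : Type} [LieRing L] [Module.Free ℤ L] [Module.Finite ℤ L] {B : LinearMap.BilinForm ℤ L}

private theorem σ_ζc : σ ζ = ζ ^ 3 := by
  have h := IsCyclotomicExtension.Rat.galEquivZMod_apply_of_pow_eq 31 K σ Helper2.E8A.hζ.pow_eq_one
  have h2 : IsCyclotomicExtension.Rat.galEquivZMod 31 K σ
      = ZMod.unitOfCoprime 3 (by norm_num) := MulEquiv.apply_symm_apply _ _
  rw [h, h2]
  rfl

/-- The character of `Z/31` with value `z` at `1`. -/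
private theorem exists_charc {F : Type} [Field F] {z : F} (hz : IsPrimitiveRoot z 31) :
    ∃ (zu : Fˣ) (E : ZMod 31 →+ Additive Fˣ), (zu : F) = z ∧ Function.Injective E ∧
      (∀ m : ℤ, E (m : ZMod 31) = Additive.ofMul (zu ^ m)) ∧
      ∀ u : Fˣ, u ^ 31 = 1 → ∃ n : ZMod 31, E n = Additive.ofMul u := by
  obtain ⟨zu, hzu⟩ : ∃ zu : Fˣ, (zu : F) = z := ⟨hz.isUnit (by norm_num) |>.unit, rfl⟩
  have hzu31 : IsPrimitiveRoot zu 31 := by
    rw [← IsPrimitiveRoot.coe_units_iff, hzu]
    exact hz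
  let f : {f : ℤ →+ Additive Fˣ // f (31 : ℕ) = 0} := ⟨zmultiplesHom (Additive Fˣ) (Additive.ofMul zu), by
    rw [zmultiplesHom_apply, ← ofMul_zpow, zpow_natCast, hzu31.pow_eq_one, ofMul_one]⟩
  have hE : ∀ m : ℤ, ZMod.lift 31 f (m : ZMod 31) = Additive.ofMul (zu ^ m) := by
    intro m
    rw [ZMod.lift_coe]
    change zmultiplesHom (Additive Fˣ) (Additive.ofMul zu) m = _
    rw [zmultiplesHom_apply, ← ofMul_zpow]
  refine ⟨zu, ZMod.lift 31 f, hzu, ?_, hE, ?_⟩
  · rw [injective_iff_map_eq_zero]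
    intro n hn
    obtain ⟨m, rfl⟩ := ZMod.intCast_surjective n
    rw [hE] at hn
    have h1 : zu ^ m = 1 := Additive.ofMul.injective hn
    rw [hzu31.zpow_eq_one_iff_dvd] at h1
    exact (ZMod.intCast_zmod_eq_zero_iff_dvd m 31).2 h1
  · intro u hu
    have h1 : (u : F) ^ 31 = 1 := by
      rw [← Units.val_pow_eq_pow_val, hu, Units.val_one]
    obtain ⟨i, _, hi⟩ := hz.eq_pow_of_pow_eq_one h1
    refine ⟨((i : ℤ) : ZMod 31), ?_⟩
    rw [hE]
    congr 1
    apply Units.ext
    rw [zpow_natCast, Units.val_pow_eq_pow_val, hzu, hi]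

/-- The simple roots in the basis of the `W^[k] (al 0)`. -/
private def Mm : Fin 8 → Fin 8 → ℤ :=
  ![![1, 0, 0, 0, 0, 0, 0, 0], ![0, -1, 0, 1, 1, -1, -1, 0], ![0, 0, 0, -1, -1, 0, 1, 0],
    ![0, 1, 0, 0, -1, 0, 0, 1], ![0, 0, 0, -1, 1, 1, 0, -1], ![0, 0, 0, 1, 0, -1, 0, 0],
    ![-1, -1, 1, 1, 0, 0, 0, 0], ![1, 0, -2, -1, 1, 1, 0, 0]]

private theorem al_eq (i : Fin 8) : al i = ∑ k : Fin 8, Mm i k • W^[(k : ℕ)] (al 0) := by
  revert i
  decide

/-- A homomorphism which vanishes on the `W^[k] (al 0)` is zero. -/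
private theorem hom_zero {M : Type*} [AddCommGroup M] (d : Lat →+ M) (h : ∀ k : ℕ, d (W^[k] (al 0)) = 0) (v : Lat) : d v = 0 := by
  have h1 : d = 0 := by
    refine lat_hom_ext _ _ fun i => ?_
    rw [al_eq, map_sum]
    simp only [map_zsmul, h, smul_zero, Finset.sum_const_zero, AddMonoidHom.zero_apply]
  rw [h1, AddMonoidHom.zero_apply]

private theorem gz_smul (r : K) (y : Chev K) : gz ζ (r • y) = r • gz ζ y := by
  ext i
  · rfl
  · simp only [gz, smul_x, Pi.smul_apply, smul_eq_mul]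
    ring

private theorem gz_add (y z : Chev K) : gz ζ (y + z) = gz ζ y + gz ζ z := by
  ext i
  · rfl
  · simp only [gz, add_x, Pi.add_apply]
    ring

private theorem gz_e (a : Root) : gz ζ (e a : Chev K) = ζ ^ (ht a.1) • e a := by
  ext i
  · simp [gz]
  · by_cases hi : i = a
    · subst hi
      simp [gz]
    · simp [gz, Pi.single_eq_of_ne hi]

private theorem ζ_ne (a : Root) : ζ ^ (ht a.1) ≠ 1 := by
  intro h
  have h1 := (Helper2.E8A.hζ.zpow_eq_one_iff_dvd _).1 h
  have h2 := ht_root_ne_zero a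
  have h3 := abs_ht_root_le a
  rw [abs_le] at h3
  obtain ⟨m, hm⟩ := h1
  push_cast at hm
  omega

private theorem hGg (C : Core L B) (z : K ⊗[ℤ] L) : C.f (cG K (toLie C.g : L →ₗ⁅ℤ⁆ L) z) = gz ζ (C.f z) := by
  induction z using TensorProduct.induction_on with
  | zero =>
    rw [_root_.map_zero, _root_.map_zero]
    have h := gz_smul 0 0
    rw [zero_smul, zero_smul] at h
    exact h.symm
  | tmul a y =>
    rw [cG_tmul]
    have h1 : (a ⊗ₜ[ℤ] ((toLie C.g : L →ₗ⁅ℤ⁆ L) y) : K ⊗[ℤ] L) = a • ((1 : K) ⊗ₜ[ℤ] (C.g.1 y)) := by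
      rw [TensorProduct.smul_tmul', smul_eq_mul, mul_one]
      rfl
    have h2 : (a ⊗ₜ[ℤ] y : K ⊗[ℤ] L) = a • ((1 : K) ⊗ₜ[ℤ] y) := by
      rw [TensorProduct.smul_tmul', smul_eq_mul, mul_one]
    rw [h1, h2, _root_.map_smul, _root_.map_smul, C.hg, gz_smul]
  | add y z hy hz => rw [_root_.map_add, _root_.map_add, hy, hz, _root_.map_add, gz_add]

private theorem cG_iterc {F : Type} [Field F] (g : L ≃ₗ⁅ℤ⁆ L) (n : ℕ) (hg : ∀ x, g^[n] x = x) (z : F ⊗[ℤ] L) :
    (cG F (g : L →ₗ⁅ℤ⁆ L))^[n] z = z := by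
  have h1 : ∀ (m : ℕ) (a : F) (x : L), (cG F (g : L →ₗ⁅ℤ⁆ L))^[m] (a ⊗ₜ x) = a ⊗ₜ (g^[m] x) := by
    intro m
    induction m with
    | zero => intro a x; rfl
    | succ m ih =>
      intro a x
      rw [Function.iterate_succ_apply', ih, cG_tmul, Function.iterate_succ_apply']
      rfl
  induction z using TensorProduct.induction_on with
  | zero => rw [iterate_map_zero]
  | tmul a x => rw [h1, hg]
  | add y z hy hz => rw [iterate_map_add, hy, hz]

private theorem lie_gen {F : Type} [Field F] (f : F ⊗[ℤ] L ≃ₗ⁅F⁆ Chev F) (g : L ≃ₗ⁅ℤ⁆ L) (y z : Chev F) :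
    f (cG F (g : L →ₗ⁅ℤ⁆ L) (f.symm ⁅y, z⁆)) =
      ⁅f (cG F (g : L →ₗ⁅ℤ⁆ L) (f.symm y)), f (cG F (g : L →ₗ⁅ℤ⁆ L) (f.symm z))⁆ := by
  rw [LieEquiv.map_lie, LieHom.map_lie, LieEquiv.map_lie]

/-- Step (1), (2): the map is monomial with trivial `w`, and the coefficients come from a homomorphism. -/
private theorem step12 (C : Core L B) (x : AutL L) (hx : x * C.g = C.g * x) :
    ∃ u : Multiplicative Lat →* Kˣ, ∀ z, C.f (cG K (toLie x : L →ₗ⁅ℤ⁆ L) z) =
      mono (RingHom.id K) (AddEquiv.refl Lat) isIsom_refl (fun a => (u (Multiplicative.ofAdd a.1) : K)) (C.f z) := by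
  have hadd : ∀ y z, C.f (cG K (toLie x : L →ₗ⁅ℤ⁆ L) (C.f.symm (y + z))) =
      C.f (cG K (toLie x : L →ₗ⁅ℤ⁆ L) (C.f.symm y)) + C.f (cG K (toLie x : L →ₗ⁅ℤ⁆ L) (C.f.symm z)) := by
    intro y z
    rw [_root_.map_add, _root_.map_add, _root_.map_add]
  have hsmul : ∀ (r : K) y, C.f (cG K (toLie x : L →ₗ⁅ℤ⁆ L) (C.f.symm (r • y))) =
      r • C.f (cG K (toLie x : L →ₗ⁅ℤ⁆ L) (C.f.symm y)) := by
    intro r y
    rw [_root_.map_smul, cG_smul, _root_.map_smul]
  have hcomp : (toLie x : L →ₗ⁅ℤ⁆ L).comp (toLie C.g : L →ₗ⁅ℤ⁆ L) =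
      (toLie C.g : L →ₗ⁅ℤ⁆ L).comp (toLie x : L →ₗ⁅ℤ⁆ L) := by
    ext y
    have h1 := congrArg (fun q : AutL L => q.1 y) hx
    exact h1
  have hgz : ∀ y, C.f (cG K (toLie x : L →ₗ⁅ℤ⁆ L) (C.f.symm (gz ζ y))) =
      gz ζ (C.f (cG K (toLie x : L →ₗ⁅ℤ⁆ L) (C.f.symm y))) := by
    intro y
    have h1 : gz ζ y = C.f (cG K (toLie C.g : L →ₗ⁅ℤ⁆ L) (C.f.symm y)) := by
      rw [hGg]
      congr 1
      exact (C.f.apply_symm_apply y).symm
    rw [h1, ← hGg, cG_cG, ← hcomp, ← cG_cG]
    congr 2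
    exact C.f.symm_apply_apply _
  obtain ⟨w, hw, k, hk, hT⟩ := exists_mono (RingEquiv.refl K)
    (fun y => C.f (cG K (toLie x : L →ₗ⁅ℤ⁆ L) (C.f.symm y))) hadd hsmul
    (fun y z => lie_gen C.f (toLie x) y z)
    (C.f.bijective.comp ((cG_bijective (toLie x)).comp C.f.symm.bijective))
    (fun h => by
      have h1 := hgz (c h)
      have h2 : gz ζ (c h : Chev K) = c h := by
        ext i
        · rfl
        · simp [gz]
      rw [h2] at h1
      funext a
      have h3 := congrFun (congrArg Chev.x h1) a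
      simp only [gz] at h3
      have h4 : (1 - ζ ^ (ht a.1)) * (C.f (cG K (toLie x : L →ₗ⁅ℤ⁆ L) (C.f.symm (c h)))).x a = 0 := by
        rw [sub_mul, one_mul, ← h3, sub_self]
      rcases mul_eq_zero.1 h4 with h5 | h5
      · exact absurd (sub_eq_zero.1 h5).symm (ζ_ne a)
      · exact h5)
  have hne : ∀ a : Root, k a ≠ 0 := fun a => left_ne_zero_of_mul_eq_one (hk.neg a)
  have hw1 : ∀ v, w v = v := by
    refine dyn w hw ?_
    have hroot : ∀ a : Root, ((ht (w a.1) : ℤ) : ZMod 31) = (ht a.1 : ℤ) := by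
      intro a
      have h1 := hgz (e a)
      have h2 : C.f (cG K (toLie x : L →ₗ⁅ℤ⁆ L) (C.f.symm (e a))) = k a • e (onRoot w hw a) :=
        (hT (e a)).trans (mono_e _ _ _ _ _)
      rw [gz_e, hsmul, h2, gz_smul, gz_e, onRoot_val] at h1
      have h3 := congrFun (congrArg Chev.x h1) (onRoot w hw a)
      simp only [e_x, smul_x, Pi.smul_apply, Pi.single_eq_same, smul_eq_mul, mul_one] at h3
      rw [mul_comm] at h3
      have h4 := mul_left_cancel₀ (hne a) h3
      have h5 : ζ ^ (ht (w a.1) - ht a.1) = 1 := by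
        rw [zpow_sub₀ (Helper2.E8A.hζ.ne_zero (by norm_num)), ← h4]
        exact div_self (zpow_ne_zero _ (Helper2.E8A.hζ.ne_zero (by norm_num)))
      have h6 := (Helper2.E8A.hζ.zpow_eq_one_iff_dvd _).1 h5
      have h7 := (ZMod.intCast_zmod_eq_zero_iff_dvd _ 31).2 h6
      push_cast at h7
      exact sub_eq_zero.1 h7
    let htH : Lat →+ ZMod 31 :=
      { toFun := fun v => ((ht v : ℤ) : ZMod 31)
        map_zero' := by simp [ht]
        map_add' := fun v v' => by rw [ht_add, Int.cast_add] }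
    have h1 : htH.comp (w : Lat →+ Lat) = htH := lat_hom_ext _ _ fun i => hroot (sr i)
    intro v
    exact DFunLike.congr_fun h1 v
  have hw2 : w = AddEquiv.refl Lat := by
    ext1 v
    exact hw1 v
  subst hw2
  obtain ⟨u, hu⟩ := hom_ext (fun a => Units.mk0 (k a) (hne a))
    (fun a b d hd => by
      apply Units.ext
      have h1 := hk.add a b d hd
      have h2 : ((eps a.1 b.1 : ℤ) : K) ≠ 0 := by
        exact_mod_cast (eps a.1 b.1).ne_zero
      exact mul_right_cancel₀ h2 h1)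
    (fun a => by
      apply Units.ext
      rw [Units.val_inv_eq_inv_val]
      exact eq_inv_of_mul_eq_one_right (hk.neg a))
  refine ⟨u, fun z => ?_⟩
  have h1 : (fun a : Root => (u (Multiplicative.ofAdd a.1) : K)) = k := by
    funext a
    rw [← hu]
    rfl
  rw [h1]
  have h2 := hT (C.f z)
  have h3 : C.f.symm (C.f z) = z := C.f.symm_apply_apply z
  simp only [h3] at h2
  exact h2

private theorem mono_refl_hc (k : Root → K) (y : Chev K) :
    (mono (RingHom.id K) (AddEquiv.refl Lat) isIsom_refl k y).h = y.h := by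
  funext i
  change ∑ j, y.h j * (((al j) i : ℤ) : K) = y.h i
  rw [Finset.sum_eq_single i]
  · simp [al]
  · intro j _ hj
    simp [al, hj.symm]
  · intro h
    exact absurd (Finset.mem_univ _) h

private theorem mono_refl_xc (k : Root → K) (y : Chev K) (a : Root) :
    (mono (RingHom.id K) (AddEquiv.refl Lat) isIsom_refl k y).x a = k a * y.x a := rfl

private theorem char_gen {F : Type} [Field F] {z : F} (hz : IsPrimitiveRoot z 31) (τ : F →+* F) (hτ : τ z = z ^ 3)
    (u : Multiplicative Lat →* Fˣ)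
    (huW : ∀ a : Root, ((u (Multiplicative.ofAdd (W a.1)) : Fˣ) : F) = τ (u (Multiplicative.ofAdd a.1) : F))
    (hform : ∀ v : Lat, ∃ r : ℕ, ((u (Multiplicative.ofAdd v) : Fˣ) : F) = z ^ r ∨
      ((u (Multiplicative.ofAdd v) : Fˣ) : F) = -z ^ r) :
    ∃ m : ℕ, ∀ v : Lat, ((u (Multiplicative.ofAdd v) : Fˣ) : F) = (z ^ (ht v)) ^ m := by
  let U : Lat →+ Additive Fˣ := (MonoidHom.toAdditive u).comp (AddEquiv.additiveMultiplicative Lat).symm.toAddMonoidHom
  have hU : ∀ v, U v = Additive.ofMul (u (Multiplicative.ofAdd v)) := fun v => rfl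
  let S : Additive Fˣ →+ Additive Fˣ := (Units.map (τ : F →* F)).toAdditive
  have hS : ∀ y : Fˣ, S (Additive.ofMul y) = Additive.ofMul (Units.map (τ : F →* F) y) := fun y => rfl
  have hUW : ∀ v, U (W v) = S (U v) := by
    have hroot : ∀ a : Root, U (W a.1) = S (U a.1) := by
      intro a
      rw [hU, hU, hS]
      exact congrArg Additive.ofMul (Units.ext (huW a))
    have h1 : U.comp (W : Lat →+ Lat) = S.comp U := lat_hom_ext _ _ fun i => hroot (sr i)
    intro v
    exact DFunLike.congr_fun h1 v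
  have hζ31 : z ^ 31 = 1 := hz.pow_eq_one
  have h31 : ∀ v, 31 • U v = 0 := by
    have hs : ∀ v, 31 • U (W v) = 31 • U v := by
      intro v
      rw [hUW]
      obtain ⟨r, hr⟩ := hform v
      have h1 : ((u (Multiplicative.ofAdd v) : Fˣ) : F) ^ 31 = 1 ∨ ((u (Multiplicative.ofAdd v) : Fˣ) : F) ^ 31 = -1 := by
        rcases hr with hr | hr
        · left
          rw [hr, ← pow_mul, mul_comm, pow_mul, hζ31, one_pow]
        · right
          rw [hr, Odd.neg_pow (by decide), ← pow_mul, mul_comm, pow_mul, hζ31, one_pow]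
      rw [← map_nsmul, hU, ← ofMul_pow, hS]
      refine congrArg Additive.ofMul (Units.ext ?_)
      rw [Units.coe_map, Units.val_pow_eq_pow_val]
      rcases h1 with h1 | h1
      · rw [h1]; exact map_one τ
      · rw [h1]; exact (_root_.map_neg τ 1).trans (congrArg Neg.neg (map_one τ))
    have hs2 : ∀ (k : ℕ) (v : Lat), 31 • U (W^[k] v) = 31 • U v := by
      intro k
      induction k with
      | zero => intro v; rfl
      | succ k ih => intro v; rw [Function.iterate_succ_apply', hs, ih]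
    let P : Lat →+ Additive Fˣ := 31 • U
    have hP : ∀ v, P v = 31 • U v := fun v => rfl
    have hP1 : ∀ v, P (W v) = P v := hs
    have hP2 : ∀ (k : ℕ) (v : Lat), P (W^[k] v) = P v := hs2
    intro v
    have h1 := congrArg P (W_phi v)
    simp only [_root_.map_add, _root_.map_sub, _root_.map_zero] at h1
    rw [hP2 8 v, hP2 7 v, hP2 5 v, hP2 4 v, hP2 3 v, hP1] at h1
    rw [← hP v]
    rw [← h1]
    abel
  obtain ⟨zu, E, hzu, hEinj, hE, hEsurj⟩ := exists_charc hz
  have hu31 : ∀ v, u (Multiplicative.ofAdd v) ^ 31 = 1 := by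
    intro v
    have h2 := h31 v
    rw [hU, ← ofMul_pow] at h2
    exact Additive.ofMul.injective h2
  choose n hn using fun i => hEsurj _ (hu31 (al i))
  let r : Lat →+ ZMod 31 :=
    { toFun := fun x => ∑ i, (x i : ZMod 31) * n i
      map_zero' := by simp
      map_add' := fun x y => by
        simp only [Pi.add_apply, Int.cast_add, add_mul, Finset.sum_add_distrib] }
  have hral : ∀ i, r (al i) = n i := by
    intro i
    change ∑ j, ((al i) j : ZMod 31) * n j = n i
    rw [Finset.sum_eq_single i]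
    · simp [al]
    · intro j _ hj
      simp [al, hj]
    · intro h
      exact absurd (Finset.mem_univ _) h
  have hEr : ∀ x : Lat, E (r x) = U x := by
    have h1 : E.comp r = U := by
      refine lat_hom_ext _ _ fun i => ?_
      change E (r (al i)) = _
      rw [hral, hn]
      rfl
    intro x
    exact DFunLike.congr_fun h1 x
  have hrW : ∀ v, r (W v) = 3 * r v := by
    intro v
    apply hEinj
    rw [hEr, hUW]
    have h11 : (3 : ZMod 31) * r v = 3 • r v := by
      rw [nsmul_eq_mul]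
      norm_num
    rw [h11, map_nsmul, hEr]
    obtain ⟨m, hm⟩ := ZMod.intCast_surjective (r v)
    have h7 : U v = Additive.ofMul (zu ^ m) := by rw [← hEr, ← hm, hE]
    rw [h7, ← ofMul_pow, hS]
    refine congrArg Additive.ofMul (Units.ext ?_)
    rw [Units.coe_map, Units.val_zpow_eq_zpow_val, hzu, Units.val_pow_eq_pow_val, Units.val_zpow_eq_zpow_val, hzu]
    have h8 : (τ : F →* F) (z ^ m) = (τ z) ^ m := map_zpow₀ τ z m
    rw [h8, hτ, ← zpow_natCast, ← zpow_natCast, ← zpow_mul, ← zpow_mul, mul_comm]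
  have hrk : ∀ k : ℕ, r (W^[k] (al 0)) = 3 ^ k * r (al 0) := by
    intro k
    induction k with
    | zero => rw [Function.iterate_zero, id_eq, pow_zero, one_mul]
    | succ k ih => rw [Function.iterate_succ_apply', hrW, ih, pow_succ]; ring
  have hhk : ∀ k : ℕ, ((ht (W^[k] (al 0)) : ℤ) : ZMod 31) = 3 ^ k := by
    intro k
    induction k with
    | zero =>
      rw [Function.iterate_zero, id_eq, pow_zero]
      have h1 : ht (al 0) = 1 := by decide
      rw [h1, Int.cast_one]
    | succ k ih => rw [Function.iterate_succ_apply', ht_W, ih, pow_succ]; ring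
  let htH : Lat →+ ZMod 31 :=
    { toFun := fun v => ((ht v : ℤ) : ZMod 31)
      map_zero' := by simp [ht]
      map_add' := fun v v' => by rw [ht_add, Int.cast_add] }
  have hrht : ∀ v, r v = r (al 0) * ((ht v : ℤ) : ZMod 31) := by
    intro v
    have h1 := hom_zero (r - (AddMonoidHom.mulLeft (r (al 0))).comp htH) (fun k => by
      rw [AddMonoidHom.sub_apply]
      change r (W^[k] (al 0)) - r (al 0) * ((ht (W^[k] (al 0)) : ℤ) : ZMod 31) = 0
      rw [hrk, hhk]
      ring) v
    rw [AddMonoidHom.sub_apply] at h1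
    exact sub_eq_zero.1 h1
  obtain ⟨m, hm⟩ := ZMod.natCast_zmod_surjective (r (al 0))
  refine ⟨m, fun v => ?_⟩
  have h1 : U v = Additive.ofMul (zu ^ ((m : ℤ) * ht v)) := by
    rw [← hEr, hrht, ← hm, ← hE]
    push_cast
    rfl
  rw [hU] at h1
  have h2 := Additive.ofMul.injective h1
  rw [h2, Units.val_zpow_eq_zpow_val, hzu, mul_comm, zpow_mul, zpow_natCast]

theorem centralizer (C : Core L B) (x : AutL L) (hx : x * C.g = C.g * x) : x ∈ Subgroup.zpowers C.g := by
  obtain ⟨u, hu⟩ := step12 C x hx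
  set G : Chev K → Chev K := mono (RingHom.id K) (AddEquiv.refl Lat) isIsom_refl
    (fun a => (u (Multiplicative.ofAdd a.1) : K)) with hG
  have hGe : ∀ (c : K) (a : Root), G (c • e a) = (c * (u (Multiplicative.ofAdd a.1) : K)) • e a := by
    intro c a
    rw [hG, mono_smul, mono_e, RingHom.id_apply, smul_smul]
    rfl
  -- commutation with `sV`
  have huW : ∀ a : Root, ((u (Multiplicative.ofAdd (W a.1)) : Kˣ) : K) = (σ : K →+* K) (u (Multiplicative.ofAdd a.1) : K) := by
    intro a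
    have h1 := congrArg C.f (cT_cG (σ : K →+* K) (toLie x : L →ₗ⁅ℤ⁆ L) (C.f.symm (e a)))
    rw [C.hσ, hu, hu, C.hσ] at h1
    have h3 : C.f (C.f.symm (e a)) = e a := C.f.apply_symm_apply _
    rw [h3] at h1
    unfold sV at h1
    rw [mono_e] at h1
    have h4 : G (e a) = (u (Multiplicative.ofAdd a.1) : K) • e a := by
      rw [hG, mono_e]
      rfl
    rw [h4, hGe, mono_smul, mono_e, smul_smul] at h1
    have h5 := congrFun (congrArg Chev.x h1) (onRoot W W_isom a)
    simp only [e_x, smul_x, Pi.smul_apply, Pi.single_eq_same, smul_eq_mul, mul_one, onRoot_val] at h5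
    have h6 : ((C.η a.1 : ℤ) : K) ≠ 0 := by
      exact_mod_cast (C.η a.1).ne_zero
    rw [mul_comm] at h5
    exact (mul_left_cancel₀ h6 h5).symm
  -- finite order
  have : Finite (AutL L) := AutL_finite C.hL
  obtain ⟨N, hN, hxN⟩ : ∃ N : ℕ, 0 < N ∧ x ^ N = 1 := ⟨orderOf x, orderOf_pos x, pow_orderOf_eq_one x⟩
  have huN : u ^ N = 1 := by
    have hroot : ∀ a : Root, u (Multiplicative.ofAdd a.1) ^ N = 1 := by
      intro a
      have h1 : ∀ n : ℕ, C.f ((cG K (toLie x : L →ₗ⁅ℤ⁆ L))^[n] (C.f.symm (e a))) =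
          ((u (Multiplicative.ofAdd a.1) : K) ^ n) • e a := by
        intro n
        induction n with
        | zero =>
          rw [Function.iterate_zero, id_eq, pow_zero, one_smul]
          exact C.f.apply_symm_apply _
        | succ n ih => rw [Function.iterate_succ_apply', hu, ih, hGe, pow_succ]
      have h2 := h1 N
      have h5 : ∀ y : L, (toLie x)^[N] y = y := by
        intro y
        have h6 := pow_apply x N y
        rw [hxN] at h6
        exact h6.symm
      rw [cG_iterc (toLie x) N h5] at h2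
      have h3 : C.f (C.f.symm (e a)) = e a := C.f.apply_symm_apply _
      rw [h3] at h2
      have h4 := congrFun (congrArg Chev.x h2) a
      simp only [e_x, smul_x, Pi.smul_apply, Pi.single_eq_same, smul_eq_mul, mul_one] at h4
      apply Units.ext
      rw [Units.val_pow_eq_pow_val, Units.val_one]
      exact h4.symm
    exact hom_unique _ _ fun i => hroot (sr i)
  have hform : ∀ v : Lat, ∃ r : ℕ, ((u (Multiplicative.ofAdd v) : Kˣ) : K) = ζ ^ r ∨
      ((u (Multiplicative.ofAdd v) : Kˣ) : K) = -ζ ^ r := by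
    intro v
    have h1 : IsOfFinOrder (((u (Multiplicative.ofAdd v) : Kˣ) : K)) := by
      rw [isOfFinOrder_iff_pow_eq_one]
      refine ⟨N, hN, ?_⟩
      have h3 : u (Multiplicative.ofAdd v) ^ N = 1 := DFunLike.congr_fun huN (Multiplicative.ofAdd v)
      rw [← Units.val_pow_eq_pow_val, h3, Units.val_one]
    obtain ⟨r, _, hr⟩ := Helper2.E8A.hζ.exists_pow_or_neg_mul_pow_of_isOfFinOrder (by decide) h1
    exact ⟨r, hr⟩
  obtain ⟨m, huv⟩ := char_gen Helper2.E8A.hζ (σ : K →+* K) σ_ζc u huW hform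
  have hgzm : ∀ (m : ℕ) (y : Chev K), (gz ζ)^[m] y = ⟨y.h, fun a => (ζ ^ (ht a.1)) ^ m * y.x a⟩ := by
    intro m
    induction m with
    | zero => intro y; ext i <;> simp
    | succ m ih =>
      intro y
      rw [Function.iterate_succ_apply', ih]
      ext i
      · rfl
      · simp only [gz]
        rw [pow_succ]
        ring
  have hcom : ∀ (m : ℕ) (y : L), C.co ((C.g ^ m).1 y) = (gz ζ)^[m] (C.co y) := by
    intro m y
    rw [pow_apply]
    induction m with
    | zero => rfl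
    | succ m ih => rw [Function.iterate_succ_apply', Function.iterate_succ_apply', C.co_g, ih]
  rw [Subgroup.mem_zpowers_iff]
  refine ⟨m, ?_⟩
  rw [zpow_natCast]
  refine Subtype.ext (LinearEquiv.ext fun y => C.co_injective ?_)
  rw [hcom, hgzm]
  have h1 : C.co (x.1 y) = G (C.co y) := hu (1 ⊗ₜ y)
  rw [h1]
  ext i
  · rw [hG, mono_refl_hc]
  · rw [hG, mono_refl_xc, huv]

end Pool.Agent.Helper73.E8.Ez
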