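import Pool.Agent.Helper58.E8Z.CD

/-!
# Block E8Z-AVG: orthogonality relations

Proof. `Av(X) := ∑ x, rR x * X * rR x⁻¹` commutes with the representation (`Fintype.sum_equiv` with `x ↦ y x`), and
`trace (Av X) = card F * trace X`, more generally `trace (J * Av X) = card F * trace (J * X)` for `J` with `Com J`.
Expanding the traces, for `P, Q` arbitrary (`E i j = Matrix.single i j 1`, the matrix units):
`∑ x, trace (P * rR x) * trace (rR x⁻¹ * Q) = ∑ x, ∑ i, ∑ j, (P * rR x) i i * (rR x⁻¹ * Q) j j = ∑ i, ∑ j, (P * Av (E i j) * Q) i j`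
because `(A * E i j * B) i j = A i i * B j j`.
* `sum_one` (`P = Q = 1`): `Av (E i j) = a • 1` with `n * a = card F * trace (E i j) = card F * δ_ij`; the sum is `∑ i, ∑ j, δ_ij a_ij = card F`
  (`0 < n`).
* `sum_J` (`P = Q = J`): `Av (E i j) = a • 1 + b • J`. `trace J = 0`: from `hS`, `J = - S⁻¹ Jᵀ S`, so `trace J = - trace J`. Taking traces of `Av (E i j)` and of
  `J * Av (E i j)` (`trace (J * J) = -n`): `n * a = card F * δ_ij`, `-n * b = card F * trace (J * E i j) = card F * J j i`.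
  `J * (a • 1 + b • J) * J = -a • 1 - b • J`, so the sum is `∑ i, ∑ j, (-a_ij δ_ij - b_ij J i j) = -card F + (card F / n) * ∑ i, ∑ j, J j i * J i j
  = -card F + (card F / n) * trace (J * J) = -2 card F`.
* `trace_inv_one`, `trace_inv_J`: `rR x⁻¹ = S⁻¹ (rR x)ᵀ S` by `C.inv` (`S` invertible because of `C.pos`), so `trace (rR x⁻¹) = trace (rR x)ᵀ = trace (rR x)` and
  `trace (rR x⁻¹ * J) = trace (S⁻¹ (rR x)ᵀ S J) = - trace (S⁻¹ (rR x)ᵀ Jᵀ S) = - trace ((rR x)ᵀ Jᵀ) = - trace (J * rR x)`.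
* `trace_conj`: `trace (J * rR (x y x⁻¹)) = trace (rR x⁻¹ * J * rR x * rR y) = trace (J * rR y)`.
-/

set_option autoImplicit false

namespace Pool.Agent.Helper58.E8Z

open Matrix

variable {n : ℕ} {F : Type} [Group F] [Fintype F] (C : CD n F)

include C in
theorem n_pos : 0 < n := by
  rcases Nat.eq_zero_or_pos n with h | h
  · have h1 := C.fix_dim
    subst h
    have h2 : Module.finrank ℚ (LinearMap.ker ((C.rho C.g).mulVecLin - LinearMap.id)) ≤ Module.finrank ℚ (Fin 0 → ℚ) :=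
      Submodule.finrank_le _
    rw [h1, Module.finrank_fin_fun] at h2
    omega
  · exact h

private lemma h94_mul_inv (x : F) : C.rR x * C.rR x⁻¹ = 1 := by
  rw [← map_mul, mul_inv_cancel, map_one]

private lemma h94_inv_mul (x : F) : C.rR x⁻¹ * C.rR x = 1 := by
  rw [← map_mul, inv_mul_cancel, map_one]

/-- The average over the group. -/
private noncomputable def h94_av (X : Matrix (Fin n) (Fin n) ℝ) : Matrix (Fin n) (Fin n) ℝ :=
  ∑ x, C.rR x * X * C.rR x⁻¹

private lemma h94_av_com (X : Matrix (Fin n) (Fin n) ℝ) : C.Com (h94_av C X) := by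
  intro y
  unfold h94_av
  rw [Finset.mul_sum, Finset.sum_mul]
  refine Fintype.sum_equiv (Equiv.mulLeft y) _ _ fun x => ?_
  rw [Equiv.coe_mulLeft, mul_assoc _ _ (C.rR y), ← map_mul, _root_.mul_inv_rev, mul_assoc x⁻¹,
    inv_mul_cancel, mul_one, map_mul, ← mul_assoc, ← mul_assoc]

private lemma h94_av_trace (J : Matrix (Fin n) (Fin n) ℝ) (hJ : C.Com J)
    (X : Matrix (Fin n) (Fin n) ℝ) :
    trace (J * h94_av C X) = Fintype.card F * trace (J * X) := by
  unfold h94_av
  rw [Finset.mul_sum, trace_sum]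
  have h : ∀ x : F, trace (J * (C.rR x * X * C.rR x⁻¹)) = trace (J * X) := by
    intro x
    rw [← mul_assoc, ← mul_assoc, trace_mul_comm, ← mul_assoc, ← mul_assoc, mul_assoc _ J,
      ← hJ x, ← mul_assoc, h94_inv_mul, one_mul]
  rw [Finset.sum_congr rfl fun x _ => h x, Finset.sum_const, Finset.card_univ, nsmul_eq_mul]

private lemma h94_com_one : C.Com (1 : Matrix (Fin n) (Fin n) ℝ) := by
  intro x
  rw [mul_one, one_mul]

private lemma h94_unit (A B : Matrix (Fin n) (Fin n) ℝ) (i j : Fin n) :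
    (A * Matrix.single i j (1 : ℝ) * B) i j = A i i * B j j := by
  rw [Matrix.mul_apply, Finset.sum_eq_single j]
  · rw [Matrix.mul_single_apply_same, mul_one]
  · intro l _ hl
    rw [Matrix.mul_single_apply_of_ne _ _ _ _ _ hl, zero_mul]
  · intro h
    exact absurd (Finset.mem_univ j) h

private lemma h94_expand (P Q : Matrix (Fin n) (Fin n) ℝ) :
    ∑ x, trace (P * C.rR x) * trace (C.rR x⁻¹ * Q) =
      ∑ i, ∑ j, (P * h94_av C (Matrix.single i j (1 : ℝ)) * Q) i j := by
  have h1 : ∀ x : F, trace (P * C.rR x) * trace (C.rR x⁻¹ * Q) =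
      ∑ i : Fin n, ∑ j : Fin n,
        (P * (C.rR x * Matrix.single i j (1 : ℝ) * C.rR x⁻¹) * Q) i j := by
    intro x
    unfold trace
    rw [Finset.sum_mul_sum]
    refine Finset.sum_congr rfl fun i _ => Finset.sum_congr rfl fun j _ => ?_
    rw [diag_apply, diag_apply, ← h94_unit (P * C.rR x) (C.rR x⁻¹ * Q) i j]
    simp only [mul_assoc]
  rw [Finset.sum_congr rfl fun x _ => h1 x, Finset.sum_comm]
  refine Finset.sum_congr rfl fun i _ => ?_
  rw [Finset.sum_comm]
  refine Finset.sum_congr rfl fun j _ => ?_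
  unfold h94_av
  rw [Finset.mul_sum, Finset.sum_mul, Matrix.sum_apply]

private lemma h94_trace_single (i j : Fin n) :
    trace (Matrix.single i j (1 : ℝ)) = if i = j then 1 else 0 := by
  split_ifs with h
  · subst h
    exact Matrix.trace_single_eq_same _ _
  · exact Matrix.trace_single_eq_of_ne _ _ _ h

theorem sum_one (hD : ∀ X, C.Com X → ∃ a : ℝ, X = a • (1 : Matrix (Fin n) (Fin n) ℝ)) :
    ∑ x, trace (C.rR x) * trace (C.rR x⁻¹) = Fintype.card F := by
  have hn : (n : ℝ) ≠ 0 := Nat.cast_ne_zero.mpr (n_pos C).ne'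
  have h1 := h94_expand C 1 1
  simp only [one_mul, mul_one] at h1
  rw [h1]
  choose a ha using fun i j => hD _ (h94_av_com C (Matrix.single i j (1 : ℝ)))
  have h2 : ∀ i j : Fin n, (n : ℝ) * a i j = Fintype.card F * (if i = j then 1 else 0) := by
    intro i j
    have h3 := h94_av_trace C 1 (h94_com_one C) (Matrix.single i j (1 : ℝ))
    rw [one_mul, one_mul, ha, trace_smul, trace_one, Fintype.card_fin, h94_trace_single,
      smul_eq_mul] at h3
    rw [← h3, mul_comm]
  have h3 : ∀ i j : Fin n, h94_av C (Matrix.single i j (1 : ℝ)) i j =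
      if i = j then (Fintype.card F : ℝ) / n else 0 := by
    intro i j
    have h4 := h2 i j
    rw [ha, Matrix.smul_apply, Matrix.one_apply, smul_eq_mul]
    split_ifs with hij
    · rw [if_pos hij, mul_one] at h4
      rw [mul_one, eq_div_iff hn, mul_comm, h4]
    · rw [mul_zero]
  rw [Finset.sum_congr rfl fun i _ => Finset.sum_congr rfl fun j _ => h3 i j]
  simp only [Finset.sum_ite_eq, Finset.mem_univ, if_true, Finset.sum_const, Finset.card_univ,
    Fintype.card_fin, nsmul_eq_mul]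
  field_simp

include C in
private lemma h94_det : (C.S.map (algebraMap ℚ ℝ)).det ≠ 0 := by
  intro h
  obtain ⟨v, hv, h1⟩ := Matrix.exists_mulVec_eq_zero_iff.mpr h
  have h2 := C.pos v hv
  rw [h1, dotProduct_zero] at h2
  exact lt_irrefl _ h2

private lemma h94_trJ (J : Matrix (Fin n) (Fin n) ℝ)
    (hS : Jᵀ * C.S.map (algebraMap ℚ ℝ) = -(C.S.map (algebraMap ℚ ℝ) * J)) : trace J = 0 := by
  obtain ⟨T, hT⟩ : ∃ T : Matrix (Fin n) (Fin n) ℝ, C.S.map (algebraMap ℚ ℝ) * T = 1 :=
    ⟨_, Matrix.mul_nonsing_inv _ (isUnit_iff_ne_zero.mpr (h94_det C))⟩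
  have hT' : T * C.S.map (algebraMap ℚ ℝ) = 1 := mul_eq_one_comm.mp hT
  have h1 : trace J = trace (Jᵀ * C.S.map (algebraMap ℚ ℝ) * T) := by
    rw [mul_assoc, hT, mul_one, trace_transpose]
  rw [hS, neg_mul, trace_neg, mul_assoc, trace_mul_comm, mul_assoc, hT', mul_one] at h1
  linarith

theorem sum_J (J : Matrix (Fin n) (Fin n) ℝ) (hJ : C.Com J) (hJ2 : J * J = -1)
    (hD : ∀ X, C.Com X → ∃ a b : ℝ, X = a • (1 : Matrix (Fin n) (Fin n) ℝ) + b • J)
    (hS : Jᵀ * C.S.map (algebraMap ℚ ℝ) = -(C.S.map (algebraMap ℚ ℝ) * J)) :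
    ∑ x, trace (J * C.rR x) * trace (C.rR x⁻¹ * J) = -2 * Fintype.card F := by
  have hn : (n : ℝ) ≠ 0 := Nat.cast_ne_zero.mpr (n_pos C).ne'
  have hJ0 := h94_trJ C J hS
  have hJ1 : trace (J * J) = -(n : ℝ) := by
    rw [hJ2, trace_neg, trace_one, Fintype.card_fin]
  rw [h94_expand C J J]
  choose a b hab using fun i j => hD _ (h94_av_com C (Matrix.single i j (1 : ℝ)))
  have h2 : ∀ i j : Fin n, (n : ℝ) * a i j = Fintype.card F * (if i = j then 1 else 0) := by
    intro i j
    have h3 := h94_av_trace C 1 (h94_com_one C) (Matrix.single i j (1 : ℝ))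
    rw [one_mul, one_mul, hab, trace_add, trace_smul, trace_smul, hJ0, smul_zero, add_zero,
      trace_one, Fintype.card_fin, h94_trace_single, smul_eq_mul] at h3
    rw [← h3, mul_comm]
  have h3 : ∀ i j : Fin n, -(n : ℝ) * b i j = Fintype.card F * J j i := by
    intro i j
    have h3 := h94_av_trace C J hJ (Matrix.single i j (1 : ℝ))
    rw [hab, mul_add, Matrix.mul_smul, Matrix.mul_smul, mul_one, trace_add, trace_smul, trace_smul,
      hJ0, smul_zero, zero_add, hJ1, smul_eq_mul] at h3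
    have h4 : trace (J * Matrix.single i j (1 : ℝ)) = J j i := by
      unfold trace
      rw [Finset.sum_eq_single j]
      · rw [diag_apply, Matrix.mul_single_apply_same, mul_one]
      · intro l _ hl
        rw [diag_apply, Matrix.mul_single_apply_of_ne _ _ _ _ _ hl]
      · intro h
        exact absurd (Finset.mem_univ j) h
    rw [h4] at h3
    rw [← h3, mul_comm]
  have h4 : ∀ i j : Fin n, (J * h94_av C (Matrix.single i j (1 : ℝ)) * J) i j =
      (if i = j then -((Fintype.card F : ℝ) / n) else 0) +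
        ((Fintype.card F : ℝ) / n) * (J i j * J j i) := by
    intro i j
    have h5 : J * h94_av C (Matrix.single i j (1 : ℝ)) * J = -(a i j) • 1 - b i j • J := by
      rw [hab, mul_add, add_mul, Matrix.mul_smul, Matrix.mul_smul, mul_one, Matrix.smul_mul,
        Matrix.smul_mul, hJ2, neg_mul, one_mul, smul_neg, smul_neg, neg_smul, sub_eq_add_neg]
    have h6 := h2 i j
    have h7 : b i j = -((Fintype.card F : ℝ) / n) * J j i := by
      have := h3 i j
      field_simp
      linarith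
    rw [h5, Matrix.sub_apply, Matrix.smul_apply, Matrix.smul_apply, Matrix.one_apply, smul_eq_mul,
      smul_eq_mul, h7]
    split_ifs with hij
    · rw [if_pos hij, mul_one] at h6
      have h8 : a i j = (Fintype.card F : ℝ) / n := by
        rw [eq_div_iff hn, mul_comm, h6]
      rw [h8]
      ring
    · ring
  rw [Finset.sum_congr rfl fun i _ => Finset.sum_congr rfl fun j _ => h4 i j]
  simp only [Finset.sum_add_distrib, ← Finset.mul_sum, Finset.sum_ite_eq, Finset.mem_univ, if_true,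
    Finset.sum_const, Finset.card_univ, Fintype.card_fin, nsmul_eq_mul]
  have h5 : ∑ i, ∑ j, J i j * J j i = trace (J * J) := by
    unfold trace
    refine Finset.sum_congr rfl fun i _ => ?_
    rw [diag_apply, Matrix.mul_apply]
  rw [h5, hJ1]
  field_simp
  ring

private lemma h94_inv (x : F) : (C.rR x)ᵀ * C.S.map (algebraMap ℚ ℝ) =
    C.S.map (algebraMap ℚ ℝ) * C.rR x⁻¹ := by
  have h1 : (C.rR x)ᵀ * C.S.map (algebraMap ℚ ℝ) * C.rR x = C.S.map (algebraMap ℚ ℝ) := by
    have h2 := congrArg (fun M : Matrix (Fin n) (Fin n) ℚ => M.map (algebraMap ℚ ℝ)) (C.inv x)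
    simp only [Matrix.map_mul] at h2
    rw [C.rR_apply]
    exact h2
  have h2 := congrArg (fun M => M * C.rR x⁻¹) h1
  simp only [mul_assoc] at h2
  rw [h94_mul_inv, mul_one] at h2
  exact h2

theorem trace_inv_one (x : F) : trace (C.rR x⁻¹) = trace (C.rR x) := by
  obtain ⟨T, hT⟩ : ∃ T : Matrix (Fin n) (Fin n) ℝ, C.S.map (algebraMap ℚ ℝ) * T = 1 :=
    ⟨_, Matrix.mul_nonsing_inv _ (isUnit_iff_ne_zero.mpr (h94_det C))⟩
  have hT' : T * C.S.map (algebraMap ℚ ℝ) = 1 := mul_eq_one_comm.mp hT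
  have h1 : trace (C.rR x⁻¹) = trace (T * (C.S.map (algebraMap ℚ ℝ) * C.rR x⁻¹)) := by
    rw [← mul_assoc, hT', one_mul]
  rw [h1, ← h94_inv, trace_mul_comm, mul_assoc, hT, mul_one, trace_transpose]

theorem trace_inv_J (J : Matrix (Fin n) (Fin n) ℝ)
    (hS : Jᵀ * C.S.map (algebraMap ℚ ℝ) = -(C.S.map (algebraMap ℚ ℝ) * J)) (x : F) :
    trace (C.rR x⁻¹ * J) = -trace (J * C.rR x) := by
  obtain ⟨T, hT⟩ : ∃ T : Matrix (Fin n) (Fin n) ℝ, C.S.map (algebraMap ℚ ℝ) * T = 1 :=
    ⟨_, Matrix.mul_nonsing_inv _ (isUnit_iff_ne_zero.mpr (h94_det C))⟩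
  have hT' : T * C.S.map (algebraMap ℚ ℝ) = 1 := mul_eq_one_comm.mp hT
  have h1 : trace (C.rR x⁻¹ * J) =
      trace (T * ((C.S.map (algebraMap ℚ ℝ) * C.rR x⁻¹) * J)) := by
    rw [← mul_assoc, ← mul_assoc, hT', one_mul]
  have h2 : C.S.map (algebraMap ℚ ℝ) * J = -(Jᵀ * C.S.map (algebraMap ℚ ℝ)) := by
    rw [hS, neg_neg]
  rw [h1, ← h94_inv, mul_assoc, h2, mul_neg, mul_neg, trace_neg, trace_mul_comm, mul_assoc,
    mul_assoc, hT, mul_one, ← transpose_mul, trace_transpose]

theorem trace_conj (J : Matrix (Fin n) (Fin n) ℝ) (hJ : C.Com J) (x y : F) :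
    trace (J * C.rR (x * y * x⁻¹)) = trace (J * C.rR y) := by
  rw [map_mul, map_mul, ← mul_assoc, trace_mul_comm, ← mul_assoc, ← mul_assoc, mul_assoc _ J,
    ← hJ x, ← mul_assoc, h94_inv_mul, one_mul]

end Pool.Agent.Helper58.E8Z
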