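import Pool.Agent.Helper58.E8Z.CD

/-!
# Block E8Z-CLS: the classes of the powers of `t`

Proof. Let `x, x'` in `F` and `j, j'` in `jj` with `x t^j x⁻¹ = x' t^j' x'⁻¹`, `y := x'⁻¹ x`, so `y t^j y⁻¹ = t^j'`.
The orders: `t^5, t^25` have order 6, the other eight have order 30, so `j, j'` are both in `{5, 25}` or both units. If both are
in `{5, 25}` then `y t^5 y⁻¹` is a power of `t^5` (`t^25 = (t^5)^5`, `t^5 = (t^25)^5`). If both are units, let `i * j ≡ 5` with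
`5 ∣ i` (`i = 5 j⁻¹`), then `y t^5 y⁻¹ = (y t^j y⁻¹)^i = t^(j' i)` is a power of `t^5`. (Or do the finite checks by `decide` on exponents modulo 30.)
By `C.norm`, `y ∈ zpowers t`; so `y` commutes with `t`, `t^j = t^j'` and `j = j'` (all elements of `jj` are `< 30`, `C.ht`).

Hence for each `z : F` the set of the pairs `(x, j)` with `x t^j x⁻¹ = z` has at most 30 elements: if `(x₀, j₀)` is one, all
others have `j = j₀` and `x ∈ x₀ zpowers t` (30 elements, `Nat.card_zpowers`). So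
`card F * ∑ j ∈ jj, f (t^j) = ∑ x, ∑ j ∈ jj, f (x t^j x⁻¹) = ∑ z, #fibre(z) * f z ≤ 30 * ∑ z, f z`
(`Finset.sum_fiberwise`, `h0`).
-/

set_option autoImplicit false

namespace Pool.Agent.Helper58.E8Z

variable {n : ℕ} {F : Type} [Group F] [Fintype F] (C : CD n F)

private theorem ex_exp67 : ∀ j ∈ jj, ∃ i ∈ Finset.range 6, (j * (5 * i)) % 30 = 5 := by
  decide

private theorem lt67 : ∀ j ∈ jj, j < 30 := by
  decide

private theorem conj67 {j j' : ℕ} (hj : j ∈ jj) (hj' : j' ∈ jj) {y : F} (h : y * C.t ^ j * y⁻¹ = C.t ^ j') :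
    y ∈ Subgroup.zpowers C.t ∧ j = j' := by
  obtain ⟨i, -, hi⟩ := ex_exp67 j hj
  have h1 : C.t ^ (j * (5 * i)) = C.t ^ 5 := by
    rw [← pow_mod_orderOf C.t (j * (5 * i)), C.ht, hi]
  have h2 : y * C.t ^ 5 * y⁻¹ = (C.t ^ 5) ^ (j' * i) := by
    calc y * C.t ^ 5 * y⁻¹ = (y * C.t ^ j * y⁻¹) ^ (5 * i) := by
          rw [← h1, pow_mul C.t j (5 * i), conj_pow]
      _ = (C.t ^ 5) ^ (j' * i) := by
          rw [h, ← pow_mul, ← pow_mul, show j' * (5 * i) = 5 * (j' * i) by ring]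
  have hy : y ∈ Subgroup.zpowers C.t := by
    refine C.norm y ?_
    rw [h2]
    exact Subgroup.npow_mem_zpowers _ _
  refine ⟨hy, ?_⟩
  obtain ⟨m, hm⟩ := hy
  have h3 : y * C.t ^ j * y⁻¹ = C.t ^ j := by
    have hm' : C.t ^ m = y := hm
    rw [← hm']
    have h4 : C.t ^ m * C.t ^ j = C.t ^ j * C.t ^ m :=
      ((Commute.refl C.t).zpow_left m).pow_right j
    rw [h4, mul_inv_cancel_right]
  rw [h3] at h
  exact pow_injOn_Iio_orderOf (by rw [C.ht]; exact lt67 j hj) (by rw [C.ht]; exact lt67 j' hj') h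

theorem sum_ge (f : F → ℝ) (h0 : ∀ x, 0 ≤ f x) (hc : ∀ x y, f (x * y * x⁻¹) = f y) :
    (Fintype.card F : ℝ) * ∑ j ∈ jj, f (C.t ^ j) ≤ 30 * ∑ x, f x := by
  classical
  have hcard : (Finset.univ.filter fun x : F => x ∈ Subgroup.zpowers C.t).card = 30 := by
    rw [← Fintype.card_subtype, ← Nat.card_eq_fintype_card, ← C.ht]
    exact Nat.card_zpowers C.t
  have hfib : ∀ z : F, (((Finset.univ : Finset F) ×ˢ jj).filter
      fun p : F × ℕ => p.1 * C.t ^ p.2 * p.1⁻¹ = z).card ≤ 30 := by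
    intro z
    rcases (((Finset.univ : Finset F) ×ˢ jj).filter
      fun p : F × ℕ => p.1 * C.t ^ p.2 * p.1⁻¹ = z).eq_empty_or_nonempty with h | ⟨⟨x₀, j₀⟩, h⟩
    · rw [h]
      simp
    · rw [Finset.mem_filter, Finset.mem_product] at h
      obtain ⟨⟨-, hj₀⟩, hz⟩ := h
      have key : ∀ p ∈ (((Finset.univ : Finset F) ×ˢ jj).filter
          fun p : F × ℕ => p.1 * C.t ^ p.2 * p.1⁻¹ = z), x₀⁻¹ * p.1 ∈ Subgroup.zpowers C.t ∧ p.2 = j₀ := by
        rintro ⟨x, j⟩ hp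
        rw [Finset.mem_filter, Finset.mem_product] at hp
        obtain ⟨⟨-, hj⟩, hp⟩ := hp
        refine conj67 C hj hj₀ ?_
        change x * C.t ^ j * x⁻¹ = z at hp
        change x₀ * C.t ^ j₀ * x₀⁻¹ = z at hz
        calc x₀⁻¹ * x * C.t ^ j * (x₀⁻¹ * x)⁻¹ = x₀⁻¹ * (x * C.t ^ j * x⁻¹) * x₀ := by group
          _ = x₀⁻¹ * (x₀ * C.t ^ j₀ * x₀⁻¹) * x₀ := by rw [hp, hz]
          _ = C.t ^ j₀ := by group
      rw [← hcard]
      refine Finset.card_le_card_of_injOn (fun p => x₀⁻¹ * p.1) (fun p hp => ?_) (fun p hp q hq h => ?_)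
      · rw [Finset.mem_coe, Finset.mem_filter]
        exact ⟨Finset.mem_univ _, (key p hp).1⟩
      · have h1 : p.1 = q.1 := mul_left_cancel h
        have h2 : p.2 = q.2 := (key p hp).2.trans (key q hq).2.symm
        exact Prod.ext h1 h2
  have h1 : (Fintype.card F : ℝ) * ∑ j ∈ jj, f (C.t ^ j) =
      ∑ p ∈ (Finset.univ : Finset F) ×ˢ jj, f (p.1 * C.t ^ p.2 * p.1⁻¹) := by
    rw [Finset.sum_product]
    simp only [hc]
    rw [Finset.sum_const, Finset.card_univ, nsmul_eq_mul]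
  rw [h1, ← Finset.sum_fiberwise ((Finset.univ : Finset F) ×ˢ jj) (fun p : F × ℕ => p.1 * C.t ^ p.2 * p.1⁻¹),
    Finset.mul_sum]
  refine Finset.sum_le_sum fun z _ => ?_
  have h2 : ∑ p ∈ ((Finset.univ : Finset F) ×ˢ jj).filter (fun p : F × ℕ => p.1 * C.t ^ p.2 * p.1⁻¹ = z),
      f (p.1 * C.t ^ p.2 * p.1⁻¹) =
      ∑ p ∈ ((Finset.univ : Finset F) ×ˢ jj).filter (fun p : F × ℕ => p.1 * C.t ^ p.2 * p.1⁻¹ = z), f z :=
    Finset.sum_congr rfl fun p hp => by rw [(Finset.mem_filter.1 hp).2]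
  rw [h2, Finset.sum_const, nsmul_eq_mul]
  exact mul_le_mul_of_nonneg_right (by exact_mod_cast hfib z) (h0 z)

end Pool.Agent.Helper58.E8Z
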