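import Pool.Agent.Helper58.E8Z.CD

/-!
# Block E8Z-COM: the commuting algebra

Proof. Schur: if `X` is a real matrix with `C.Com X`, then `ker X` (in `R^n`) is invariant under all `rR x`, so it is `⊥` or `⊤`: `X = 0` or `X` is
injective. Let `k = 1`, `u = u 1`. For `X` with `Com X` the complex matrix `X.map` commutes with `rC g`, `rC t`
(`rC_eq`), so `X.map` maps `u 1` to a vector of the same kind: `(X.map) (u 1) = φ(X) u 1` (`hu.uniq`), `φ(X) ∈ ℂ` unique because `u 1 ≠ 0`.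
`φ` is additive, multiplicative, `φ(a • 1) = a` for real `a`, and `φ(X) = 0` implies `X = 0`: otherwise `X` is injective on `R^n`, so `det X ≠ 0`,
`X.map` is invertible and `u 1 = 0`, contradiction.
* If all `φ(X)` are real then `X = φ(X) • 1` for all `X`: first alternative.
* Otherwise `φ(X₀) = a + b i` with `b ≠ 0`; put `J = (X₀ - a • 1) / b`, `φ(J) = i`, `φ(J * J + 1) = 0`, so `J * J = -1`; and for every `X`,
  `φ(X) = c + d i` gives `X = c • 1 + d • J`.
* `Jᵀ * S = - S * J` (with `S` real): let `J' = S⁻¹ Jᵀ S` (the adjoint; `S` is invertible by `C.pos`). `J'` commutes with all `rR x`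
  (transpose `rR x * J = J * rR x` and use `rR xᵀ S rR x = S`), so `J' = a • 1 + b • J`; `J' * J' = -1`. Taking the adjoint again (`S` symmetric):
  `J = a • 1 + b • J' = (a + a b) • 1 + b^2 • J`, so (`1, J` are independent: `J = c • 1` would give `c^2 = -1`) `b^2 = 1`, `a + a b = 0`.
  If `b = 1`: `a = 0`, `J' = J`, so `S J = Jᵀ S` and for a vector `v ≠ 0`: `0 < (J v)ᵀ S (J v) = vᵀ Jᵀ S J v = vᵀ S J J v = - vᵀ S v < 0`
  (`J v ≠ 0`), contradiction (`n > 0`: `C.fix_dim`). If `b = -1`: `J' = a • 1 - J`, `J' * J' = a^2 • 1 - 2 a • J - 1 = -1` gives `a = 0`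
  (independence again). So `J' = -J`.
-/

set_option autoImplicit false

namespace Pool.Agent.Helper58.E8Z

open Matrix

variable {n : ℕ} {F : Type} [Group F] [Fintype F] (C : CD n F)

include C in
theorem com_n_pos : 0 < n := by
  rcases Nat.eq_zero_or_pos n with h | h
  · subst h
    have h1 := C.fix_dim
    have h2 := Submodule.finrank_le (LinearMap.ker ((C.rho C.g).mulVecLin - LinearMap.id))
    rw [h1] at h2
    simp at h2
  · exact h

theorem com_S_det : (C.S.map (algebraMap ℚ ℝ)).det ≠ 0 := by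
  intro h
  obtain ⟨v, hv, hv0⟩ := Matrix.exists_mulVec_eq_zero_iff.2 h
  have := C.pos v hv
  rw [hv0, dotProduct_zero] at this
  exact lt_irrefl _ this

theorem com_schur {X : Matrix (Fin n) (Fin n) ℝ} (hX : C.Com X) (h0 : X ≠ 0) : X.det ≠ 0 := by
  intro hd
  obtain ⟨v, hv, hv0⟩ := Matrix.exists_mulVec_eq_zero_iff.2 hd
  have h1 := C.irr (LinearMap.ker X.mulVecLin) (fun x w hw => by
    rw [LinearMap.mem_ker, Matrix.mulVecLin_apply] at hw ⊢
    have h2 := hX x
    rw [C.rR_apply] at h2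
    rw [Matrix.mulVec_mulVec, ← h2, ← Matrix.mulVec_mulVec, hw, Matrix.mulVec_zero])
  rcases h1 with h1 | h1
  · have h2 : v ∈ LinearMap.ker X.mulVecLin := by
      rw [LinearMap.mem_ker, Matrix.mulVecLin_apply]
      exact hv0
    rw [h1, Submodule.mem_bot] at h2
    exact hv h2
  · apply h0
    have h2 : X.mulVecLin = 0 := LinearMap.ker_eq_top.1 h1
    ext i j
    have h3 := congrFun (LinearMap.congr_fun h2 (Pi.single j 1)) i
    rw [Matrix.mulVecLin_apply, Matrix.mulVec_single_one] at h3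
    exact h3

theorem com_kill {X : Matrix (Fin n) (Fin n) ℝ} (hX : C.Com X) {w : Fin n → ℂ} (hw : w ≠ 0)
    (h : (X.map (algebraMap ℝ ℂ)).mulVec w = 0) : X = 0 := by
  by_contra h0
  have h1 : (X.map (algebraMap ℝ ℂ)).det = 0 := Matrix.exists_mulVec_eq_zero_iff.1 ⟨w, hw, h⟩
  have h2 : (X.map (algebraMap ℝ ℂ)).det = algebraMap ℝ ℂ X.det := by
    rw [RingHom.map_det]
    rfl
  rw [h2] at h1
  exact com_schur C hX h0 ((map_eq_zero (algebraMap ℝ ℂ)).1 h1)

theorem com_phi {u : ℕ → Fin n → ℂ} (hu : Eig C u) {X : Matrix (Fin n) (Fin n) ℝ}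
    (hX : C.Com X) : ∃ c : ℂ, (X.map (algebraMap ℝ ℂ)).mulVec (u 1) = c • u 1 := by
  have h1 : (1 : ℕ) ∈ un := by decide
  have hc : ∀ x, C.rC x * X.map (algebraMap ℝ ℂ) = X.map (algebraMap ℝ ℂ) * C.rC x := by
    intro x
    rw [C.rC_eq, ← Matrix.map_mul, ← Matrix.map_mul, hX x]
  refine hu.uniq 1 h1 _ ?_ ?_
  · rw [Matrix.mulVec_mulVec, hc, ← Matrix.mulVec_mulVec, hu.g 1 h1]
  · rw [Matrix.mulVec_mulVec, hc, ← Matrix.mulVec_mulVec, hu.t 1 h1, Matrix.mulVec_smul]

theorem com_one : C.Com 1 := fun x => by rw [mul_one, one_mul]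

theorem com_sub {X Y : Matrix (Fin n) (Fin n) ℝ} (hX : C.Com X) (hY : C.Com Y) : C.Com (X - Y) :=
  fun x => by rw [mul_sub, sub_mul, hX x, hY x]

theorem com_add {X Y : Matrix (Fin n) (Fin n) ℝ} (hX : C.Com X) (hY : C.Com Y) : C.Com (X + Y) :=
  fun x => by rw [mul_add, add_mul, hX x, hY x]

theorem com_mul {X Y : Matrix (Fin n) (Fin n) ℝ} (hX : C.Com X) (hY : C.Com Y) : C.Com (X * Y) :=
  fun x => by rw [← mul_assoc, hX x, mul_assoc, hY x, mul_assoc]

theorem com_smul {X : Matrix (Fin n) (Fin n) ℝ} (a : ℝ) (hX : C.Com X) : C.Com (a • X) :=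
  fun x => by rw [mul_smul_comm, hX x, smul_mul_assoc]

/-- The number `φ(X)` determines `X`. -/
theorem com_map (X Y : Matrix (Fin n) (Fin n) ℝ) (a b : ℝ) (w : Fin n → ℂ) :
    ((X - a • (1 : Matrix (Fin n) (Fin n) ℝ) - b • Y).map (algebraMap ℝ ℂ)).mulVec w =
      (X.map (algebraMap ℝ ℂ)).mulVec w - (a : ℂ) • w - (b : ℂ) • (Y.map (algebraMap ℝ ℂ)).mulVec w := by
  have h1 : (X - a • (1 : Matrix (Fin n) (Fin n) ℝ) - b • Y).map (algebraMap ℝ ℂ) =
      X.map (algebraMap ℝ ℂ) - (a : ℂ) • (1 : Matrix (Fin n) (Fin n) ℂ) -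
        (b : ℂ) • Y.map (algebraMap ℝ ℂ) := by
    ext i j
    simp only [Matrix.map_apply, Matrix.sub_apply, Matrix.smul_apply, smul_eq_mul,
      Complex.coe_algebraMap, Matrix.one_apply]
    split_ifs <;> simp
  rw [h1, Matrix.sub_mulVec, Matrix.sub_mulVec, Matrix.smul_mulVec, Matrix.smul_mulVec,
    Matrix.one_mulVec]

theorem com_indep {J : Matrix (Fin n) (Fin n) ℝ} (hJ : J * J = -1) (a b : ℝ)
    (h : a • J = b • (1 : Matrix (Fin n) (Fin n) ℝ)) (hn : 0 < n) : a = 0 ∧ b = 0 := by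
  have h1 : (a * a) • (J * J) = (b * b) • (1 : Matrix (Fin n) (Fin n) ℝ) := by
    calc (a * a) • (J * J) = (a • J) * (a • J) := by
          rw [smul_mul_assoc, mul_smul_comm, smul_smul]
      _ = _ := by
          rw [h, smul_mul_assoc, mul_smul_comm, smul_smul, one_mul]
  rw [hJ] at h1
  have h2 := congrFun (congrFun h1 ⟨0, hn⟩) ⟨0, hn⟩
  simp at h2
  have h3 : a * a + b * b = 0 := by linarith
  constructor <;> nlinarith [mul_self_nonneg a, mul_self_nonneg b]

theorem com_adj {J : Matrix (Fin n) (Fin n) ℝ} (hJ : C.Com J) :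
    ∃ J' : Matrix (Fin n) (Fin n) ℝ, C.Com J' ∧
      C.S.map (algebraMap ℚ ℝ) * J' = Jᵀ * C.S.map (algebraMap ℚ ℝ) := by
  set S := C.S.map (algebraMap ℚ ℝ) with hS
  have hdet : IsUnit S.det := isUnit_iff_ne_zero.2 (com_S_det C)
  have hinv : ∀ x, (C.rR x)ᵀ * S * C.rR x = S := by
    intro x
    rw [C.rR_apply, hS]
    have h1 := congrArg (fun M : Matrix (Fin n) (Fin n) ℚ => M.map (algebraMap ℚ ℝ)) (C.inv x)
    simp only [Matrix.map_mul] at h1
    exact h1
  have hS1 : ∀ x, S * C.rR x = (C.rR x⁻¹)ᵀ * S := by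
    intro x
    have h1 : (C.rR x⁻¹)ᵀ * ((C.rR x)ᵀ * S * C.rR x) = (C.rR x⁻¹)ᵀ * S := by rw [hinv]
    rw [← h1, ← mul_assoc, ← mul_assoc, ← Matrix.transpose_mul, ← map_mul, mul_inv_cancel, map_one,
      Matrix.transpose_one, one_mul]
  have hS2 : ∀ x, C.rR x * S⁻¹ = S⁻¹ * (C.rR x⁻¹)ᵀ := by
    intro x
    have h1 : S⁻¹ * (S * C.rR x) * S⁻¹ = S⁻¹ * ((C.rR x⁻¹)ᵀ * S) * S⁻¹ := by rw [hS1]
    rw [← mul_assoc, Matrix.nonsing_inv_mul _ hdet, one_mul] at h1
    rw [h1, mul_assoc, mul_assoc, Matrix.mul_nonsing_inv _ hdet, mul_one]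
  refine ⟨S⁻¹ * Jᵀ * S, fun x => ?_, ?_⟩
  · have h1 : (C.rR x⁻¹)ᵀ * Jᵀ = Jᵀ * (C.rR x⁻¹)ᵀ := by
      rw [← Matrix.transpose_mul, ← Matrix.transpose_mul, hJ x⁻¹]
    calc C.rR x * (S⁻¹ * Jᵀ * S) = (C.rR x * S⁻¹) * Jᵀ * S := by simp only [mul_assoc]
      _ = S⁻¹ * ((C.rR x⁻¹)ᵀ * Jᵀ) * S := by rw [hS2]; simp only [mul_assoc]
      _ = S⁻¹ * Jᵀ * ((C.rR x⁻¹)ᵀ * S) := by rw [h1]; simp only [mul_assoc]
      _ = S⁻¹ * Jᵀ * S * C.rR x := by rw [← hS1]; simp only [mul_assoc]
  · rw [← mul_assoc, ← mul_assoc, Matrix.mul_nonsing_inv _ hdet, one_mul]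

theorem com_skew {J : Matrix (Fin n) (Fin n) ℝ} (hJ : C.Com J) (hJJ : J * J = -1)
    (hall : ∀ X, C.Com X → ∃ a b : ℝ, X = a • (1 : Matrix (Fin n) (Fin n) ℝ) + b • J) :
    Jᵀ * C.S.map (algebraMap ℚ ℝ) = -(C.S.map (algebraMap ℚ ℝ) * J) := by
  have hn := com_n_pos C
  obtain ⟨J', hJ', hE⟩ := com_adj C hJ
  obtain ⟨a, b, hab⟩ := hall J' hJ'
  have hsym : (C.S.map (algebraMap ℚ ℝ))ᵀ = C.S.map (algebraMap ℚ ℝ) := by
    rw [← Matrix.transpose_map, C.symm]
  have hpos := C.pos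
  have hdet : IsUnit (C.S.map (algebraMap ℚ ℝ)).det := isUnit_iff_ne_zero.2 (com_S_det C)
  generalize C.S.map (algebraMap ℚ ℝ) = S at *
  have hcan : ∀ X Y : Matrix (Fin n) (Fin n) ℝ, S * X = S * Y → X = Y := by
    intro X Y h
    have h1 := congrArg (fun Z => S⁻¹ * Z) h
    simp only [← mul_assoc, Matrix.nonsing_inv_mul _ hdet, one_mul] at h1
    exact h1
  have E1 : Jᵀ * S = a • S + b • (S * J) := by
    rw [← hE, hab, mul_add, mul_smul_comm, mul_smul_comm, mul_one]
  have E2 : S * J = a • S + b • (Jᵀ * S) := by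
    have h1 := congrArg Matrix.transpose E1
    rw [Matrix.transpose_mul, Matrix.transpose_transpose, Matrix.transpose_add,
      Matrix.transpose_smul, Matrix.transpose_smul, Matrix.transpose_mul, hsym] at h1
    exact h1
  have E3 : (1 - b * b) • J = (a + a * b) • (1 : Matrix (Fin n) (Fin n) ℝ) := by
    apply hcan
    rw [mul_smul_comm, mul_smul_comm, mul_one, sub_smul, one_smul]
    nth_rewrite 1 [E2]
    rw [E1, smul_add, smul_smul, smul_smul, add_smul, mul_comm b a]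
    abel
  obtain ⟨h1, h2⟩ := com_indep hJJ _ _ E3 hn
  have hb : b = 1 ∨ b = -1 := by
    have : (b - 1) * (b + 1) = 0 := by linarith
    rcases mul_eq_zero.1 this with h | h
    · left; linarith
    · right; linarith
  rcases hb with hb | hb
  · exfalso
    subst hb
    have ha : a = 0 := by linarith
    subst ha
    rw [zero_smul, zero_add, one_smul] at E1
    obtain ⟨v, hv⟩ : ∃ v : Fin n → ℝ, v ≠ 0 := ⟨fun _ => 1, fun h => by
      have := congrFun h ⟨0, hn⟩
      simp at this⟩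
    have hJv : J.mulVec v ≠ 0 := by
      intro h
      have h3 : (J * J).mulVec v = 0 := by rw [← Matrix.mulVec_mulVec, h, Matrix.mulVec_zero]
      rw [hJJ, Matrix.neg_mulVec, Matrix.one_mulVec] at h3
      exact hv (neg_eq_zero.1 h3)
    have p1 := hpos v hv
    have p2 := hpos _ hJv
    have h4 : J.mulVec v ⬝ᵥ S.mulVec (J.mulVec v) = - (v ⬝ᵥ S.mulVec v) := by
      have h5 : S.mulVec (J.mulVec v) = (Jᵀ).mulVec (S.mulVec v) := by
        rw [Matrix.mulVec_mulVec, Matrix.mulVec_mulVec, E1]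
      have h6 : J.mulVec v ⬝ᵥ (Jᵀ).mulVec (S.mulVec v) = (J * J).mulVec v ⬝ᵥ S.mulVec v := by
        rw [Matrix.mulVec_transpose, dotProduct_comm, ← Matrix.dotProduct_mulVec,
          Matrix.mulVec_mulVec, dotProduct_comm]
      rw [h5, h6, hJJ, Matrix.neg_mulVec, Matrix.one_mulVec, neg_dotProduct]
    rw [h4] at p2
    linarith
  · subst hb
    have E4 : a • ((2 : ℝ) • J) = a • (a • (1 : Matrix (Fin n) (Fin n) ℝ)) := by
      apply hcan
      have h3 : Jᵀ * (Jᵀ * S) = -S := by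
        rw [← mul_assoc, ← Matrix.transpose_mul, hJJ, Matrix.transpose_neg, Matrix.transpose_one,
          neg_mul, one_mul]
      have h4 : Jᵀ * (Jᵀ * S) = a • (a • S) - (2 * a) • (S * J) - S := by
        conv_lhs => rw [E1]
        rw [mul_add, mul_smul_comm, mul_smul_comm, ← mul_assoc, E1, add_mul, smul_mul_assoc,
          smul_mul_assoc, mul_assoc, hJJ, mul_neg, mul_one]
        module
      rw [h3] at h4
      have h5 : a • (a • S) = (2 * a) • (S * J) := by
        have h6 : a • (a • S) - (2 * a) • (S * J) = 0 := by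
          have := eq_neg_of_add_eq_zero_left (show -S + S = 0 by simp)
          calc a • (a • S) - (2 * a) • (S * J) = (a • (a • S) - (2 * a) • (S * J) - S) + S := by abel
            _ = -S + S := by rw [← h4]
            _ = 0 := by simp
        exact sub_eq_zero.1 h6
      rw [mul_smul_comm, mul_smul_comm, mul_smul_comm, mul_smul_comm, mul_one, h5, smul_smul,
        mul_comm a 2]
    have ha : a = 0 := by
      rw [smul_smul, smul_smul] at E4
      obtain ⟨h3, _⟩ := com_indep hJJ _ _ E4 hn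
      linarith
    subst ha
    rw [E1, zero_smul, zero_add, neg_smul, one_smul]

theorem com_cases {u : ℕ → Fin n → ℂ} (hu : Eig C u) :
    (∀ X, C.Com X → ∃ a : ℝ, X = a • (1 : Matrix (Fin n) (Fin n) ℝ)) ∨
    ∃ J : Matrix (Fin n) (Fin n) ℝ, C.Com J ∧ J * J = -1 ∧
      (∀ X, C.Com X → ∃ a b : ℝ, X = a • (1 : Matrix (Fin n) (Fin n) ℝ) + b • J) ∧
      Jᵀ * C.S.map (algebraMap ℚ ℝ) = -(C.S.map (algebraMap ℚ ℝ) * J) := by
  have hu1 : u 1 ≠ 0 := hu.ne 1 (by decide)
  by_cases hreal : ∀ X, C.Com X → ∃ a : ℝ, (X.map (algebraMap ℝ ℂ)).mulVec (u 1) = (a : ℂ) • u 1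
  · left
    intro X hX
    obtain ⟨a, ha⟩ := hreal X hX
    refine ⟨a, ?_⟩
    have h1 : X - a • (1 : Matrix (Fin n) (Fin n) ℝ) - (0 : ℝ) • (1 : Matrix (Fin n) (Fin n) ℝ) = 0 := by
      refine com_kill C (com_sub C (com_sub C hX (com_smul C a (com_one C)))
        (com_smul C 0 (com_one C))) hu1 ?_
      rw [com_map, ha, Complex.ofReal_zero, zero_smul, sub_self, sub_zero]
    rw [zero_smul, sub_zero] at h1
    exact sub_eq_zero.1 h1
  · right
    push Not at hreal
    obtain ⟨X₀, hX₀, hr⟩ := hreal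
    obtain ⟨c, hc⟩ := com_phi C hu hX₀
    have him : c.im ≠ 0 := by
      intro h
      apply hr c.re
      rw [hc]
      congr 1
      apply Complex.ext <;> simp [h]
    set J : Matrix (Fin n) (Fin n) ℝ := (c.im)⁻¹ • (X₀ - c.re • (1 : Matrix (Fin n) (Fin n) ℝ)) with hJd
    have hJ : C.Com J := com_smul C _ (com_sub C hX₀ (com_smul C _ (com_one C)))
    have hX₀J : X₀ = c.re • (1 : Matrix (Fin n) (Fin n) ℝ) + c.im • J := by
      rw [hJd, smul_smul, mul_inv_cancel₀ him, one_smul]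
      abel
    obtain ⟨d, hd⟩ := com_phi C hu hJ
    have hdI : d = Complex.I := by
      have h1 := com_map X₀ J c.re c.im (u 1)
      have h2 : X₀ - c.re • (1 : Matrix (Fin n) (Fin n) ℝ) - c.im • J = 0 := by
        rw [hX₀J]
        abel
      rw [h2, hc, hd] at h1
      have h3 : (c - c.re - c.im * d) • u 1 = 0 := by
        rw [sub_smul, sub_smul, mul_smul, ← h1]
        ext i
        simp [Matrix.mulVec, dotProduct]
      rcases smul_eq_zero.1 h3 with h4 | h4
      · have h5 : (c.im : ℂ) * (Complex.I - d) = 0 := by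
          have h6 : c = c.re + c.im * Complex.I := (Complex.re_add_im c).symm
          linear_combination h4 - h6
        rcases mul_eq_zero.1 h5 with h6 | h6
        · exact absurd (Complex.ofReal_eq_zero.1 h6) him
        · exact (sub_eq_zero.1 h6).symm
      · exact absurd h4 hu1
    subst hdI
    have hJJ : J * J = -1 := by
      have h1 : J * J - (-1 : ℝ) • (1 : Matrix (Fin n) (Fin n) ℝ) -
          (0 : ℝ) • (1 : Matrix (Fin n) (Fin n) ℝ) = 0 := by
        refine com_kill C (com_sub C (com_sub C (com_mul C hJ hJ) (com_smul C _ (com_one C)))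
          (com_smul C 0 (com_one C))) hu1 ?_
        rw [com_map, Matrix.map_mul, ← Matrix.mulVec_mulVec, hd, Matrix.mulVec_smul, hd, smul_smul,
          Complex.I_mul_I]
        simp
      rw [zero_smul, sub_zero, neg_smul, one_smul] at h1
      exact sub_eq_zero.1 h1
    have hall : ∀ X, C.Com X → ∃ a b : ℝ, X = a • (1 : Matrix (Fin n) (Fin n) ℝ) + b • J := by
      intro X hX
      obtain ⟨e, he⟩ := com_phi C hu hX
      refine ⟨e.re, e.im, ?_⟩
      have h1 : X - e.re • (1 : Matrix (Fin n) (Fin n) ℝ) - e.im • J = 0 := by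
        refine com_kill C (com_sub C (com_sub C hX (com_smul C _ (com_one C)))
          (com_smul C _ hJ)) hu1 ?_
        rw [com_map, he, hd, smul_smul, ← sub_smul, ← sub_smul]
        have h2 : e - e.re - e.im * Complex.I = 0 := by
          linear_combination -(Complex.re_add_im e)
        rw [h2, zero_smul]
      have h2 : X = (X - e.re • (1 : Matrix (Fin n) (Fin n) ℝ) - e.im • J) +
          (e.re • (1 : Matrix (Fin n) (Fin n) ℝ) + e.im • J) := by abel
      rw [h1, zero_add] at h2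
      exact h2
    exact ⟨J, hJ, hJJ, hall, com_skew C hJ hJJ hall⟩

end Pool.Agent.Helper58.E8Z
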