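import Pool.Agent.Helper58.E8Z.CD

/-!
# Block E8Z-EIG: the eigenvectors

Proof. Let `Z = ker (rho g - 1)` (vectors of `Q^n` fixed by `g`), dimension 8. It is stable under `rho t`, because
`t⁻¹ g t` is a power of `g` (from `hr : t g t⁻¹ = g^r`: conjugation by `t` maps `⟨g⟩` into itself and `F` is finite, so `t⁻¹ g t ∈ ⟨g⟩`:
e.g. `t⁻¹ = t^29` and `t^j g t^(-j) = g^(r^j)`). Choose `v₀ ≠ 0` in `Z`. The polynomial
`Φ = X^8 + X^7 - X^5 - X^4 - X^3 + X + 1` is the cyclotomic polynomial `Φ_30`: it is the minimal polynomial of `ze` over `Q`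
(`Polynomial.cyclotomic_eq_minpoly_rat`, `Polynomial.cyclotomic.irreducible_rat`; to see `Φ = cyclotomic 30 ℚ`: `Φ` is monic of degree
`8 = φ(30)` and `Φ (ze) = 0`, since `X^30 - 1 = (X^15 - 1)(X^5 + 1)(...)`; e.g. show that `ze` is a root: `ze^15 = -1`, `ze^10 - ze^5 + 1 = 0`
(as `(ze^5)^3 = -1`, `ze^5 ≠ -1`) and `ze^12 - ze^9 + ze^6 - ze^3 + 1 = 0` (as `(ze^3)^5 = -1`, `ze^3 ≠ -1`), and `Φ` is the gcd of
`X^10 - X^5 + 1` and `X^12 - X^9 + X^6 - X^3 + 1`). By `C.phi`, `Φ(rho t) v = 0` for `v` in `Z`. For `p ∈ ℚ[X]` write `p(t)` for `aeval (rho t) p`.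
(1) If `p(t) v₀ = 0` then `Φ ∣ p` (otherwise `p` and `Φ` are coprime, `a p + b Φ = 1`, `v₀ = 0`). So `v₀, t v₀, ..., t^7 v₀` are
linearly independent over `Q`, hence a basis of `Z`; the same vectors, viewed in `C^n`, are linearly independent over `C` and a basis of
`ker (rC g - 1)` (dimension 8 as well: rank of a matrix is invariant under field extension; or: the complex kernel of a rational matrix is spanned by
the rational kernel, write a complex vector with coordinates in a finite dimensional rational subspace ... e.g. `LinearMap.ker_baseChange` / flatness, or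
`Module.finrank` of the kernel via `Matrix.rank_map`-type lemmas).
(2) For a unit `k` let `q_k(X) = Φ(X)/(X - ze^k) ∈ ℂ[X]` (degree 7) and `u k := q_k(rC t) v₀`. It is `≠ 0` by the independence over `C`;
`(rC t - ze^k) u k = Φ(t) v₀ = 0`; `rC g (u k) = u k`.
(3) `t` has on the 8-dimensional space `Z_C` the 8 different eigenvalues `ze^k` (`k` in `un`), so the `u k` are a basis of `Z_C`
and the eigenspaces are lines: `uniq`, `span`.
(4) `rat`: `X` commutes with `rho g`, so `X v₀ ∈ Z`, `X v₀ = p(t) v₀` with `p ∈ ℚ[X]`; `X` commutes with `rho t`, so `X = p(t)` on `Z`, and on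
`Z_C`, so `X u_k = p(ze^k) u_k`.
-/

set_option autoImplicit false

namespace Pool.Agent.Helper58.E8Z

variable {n : ℕ} {F : Type} [Group F] [Fintype F] (C : CD n F)

open Matrix Polynomial

/-! ### the polynomial `Φ_30` -/

private noncomputable def Phi_h12 : ℚ[X] := X ^ 8 + X ^ 7 - X ^ 5 - X ^ 4 - X ^ 3 + X + 1

private lemma Phi_eq_h12 : Phi_h12 = cyclotomic 30 ℚ := by
  have h := cyclotomic_expand_eq_cyclotomic_mul (R := ℚ) (p := 5) (n := 6) (by norm_num)
    (by norm_num)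
  have h2 : cyclotomic (6 * 5) ℚ = cyclotomic 30 ℚ := rfl
  rw [h2, cyclotomic_six] at h
  have h1 : (X ^ 2 - X + 1 : ℚ[X]) ≠ 0 := by rw [← cyclotomic_six]; exact cyclotomic_ne_zero 6 ℚ
  apply mul_right_cancel₀ h1
  rw [← h, map_add, map_sub, map_pow, expand_X, map_one]
  unfold Phi_h12
  ring

private lemma Phi_irr_h12 : Irreducible Phi_h12 := by
  rw [Phi_eq_h12]
  exact cyclotomic.irreducible_rat (by norm_num)

private lemma Phi_deg_h12 : Phi_h12.degree = 8 := by
  rw [Phi_eq_h12, degree_cyclotomic]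
  have : Nat.totient 30 = 8 := by decide
  rw [this]
  rfl

/-! ### conjugation -/

private lemma conj_h12 (j : ℕ) : C.t ^ j * C.g * (C.t ^ j)⁻¹ = C.g ^ (C.r ^ j) := by
  induction j with
  | zero => simp
  | succ j ih =>
    have e : C.t ^ (j + 1) * C.g * (C.t ^ (j + 1))⁻¹ =
        C.t * (C.t ^ j * C.g * (C.t ^ j)⁻¹) * C.t⁻¹ := by
      rw [pow_succ']
      group
    rw [e, ih, ← conj_pow, C.hr, ← pow_mul, ← pow_succ']

private lemma gt_h12 : C.g * C.t = C.t * C.g ^ (C.r ^ 29) := by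
  rw [← conj_h12]
  have h : C.t ^ 30 = 1 := by rw [← C.ht]; exact pow_orderOf_eq_one _
  have h2 : (C.t ^ 29)⁻¹ = C.t := by
    rw [inv_eq_iff_mul_eq_one, ← pow_succ]
    exact h
  rw [h2, ← mul_assoc, ← mul_assoc, ← pow_succ', h, one_mul]

private lemma pow_fix_h12 {K : Type} [CommRing K] (N : Matrix (Fin n) (Fin n) K) (v : Fin n → K)
    (h : N *ᵥ v = v) (k : ℕ) : (N ^ k) *ᵥ v = v := by
  induction k with
  | zero => rw [pow_zero, one_mulVec]
  | succ k ih => rw [pow_succ, ← mulVec_mulVec, h, ih]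

section stab

variable {K : Type} [CommRing K] (R : F →* Matrix (Fin n) (Fin n) K) (v : Fin n → K)
    (h : R C.g *ᵥ v = v)
include h

private lemma stab_h12 : R C.g *ᵥ (R C.t *ᵥ v) = R C.t *ᵥ v := by
  rw [mulVec_mulVec, ← map_mul, gt_h12, map_mul, map_pow, ← mulVec_mulVec, pow_fix_h12 _ _ h]

private lemma stab_pow_h12 (k : ℕ) : R C.g *ᵥ ((R C.t) ^ k *ᵥ v) = (R C.t) ^ k *ᵥ v := by
  induction k with
  | zero => simpa using h
  | succ k ih =>
    rw [pow_succ', ← mulVec_mulVec]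
    exact stab_h12 C R _ ih

private lemma stab_poly_h12 (p : K[X]) :
    R C.g *ᵥ (aeval (R C.t) p *ᵥ v) = aeval (R C.t) p *ᵥ v := by
  induction p using Polynomial.induction_on' with
  | add p q hp hq => rw [map_add, add_mulVec, mulVec_add, hp, hq]
  | monomial k a =>
    rw [aeval_monomial, ← Algebra.smul_def, smul_mulVec, mulVec_smul, stab_pow_h12 C R v h]

end stab

/-! ### the rational fixed space -/

private lemma phi_h12 {v : Fin n → ℚ} (hv : C.rho C.g *ᵥ v = v) :
    aeval (C.rho C.t) Phi_h12 *ᵥ v = 0 := by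
  have h := C.phi v hv
  simp only [map_pow] at h
  unfold Phi_h12
  simp only [map_add, map_sub, map_pow, aeval_X, map_one, add_mulVec, sub_mulVec, one_mulVec]
  exact h

private lemma dvd_h12 {v : Fin n → ℚ} (hv : C.rho C.g *ᵥ v = v) (hv0 : v ≠ 0) {p : ℚ[X]}
    (hp : aeval (C.rho C.t) p *ᵥ v = 0) : Phi_h12 ∣ p := by
  by_contra hcon
  obtain ⟨a, b, hab⟩ := (Phi_irr_h12.coprime_iff_not_dvd).mpr hcon
  apply hv0
  have h1 : aeval (C.rho C.t) (a * Phi_h12 + b * p) *ᵥ v = v := by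
    rw [hab, map_one, one_mulVec]
  rw [← h1, map_add, map_mul, map_mul, add_mulVec, ← mulVec_mulVec, ← mulVec_mulVec,
    phi_h12 C hv, hp, mulVec_zero, mulVec_zero, add_zero]

private lemma gen_h12 {v : Fin n → ℚ} (hv : C.rho C.g *ᵥ v = v) (hv0 : v ≠ 0) (w : Fin n → ℚ)
    (hw : C.rho C.g *ᵥ w = w) : ∃ p : ℚ[X], aeval (C.rho C.t) p *ᵥ v = w := by
  have hZ : ∀ x, x ∈ LinearMap.ker ((C.rho C.g).mulVecLin - LinearMap.id) ↔
      C.rho C.g *ᵥ x = x := by
    intro x
    rw [LinearMap.mem_ker, LinearMap.sub_apply, mulVecLin_apply, LinearMap.id_apply, sub_eq_zero]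
  let ψ : degreeLT ℚ 8 →ₗ[ℚ] LinearMap.ker ((C.rho C.g).mulVecLin - LinearMap.id) :=
    { toFun := fun p => ⟨aeval (C.rho C.t) (p : ℚ[X]) *ᵥ v,
        (hZ _).mpr (stab_poly_h12 C C.rho v hv p)⟩
      map_add' := fun p q => Subtype.ext (by
        change aeval (C.rho C.t) ((p : ℚ[X]) + (q : ℚ[X])) *ᵥ v = _
        rw [map_add, add_mulVec]
        rfl)
      map_smul' := fun a p => Subtype.ext (by
        change aeval (C.rho C.t) (a • (p : ℚ[X])) *ᵥ v = _
        rw [map_smul, smul_mulVec]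
        rfl) }
  have hinj : Function.Injective ψ := by
    rw [injective_iff_map_eq_zero]
    intro p hp
    have h1 : aeval (C.rho C.t) (p : ℚ[X]) *ᵥ v = 0 := congrArg Subtype.val hp
    have h2 := dvd_h12 C hv hv0 h1
    have h3 : (p : ℚ[X]) = 0 := eq_zero_of_dvd_of_degree_lt h2 (by
      rw [Phi_deg_h12]
      exact mem_degreeLT.mp p.2)
    exact Subtype.ext h3
  have : FiniteDimensional ℚ (degreeLT ℚ 8) :=
    Module.Finite.equiv (degreeLTEquiv ℚ 8).symm
  have hfin : Module.finrank ℚ (degreeLT ℚ 8) =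
      Module.finrank ℚ (LinearMap.ker ((C.rho C.g).mulVecLin - LinearMap.id)) := by
    rw [C.fix_dim, (degreeLTEquiv ℚ 8).finrank_eq, Module.finrank_fin_fun]
  have hsurj := (LinearMap.injective_iff_surjective_of_finrank_eq_finrank hfin).mp hinj
  obtain ⟨p, hp⟩ := hsurj ⟨w, (hZ w).mpr hw⟩
  exact ⟨p, congrArg Subtype.val hp⟩

/-! ### passage to the complex numbers -/

private lemma map_aeval_h12 (M : Matrix (Fin n) (Fin n) ℚ) (p : ℚ[X]) :
    (aeval M p).map (algebraMap ℚ ℂ) =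
      aeval (M.map (algebraMap ℚ ℂ)) (p.map (algebraMap ℚ ℂ)) := by
  have h : (algebraMap ℂ (Matrix (Fin n) (Fin n) ℂ)).comp (algebraMap ℚ ℂ) =
      ((algebraMap ℚ ℂ).mapMatrix : Matrix (Fin n) (Fin n) ℚ →+* Matrix (Fin n) (Fin n) ℂ).comp
        (algebraMap ℚ (Matrix (Fin n) (Fin n) ℚ)) := by
    refine RingHom.ext fun a => ?_
    ext i j
    rw [RingHom.comp_apply, RingHom.comp_apply, RingHom.mapMatrix_apply, Matrix.map_apply,
      algebraMap_matrix_apply, algebraMap_matrix_apply]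
    split_ifs
    · rfl
    · exact (map_zero _).symm
  exact map_aeval_eq_aeval_map h p M

private noncomputable def cst_h12 (v : Fin n → ℚ) : Fin n → ℂ := (algebraMap ℚ ℂ) ∘ v

private lemma cst_mulVec_h12 (M : Matrix (Fin n) (Fin n) ℚ) (v : Fin n → ℚ) :
    cst_h12 (M *ᵥ v) = M.map (algebraMap ℚ ℂ) *ᵥ cst_h12 v := by
  ext i
  exact RingHom.map_mulVec (algebraMap ℚ ℂ) M v i

private lemma cst_aeval_h12 (M : Matrix (Fin n) (Fin n) ℚ) (p : ℚ[X]) (v : Fin n → ℚ) :
    cst_h12 (aeval M p *ᵥ v) =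
      aeval (M.map (algebraMap ℚ ℂ)) (p.map (algebraMap ℚ ℂ)) *ᵥ cst_h12 v := by
  rw [cst_mulVec_h12, map_aeval_h12]

private noncomputable def bs_h12 : Module.Basis (Module.Basis.ofVectorSpaceIndex ℚ ℂ) ℚ ℂ :=
  Module.Basis.ofVectorSpace ℚ ℂ

/-- rational coordinates of a complex vector -/
private noncomputable def co_h12 (j : Module.Basis.ofVectorSpaceIndex ℚ ℂ) (v : Fin n → ℂ) :
    Fin n → ℚ := fun i => bs_h12.repr (v i) j

private lemma co_mulVec_h12 (M : Matrix (Fin n) (Fin n) ℚ) (v : Fin n → ℂ)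
    (j : Module.Basis.ofVectorSpaceIndex ℚ ℂ) :
    co_h12 j (M.map (algebraMap ℚ ℂ) *ᵥ v) = M *ᵥ co_h12 j v := by
  ext i
  unfold co_h12
  rw [mulVec, mulVec, dotProduct, dotProduct]
  have e : ∑ m, M.map (algebraMap ℚ ℂ) i m * v m = ∑ m, M i m • v m :=
    Finset.sum_congr rfl fun m _ => by
      rw [Algebra.smul_def]
      rfl
  rw [e, map_sum, Finsupp.finsetSum_apply]
  refine Finset.sum_congr rfl fun m _ => ?_
  rw [map_smul, Finsupp.smul_apply, smul_eq_mul]

private lemma co_sum_h12 (v : Fin n → ℂ) :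
    ∃ J : Finset (Module.Basis.ofVectorSpaceIndex ℚ ℂ),
      v = ∑ j ∈ J, bs_h12 j • cst_h12 (co_h12 j v) := by
  classical
  refine ⟨Finset.univ.biUnion fun i => (bs_h12.repr (v i)).support, ?_⟩
  ext i
  rw [Finset.sum_apply]
  conv_lhs => rw [← bs_h12.linearCombination_repr (v i), Finsupp.linearCombination_apply,
    Finsupp.sum]
  rw [Finset.sum_subset (Finset.subset_biUnion_of_mem (fun i => (bs_h12.repr (v i)).support)
    (Finset.mem_univ i))]
  · refine Finset.sum_congr rfl fun j _ => ?_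
    rw [Pi.smul_apply, smul_eq_mul, Algebra.smul_def, mul_comm]
    rfl
  · intro j _ hj
    rw [Finsupp.notMem_support_iff.mp hj, zero_smul]

private lemma genC_h12 {v : Fin n → ℚ} (hv : C.rho C.g *ᵥ v = v) (hv0 : v ≠ 0) (w : Fin n → ℂ)
    (hw : C.rC C.g *ᵥ w = w) : ∃ p : ℂ[X], aeval (C.rC C.t) p *ᵥ cst_h12 v = w := by
  obtain ⟨J, hJ⟩ := co_sum_h12 w
  have h1 : ∀ j, C.rho C.g *ᵥ co_h12 j w = co_h12 j w := by
    intro j
    rw [← co_mulVec_h12, ← C.rC_apply, hw]
  choose p hp using fun j => gen_h12 C hv hv0 _ (h1 j)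
  refine ⟨∑ j ∈ J, bs_h12 j • (p j).map (algebraMap ℚ ℂ), ?_⟩
  conv_rhs => rw [hJ]
  rw [map_sum, sum_mulVec]
  refine Finset.sum_congr rfl fun j _ => ?_
  rw [map_smul, smul_mulVec, ← hp j, cst_aeval_h12]
  rfl

private lemma indC_h12 {v : Fin n → ℚ} (hv : C.rho C.g *ᵥ v = v) (hv0 : v ≠ 0) (P : ℂ[X])
    (hP : P.degree < 8) (h : aeval (C.rC C.t) P *ᵥ cst_h12 v = 0) : P = 0 := by
  have h8 : P.natDegree < 8 := by
    rcases eq_or_ne P 0 with h0 | h0
    · rw [h0]; norm_num
    · exact (natDegree_lt_iff_degree_lt h0).mpr hP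
  -- the rational coordinates of `P`
  have key : ∀ j, ∑ i ∈ Finset.range 8, monomial i (bs_h12.repr (P.coeff i) j) = (0 : ℚ[X]) := by
    intro j
    have h1 : aeval (C.rho C.t) (∑ i ∈ Finset.range 8, monomial i (bs_h12.repr (P.coeff i) j)) *ᵥ v
        = 0 := by
      have h2 : co_h12 j (aeval (C.rC C.t) P *ᵥ cst_h12 v) =
          aeval (C.rho C.t) (∑ i ∈ Finset.range 8, monomial i (bs_h12.repr (P.coeff i) j)) *ᵥ v := by
        ext m
        have e1 : (aeval (C.rC C.t) P *ᵥ cst_h12 v) m =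
            ∑ i ∈ Finset.range 8, ((C.rho C.t ^ i) *ᵥ v) m • P.coeff i := by
          rw [aeval_eq_sum_range' h8, sum_mulVec, Finset.sum_apply]
          refine Finset.sum_congr rfl fun i _ => ?_
          rw [smul_mulVec, Pi.smul_apply, smul_eq_mul, Algebra.smul_def, mul_comm]
          congr 1
          have e2 : C.rC C.t ^ i = (C.rho C.t ^ i).map (algebraMap ℚ ℂ) := by
            rw [← map_pow, ← map_pow, C.rC_apply]
          rw [e2, ← cst_mulVec_h12]
          rfl
        unfold co_h12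
        rw [e1, map_sum, Finsupp.finsetSum_apply, map_sum, sum_mulVec, Finset.sum_apply]
        refine Finset.sum_congr rfl fun i _ => ?_
        rw [map_smul, Finsupp.smul_apply, aeval_monomial, ← Algebra.smul_def, smul_mulVec,
          Pi.smul_apply, smul_eq_mul, smul_eq_mul, mul_comm]
      rw [← h2, h]
      ext m
      unfold co_h12
      rw [Pi.zero_apply, map_zero]
      rfl
    refine eq_zero_of_dvd_of_degree_lt (dvd_h12 C hv hv0 h1) ?_
    rw [Phi_deg_h12]
    refine lt_of_le_of_lt (degree_sum_le _ _) ?_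
    rw [Finset.sup_lt_iff (by exact WithBot.bot_lt_coe 8)]
    intro i hi
    refine lt_of_le_of_lt (degree_monomial_le _ _) ?_
    exact_mod_cast Finset.mem_range.mp hi
  ext i
  rw [coeff_zero]
  by_cases hi : i < 8
  · apply bs_h12.repr.injective
    rw [map_zero]
    ext j
    have h1 := congrArg (fun q => coeff q i) (key j)
    simp only [finsetSum_coeff, coeff_monomial, coeff_zero] at h1
    rw [Finset.sum_ite_eq' (Finset.range 8) i, if_pos (Finset.mem_range.mpr hi)] at h1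
    exact h1
  · exact coeff_eq_zero_of_natDegree_lt (by omega)

/-! ### the Lagrange basis -/

private lemma inj_h12 : Set.InjOn (fun k : ℕ => ze ^ k) (un : Set ℕ) := by
  intro a ha b hb hab
  refine ze_prim.pow_inj ?_ ?_ hab
  · have : ∀ a ∈ un, a < 30 := by decide
    exact this a ha
  · have : ∀ a ∈ un, a < 30 := by decide
    exact this b hb

private lemma nodal_h12 :
    Lagrange.nodal un (fun k : ℕ => ze ^ k) = Phi_h12.map (algebraMap ℚ ℂ) := by
  rw [Phi_eq_h12, map_cyclotomic, cyclotomic_eq_prod_X_sub_primitiveRoots ze_prim,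
    Lagrange.nodal]
  have e : primitiveRoots 30 ℂ = un.image (fun k : ℕ => ze ^ k) := by
    symm
    apply Finset.eq_of_subset_of_card_le
    · intro x hx
      obtain ⟨k, hk, rfl⟩ := Finset.mem_image.mp hx
      rw [mem_primitiveRoots (by norm_num)]
      refine ze_prim.pow_of_coprime k ?_
      have : ∀ a ∈ un, Nat.Coprime a 30 := by decide
      exact this k hk
    · rw [Finset.card_image_of_injOn inj_h12, ze_prim.card_primitiveRoots]
      decide
  rw [e, Finset.prod_image (fun a ha b hb => inj_h12 ha hb)]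

theorem exists_eig : ∃ u : ℕ → Fin n → ℂ, Eig C u := by
  -- a rational fixed vector
  obtain ⟨v, hv, hv0⟩ : ∃ v : Fin n → ℚ, C.rho C.g *ᵥ v = v ∧ v ≠ 0 := by
    have h1 : LinearMap.ker ((C.rho C.g).mulVecLin - LinearMap.id) ≠ ⊥ := by
      intro h0
      have h2 := C.fix_dim
      rw [h0, finrank_bot] at h2
      omega
    obtain ⟨v, hv, hv0⟩ := Submodule.exists_mem_ne_zero_of_ne_bot h1
    rw [LinearMap.mem_ker, LinearMap.sub_apply, mulVecLin_apply, LinearMap.id_apply,
      sub_eq_zero] at hv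
    exact ⟨v, hv, hv0⟩
  set z : ℕ → ℂ := fun k => ze ^ k with hz
  set L : ℕ → ℂ[X] := fun k => Lagrange.basis un z k with hL
  set u : ℕ → Fin n → ℂ := fun k => aeval (C.rC C.t) (L k) *ᵥ cst_h12 v with hu
  have hgv : C.rC C.g *ᵥ cst_h12 v = cst_h12 v := by
    rw [C.rC_apply, ← cst_mulVec_h12, hv]
  have hPhi : aeval (C.rC C.t) (Phi_h12.map (algebraMap ℚ ℂ)) *ᵥ cst_h12 v = 0 := by
    rw [C.rC_apply, ← cst_aeval_h12, phi_h12 C hv]
    ext i
    exact map_zero _
  have hXL : ∀ k ∈ un, (X - Polynomial.C (z k)) * L k =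
      Polynomial.C (∏ j ∈ un.erase k, (z k - z j)⁻¹) * Phi_h12.map (algebraMap ℚ ℂ) := by
    intro k hk
    rw [← nodal_h12, Lagrange.nodal, ← Finset.mul_prod_erase un _ hk, hL]
    simp only [Lagrange.basis, Lagrange.basisDivisor, Finset.prod_mul_distrib, map_prod]
    ring
  have ht : ∀ k ∈ un, C.rC C.t *ᵥ u k = z k • u k := by
    intro k hk
    have h1 : aeval (C.rC C.t) ((X - Polynomial.C (z k)) * L k) *ᵥ cst_h12 v = 0 := by
      rw [hXL k hk, map_mul, ← mulVec_mulVec, hPhi, mulVec_zero]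
    rw [map_mul, ← mulVec_mulVec, map_sub, aeval_X, aeval_C, sub_mulVec, sub_eq_zero,
      Algebra.algebraMap_eq_smul_one, smul_mulVec, one_mulVec] at h1
    exact h1
  have heval : ∀ (y : Fin n → ℂ) (c : ℂ), C.rC C.t *ᵥ y = c • y → ∀ P : ℂ[X],
      aeval (C.rC C.t) P *ᵥ y = P.eval c • y := by
    intro y c hy P
    induction P using Polynomial.induction_on' with
    | add p q hp hq => rw [map_add, add_mulVec, hp, hq, eval_add, add_smul]
    | monomial k a =>
      have h1 : ∀ k : ℕ, (C.rC C.t) ^ k *ᵥ y = c ^ k • y := by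
        intro k
        induction k with
        | zero => rw [pow_zero, pow_zero, one_mulVec, one_smul]
        | succ k ih => rw [pow_succ, ← mulVec_mulVec, hy, mulVec_smul, ih, smul_smul, pow_succ']
      rw [aeval_monomial, ← Algebra.smul_def, smul_mulVec, h1, eval_monomial, smul_smul]
  have hcomm : ∀ (P : ℂ[X]) (k : ℕ), k ∈ un →
      aeval (C.rC C.t) (L k) *ᵥ (aeval (C.rC C.t) P *ᵥ cst_h12 v) = P.eval (z k) • u k := by
    intro P k hk
    rw [mulVec_mulVec, ← map_mul, mul_comm, map_mul, ← mulVec_mulVec]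
    exact heval (u k) (z k) (ht k hk) P
  refine ⟨u, ⟨?_, ?_, ht, ?_, ?_, ?_⟩⟩
  · -- nonzero
    intro k hk h0
    have hd : (L k).degree < 8 := by
      rw [hL]
      change (Lagrange.basis un z k).degree < 8
      rw [Lagrange.degree_basis inj_h12 hk]
      have : (un.card - 1 : ℕ) = 7 := by decide
      rw [this]
      exact_mod_cast (by norm_num : (7 : ℕ) < 8)
    have h1 := indC_h12 C hv hv0 (L k) hd h0
    have h2 := Lagrange.eval_basis_self inj_h12 hk
    change (L k).eval (z k) = 1 at h2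
    rw [h1, eval_zero] at h2
    exact zero_ne_one h2
  · intro k _
    exact stab_poly_h12 C C.rC _ hgv _
  · -- uniqueness
    intro k hk w hw hw'
    obtain ⟨P, hP⟩ := genC_h12 C hv hv0 w hw
    refine ⟨P.eval (z k), ?_⟩
    have h1 := heval w (z k) hw' (L k)
    have h2 : (L k).eval (z k) = 1 := Lagrange.eval_basis_self inj_h12 hk
    rw [h2, one_smul] at h1
    rw [← hcomm P k hk, hP, h1]
  · -- span
    intro w hw
    obtain ⟨P, hP⟩ := genC_h12 C hv hv0 w hw
    refine ⟨fun k => P.eval (z k), ?_⟩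
    have h1 : ∑ k ∈ un, L k = 1 := Lagrange.sum_basis inj_h12 (by decide)
    have h2 : w = aeval (C.rC C.t) (∑ k ∈ un, L k) *ᵥ w := by
      rw [h1, map_one, one_mulVec]
    rw [h2, map_sum, sum_mulVec]
    refine Finset.sum_congr rfl fun k hk => ?_
    rw [← hP, hcomm P k hk]
  · -- rational endomorphisms
    intro Y hY
    have hYv : C.rho C.g *ᵥ (Y *ᵥ v) = Y *ᵥ v := by
      rw [mulVec_mulVec, hY, ← mulVec_mulVec, hv]
    obtain ⟨p, hp⟩ := gen_h12 C hv hv0 _ hYv
    refine ⟨p, fun k hk => ?_⟩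
    have hYt : Commute (C.rC C.t) (Y.map (algebraMap ℚ ℂ)) := by
      have h1 := congrArg (fun M => Matrix.map M (algebraMap ℚ ℂ)) (hY C.t)
      simp only [Matrix.map_mul] at h1
      exact h1
    have hYt' : Commute (aeval (C.rC C.t) (L k)) (Y.map (algebraMap ℚ ℂ)) := by
      induction L k using Polynomial.induction_on' with
      | add p q hp hq => rw [map_add]; exact hp.add_left hq
      | monomial k a =>
        rw [aeval_monomial, ← Algebra.smul_def]
        exact (hYt.pow_left k).smul_left a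
    have h1 : (Y.map (algebraMap ℚ ℂ)) *ᵥ u k =
        aeval (C.rC C.t) (L k) *ᵥ ((Y.map (algebraMap ℚ ℂ)) *ᵥ cst_h12 v) := by
      change (Y.map (algebraMap ℚ ℂ)) *ᵥ (aeval (C.rC C.t) (L k) *ᵥ cst_h12 v) = _
      rw [mulVec_mulVec, ← hYt'.eq, ← mulVec_mulVec]
    rw [h1, ← cst_mulVec_h12, ← hp, cst_aeval_h12, ← C.rC_apply, hcomm _ k hk, eval_map,
      aeval_def]

end Pool.Agent.Helper58.E8Z
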