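import Pool.Agent.Helper58.E8Z.ChSgn

/-!
# Block E8Z-NUM: sums of roots of unity

Proof. `ze^15 = -1`, `ze^8 + ze^7 - ze^5 - ze^4 - ze^3 + ze + 1 = 0` (see the header of `ChEig.lean`: `ze^10 - ze^5 + 1 = 0` and
`ze^12 - ze^9 + ze^6 - ze^3 + 1 = 0`, then a Bezout combination).
`sum_five`: `∑ k ∈ un, ze^(5 k) = 4 (ze^5 + ze^25) = 4` (`ze^5 - 1 = ze^10`, `ze^25 = -ze^10`).
`sum_sq`: put `f j := ∑ k ∈ un, I * sg a b k * ze^(k j)`; `f 5 = f 25 * (±1)` etc. For `a = b`: `(f 5)^2 = (f 25)^2 = 48` and `(f j)^2 = 3` for the 8 units `j`;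
for `a = -b`: `f 5 = f 25 = 0` and `(f j)^2 = 15` for the 8 units. In both cases the sum is 120. Each value is a polynomial identity in `z = ze`
modulo `Φ_30(z)`; it is enough to treat `j = 5` and `j = 1` and to use that `(f j)^2` for the unit `j` is obtained from `(f 1)^2` by the substitution
`ze ↦ ze^j`, which is another root of `Φ_30` (prove the identity for every root `z` of `Φ_30`: `z^15 = -1` follows from `Φ_30(z) = 0`).
-/

set_option autoImplicit false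

namespace Pool.Agent.Helper58.E8Z

/-- A primitive root of order 30 satisfies `z^15 = -1`. -/
theorem num_p15 {z : ℂ} (hz : IsPrimitiveRoot z 30) : z ^ 15 = -1 := by
  have h1 : z ^ 30 = 1 := hz.pow_eq_one
  have h2 : z ^ 15 ≠ 1 := hz.pow_ne_one_of_pos_of_lt (by norm_num) (by norm_num)
  have h3 : (z ^ 15 - 1) * (z ^ 15 + 1) = 0 := by linear_combination h1
  rcases mul_eq_zero.1 h3 with h | h
  · exact absurd (sub_eq_zero.1 h) h2
  · linear_combination h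

/-- A primitive root of order 30 is a root of the cyclotomic polynomial. -/
theorem num_phi {z : ℂ} (hz : IsPrimitiveRoot z 30) :
    z ^ 8 + z ^ 7 - z ^ 5 - z ^ 4 - z ^ 3 + z + 1 = 0 := by
  have h15 := num_p15 hz
  have h5 : z ^ 10 - z ^ 5 + 1 = 0 := by
    have h2 : z ^ 5 ≠ -1 := by
      intro h
      have h3 : z ^ 10 = 1 := by
        calc z ^ 10 = (z ^ 5) ^ 2 := by ring
          _ = 1 := by rw [h]; norm_num
      exact hz.pow_ne_one_of_pos_of_lt (by norm_num) (by norm_num) h3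
    have h3 : (z ^ 5 + 1) * (z ^ 10 - z ^ 5 + 1) = 0 := by linear_combination h15
    rcases mul_eq_zero.1 h3 with h | h
    · exact absurd (eq_neg_of_add_eq_zero_left h) h2
    · exact h
  have h6 : z ^ 12 - z ^ 9 + z ^ 6 - z ^ 3 + 1 = 0 := by
    have h2 : z ^ 3 ≠ -1 := by
      intro h
      have h3 : z ^ 6 = 1 := by
        calc z ^ 6 = (z ^ 3) ^ 2 := by ring
          _ = 1 := by rw [h]; norm_num
      exact hz.pow_ne_one_of_pos_of_lt (by norm_num) (by norm_num) h3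
    have h3 : (z ^ 3 + 1) * (z ^ 12 - z ^ 9 + z ^ 6 - z ^ 3 + 1) = 0 := by linear_combination h15
    rcases mul_eq_zero.1 h3 with h | h
    · exact absurd (eq_neg_of_add_eq_zero_left h) h2
    · exact h
  linear_combination (1 - z ^ 3) * h5 + z * h6

theorem num_five {w : ℂ} (hw : w ^ 3 = -1) (hw2 : w ^ 2 - w + 1 = 0) :
    w ^ 1 + w ^ 7 + w ^ 11 + w ^ 13 + w ^ 17 + w ^ 19 + w ^ 23 + w ^ 29 = 4 := by
  have h1 : w ^ 7 = w := by
    calc w ^ 7 = (w ^ 3) ^ 2 * w := by ring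
      _ = w := by rw [hw]; ring
  have h2 : w ^ 11 = - w ^ 2 := by
    calc w ^ 11 = (w ^ 3) ^ 3 * w ^ 2 := by ring
      _ = - w ^ 2 := by rw [hw]; ring
  have h3 : w ^ 13 = w := by
    calc w ^ 13 = (w ^ 3) ^ 4 * w := by ring
      _ = w := by rw [hw]; ring
  have h4 : w ^ 17 = - w ^ 2 := by
    calc w ^ 17 = (w ^ 3) ^ 5 * w ^ 2 := by ring
      _ = - w ^ 2 := by rw [hw]; ring
  have h5 : w ^ 19 = w := by
    calc w ^ 19 = (w ^ 3) ^ 6 * w := by ring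
      _ = w := by rw [hw]; ring
  have h6 : w ^ 23 = - w ^ 2 := by
    calc w ^ 23 = (w ^ 3) ^ 7 * w ^ 2 := by ring
      _ = - w ^ 2 := by rw [hw]; ring
  have h7 : w ^ 29 = - w ^ 2 := by
    calc w ^ 29 = (w ^ 3) ^ 9 * w ^ 2 := by ring
      _ = - w ^ 2 := by rw [hw]; ring
  rw [h1, h2, h3, h4, h5, h6, h7]
  linear_combination (-4) * hw2

/-- `w = ze^5` or `ze^25` is a primitive root of order 6. -/
theorem num_six {j : ℕ} (hj : j = 5 ∨ j = 25) :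
    (ze ^ j) ^ 3 = -1 ∧ (ze ^ j) ^ 2 - ze ^ j + 1 = 0 := by
  have h15 := num_p15 ze_prim
  have hw : (ze ^ j) ^ 3 = -1 := by
    rcases hj with rfl | rfl
    · calc (ze ^ 5) ^ 3 = ze ^ 15 := by ring
        _ = -1 := h15
    · calc (ze ^ 25) ^ 3 = (ze ^ 15) ^ 5 := by ring
        _ = -1 := by rw [h15]; norm_num
  refine ⟨hw, ?_⟩
  have h2 : ze ^ j ≠ -1 := by
    intro h
    have h3 : (ze ^ j) ^ 2 = 1 := by rw [h]; norm_num
    rw [← pow_mul, ze_prim.pow_eq_one_iff_dvd] at h3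
    rcases hj with rfl | rfl <;> omega
  have h3 : (ze ^ j + 1) * ((ze ^ j) ^ 2 - ze ^ j + 1) = 0 := by linear_combination hw
  rcases mul_eq_zero.1 h3 with h | h
  · exact absurd (eq_neg_of_add_eq_zero_left h) h2
  · exact h

theorem sum_un {M : Type*} [AddCommMonoid M] (f : ℕ → M) :
    ∑ k ∈ un, f k = f 1 + f 7 + f 11 + f 13 + f 17 + f 19 + f 23 + f 29 := by
  unfold un
  repeat rw [Finset.sum_insert (by decide)]
  rw [Finset.sum_singleton]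
  simp only [add_assoc]

theorem sum_jj {M : Type*} [AddCommMonoid M] (f : ℕ → M) :
    ∑ k ∈ jj, f k = f 5 + f 25 + f 1 + f 7 + f 11 + f 13 + f 17 + f 19 + f 23 + f 29 := by
  unfold jj
  repeat rw [Finset.sum_insert (by decide)]
  rw [Finset.sum_singleton]
  simp only [add_assoc]

theorem sum_five (j : ℕ) (hj : j = 5 ∨ j = 25) : ∑ k ∈ un, (1 : ℂ) * ze ^ (k * j) = 4 := by
  obtain ⟨h1, h2⟩ := num_six hj
  rw [← num_five h1 h2, sum_un]
  simp only [one_mul, pow_one]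
  have e : ∀ k : ℕ, ze ^ (k * j) = (ze ^ j) ^ k := by
    intro k
    rw [mul_comm, pow_mul]
  simp only [e]

/-- The value of the inner sum. -/
theorem inner (a b : ℝ) (j : ℕ) :
    ∑ k ∈ un, Complex.I * (sg a b k : ℂ) * ze ^ (k * j)
      = Complex.I * ((a : ℂ) * ((ze ^ j) ^ 1 + (ze ^ j) ^ 19 - (ze ^ j) ^ 11 - (ze ^ j) ^ 29)
        + (b : ℂ) * ((ze ^ j) ^ 7 + (ze ^ j) ^ 13 - (ze ^ j) ^ 17 - (ze ^ j) ^ 23)) := by
  have e : ∀ k : ℕ, ze ^ (k * j) = (ze ^ j) ^ k := by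
    intro k
    rw [mul_comm, pow_mul]
  simp only [e]
  rw [sum_un]
  simp only [sg]
  norm_num
  ring

/-- Reduction of the powers by `z^15 = -1`. -/
theorem num_red {z : ℂ} (h15 : z ^ 15 = -1) :
    z ^ 1 + z ^ 19 - z ^ 11 - z ^ 29 = z - z ^ 4 - z ^ 11 + z ^ 14 ∧
    z ^ 7 + z ^ 13 - z ^ 17 - z ^ 23 = z ^ 2 + z ^ 7 + z ^ 8 + z ^ 13 := by
  constructor
  · linear_combination (z ^ 4 - z ^ 14) * h15
  · linear_combination (- z ^ 2 - z ^ 8) * h15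

/-- The value for the primitive roots of order 30. -/
theorem num_unit {z : ℂ} (hz : IsPrimitiveRoot z 30) (a b : ℂ) (ha : a ^ 2 = 1) (hb : b ^ 2 = 1) :
    (Complex.I * (a * (z ^ 1 + z ^ 19 - z ^ 11 - z ^ 29) + b * (z ^ 7 + z ^ 13 - z ^ 17 - z ^ 23))) ^ 2
      = 9 - 6 * (a * b) := by
  obtain ⟨r1, r2⟩ := num_red (num_p15 hz)
  have hphi := num_phi hz
  rw [r1, r2]
  have q1 : (z - z ^ 4 - z ^ 11 + z ^ 14) ^ 2 + (z ^ 2 + z ^ 7 + z ^ 8 + z ^ 13) ^ 2 = -9 := by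
    linear_combination (9 - 9 * z + 10 * z ^ 2 - z ^ 3 + 2 * z ^ 4 + 6 * z ^ 5 - 6 * z ^ 6 + 8 * z ^ 7 + 3 * z ^ 9
      - 2 * z ^ 10 + 3 * z ^ 11 - 2 * z ^ 12 + 3 * z ^ 13 - z ^ 15 + 3 * z ^ 16 - 3 * z ^ 17 + 2 * z ^ 18
      - z ^ 19 + z ^ 20) * hphi
  have q2 : (z - z ^ 4 - z ^ 11 + z ^ 14) * (z ^ 2 + z ^ 7 + z ^ 8 + z ^ 13) = 3 := by
    linear_combination (-3 + 3 * z - 3 * z ^ 2 + z ^ 3 - z ^ 4 - 2 * z ^ 5 + 2 * z ^ 6 - 2 * z ^ 7 + z ^ 8 - z ^ 9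
      + z ^ 10 - z ^ 11 + z ^ 12 - z ^ 13 + z ^ 14 + z ^ 15 - z ^ 16 + z ^ 17 - z ^ 18 + z ^ 19) * hphi
  set A := z - z ^ 4 - z ^ 11 + z ^ 14
  set B := z ^ 2 + z ^ 7 + z ^ 8 + z ^ 13
  have hI : Complex.I ^ 2 = -1 := Complex.I_sq
  calc (Complex.I * (a * A + b * B)) ^ 2
      = Complex.I ^ 2 * (a ^ 2 * A ^ 2 + b ^ 2 * B ^ 2 + 2 * (a * b) * (A * B)) := by ring
    _ = 9 - 6 * (a * b) := by
      rw [hI, ha, hb, q2]
      linear_combination (-1) * q1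

/-- The value for the primitive roots of order 6. -/
theorem num_val6 {w : ℂ} (hw : w ^ 3 = -1) (hw2 : w ^ 2 - w + 1 = 0) (a b : ℂ) (ha : a ^ 2 = 1) (hb : b ^ 2 = 1) :
    (Complex.I * (a * (w ^ 1 + w ^ 19 - w ^ 11 - w ^ 29) + b * (w ^ 7 + w ^ 13 - w ^ 17 - w ^ 23))) ^ 2
      = 24 + 24 * (a * b) := by
  have h15 : w ^ 15 = -1 := by
    calc w ^ 15 = (w ^ 3) ^ 5 := by ring
      _ = -1 := by rw [hw]; norm_num
  obtain ⟨r1, r2⟩ := num_red h15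
  rw [r1, r2]
  have q1 : w - w ^ 4 - w ^ 11 + w ^ 14 = 2 * (w + w ^ 2) := by
    linear_combination (- w - w ^ 2 * (w ^ 6 - w ^ 3 + 1) + w ^ 2 * (w ^ 9 - w ^ 6 + w ^ 3 - 1)) * hw
  have q2 : w ^ 2 + w ^ 7 + w ^ 8 + w ^ 13 = 2 * (w + w ^ 2) := by
    linear_combination ((w + w ^ 2) * (w ^ 3 - 1) + w * (w ^ 9 - w ^ 6 + w ^ 3 - 1)) * hw
  have q3 : (w + w ^ 2) ^ 2 = -3 := by
    linear_combination (w ^ 2 + 3 * w + 3) * hw2
  rw [q1, q2]
  have hI : Complex.I ^ 2 = -1 := Complex.I_sq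
  calc (Complex.I * (a * (2 * (w + w ^ 2)) + b * (2 * (w + w ^ 2)))) ^ 2
      = Complex.I ^ 2 * (4 * (a ^ 2 + b ^ 2 + 2 * (a * b)) * (w + w ^ 2) ^ 2) := by ring
    _ = 24 + 24 * (a * b) := by
      rw [hI, ha, hb, q3]
      ring

theorem sum_sq (a b : ℝ) (ha : a = 1 ∨ a = -1) (hb : b = 1 ∨ b = -1) :
    ∑ j ∈ jj, (∑ k ∈ un, Complex.I * (sg a b k : ℂ) * ze ^ (k * j)) ^ 2 = 120 := by
  have ha2 : (a : ℂ) ^ 2 = 1 := by
    rcases ha with rfl | rfl <;> norm_num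
  have hb2 : (b : ℂ) ^ 2 = 1 := by
    rcases hb with rfl | rfl <;> norm_num
  have h6 : ∀ j : ℕ, j = 5 ∨ j = 25 →
      (∑ k ∈ un, Complex.I * (sg a b k : ℂ) * ze ^ (k * j)) ^ 2 = 24 + 24 * ((a : ℂ) * b) := by
    intro j hj
    obtain ⟨h1, h2⟩ := num_six hj
    rw [inner]
    exact num_val6 h1 h2 a b ha2 hb2
  have h30 : ∀ j : ℕ, Nat.Coprime j 30 →
      (∑ k ∈ un, Complex.I * (sg a b k : ℂ) * ze ^ (k * j)) ^ 2 = 9 - 6 * ((a : ℂ) * b) := by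
    intro j hj
    rw [inner]
    exact num_unit (ze_prim.pow_of_coprime j hj) a b ha2 hb2
  rw [sum_jj, h6 5 (Or.inl rfl), h6 25 (Or.inr rfl), h30 1 (by norm_num), h30 7 (by norm_num), h30 11 (by norm_num),
    h30 13 (by norm_num), h30 17 (by norm_num), h30 19 (by norm_num), h30 23 (by norm_num), h30 29 (by norm_num)]
  ring

end Pool.Agent.Helper58.E8Z
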