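import Pool.Agent.Helper58.E8Z.CD

/-!
# Block E8Z-TR: the traces on the powers of `t`

Proof. `A` is a complex matrix which commutes with `rC g` and `rC t`, `A u_k = c_k u_k`.
(1) For `0 ≤ i`: `t^j g^i` is conjugate to `t^j` by a power of `g`: `g^a t^j g^(-a) = t^j (t^(-j) g^a t^j) g^(-a)`, and `t^(-j) g t^j = g^s` with
`s ≡ r^(-j)` modulo 31 (from `hr`; if `t^j g t^(-j) = g^(r^j)` and `s * r^j ≡ 1 mod 31` then `t^(-j) g t^j = g^s`), so
`g^a t^j g^(-a) = t^j g^(a (s - 1))`; `s - 1` is invertible modulo 31 because `r^j` is not `1` modulo 31 (`hr'`, `30 ∤ j`), so every `g^i` is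
of the form `g^(a (s - 1))`. (`r` is not divisible by 31: otherwise `g = 1`, then ... you may use: `C.hr'` with `j = 0` is trivial; `t g t⁻¹ = g^r`
implies `t^30 g t^(-30) = g^(r^30)`, `t^30 = 1`, so `g = g^(r^30)`. If `g = 1` then `ker (rho g - 1)` is everything, and all `t^j g^i = t^j`: the statement (1) is trivial. If `g ≠ 1`
then `g` has order 31 and `r^30 ≡ 1`.) So `trace (A * rC (t^j) * rC (g^i)) = trace (A * rC (t^j))` for all `i`, as `A` commutes with `rC g`.
(2) `e₀ := (1/31) ∑ i < 31, rC (g^i)` is idempotent with image `ker (rC g - 1)`; by (1) `trace (A * rC (t^j)) = trace (A * rC (t^j) * e₀)`.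
(3) `T := A * rC (t^j) * e₀` has its image in `Z_C = ker (rC g - 1)` and acts on it with `T u_k = c_k ze^(k j) u_k`; the `u_k` (`k` in `un`) are a
basis of `Z_C` (spanning by `hu.span`, linearly independent because they are eigenvectors of `rC t` for different eigenvalues `ze^k`:
`Module.End.eigenvectors_linearIndependent'`, `ze_prim.pow_inj`). So `trace T = trace (T restricted to Z_C) = ∑ k, c_k ze^(k j)`
(`LinearMap.trace_restrict_eq_of_forall_mem` or `LinearMap.IsProj`, `LinearMap.trace_eq_matrix_trace` in the basis of the `u_k`).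
-/

set_option autoImplicit false

namespace Pool.Agent.Helper58.E8Z

open Matrix

variable {n : ℕ} {F : Type} [Group F] [Fintype F] (C : CD n F)

/-- Every product `t ^ j * g ^ i` is conjugate to `t ^ j` by a power of `g`. -/
theorem exists_conj (j : ℕ) (hj : ¬ 30 ∣ j) (i : ℕ) :
    ∃ a : ℕ, C.g ^ a * C.t ^ j * (C.g ^ a)⁻¹ = C.t ^ j * C.g ^ i := by
  have ht30 : C.t ^ 30 = 1 := by rw [← C.ht]; exact pow_orderOf_eq_one _
  have h1 : ∀ m : ℕ, C.t ^ m * C.g * (C.t ^ m)⁻¹ = C.g ^ (C.r ^ m) := by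
    intro m
    induction m with
    | zero => simp
    | succ m ih =>
      have e : C.t ^ (m + 1) * C.g * (C.t ^ (m + 1))⁻¹ =
          C.t ^ m * (C.t * C.g * C.t⁻¹) * (C.t ^ m)⁻¹ := by
        rw [pow_succ]
        group
      have e2 : C.t ^ m * C.g ^ C.r * (C.t ^ m)⁻¹ = (C.t ^ m * C.g * (C.t ^ m)⁻¹) ^ C.r := by
        rw [conj_pow]
      rw [e, C.hr, e2, ih, ← pow_mul, pow_succ]
  have h2 : C.t ^ (29 * j) = (C.t ^ j)⁻¹ := by
    rw [eq_inv_iff_mul_eq_one, ← pow_add]
    have : 29 * j + j = 30 * j := by ring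
    rw [this, pow_mul, ht30, one_pow]
  have h3 : (C.t ^ j)⁻¹ * C.g * C.t ^ j = C.g ^ (C.r ^ (29 * j)) := by
    rw [← h1 (29 * j), h2, inv_inv]
  set s : ℕ := C.r ^ (29 * j) with hs
  have hs1 : (s : ZMod 31) ≠ 1 := by
    intro h
    have h4 : s ≡ 1 [MOD 31] := by
      have : ((s : ℕ) : ZMod 31) = ((1 : ℕ) : ZMod 31) := by rw [h]; simp
      exact (ZMod.natCast_eq_natCast_iff _ _ _).mp this
    have h5 : C.r ^ (29 * j) % 31 = 1 := h4
    have h6 := C.hr' _ h5
    omega
  haveI : Fact (Nat.Prime 31) := ⟨by norm_num⟩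
  have hs2 : (s : ZMod 31) - 1 ≠ 0 := sub_ne_zero.mpr hs1
  set a : ℕ := ((i : ZMod 31) / ((s : ZMod 31) - 1)).val with ha
  have ha1 : (a : ZMod 31) * ((s : ZMod 31) - 1) = i := by
    rw [ha, ZMod.natCast_val, ZMod.cast_id', id_eq, div_mul_cancel₀ _ hs2]
  have ha2 : (s * a) ≡ (i + a) [MOD 31] := by
    rw [← ZMod.natCast_eq_natCast_iff]
    push_cast
    linear_combination ha1
  have ha3 : C.g ^ (s * a) = C.g ^ (i + a) := by
    have h7 : orderOf C.g ∣ 31 := orderOf_dvd_of_pow_eq_one C.hg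
    exact pow_eq_pow_iff_modEq.mpr (ha2.of_dvd h7)
  refine ⟨a, ?_⟩
  have h8 : (C.t ^ j)⁻¹ * C.g ^ a * C.t ^ j = C.g ^ (s * a) := by
    have : (C.t ^ j)⁻¹ * C.g ^ a * C.t ^ j = ((C.t ^ j)⁻¹ * C.g * C.t ^ j) ^ a := by
      have := conj_pow (i := a) (a := (C.t ^ j)⁻¹) (b := C.g)
      rw [inv_inv] at this
      exact this.symm
    rw [this, h3, ← pow_mul]
  have h9 : C.g ^ a * C.t ^ j = C.t ^ j * C.g ^ (s * a) := by
    rw [← h8]
    group
  rw [h9, ha3, pow_add]
  group

/-- The trace does not see the powers of `g`. -/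
theorem trace_conj_aux (A : Matrix (Fin n) (Fin n) ℂ)
    (hg : C.rC C.g * A = A * C.rC C.g) (j : ℕ) (hj : ¬ 30 ∣ j) (i : ℕ) :
    trace (A * C.rC (C.t ^ j) * C.rC (C.g ^ i)) = trace (A * C.rC (C.t ^ j)) := by
  obtain ⟨a, ha⟩ := exists_conj C j hj i
  have hga : C.rC (C.g ^ a) * A = A * C.rC (C.g ^ a) := by
    rw [map_pow]
    exact (Commute.pow_left hg a)
  have h1 : A * C.rC (C.t ^ j) * C.rC (C.g ^ i) =
      C.rC (C.g ^ a) * (A * C.rC (C.t ^ j)) * C.rC ((C.g ^ a)⁻¹) := by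
    rw [mul_assoc, ← map_mul, ← ha, map_mul, map_mul, ← mul_assoc, ← mul_assoc, ← hga]
    simp only [mul_assoc]
  rw [h1, Matrix.trace_mul_comm, ← mul_assoc, ← map_mul, inv_mul_cancel, map_one, one_mul]

theorem trace_tpow {u : ℕ → Fin n → ℂ} (hu : Eig C u) (A : Matrix (Fin n) (Fin n) ℂ)
    (hg : C.rC C.g * A = A * C.rC C.g) (ht : C.rC C.t * A = A * C.rC C.t)
    (c : ℕ → ℂ) (hc : ∀ k ∈ un, A.mulVec (u k) = c k • u k) (j : ℕ) (hj : ¬ 30 ∣ j) :
    trace (A * C.rC (C.t ^ j)) = ∑ k ∈ un, c k * ze ^ (k * j) := by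
  classical
  set G : Matrix (Fin n) (Fin n) ℂ := C.rC C.g with hG
  set T : Matrix (Fin n) (Fin n) ℂ := C.rC C.t with hT
  set e₀ : Matrix (Fin n) (Fin n) ℂ := (1 / 31 : ℂ) • ∑ i ∈ Finset.range 31, G ^ i with he₀
  have hG31 : G ^ 31 = 1 := by rw [hG, ← map_pow, C.hg, map_one]
  have hGe : G * e₀ = e₀ := by
    rw [he₀, mul_smul_comm]
    congr 1
    rw [Finset.mul_sum]
    have : ∑ i ∈ Finset.range 31, G * G ^ i = ∑ i ∈ Finset.range 31, G ^ (i + 1) :=
      Finset.sum_congr rfl fun i _ => by rw [pow_succ']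
    rw [this]
    have h1 := Finset.sum_range_succ' (fun i => G ^ i) 31
    have h2 := Finset.sum_range_succ (fun i => G ^ i) 31
    simp only [pow_zero] at h1
    rw [hG31] at h2
    exact add_right_cancel (h1.symm.trans h2)
  have heG : ∀ v : Fin n → ℂ, G.mulVec v = v → e₀.mulVec v = v := by
    intro v hv
    have hp : ∀ i : ℕ, (G ^ i).mulVec v = v := by
      intro i
      induction i with
      | zero => simp
      | succ i ih => rw [pow_succ, ← Matrix.mulVec_mulVec, hv, ih]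
    rw [he₀, Matrix.smul_mulVec, Matrix.sum_mulVec, Finset.sum_congr rfl fun i _ => hp i,
      Finset.sum_const, Finset.card_range, ← Nat.cast_smul_eq_nsmul ℂ, smul_smul]
    norm_num
  set M : Matrix (Fin n) (Fin n) ℂ := A * C.rC (C.t ^ j) * e₀ with hM
  have htr : trace M = trace (A * C.rC (C.t ^ j)) := by
    rw [hM, he₀, mul_smul_comm, Matrix.trace_smul, Finset.mul_sum, Matrix.trace_sum]
    have : ∀ i ∈ Finset.range 31, trace (A * C.rC (C.t ^ j) * G ^ i) =
        trace (A * C.rC (C.t ^ j)) := by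
      intro i _
      rw [hG, ← map_pow]
      exact trace_conj_aux C A hg j hj i
    rw [Finset.sum_congr rfl this, Finset.sum_const, Finset.card_range]
    simp only [nsmul_eq_mul, smul_eq_mul]
    push_cast
    ring
  rw [← htr]
  -- the fixed space of `g`
  let Z : Submodule ℂ (Fin n → ℂ) := LinearMap.ker (G.mulVecLin - LinearMap.id)
  have hZ : ∀ v, v ∈ Z ↔ G.mulVec v = v := by
    intro v
    change ((G.mulVecLin - LinearMap.id : (Fin n → ℂ) →ₗ[ℂ] (Fin n → ℂ)) v) = 0 ↔ _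
    rw [LinearMap.sub_apply, Matrix.mulVecLin_apply, LinearMap.id_apply, sub_eq_zero]
  have hTG : ∀ v, G.mulVec v = v → G.mulVec (T.mulVec v) = T.mulVec v := by
    intro v hv
    -- `g t = t (t⁻¹ g t)` and `t⁻¹ g t` is a power of `g`
    have h1 : C.g * C.t = C.t * C.g ^ (C.r ^ 29) := by
      have ht30 : C.t ^ 30 = 1 := by rw [← C.ht]; exact pow_orderOf_eq_one _
      have h1 : ∀ m : ℕ, C.t ^ m * C.g * (C.t ^ m)⁻¹ = C.g ^ (C.r ^ m) := by
        intro m
        induction m with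
        | zero => simp
        | succ m ih =>
          have e : C.t ^ (m + 1) * C.g * (C.t ^ (m + 1))⁻¹ =
              C.t ^ m * (C.t * C.g * C.t⁻¹) * (C.t ^ m)⁻¹ := by
            rw [pow_succ]
            group
          have e2 : C.t ^ m * C.g ^ C.r * (C.t ^ m)⁻¹ =
              (C.t ^ m * C.g * (C.t ^ m)⁻¹) ^ C.r := by
            rw [conj_pow]
          rw [e, C.hr, e2, ih, ← pow_mul, pow_succ]
      have h2 : C.t ^ 29 = (C.t)⁻¹ := by
        rw [eq_inv_iff_mul_eq_one, ← pow_succ, ht30]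
      rw [← h1 29, h2, inv_inv]
      group
    have h2 : G * T = T * G ^ (C.r ^ 29) := by
      rw [hG, hT, ← map_pow, ← map_mul, ← map_mul, h1]
    have hp : ∀ i : ℕ, (G ^ i).mulVec v = v := by
      intro i
      induction i with
      | zero => simp
      | succ i ih => rw [pow_succ, ← Matrix.mulVec_mulVec, hv, ih]
    rw [Matrix.mulVec_mulVec, h2, ← Matrix.mulVec_mulVec, hp]
  have hTjG : ∀ (m : ℕ) v, G.mulVec v = v → G.mulVec ((C.rC (C.t ^ m)).mulVec v) =
      (C.rC (C.t ^ m)).mulVec v := by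
    intro m
    induction m with
    | zero => intro v hv; simpa using hv
    | succ m ih =>
      intro v hv
      rw [pow_succ', map_mul, ← Matrix.mulVec_mulVec]
      exact hTG _ (ih v hv)
  have hMZ : ∀ v, M.mulVec v ∈ Z := by
    intro v
    rw [hZ, hM, ← Matrix.mulVec_mulVec, ← Matrix.mulVec_mulVec]
    have h1 : G.mulVec (e₀.mulVec v) = e₀.mulVec v := by
      rw [Matrix.mulVec_mulVec, hGe]
    have h2 := hTjG j _ h1
    rw [Matrix.mulVec_mulVec, hg, ← Matrix.mulVec_mulVec, h2]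
  have hTu : ∀ k ∈ un, ∀ m : ℕ, (C.rC (C.t ^ m)).mulVec (u k) = ze ^ (k * m) • u k := by
    intro k hk m
    induction m with
    | zero => simp
    | succ m ih =>
      rw [pow_succ', map_mul, ← Matrix.mulVec_mulVec, ih, Matrix.mulVec_smul, hu.t k hk, smul_smul]
      congr 1
      rw [← pow_add]
      congr 1
  have hMu : ∀ k ∈ un, M.mulVec (u k) = (c k * ze ^ (k * j)) • u k := by
    intro k hk
    rw [hM, ← Matrix.mulVec_mulVec, ← Matrix.mulVec_mulVec, heG _ (hu.g k hk), hTu k hk,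
      Matrix.mulVec_smul, hc k hk, smul_smul, mul_comm]
  -- the basis of `Z`
  let b₀ : {k // k ∈ un} → Z := fun k => ⟨u k, (hZ _).mpr (hu.g k k.2)⟩
  have hli : LinearIndependent ℂ b₀ := by
    have h1 : LinearIndependent ℂ (fun k : {k // k ∈ un} => u k) := by
      apply Module.End.eigenvectors_linearIndependent' (T.mulVecLin)
        (fun k : {k // k ∈ un} => ze ^ (k : ℕ))
      · intro k l hkl
        have hk30 : ∀ k ∈ un, k < 30 := by decide
        exact Subtype.ext (ze_prim.pow_inj (hk30 _ k.2) (hk30 _ l.2) hkl)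
      · intro k
        refine ⟨?_, hu.ne k k.2⟩
        rw [Module.End.mem_eigenspace_iff]
        exact hu.t k k.2
    exact LinearIndependent.of_comp Z.subtype h1
  have hsp : ⊤ ≤ Submodule.span ℂ (Set.range b₀) := by
    rintro ⟨v, hv⟩ _
    obtain ⟨d, hd⟩ := hu.span v ((hZ v).mp hv)
    have h1 : (⟨v, hv⟩ : Z) = ∑ k : {k // k ∈ un}, d k • b₀ k := by
      apply Subtype.ext
      rw [Submodule.coe_sum]
      change v = ∑ k : {k // k ∈ un}, d k • u k
      rw [hd]
      exact (Finset.sum_coe_sort un (fun k => d k • u k)).symm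
    rw [h1]
    exact Submodule.sum_mem _ fun k _ => Submodule.smul_mem _ _
      (Submodule.subset_span ⟨k, rfl⟩)
  let b := Module.Basis.mk hli hsp
  have hres := LinearMap.trace_restrict_eq_of_forall_mem Z (Matrix.toLin' M) (fun v => by
    rw [Matrix.toLin'_apply]; exact hMZ v)
  have htM : LinearMap.trace ℂ _ (Matrix.toLin' M) = trace M := by
    rw [LinearMap.trace_eq_matrix_trace ℂ (Pi.basisFun ℂ (Fin n)),
      LinearMap.toMatrix_eq_toMatrix', LinearMap.toMatrix'_toLin']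
  rw [← htM, ← hres, LinearMap.trace_eq_matrix_trace ℂ b, Matrix.trace,
    ← Finset.sum_coe_sort un]
  apply Finset.sum_congr rfl
  intro k _
  rw [Matrix.diag_apply, LinearMap.toMatrix_apply]
  have h1 : (LinearMap.restrict (Matrix.toLin' M) (p := Z) (q := Z) (fun v _ => by
      rw [Matrix.toLin'_apply]; exact hMZ v)) (b k) = (c k * ze ^ ((k : ℕ) * j)) • b k := by
    apply Subtype.ext
    rw [LinearMap.coe_restrict_apply, Matrix.toLin'_apply]
    have h2 : ((b k : Z) : Fin n → ℂ) = u k := by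
      change ((Module.Basis.mk hli hsp k : Z) : Fin n → ℂ) = u k
      rw [Module.Basis.mk_apply]
    rw [Submodule.coe_smul, h2]
    exact hMu k k.2
  rw [h1, map_smul, Finsupp.smul_apply, Module.Basis.repr_self, Finsupp.single_eq_same, smul_eq_mul,
    mul_one]

end Pool.Agent.Helper58.E8Z
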