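import Pool.Agent.Helper58.E8Z.ChCls
import Pool.Agent.Helper58.E8Z.ChEig
import Pool.Agent.Helper58.E8Z.ChCom
import Pool.Agent.Helper58.E8Z.ChAvg
import Pool.Agent.Helper58.E8Z.ChTr
import Pool.Agent.Helper58.E8Z.ChNum

/-!
# Endgame (E4): the contradiction
-/

set_option autoImplicit false

namespace Pool.Agent.Helper58.E8Z

open Matrix

variable {n : ℕ} {F : Type} [Group F] [Fintype F] (C : CD n F)

theorem trace_toC (A : Matrix (Fin n) (Fin n) ℝ) (x : F) :
    ((trace (A * C.rR x) : ℝ) : ℂ) = trace (A.map (algebraMap ℝ ℂ) * C.rC x) := by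
  rw [C.rC_eq, ← Matrix.map_mul, Matrix.trace, Matrix.trace]
  simp

theorem not_jj : ∀ j ∈ jj, ¬ 30 ∣ j := by decide

theorem un_pos : ∀ k ∈ un, True := fun _ _ => trivial

/-- The data `CD` are contradictory. -/
theorem CD.false (C : CD n F) : False := by
  obtain ⟨u, hu⟩ := exists_eig C
  have hcard : (0 : ℝ) < Fintype.card F := by exact_mod_cast Fintype.card_pos
  rcases com_cases C hu with hD | ⟨J, hJ, hJ2, hD, hS⟩
  · -- the commuting algebra is `R`
    have h1 := sum_one C hD
    have h2 := sum_ge C (fun x => trace (C.rR x) ^ 2) (fun x => sq_nonneg _) (fun x y => by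
      have := trace_conj C 1 (fun x => by rw [mul_one, one_mul]) x y
      simp only [one_mul] at this
      simp only [this])
    have h3 : ∀ j, j = 5 ∨ j = 25 → trace (C.rR (C.t ^ j)) = 4 := by
      intro j hj
      have h4 := trace_tpow C hu 1 (by simp) (by simp) (fun _ => 1) (fun k _ => by simp) j
        (by rcases hj with rfl | rfl <;> decide)
      rw [sum_five j hj] at h4
      have h5 := trace_toC C 1 (C.t ^ j)
      simp only [one_mul, Matrix.map_one _ (map_zero _) (map_one _)] at h5 h4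
      rw [h4] at h5
      exact_mod_cast h5
    have h6 : (32 : ℝ) ≤ ∑ j ∈ jj, trace (C.rR (C.t ^ j)) ^ 2 := by
      have h7 : ∑ j ∈ ({5, 25} : Finset ℕ), trace (C.rR (C.t ^ j)) ^ 2 ≤ ∑ j ∈ jj, trace (C.rR (C.t ^ j)) ^ 2 :=
        Finset.sum_le_sum_of_subset_of_nonneg (by decide) fun _ _ _ => sq_nonneg _
      rw [Finset.sum_pair (by decide), h3 5 (Or.inl rfl), h3 25 (Or.inr rfl)] at h7
      linarith
    have h8 : ∑ x, trace (C.rR x) ^ 2 = Fintype.card F := by
      rw [← h1]
      refine Finset.sum_congr rfl fun x _ => ?_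
      rw [trace_inv_one, sq]
    rw [h8] at h2
    have h9 : (Fintype.card F : ℝ) * 32 ≤ Fintype.card F * ∑ j ∈ jj, trace (C.rR (C.t ^ j)) ^ 2 :=
      mul_le_mul_of_nonneg_left h6 hcard.le
    nlinarith
  · -- the commuting algebra is `C`
    obtain ⟨a, b, ha, hb, hab⟩ := signs C hu J hJ hJ2 hD
    have h1 := sum_J C J hJ hJ2 hD hS
    have h2 := sum_ge C (fun x => trace (J * C.rR x) ^ 2) (fun x => sq_nonneg _) (fun x y => by
      simp only [trace_conj C J hJ x y])
    have hcomm : ∀ x, C.rC x * J.map (algebraMap ℝ ℂ) = J.map (algebraMap ℝ ℂ) * C.rC x := by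
      intro x
      rw [C.rC_eq, ← Matrix.map_mul, hJ x, Matrix.map_mul]
    have h3 : ∑ j ∈ jj, trace (J * C.rR (C.t ^ j)) ^ 2 = (120 : ℝ) := by
      have h4 := sum_sq a b ha hb
      have h5 : ((∑ j ∈ jj, trace (J * C.rR (C.t ^ j)) ^ 2 : ℝ) : ℂ) = ((120 : ℝ) : ℂ) := by
        push_cast
        rw [← h4]
        refine Finset.sum_congr rfl fun j hj => ?_
        rw [trace_toC, trace_tpow C hu _ (hcomm _) (hcomm _) _ hab j (not_jj j hj)]
      exact_mod_cast h5
    rw [h3] at h2
    have h8 : ∑ x, trace (J * C.rR x) ^ 2 = 2 * Fintype.card F := by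
      have : ∑ x, trace (J * C.rR x) * trace (C.rR x⁻¹ * J) = ∑ x, -(trace (J * C.rR x) ^ 2) :=
        Finset.sum_congr rfl fun x _ => by rw [trace_inv_J C J hS]; ring
      rw [this, Finset.sum_neg_distrib] at h1
      linarith
    rw [h8] at h2
    nlinarith

end Pool.Agent.Helper58.E8Z
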