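import Pool.Agent.Helper58.E8Z.CD

/-!
# Block E8Z-SGN: the signs of the complex structure

Proof. (1) There is a rational matrix `X` which commutes with all `rho x` and is not a scalar: for a real matrix `Y` with `Com Y` we have
`card F • Y = ∑ x, rR x * Y * rR x⁻¹ = ∑ i, ∑ j, Y i j • Av (E i j)` with `Av (E i j) = ∑ x, rR x * E i j * rR x⁻¹`, the image of the rational
matrix `∑ x, rho x * E i j * rho x⁻¹`, which commutes with all `rho x`. If all of them were scalar, `J` would be scalar, `J = c • 1`, `c^2 = -1`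
(`n > 0` by `C.fix_dim`), contradiction.
(2) `X.map = a • 1 + b • J` with real `a, b`, `b ≠ 0` (`hD`). `J.map` commutes with `rC g`, `rC t`, so `J.map (u k) = c_k u_k` with `c_k^2 = -1`
(`hu.uniq`, `hu.ne`), `c_k = I * e_k`, `e_k = 1` or `-1`. By `hu.rat`, with `P(z) := aeval z p`:
`P(ze^k) = a + b c_k` for `k` in `un` (`u k ≠ 0`).
(3) `P` has real coefficients, so `P(conj z) = conj (P z)`; `conj (ze^k) = ze^(30 - k)` (`ze` is on the unit circle). So `e_(30-k) = - e_k`.
(4) For a polynomial `q ∈ ℚ[X]` with `q(ze) = 0` we have `q(ze^k) = 0` for all `k` in `un` (`minpoly.dvd`, `Polynomial.cyclotomic_eq_minpoly_rat`,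
`IsPrimitiveRoot.isRoot_cyclotomic` or `IsPrimitiveRoot.minpoly_dvd..`: the `ze^k` are primitive 30th roots of unity, roots of the same minimal polynomial).
`P(ze^7) = a + b c_7` is either `P(ze)` or `conj (P(ze)) = P(ze^29)`. In the first case apply this to `q = p(X^7) - p(X)` and `k = 7`:
`P(ze^49) = P(ze^7) = P(ze)`. In the second case `q = p(X^7) - p(X^29)`, `k = 7`: `P(ze^49) = P(ze^203) = P(ze^23) = conj P(ze^7) = P(ze)`.
In both cases `P(ze^19) = P(ze)`. Then with `q = p(X^19) - p(X)`: `P(ze^(19 k)) = P(ze^k)` for all units `k`; with `k = 7`: `e_13 = e_7`.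
Together with (3): `e_19 = e_1`, `e_29 = e_11 = - e_1`, `e_13 = e_7`, `e_23 = e_17 = -e_7`.
-/

set_option autoImplicit false

namespace Pool.Agent.Helper58.E8Z

open Matrix

variable {n : ℕ} {F : Type} [Group F] [Fintype F] (C : CD n F)

/-- The signs. -/
def sg (a b : ℝ) (k : ℕ) : ℝ :=
  if k = 1 ∨ k = 19 then a else if k = 11 ∨ k = 29 then -a else if k = 7 ∨ k = 13 then b else -b

namespace SgnAux

theorem sgn_n_pos (C : CD n F) : 0 < n := by
  rcases Nat.eq_zero_or_pos n with h | h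
  · exfalso
    subst h
    have h1 := C.fix_dim
    have h2 : Module.finrank ℚ (LinearMap.ker ((C.rho C.g).mulVecLin - LinearMap.id)) ≤
        Module.finrank ℚ (Fin 0 → ℚ) := Submodule.finrank_le _
    rw [h1, Module.finrank_fin_fun] at h2
    exact absurd h2 (by norm_num)
  · exact h

/-- The average over the group of a rational matrix. -/
noncomputable def Av (X : Matrix (Fin n) (Fin n) ℚ) : Matrix (Fin n) (Fin n) ℚ :=
  ∑ x, C.rho x * X * C.rho x⁻¹

theorem Av_comm (X : Matrix (Fin n) (Fin n) ℚ) (y : F) : C.rho y * Av C X = Av C X * C.rho y := by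
  unfold Av
  rw [Finset.mul_sum, Finset.sum_mul]
  rw [← Equiv.sum_comp (Equiv.mulLeft y) (fun x => C.rho x * X * C.rho x⁻¹ * C.rho y)]
  refine Finset.sum_congr rfl fun x _ => ?_
  have h : C.rho y⁻¹ * C.rho y = 1 := by rw [← map_mul, inv_mul_cancel, map_one]
  simp only [Equiv.coe_mulLeft, _root_.mul_inv_rev, map_mul, mul_assoc, h, mul_one]

/-- The average over the group of a real matrix, as a linear map. -/
noncomputable def AvR : Matrix (Fin n) (Fin n) ℝ →ₗ[ℝ] Matrix (Fin n) (Fin n) ℝ where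
  toFun Y := ∑ x, C.rR x * Y * C.rR x⁻¹
  map_add' Y Z := by
    rw [← Finset.sum_add_distrib]
    refine Finset.sum_congr rfl fun x _ => ?_
    rw [mul_add, add_mul]
  map_smul' c Y := by
    rw [RingHom.id_apply, Finset.smul_sum]
    refine Finset.sum_congr rfl fun x _ => ?_
    rw [mul_smul_comm, smul_mul_assoc]

theorem AvR_map (X : Matrix (Fin n) (Fin n) ℚ) :
    AvR C (X.map (algebraMap ℚ ℝ)) = (Av C X).map (algebraMap ℚ ℝ) := by
  change ∑ x, C.rR x * (X.map (algebraMap ℚ ℝ)) * C.rR x⁻¹ = (algebraMap ℚ ℝ).mapMatrix (∑ x, C.rho x * X * C.rho x⁻¹)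
  rw [map_sum]
  refine Finset.sum_congr rfl fun x _ => ?_
  rw [map_mul, map_mul]
  rfl

theorem AvR_com (J : Matrix (Fin n) (Fin n) ℝ) (hJ : C.Com J) : AvR C J = (Fintype.card F : ℝ) • J := by
  change ∑ x, C.rR x * J * C.rR x⁻¹ = _
  have h : ∀ x, C.rR x * J * C.rR x⁻¹ = J := by
    intro x
    rw [hJ x, mul_assoc, ← map_mul, mul_inv_cancel, map_one, mul_one]
  rw [Finset.sum_congr rfl fun x _ => h x, Finset.sum_const, Finset.card_univ, ← Nat.cast_smul_eq_nsmul ℝ]

theorem AvR_mem (h : ∀ X : Matrix (Fin n) (Fin n) ℚ, (∀ x, C.rho x * X = X * C.rho x) →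
      ∃ c : ℝ, X.map (algebraMap ℚ ℝ) = c • (1 : Matrix (Fin n) (Fin n) ℝ))
    (J : Matrix (Fin n) (Fin n) ℝ) : AvR C J ∈ Submodule.span ℝ {(1 : Matrix (Fin n) (Fin n) ℝ)} := by
  rw [Matrix.matrix_eq_sum_single J, map_sum]
  refine Submodule.sum_mem _ fun i _ => ?_
  rw [map_sum]
  refine Submodule.sum_mem _ fun j _ => ?_
  have h1 : (Matrix.single i j (J i j) : Matrix (Fin n) (Fin n) ℝ) =
      J i j • ((Matrix.single i j (1 : ℚ) : Matrix (Fin n) (Fin n) ℚ).map (algebraMap ℚ ℝ)) := by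
    ext a b
    simp only [Matrix.single, Matrix.of_apply, Matrix.smul_apply, Matrix.map_apply, smul_eq_mul]
    split_ifs <;> simp
  rw [h1, map_smul, AvR_map]
  refine Submodule.smul_mem _ _ ?_
  obtain ⟨c, hc⟩ := h _ (Av_comm C (Matrix.single i j (1 : ℚ)))
  rw [hc]
  exact Submodule.smul_mem _ _ (Submodule.mem_span_singleton_self _)

theorem exists_rat (J : Matrix (Fin n) (Fin n) ℝ) (hJ : C.Com J) (hJ2 : J * J = -1) :
    ∃ X : Matrix (Fin n) (Fin n) ℚ, (∀ x, C.rho x * X = X * C.rho x) ∧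
      ∀ c : ℝ, X.map (algebraMap ℚ ℝ) ≠ c • (1 : Matrix (Fin n) (Fin n) ℝ) := by
  by_contra hcon
  push Not at hcon
  have h1 := AvR_mem C hcon J
  rw [AvR_com C J hJ, Submodule.mem_span_singleton] at h1
  obtain ⟨a, ha⟩ := h1
  have hc : (Fintype.card F : ℝ) ≠ 0 := by
    exact_mod_cast Fintype.card_ne_zero
  have h2 : J = ((Fintype.card F : ℝ)⁻¹ * a) • (1 : Matrix (Fin n) (Fin n) ℝ) := by
    rw [mul_smul, ha, smul_smul, inv_mul_cancel₀ hc, one_smul]
  rw [h2] at hJ2
  have hn := sgn_n_pos C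
  have h3 := congrFun (congrFun hJ2 ⟨0, hn⟩) ⟨0, hn⟩
  simp only [smul_mul_assoc, one_mul, Matrix.smul_apply, Matrix.one_apply_eq, smul_eq_mul, mul_one,
    Matrix.neg_apply] at h3
  nlinarith [sq_nonneg ((Fintype.card F : ℝ)⁻¹ * a)]

theorem map_mul_ze (J : Matrix (Fin n) (Fin n) ℝ) (hJ : C.Com J) (x : F) :
    C.rC x * J.map (algebraMap ℝ ℂ) = J.map (algebraMap ℝ ℂ) * C.rC x := by
  rw [C.rC_eq, ← Matrix.map_mul, hJ x, Matrix.map_mul]

theorem ze_pow_eq (i j : ℕ) (h : i % 30 = j % 30) : ze ^ i = ze ^ j := by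
  rw [← pow_mod_orderOf ze i, ← pow_mod_orderOf ze j, ← ze_prim.eq_orderOf, h]

theorem conj_ze (k : ℕ) (hk : k ≤ 30) : (starRingEnd ℂ) (ze ^ k) = ze ^ (30 - k) := by
  have h1 : (starRingEnd ℂ) ze = ze⁻¹ := by
    have h2 : ‖ze‖ = 1 := ze_prim.norm'_eq_one (by norm_num)
    rw [Complex.inv_def, Complex.normSq_eq_norm_sq, h2]
    simp
  rw [map_pow, h1, inv_pow]
  have h3 : ze ^ (30 - k) * ze ^ k = 1 := by
    rw [← pow_add, Nat.sub_add_cancel hk, ze_prim.pow_eq_one]
  exact (eq_inv_of_mul_eq_one_left h3).symm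

theorem aeval_conj (p : Polynomial ℚ) (z : ℂ) :
    Polynomial.aeval ((starRingEnd ℂ) z) p = (starRingEnd ℂ) (Polynomial.aeval z p) := by
  rw [Polynomial.aeval_def, Polynomial.aeval_def, Polynomial.hom_eval₂]
  congr 1
  exact RingHom.ext_rat _ _

theorem galois (q : Polynomial ℚ) (h : Polynomial.aeval ze q = 0) (k : ℕ) (hk : k.Coprime 30) :
    Polynomial.aeval (ze ^ k) q = 0 := by
  have h1 : Polynomial.cyclotomic 30 ℚ = minpoly ℚ ze :=
    Polynomial.cyclotomic_eq_minpoly_rat ze_prim (by norm_num)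
  have h2 : Polynomial.cyclotomic 30 ℚ = minpoly ℚ (ze ^ k) :=
    Polynomial.cyclotomic_eq_minpoly_rat (ze_prim.pow_of_coprime k hk) (by norm_num)
  have h3 : minpoly ℚ ze ∣ q := minpoly.dvd ℚ ze h
  rw [← h1, h2] at h3
  obtain ⟨r, hr⟩ := h3
  rw [hr, map_mul, minpoly.aeval, zero_mul]

theorem galois2 (p : Polynomial ℚ) (i j k : ℕ) (hk : k.Coprime 30)
    (h : Polynomial.aeval (ze ^ i) p = Polynomial.aeval (ze ^ j) p) :
    Polynomial.aeval (ze ^ (k * i)) p = Polynomial.aeval (ze ^ (k * j)) p := by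
  have h1 := galois (p.comp (Polynomial.X ^ i) - p.comp (Polynomial.X ^ j)) (by
    rw [map_sub, Polynomial.aeval_comp, Polynomial.aeval_comp, map_pow, map_pow, Polynomial.aeval_X, h, sub_self]) k hk
  rw [map_sub, Polynomial.aeval_comp, Polynomial.aeval_comp, map_pow, map_pow, Polynomial.aeval_X,
    ← pow_mul, ← pow_mul] at h1
  exact sub_eq_zero.1 h1

end SgnAux

open SgnAux

theorem signs {u : ℕ → Fin n → ℂ} (hu : Eig C u) (J : Matrix (Fin n) (Fin n) ℝ) (hJ : C.Com J) (hJ2 : J * J = -1)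
    (hD : ∀ X, C.Com X → ∃ a b : ℝ, X = a • (1 : Matrix (Fin n) (Fin n) ℝ) + b • J) :
    ∃ a b : ℝ, (a = 1 ∨ a = -1) ∧ (b = 1 ∨ b = -1) ∧
      ∀ k ∈ un, (J.map (algebraMap ℝ ℂ)).mulVec (u k) = (Complex.I * (sg a b k : ℂ)) • u k := by
  obtain ⟨X, hX, hXs⟩ := exists_rat C J hJ hJ2
  have hXR : C.Com (X.map (algebraMap ℚ ℝ)) := by
    intro x
    rw [C.rR_apply, ← Matrix.map_mul, hX x, Matrix.map_mul]
  obtain ⟨a, b, hab⟩ := hD _ hXR
  have hb : b ≠ 0 := by
    intro h
    refine hXs a ?_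
    rw [hab, h, zero_smul, add_zero]
  obtain ⟨p, hp⟩ := hu.rat X hX
  -- the eigenvalues of `J`
  have hJe : ∀ k ∈ un, ∃ e : ℝ, (e = 1 ∨ e = -1) ∧
      (J.map (algebraMap ℝ ℂ)).mulVec (u k) = (Complex.I * (e : ℂ)) • u k := by
    intro k hk
    obtain ⟨c, hc⟩ := hu.uniq k hk ((J.map (algebraMap ℝ ℂ)).mulVec (u k))
      (by rw [Matrix.mulVec_mulVec, map_mul_ze C J hJ, ← Matrix.mulVec_mulVec, hu.g k hk])
      (by rw [Matrix.mulVec_mulVec, map_mul_ze C J hJ, ← Matrix.mulVec_mulVec, hu.t k hk, Matrix.mulVec_smul])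
    have h1 : (J.map (algebraMap ℝ ℂ)).mulVec ((J.map (algebraMap ℝ ℂ)).mulVec (u k)) = -(u k) := by
      rw [Matrix.mulVec_mulVec, ← Matrix.map_mul, hJ2]
      have : ((-1 : Matrix (Fin n) (Fin n) ℝ).map (algebraMap ℝ ℂ)) = -1 := by
        ext i j
        simp only [Matrix.map_apply, Matrix.neg_apply, Matrix.one_apply]
        split_ifs <;> simp
      rw [this, Matrix.neg_mulVec, Matrix.one_mulVec]
    rw [hc, Matrix.mulVec_smul, hc, smul_smul] at h1
    have h2 : (c * c + 1) • u k = 0 := by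
      rw [add_smul, h1, one_smul, neg_add_cancel]
    have h3 : c * c + 1 = 0 := (smul_eq_zero.1 h2).resolve_right (hu.ne k hk)
    have h4 : (c - Complex.I) * (c + Complex.I) = 0 := by
      linear_combination h3 - Complex.I_mul_I
    rcases mul_eq_zero.1 h4 with h5 | h5
    · refine ⟨1, Or.inl rfl, ?_⟩
      rw [hc, sub_eq_zero.1 h5]
      simp
    · refine ⟨-1, Or.inr rfl, ?_⟩
      rw [hc, eq_neg_of_add_eq_zero_left h5]
      simp
  choose! e he heJ using hJe
  -- the values of the polynomial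
  have hP : ∀ k ∈ un, Polynomial.aeval (ze ^ k) p = (a : ℂ) + (b : ℂ) * (Complex.I * (e k : ℂ)) := by
    intro k hk
    have h1 := hp k hk
    have h2 : X.map (algebraMap ℚ ℂ) = (X.map (algebraMap ℚ ℝ)).map (algebraMap ℝ ℂ) := by
      ext i j
      simp
    have h3 : (a • (1 : Matrix (Fin n) (Fin n) ℝ) + b • J).map (algebraMap ℝ ℂ) =
        (a : ℂ) • (1 : Matrix (Fin n) (Fin n) ℂ) + (b : ℂ) • (J.map (algebraMap ℝ ℂ)) := by
      ext i j
      simp only [Matrix.map_apply, Matrix.add_apply, Matrix.smul_apply, Matrix.one_apply, smul_eq_mul, map_add, map_mul]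
      split_ifs <;> simp
    rw [h2, hab, h3, Matrix.add_mulVec, Matrix.smul_mulVec, Matrix.smul_mulVec, Matrix.one_mulVec, heJ k hk, smul_smul,
      ← add_smul] at h1
    have h4 := sub_eq_zero.2 h1
    rw [← sub_smul] at h4
    exact (sub_eq_zero.1 ((smul_eq_zero.1 h4).resolve_right (hu.ne k hk))).symm
  have hbC : (b : ℂ) ≠ 0 := by exact_mod_cast hb
  have heq : ∀ k ∈ un, ∀ l ∈ un, Polynomial.aeval (ze ^ k) p = Polynomial.aeval (ze ^ l) p → e k = e l := by
    intro k hk l hl h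
    rw [hP k hk, hP l hl] at h
    have h1 := mul_left_cancel₀ hbC (add_left_cancel h)
    have h2 := mul_left_cancel₀ Complex.I_ne_zero h1
    exact_mod_cast h2
  have heq' : ∀ k ∈ un, ∀ l ∈ un, e k = e l → Polynomial.aeval (ze ^ k) p = Polynomial.aeval (ze ^ l) p := by
    intro k hk l hl h
    rw [hP k hk, hP l hl, h]
  have hconj : ∀ k ∈ un, 30 - k ∈ un → Polynomial.aeval (ze ^ (30 - k)) p = (starRingEnd ℂ) (Polynomial.aeval (ze ^ k) p) := by
    intro k hk _
    have hk30 : k ≤ 30 := by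
      revert k
      decide
    rw [← conj_ze k hk30, aeval_conj]
  have hneg : ∀ k ∈ un, 30 - k ∈ un → e (30 - k) = - e k := by
    intro k hk hk'
    have h1 := hconj k hk hk'
    rw [hP k hk, hP _ hk'] at h1
    simp only [map_add, map_mul, Complex.conj_ofReal, Complex.conj_I] at h1
    have h2 : (b : ℂ) * (Complex.I * (e (30 - k) : ℂ)) = (b : ℂ) * (Complex.I * ((-e k : ℝ) : ℂ)) := by
      push_cast
      linear_combination h1
    have h3 := mul_left_cancel₀ Complex.I_ne_zero (mul_left_cancel₀ hbC h2)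
    exact_mod_cast h3
  have m1 : 1 ∈ un := by decide
  have m7 : 7 ∈ un := by decide
  have m11 : 11 ∈ un := by decide
  have m13 : 13 ∈ un := by decide
  have m17 : 17 ∈ un := by decide
  have m19 : 19 ∈ un := by decide
  have m23 : 23 ∈ un := by decide
  have m29 : 29 ∈ un := by decide
  have n1 : e 29 = - e 1 := hneg 1 m1 m29
  have n7 : e 23 = - e 7 := hneg 7 m7 m23
  have n11 : e 19 = - e 11 := hneg 11 m11 m19
  have n13 : e 17 = - e 13 := hneg 13 m13 m17
  have e19 : Polynomial.aeval (ze ^ 19) p = Polynomial.aeval (ze ^ 1) p := by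
    have hcase : e 7 = e 1 ∨ e 7 = e 29 := by
      rcases he 7 m7 with h7 | h7 <;> rcases he 1 m1 with h1 | h1 <;> rw [n1, h7, h1] <;> norm_num
    rcases hcase with h | h
    · have h1 := heq' 7 m7 1 m1 h
      have h2 := galois2 p 7 1 7 (by norm_num) h1
      rw [ze_pow_eq (7 * 7) 19 (by norm_num), show 7 * 1 = 7 by norm_num, h1] at h2
      exact h2
    · have h1 := heq' 7 m7 29 m29 h
      have h2 := galois2 p 7 29 7 (by norm_num) h1
      rw [ze_pow_eq (7 * 7) 19 (by norm_num), ze_pow_eq (7 * 29) 23 (by norm_num)] at h2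
      have h3 := heq' 23 m23 1 m1 (by rw [n7, h, n1, neg_neg])
      rw [h2, h3]
  have e13 : Polynomial.aeval (ze ^ 13) p = Polynomial.aeval (ze ^ 7) p := by
    have h2 := galois2 p 19 1 7 (by norm_num) e19
    rw [ze_pow_eq (7 * 19) 13 (by norm_num), show 7 * 1 = 7 by norm_num] at h2
    exact h2
  have f19 := heq 19 m19 1 m1 e19
  have f13 := heq 13 m13 7 m7 e13
  refine ⟨e 1, e 7, he 1 m1, he 7 m7, ?_⟩
  have hsg : ∀ k ∈ un, sg (e 1) (e 7) k = e k := by
    intro k hk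
    simp only [un, Finset.mem_insert, Finset.mem_singleton] at hk
    rcases hk with rfl | rfl | rfl | rfl | rfl | rfl | rfl | rfl
    · simp [sg]
    · simp [sg]
    · have : e 11 = - e 1 := by linarith
      simp [sg, this]
    · simp [sg, f13]
    · have : e 17 = - e 7 := by linarith
      simp [sg, this]
    · simp [sg, f19]
    · simp [sg, n7]
    · simp [sg, n1]
  intro k hk
  rw [hsg k hk]
  exact heJ k hk

end Pool.Agent.Helper58.E8Z
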