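import Pool.Agent.Helper73.E8.Grp
import Pool.Agent.Helper73.E8.Cpt.CartanZ

/-!
# Block E8Z-COMA: two automorphisms which are trivial on a Cartan subalgebra commute

Proof. `exists_cartanZ hL D`: `finrank D = 8` and `f : ℂ ⊗ L ≃ Chev ℂ` with `(f (1 ⊗ d)).x = 0` for `d ∈ D`. The vectors `(f (1 ⊗ d)).h`, `d ∈ D`, span `Fin 8 → ℂ` over `ℂ`: a `ℤ`-basis of `D`
(8 elements) is linearly independent over `ℤ` in `L`, so its image in `ℂ ⊗ L` is linearly independent over `ℂ` (flatness: `ℂ ⊗ D → ℂ ⊗ L` is injective; see the end of the proof of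
`exists_cartanZ`, or `bf_eq_neg` and the positive definite Gram matrix), and 8 independent vectors of an 8-dimensional space span it.
Let `Y = f ∘ (y ⊗ 1) ∘ f⁻¹` (`LinearMap.baseChange`), `ℂ`-linear, multiplicative, `Y (f (1 ⊗ d)) = f (1 ⊗ d)`; so `Y (c h) = c h` for all `h` (`c h` = the Cartan element, `Alg.lean`). For a root `a`:
`⁅c h, Y (e a)⁆ = Y ⁅c h, e a⁆ = pr h a • Y (e a)`. The Cartan part of the left side is 0 and its `b`-coordinate is `pr h b * (Y (e a)).x b` (`brk_x`), so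
`(Y (e a)).h = 0` (choose `h` with `pr h a ≠ 0`) and `(pr h b - pr h a) * (Y (e a)).x b = 0`; for `b ≠ a` choose `h` with `pr h (b - a) ≠ 0` (`pr` is nondegenerate: the Cartan matrix is
invertible; or `h = b - a` as a complex vector: `pr_intCast`, `ip_pos`). So `Y (e a) = λ_a • e a`. The same for `t`. Hence `Y T = T Y` on `e a` and `c h`, so everywhere (`decomp`), and
`1 ⊗ (y (t x)) = 1 ⊗ (t (y x))`, `y (t x) = t (y x)` (`L` is free).
-/

set_option autoImplicit false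

open scoped TensorProduct

namespace Pool.Agent.Helper73.E8.Ez

open Chev

variable {L : Type} [LieRing L] [Module.Free ℤ L] [Module.Finite ℤ L] {B : LinearMap.BilinForm ℤ L}

private theorem lzCA {L : Type} [LieRing L] (x : ℂ ⊗[ℤ] L) :
    ⁅x, (0 : ℂ ⊗[ℤ] L)⁆ = 0 := lie_zero (L := ℂ ⊗[ℤ] L) (M := ℂ ⊗[ℤ] L) x

private theorem zlCA {L : Type} [LieRing L] (x : ℂ ⊗[ℤ] L) :
    ⁅(0 : ℂ ⊗[ℤ] L), x⁆ = 0 := zero_lie (L := ℂ ⊗[ℤ] L) (M := ℂ ⊗[ℤ] L) x

private theorem laCA {L : Type} [LieRing L] (x y z : ℂ ⊗[ℤ] L) :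
    ⁅x, y + z⁆ = ⁅x, y⁆ + ⁅x, z⁆ := lie_add (L := ℂ ⊗[ℤ] L) (M := ℂ ⊗[ℤ] L) x y z

private theorem alCA {L : Type} [LieRing L] (x y z : ℂ ⊗[ℤ] L) :
    ⁅x + y, z⁆ = ⁅x, z⁆ + ⁅y, z⁆ := add_lie (L := ℂ ⊗[ℤ] L) (M := ℂ ⊗[ℤ] L) x y z

/-- The complexification of an automorphism. -/
private noncomputable def cxCA (y : AutL L) : ℂ ⊗[ℤ] L →ₗ[ℂ] ℂ ⊗[ℤ] L :=
  LinearMap.baseChange ℂ (y.1 : L →ₗ[ℤ] L)

omit [Module.Free ℤ L] [Module.Finite ℤ L] in
private theorem cxCA_tmul (y : AutL L) (s : ℂ) (x : L) : cxCA y (s ⊗ₜ x) = s ⊗ₜ y.1 x := rfl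

omit [Module.Free ℤ L] [Module.Finite ℤ L] in
private theorem cxCA_lie (y : AutL L) (v w : ℂ ⊗[ℤ] L) : cxCA y ⁅v, w⁆ = ⁅cxCA y v, cxCA y w⁆ := by
  induction v using TensorProduct.induction_on with
  | zero => rw [zlCA, _root_.map_zero, zlCA]
  | add v v' hv hv' => rw [alCA, _root_.map_add, hv, hv', _root_.map_add, alCA]
  | tmul s x =>
    induction w using TensorProduct.induction_on with
    | zero => rw [lzCA, _root_.map_zero, lzCA]
    | add w w' hw hw' => rw [laCA, _root_.map_add, hw, hw', _root_.map_add, laCA]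
    | tmul t z =>
      rw [LieAlgebra.ExtendScalars.bracket_tmul, cxCA_tmul, cxCA_tmul, cxCA_tmul,
        LieAlgebra.ExtendScalars.bracket_tmul, y.2]

/-- A multiplicative linear map which is trivial on the Cartan subalgebra is diagonal. -/
private theorem eigCA (Z : Chev ℂ →ₗ[ℂ] Chev ℂ) (hZ : ∀ v w, Z ⁅v, w⁆ = ⁅Z v, Z w⁆)
    (hc : ∀ h, Z (c h) = c h) (a : Root) : Z (e a) = (Z (e a)).x a • e a := by
  have key : ∀ h : Fin 8 → ℂ, ⁅(c h : Chev ℂ), Z (e a)⁆ = pr h a.1 • Z (e a) := by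
    intro h
    rw [← _root_.map_smul, ← lie_c_e, hZ, hc]
  ext b
  · have h1 := congrArg (fun v : Chev ℂ => v.h b) (key fun i => (a.1 i : ℂ))
    simp only [brk_h, c_x, Pi.zero_apply, zero_mul, mul_zero, Finset.sum_const_zero, neg_zero,
      smul_h, Pi.smul_apply, smul_eq_mul] at h1
    rw [pr_intCast, a.2] at h1
    have h2 : (Z (e a)).h b = 0 := by
      rcases mul_eq_zero.1 h1.symm with h3 | h3
      · norm_num at h3
      · exact h3
    simp [h2]
  · by_cases hb : b = a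
    · subst hb
      simp
    · have h1 := congrArg (fun v : Chev ℂ => v.x b) (key fun i => ((a.1 - b.1) i : ℂ))
      simp only [brk_x, c_x, c_h, Pi.zero_apply, zero_mul, mul_zero, sub_zero, ite_self,
        Finset.sum_const_zero, add_zero, smul_x, Pi.smul_apply, smul_eq_mul] at h1
      have e1 := pr_intCast (R := ℂ) (a.1 - b.1) a.1
      have e2 := pr_intCast (R := ℂ) (a.1 - b.1) b.1
      have h3 : ip (a.1 - b.1) a.1 - ip (a.1 - b.1) b.1 ≠ 0 := by
        have h4 : ip (a.1 - b.1) a.1 - ip (a.1 - b.1) b.1 = ip (a.1 - b.1) (a.1 - b.1) := by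
          have h5 : a.1 - b.1 = a.1 + -b.1 := sub_eq_add_neg _ _
          have h6 : ip (a.1 - b.1) (a.1 - b.1) = ip (a.1 - b.1) (a.1 + -b.1) := by rw [← h5]
          rw [h6, ip_add_right, ip_neg_right]
          ring
        rw [h4]
        intro h7
        have h8 := ip_self_eq_zero h7
        exact hb (root_ext (sub_eq_zero.1 h8).symm)
      have h9 : ((ip (a.1 - b.1) a.1 - ip (a.1 - b.1) b.1 : ℤ) : ℂ) * (Z (e a)).x b = 0 := by
        rw [Int.cast_sub, ← e1, ← e2, sub_mul, ← h1, sub_self]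
      have h10 : (Z (e a)).x b = 0 := by
        rcases mul_eq_zero.1 h9 with h11 | h11
        · exact absurd (Int.cast_eq_zero.1 h11) h3
        · exact h11
      simp [h10, hb]

theorem comm_of_cartan (hL : IsLat L B) (D : Submodule ℤ L) (hD : ∀ x ∈ D, ∀ y ∈ D, ⁅x, y⁆ = 0)
    (hself : ∀ v, (∀ x ∈ D, ⁅x, v⁆ = 0) → v ∈ D) (y t : AutL L) (hy : ∀ d ∈ D, y.1 d = d)
    (ht : ∀ d ∈ D, t.1 d = d) : y * t = t * y := by
  obtain ⟨hrk, f, hf⟩ := exists_cartanZ hL D hD hself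
  -- the Cartan part
  obtain ⟨pj, hpj⟩ : ∃ pj : Chev ℂ →ₗ[ℂ] (Fin 8 → ℂ), ∀ v, pj v = v.h :=
    ⟨{ toFun := fun v => v.h
       map_add' := fun _ _ => rfl
       map_smul' := fun _ _ => rfl }, fun _ => rfl⟩
  obtain ⟨inc, hinc⟩ : ∃ inc : ℂ ⊗[ℤ] D →ₗ[ℂ] ℂ ⊗[ℤ] L, inc = D.subtype.baseChange ℂ := ⟨_, rfl⟩
  have hincinj : Function.Injective inc := by
    rw [hinc]
    have := Module.Flat.lTensor_preserves_injective_linearMap (M := ℂ) D.subtype
      D.subtype_injective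
    exact this
  have hinct : ∀ (s : ℂ) (d : D), inc (s ⊗ₜ d) = s ⊗ₜ d.1 := by
    intro s d
    rw [hinc]
    rfl
  obtain ⟨fl, hfl⟩ : ∃ fl : ℂ ⊗[ℤ] L →ₗ[ℂ] Chev ℂ, ∀ v, fl v = f v :=
    ⟨(f : ℂ ⊗[ℤ] L ≃ₗ[ℂ] Chev ℂ), fun _ => rfl⟩
  have hx : ∀ w : ℂ ⊗[ℤ] D, (f (inc w)).x = 0 := by
    intro w
    induction w using TensorProduct.induction_on with
    | zero => rw [_root_.map_zero, ← hfl, _root_.map_zero]; rfl
    | add v w hv hw =>
      rw [_root_.map_add, ← hfl, _root_.map_add, add_x, hfl, hfl, hv, hw, add_zero]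
    | tmul s d =>
      have e1 : (s ⊗ₜ[ℤ] d.1 : ℂ ⊗[ℤ] L) = s • (1 ⊗ₜ[ℤ] d.1) := by
        rw [TensorProduct.smul_tmul', smul_eq_mul, mul_one]
      rw [hinct, e1, ← hfl, _root_.map_smul, smul_x, hfl, hf _ d.2, smul_zero]
  have hinj : Function.Injective (pj.comp (fl.comp inc)) := by
    intro v w hvw
    apply hincinj
    apply f.injective
    have h1 : (f (inc v)).h = (f (inc w)).h := by
      have h2 := hvw
      rw [LinearMap.comp_apply, LinearMap.comp_apply, LinearMap.comp_apply,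
        LinearMap.comp_apply, hpj, hpj, hfl, hfl] at h2
      exact h2
    exact Chev.ext h1 ((hx v).trans (hx w).symm)
  have hsurj : Function.Surjective (pj.comp (fl.comp inc)) := by
    have hfin : Module.finrank ℂ (ℂ ⊗[ℤ] D) = Module.finrank ℂ (Fin 8 → ℂ) := by
      rw [Module.finrank_baseChange, hrk, Module.finrank_fin_fun]
    exact (LinearMap.injective_iff_surjective_of_finrank_eq_finrank hfin).1 hinj
  have hc : ∀ h : Fin 8 → ℂ, ∃ w : ℂ ⊗[ℤ] D, f (inc w) = c h := by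
    intro h
    obtain ⟨w, hw⟩ := hsurj h
    refine ⟨w, Chev.ext ?_ (hx w)⟩
    rw [LinearMap.comp_apply, LinearMap.comp_apply, hpj, hfl] at hw
    exact hw
  -- transport to `Chev ℂ`
  obtain ⟨T, hT⟩ : ∃ T : AutL L → (Chev ℂ →ₗ[ℂ] Chev ℂ), ∀ g v, T g (f v) = f (cxCA g v) :=
    ⟨fun g => fl.comp ((cxCA g).comp (f.symm : Chev ℂ ≃ₗ[ℂ] ℂ ⊗[ℤ] L).toLinearMap), fun g v => by
      rw [LinearMap.comp_apply, LinearMap.comp_apply, hfl]
      congr 2
      exact f.symm_apply_apply v⟩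
  have hTl : ∀ g v w, T g ⁅v, w⁆ = ⁅T g v, T g w⁆ := by
    intro g v w
    have h1 : T g ⁅f (f.symm v), f (f.symm w)⁆ = ⁅T g (f (f.symm v)), T g (f (f.symm w))⁆ := by
      rw [← LieEquiv.map_lie, hT, hT, hT, cxCA_lie, LieEquiv.map_lie]
    rwa [LieEquiv.apply_symm_apply, LieEquiv.apply_symm_apply] at h1
  have hTc : ∀ g : AutL L, (∀ d ∈ D, g.1 d = d) → ∀ h, T g (c h) = c h := by
    intro g hg h
    obtain ⟨w, hw⟩ := hc h
    rw [← hw, hT]
    congr 1
    clear hw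
    induction w using TensorProduct.induction_on with
    | zero => rw [_root_.map_zero, _root_.map_zero]
    | add v w hv hw => rw [_root_.map_add, _root_.map_add, hv, hw]
    | tmul s d => rw [hinct, cxCA_tmul, hg _ d.2]
  have hcomm : ∀ v, T y (T t v) = T t (T y v) := by
    have hye := eigCA (T y) (hTl y) (hTc y hy)
    have hte := eigCA (T t) (hTl t) (hTc t ht)
    have hdec : ∀ (P : Chev ℂ →ₗ[ℂ] Chev ℂ) (v : Chev ℂ),
        P v = P (c v.h) + ∑ a : Root, v.x a • P (e a) := by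
      intro P v
      have h1 : P v = P (c v.h + ∑ a : Root, v.x a • e a) := congrArg P (decomp v)
      rw [h1, _root_.map_add, _root_.map_sum]
      have h2 : ∀ a : Root, P (v.x a • e a) = v.x a • P (e a) := fun a => P.map_smul _ _
      rw [Finset.sum_congr rfl fun a _ => h2 a]
    have hce : ∀ a : Root, ((T y).comp (T t)) (e a) = ((T t).comp (T y)) (e a) := by
      intro a
      obtain ⟨r, hr⟩ : ∃ r : ℂ, T y (e a) = r • e a := ⟨_, hye a⟩
      obtain ⟨s, hs⟩ : ∃ s : ℂ, T t (e a) = s • e a := ⟨_, hte a⟩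
      rw [LinearMap.comp_apply, LinearMap.comp_apply, hs, hr, _root_.map_smul, _root_.map_smul,
        hs, hr, smul_comm]
    intro v
    have h2 : ((T y).comp (T t)) v = ((T t).comp (T y)) v := by
      rw [hdec ((T y).comp (T t)) v, hdec ((T t).comp (T y)) v,
        Finset.sum_congr rfl fun a _ => congrArg (fun z => v.x a • z) (hce a),
        LinearMap.comp_apply, LinearMap.comp_apply, hTc y hy, hTc t ht, hTc y hy]
    exact h2
  have hinj1 : ∀ x x' : L, f (1 ⊗ₜ x) = f (1 ⊗ₜ x') → x = x' := by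
    intro x x' hxx
    apply hL.uni.1
    ext z
    have h1 := bf_eq_neg hL f x z
    have h2 := bf_eq_neg hL f x' z
    rw [hxx, h2, neg_inj] at h1
    exact (Int.cast_injective h1).symm
  apply Subtype.ext
  apply LinearEquiv.ext
  intro x
  apply hinj1
  have h1 := hcomm (f (1 ⊗ₜ x))
  rw [hT, hT, hT, hT, cxCA_tmul, cxCA_tmul, cxCA_tmul, cxCA_tmul] at h1
  exact h1

end Pool.Agent.Helper73.E8.Ez
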