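import Pool.Agent.Helper58.E8Z.ValCh

/-!
# Block E8Z-LOW: the valuation is at least -29 on a bounded `g`-stable Lie lattice

Proof. Suppose some `y ∈ Λ` is not `CVge (-29)`. By `bdd` there is a largest `m` with `CVge m y` for all `y ∈ Λ`; so `m ≤ -30` and there is `y ∈ Λ` with `z := clc m y ≠ 0`
(`clc_eq_zero`).
(1) Let `y_0 = y`, `y_(j+1) = gz ζ y_j - y_j`. Then `y_j ∈ Λ`, `CVge (m + j) y_j` and, for `j ≥ 1`, `clc (m + j) y_j = ⟨0, a ↦ (-ht a)^j z_a⟩` (`clc_gz`), `z_a := z.x a`.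
 For `1 ≤ j ≤ 29`: `⁅y, y_j⁆ ∈ Λ` is `CVge m`, hence `CVge (2m + j + 1)` because `2 m + j + 1 ≤ m`; so `⁅z, clc (m+j) y_j⁆ = 0` (`clc_lie`, `clc_eq_zero`). Its Cartan part (`brk_h`) is
 `-∑_a a z_a (ht a)^j z_(-a)`. For `j = 0` the sum `∑_a a z_a z_(-a)` is 0 too (replace `a` by `-a`; `2 ≠ 0`). Sum over `j = 0, ..., 29`: `∑_(j<30) c^j = 0` for `c ≠ 1` in
 `(ZMod 31)ˣ` and `30` for `c = 1` (`ht a ≠ 0` modulo 31 for roots: `ht_root_ne_zero`, `abs_ht_root_le` in `Roots.lean`), so `∑_(ht a = 1) a z_a z_(-a) = 0`. The roots with `ht a = 1` modulo 31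
 are the simple roots (`root_of_ht_one`, `|ht a| ≤ 29`), whose coordinate vectors are the unit vectors, so `z_(al i) z_(-al i) = 0` for all `i`.
(2) By `nn_clc`: `z_(W a) = ± 3^m z_a` for all roots; with `W^15 = -1` (`W_fifteen`): `z_(-a)` is `z_a` times a unit. So `z_(al i) = 0`. If `a` is any root, `ht a = 3^k` modulo 31 for some `k`,
 `W^(-k) a` has height 1 modulo 31 (`ht_W`) and is a simple root; so `z_a = 0`. Hence `z = ⟨h, 0⟩`, `h ≠ 0`.
(3) `cart` and `Vge_anti`: if `m ≤ -31` then `lc m (y.h i) = 0` for all `i`, contradiction. So `m = -30`, `3^30 = 1`, and `nn_clc` gives `∑_j h_j (W (al j)) i = h_i`, i.e. `h` is fixed by the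
 matrix of `W`; by `W_phi` (for the vectors `al j`) `h = (1 + 1 - 1 - 1 - 1 + 1 + 1) h = 0`, contradiction.
-/

set_option autoImplicit false

namespace Pool.Agent.Helper73.E8.Ez

open Chev
open Pool.Agent.Helper2.E8A (K ζ σ hζ P0)

private theorem expand61 (f : Lat →+ Lat) (x : Lat) (i : Fin 8) : f x i = ∑ l, x l * f (al l) i := by
  let g : Lat →+ ℤ := AddMonoidHom.mk' (fun x => f x i) (fun a b => by rw [_root_.map_add]; rfl)
  let g' : Lat →+ ℤ := AddMonoidHom.mk' (fun x => ∑ l, x l * f (al l) i) (fun a b => by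
    simp only [Pi.add_apply, add_mul, Finset.sum_add_distrib])
  have h : g = g' := lat_hom_ext _ _ fun j => by
    change f (al j) i = ∑ l, (al j) l * f (al l) i
    rw [Finset.sum_eq_single j]
    · simp [al]
    · intro k _ hk
      simp [al, hk]
    · intro hi
      exact absurd (Finset.mem_univ _) hi
  exact DFunLike.congr_fun h x

private theorem fixed_aux61 {h : Fin 8 → ZMod 31}
    (hh : ∀ i, ∑ j, h j * ((W (al j) i : ℤ) : ZMod 31) = h i) (k : ℕ) :
    ∀ i : Fin 8, ∑ j, h j * ((W^[k] (al j) i : ℤ) : ZMod 31) = h i := by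
  induction k with
  | zero =>
    intro i
    rw [Finset.sum_eq_single i]
    · simp [al]
    · intro k _ hk
      simp [al, Ne.symm hk]
    · intro hi
      exact absurd (Finset.mem_univ _) hi
  | succ k ih =>
    intro i
    have h2 : ∀ j, ((W^[k + 1] (al j) i : ℤ) : ZMod 31) =
        ∑ l, ((W (al j) l : ℤ) : ZMod 31) * ((W^[k] (al l) i : ℤ) : ZMod 31) := by
      intro j
      have h3 := expand61 (Wpow k) (W (al j)) i
      rw [Function.iterate_succ_apply, ← Wpow_apply, h3, Int.cast_sum]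
      exact Finset.sum_congr rfl fun l _ => by rw [Int.cast_mul, Wpow_apply]
    simp only [h2, Finset.mul_sum]
    rw [Finset.sum_comm]
    simp only [← mul_assoc, ← Finset.sum_mul, hh]
    exact ih i

private theorem fixed61 {h : Fin 8 → ZMod 31}
    (hh : ∀ i, ∑ j, h j * ((W (al j) i : ℤ) : ZMod 31) = h i) : h = 0 := by
  funext i
  have h1 := fun k => fixed_aux61 hh k i
  have h3 : ∀ j, h j * ((W^[8] (al j) i : ℤ) : ZMod 31) + h j * ((W^[7] (al j) i : ℤ) : ZMod 31) -
      h j * ((W^[5] (al j) i : ℤ) : ZMod 31) - h j * ((W^[4] (al j) i : ℤ) : ZMod 31) -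
      h j * ((W^[3] (al j) i : ℤ) : ZMod 31) + h j * ((W^[1] (al j) i : ℤ) : ZMod 31) +
      h j * ((W^[0] (al j) i : ℤ) : ZMod 31) = 0 := by
    intro j
    have h4 : W^[8] (al j) i + W^[7] (al j) i - W^[5] (al j) i - W^[4] (al j) i - W^[3] (al j) i +
        W^[1] (al j) i + W^[0] (al j) i = 0 := congrFun (W_phi (al j)) i
    have h5 := congrArg (Int.cast : ℤ → ZMod 31) h4
    push_cast at h5
    linear_combination h j * h5
  have h6 := Finset.sum_congr (rfl : (Finset.univ : Finset (Fin 8)) = Finset.univ) fun j _ => h3 j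
  rw [Finset.sum_const_zero, Finset.sum_add_distrib, Finset.sum_add_distrib, Finset.sum_sub_distrib,
    Finset.sum_sub_distrib, Finset.sum_sub_distrib, Finset.sum_add_distrib, h1, h1, h1, h1, h1, h1, h1] at h6
  rw [Pi.zero_apply]
  linear_combination h6

private theorem geom61 : ∀ c : ZMod 31, c ≠ 0 →
    ∑ j ∈ Finset.range 30, c ^ j = if c = 1 then 30 else 0 := by
  decide +kernel

private theorem gen61 : ∀ c : ZMod 31, c ≠ 0 → ∃ k : Fin 30, 3 ^ (k : ℕ) * c = 1 := by
  decide +kernel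

private theorem ht_ne61 (a : Root) : ((ht a.1 : ℤ) : ZMod 31) ≠ 0 := by
  intro h
  obtain ⟨c, hc⟩ := (ZMod.intCast_zmod_eq_zero_iff_dvd _ 31).1 h
  have h1 := ht_root_ne_zero a
  have h2 := abs_le.1 (abs_ht_root_le a)
  push_cast at hc
  omega

private theorem simple61 (a : Root) (h : ((ht a.1 : ℤ) : ZMod 31) = 1) : ∃ i, a = sr i := by
  apply root_of_ht_one
  have h1 : ((ht a.1 - 1 : ℤ) : ZMod 31) = 0 := by
    push_cast
    rw [h, sub_self]
  obtain ⟨c, hc⟩ := (ZMod.intCast_zmod_eq_zero_iff_dvd _ 31).1 h1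
  have h2 := abs_le.1 (abs_ht_root_le a)
  push_cast at hc
  omega

private noncomputable def dl61 (y : Chev K) : Chev K := gz ζ y - y

private theorem dl_iter61 {m : ℤ} {y : Chev K} (hy : CVge m y) (j : ℕ) :
    CVge (m + j) (dl61^[j] y) ∧ ∀ a : Root, (clc (m + j) (dl61^[j] y)).x a =
      (-(ht a.1 : ZMod 31)) ^ j * (clc m y).x a := by
  induction j with
  | zero =>
    rw [Nat.cast_zero, add_zero]
    exact ⟨hy, fun a => by rw [pow_zero, one_mul]; rfl⟩
  | succ j ih =>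
    rw [Function.iterate_succ_apply']
    have e : m + ((j + 1 : ℕ) : ℤ) = (m + j) + 1 := by push_cast; ring
    rw [e]
    refine ⟨CVge_gz ih.1, fun a => ?_⟩
    have h := congrArg (fun w : Chev (ZMod 31) => w.x a) (clc_gz ih.1)
    have h2 : lc (m + j) ((dl61^[j] y).x a) = (-(ht a.1 : ZMod 31)) ^ j * (clc m y).x a := ih.2 a
    change (clc (m + j + 1) (gz ζ (dl61^[j] y) - dl61^[j] y)).x a = _
    refine h.trans ?_
    change -(ht a.1 : ZMod 31) * lc (m + j) ((dl61^[j] y).x a) = _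
    rw [h2, pow_succ]
    ring

/-- step (1) -/
private theorem step1_61 {Λ : AddSubgroup (Chev K)} (lie : ∀ y ∈ Λ, ∀ z ∈ Λ, ⁅y, z⁆ ∈ Λ)
    (gzm : ∀ y ∈ Λ, gz ζ y ∈ Λ) {m : ℤ} (hm : m ≤ -30) (hm' : ∀ y ∈ Λ, CVge m y) {y : Chev K}
    (hy : y ∈ Λ) (i : Fin 8) : (clc m y).x (sr i) * (clc m y).x (-sr i) = 0 := by
  have hmem : ∀ j : ℕ, dl61^[j] y ∈ Λ := by
    intro j
    induction j with
    | zero => exact hy
    | succ j ih =>
      rw [Function.iterate_succ_apply']
      exact Λ.sub_mem (gzm _ ih) ih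
  have hlie : ∀ j ∈ Finset.range 30, ∑ a : Root, (a.1 i : ZMod 31) *
      ((clc m y).x a * ((ht a.1 : ZMod 31) ^ j * (clc m y).x (-a))) = 0 := by
    intro j hj
    have hj' := Finset.mem_range.1 hj
    obtain ⟨hc1, hc2⟩ := dl_iter61 (hm' y hy) j
    have h1 : CVge m ⁅y, dl61^[j] y⁆ := hm' _ (lie _ hy _ (hmem j))
    have h2 : CVge (m + (m + j) + 1) ⁅y, dl61^[j] y⁆ := CVge_anti (by omega) h1
    have h3 := (clc_eq_zero (CVge_lie (hm' y hy) hc1)).2 h2
    rw [clc_lie (hm' y hy) hc1] at h3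
    have h4 := congrArg (fun w : Chev (ZMod 31) => w.h i) h3
    have h5 : -∑ a : Root, (a.1 i : ZMod 31) * ((clc m y).x a * (clc (m + j) (dl61^[j] y)).x (-a)) = 0 := h4
    rw [neg_eq_zero] at h5
    rw [← h5]
    refine Finset.sum_congr rfl fun a _ => ?_
    rw [hc2 (-a), neg_val, ht_neg, Int.cast_neg, neg_neg]
  have h6 : ∑ j ∈ Finset.range 30, ∑ a : Root, (a.1 i : ZMod 31) *
      ((clc m y).x a * ((ht a.1 : ZMod 31) ^ j * (clc m y).x (-a))) = 0 :=
    Finset.sum_eq_zero hlie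
  rw [Finset.sum_comm] at h6
  have h7 : ∀ a : Root, ∑ j ∈ Finset.range 30, (a.1 i : ZMod 31) *
      ((clc m y).x a * ((ht a.1 : ZMod 31) ^ j * (clc m y).x (-a))) =
      (a.1 i : ZMod 31) * ((clc m y).x a * (clc m y).x (-a)) *
        (if (ht a.1 : ZMod 31) = 1 then 30 else 0) := by
    intro a
    rw [← geom61 _ (ht_ne61 a), Finset.mul_sum]
    exact Finset.sum_congr rfl fun j _ => by ring
  rw [Finset.sum_congr rfl fun a _ => h7 a, Finset.sum_eq_single (sr i)] at h6
  · have h8 : (ht (sr i).1 : ℤ) = 1 := by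
      change ht (al i) = 1
      unfold ht al
      rw [Finset.sum_pi_single']
      simp
    have h9 : (sr i).1 i = 1 := by
      change al i i = 1
      simp [al]
    rw [h8, h9, Int.cast_one, if_pos rfl, one_mul] at h6
    have h10 : (30 : ZMod 31) ≠ 0 := by decide
    exact (mul_eq_zero.1 h6).resolve_right h10
  · intro a _ ha
    by_cases h1 : (ht a.1 : ZMod 31) = 1
    · obtain ⟨l, hl⟩ := simple61 a h1
      have hli : l ≠ i := fun h => ha (by rw [hl, h])
      have h2 : a.1 i = 0 := by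
        rw [hl]
        change al l i = 0
        simp [al, hli.symm]
      rw [h2, Int.cast_zero, zero_mul, zero_mul]
    · rw [if_neg h1, mul_zero]
  · intro h
    exact absurd (Finset.mem_univ _) h

/-- step (2) -/
private theorem step2_61 {η : Lat → ℤˣ} {m : ℤ} {z : Chev (ZMod 31)}
    (hn : nn η z = (3 : ZMod 31) ^ (-m) • z) (hs : ∀ i, z.x (sr i) * z.x (-sr i) = 0) :
    z.x = 0 := by
  have h3 : (3 : ZMod 31) ^ (-m) ≠ 0 := zpow_ne_zero _ (by decide)
  have h1 : ∀ b : Root, z.x (onRoot W W_isom b) = 0 ↔ z.x b = 0 := by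
    intro b
    have h := congrFun (congrArg Chev.x hn) (onRoot W W_isom b)
    have h' : ((η ((onRoot W W_isom).symm (onRoot W W_isom b)).1 : ℤ) : ZMod 31) *
        z.x ((onRoot W W_isom).symm (onRoot W W_isom b)) =
        (3 : ZMod 31) ^ (-m) * z.x (onRoot W W_isom b) := h
    rw [Equiv.symm_apply_apply] at h'
    have hu : ((η b.1 : ℤ) : ZMod 31) ≠ 0 := by
      rcases Int.units_eq_one_or (η b.1) with h0 | h0
      · rw [h0]; decide
      · rw [h0]; decide
    constructor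
    · intro h0
      rw [h0, mul_zero] at h'
      exact (mul_eq_zero.1 h').resolve_left hu
    · intro h0
      rw [h0, mul_zero] at h'
      exact (mul_eq_zero.1 h'.symm).resolve_left h3
  have h2 : ∀ (k : ℕ) (b : Root), z.x ((onRoot W W_isom)^[k] b) = 0 ↔ z.x b = 0 := by
    intro k
    induction k with
    | zero => intro b; exact Iff.rfl
    | succ k ih =>
      intro b
      rw [Function.iterate_succ_apply', h1, ih]
  have hval : ∀ (k : ℕ) (b : Root), ((onRoot W W_isom)^[k] b).1 = W^[k] b.1 := by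
    intro k
    induction k with
    | zero => intro b; rfl
    | succ k ih =>
      intro b
      rw [Function.iterate_succ_apply', Function.iterate_succ_apply', onRoot_val, ih]
  have h15 : ∀ b : Root, z.x (-b) = 0 ↔ z.x b = 0 := by
    intro b
    have h4 : (onRoot W W_isom)^[15] b = -b := root_ext (by rw [hval, W_fifteen, neg_val])
    rw [← h4]
    exact h2 15 b
  have hsimple : ∀ i, z.x (sr i) = 0 := by
    intro i
    rcases mul_eq_zero.1 (hs i) with h | h
    · exact h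
    · exact (h15 _).1 h
  have hht : ∀ (k : ℕ) (x : Lat), ((ht (W^[k] x) : ℤ) : ZMod 31) = 3 ^ k * (ht x : ℤ) := by
    intro k
    induction k with
    | zero => intro x; rw [pow_zero, one_mul]; rfl
    | succ k ih =>
      intro x
      rw [Function.iterate_succ_apply', ht_W, ih, pow_succ]
      ring
  funext a
  obtain ⟨k, hk⟩ := gen61 _ (ht_ne61 a)
  have h5 : ((ht ((onRoot W W_isom)^[(k : ℕ)] a).1 : ℤ) : ZMod 31) = 1 := by
    rw [hval, hht]
    exact hk
  obtain ⟨i, hi⟩ := simple61 _ h5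
  have h6 := hsimple i
  rw [← hi, h2] at h6
  exact h6

theorem low_abs (Λ : AddSubgroup (Chev K)) {η : Lat → ℤˣ} (lie : ∀ y ∈ Λ, ∀ z ∈ Λ, ⁅y, z⁆ ∈ Λ)
    (gzm : ∀ y ∈ Λ, gz ζ y ∈ Λ) (fix : ∀ y ∈ Λ, sV η y = y) (bdd : ∃ m : ℤ, ∀ y ∈ Λ, CVge m y)
    (cart : ∀ y ∈ Λ, ∀ i, Vge (-30) (y.h i)) : ∀ y ∈ Λ, CVge (-29) y := by
  by_contra hcon
  push Not at hcon
  obtain ⟨y0, hy0, hy0'⟩ := hcon
  obtain ⟨m0, hm0⟩ := bdd
  have hbd : ∃ b : ℤ, ∀ m : ℤ, (∀ y ∈ Λ, CVge m y) → m ≤ b := by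
    refine ⟨-30, fun m hm => ?_⟩
    by_contra h
    exact hy0' (CVge_anti (by omega) (hm y0 hy0))
  obtain ⟨m, hm, hmax⟩ := Int.exists_greatest_of_bdd hbd ⟨m0, hm0⟩
  have hm30 : m ≤ -30 := by
    by_contra h
    exact hy0' (CVge_anti (by omega) (hm y0 hy0))
  obtain ⟨y, hy, hy'⟩ : ∃ y ∈ Λ, ¬ CVge (m + 1) y := by
    by_contra h
    push Not at h
    have := hmax (m + 1) h
    omega
  have hz : clc m y ≠ 0 := fun h => hy' ((clc_eq_zero (hm y hy)).1 h)
  have hn := nn_clc (hm y hy) (fix y hy)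
  have hx := step2_61 hn fun i => step1_61 lie gzm hm30 hm hy i
  apply hz
  have hh : (clc m y).h = 0 := by
    by_cases hm31 : m = -30
    · apply fixed61
      intro i
      have h := congrFun (congrArg Chev.h hn) i
      have h' : ∑ j, (clc m y).h j * ((W (al j) i : ℤ) : ZMod 31) =
          (3 : ZMod 31) ^ (-m) * (clc m y).h i := h
      rw [h', hm31]
      have h30 : (3 : ZMod 31) ^ (-(-30 : ℤ)) = 1 := by
        rw [neg_neg]
        have h4 : (3 : ZMod 31) ^ (30 : ℤ) = (3 : ZMod 31) ^ (30 : ℕ) := zpow_natCast _ 30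
        rw [h4]
        decide +kernel
      rw [h30, one_mul]
    · funext i
      exact (lc_eq_zero ((hm y hy).1 i)).2 (Vge_anti (by omega) (cart y hy i))
  exact Chev.ext hh hx

end Pool.Agent.Helper73.E8.Ez
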