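import Pool.Agent.Helper58.E8Z.FilDef
import Pool.Agent.Helper58.E8Z.Low
import Pool.Agent.Helper73.E8.Int.Rlat

/-!
# Block E8Z-FILO: the filtration of `L` by the valuation at `P0`

Proof.
* `low_lat`: apply `low_abs` to the additive subgroup of the `f (1 ⊗ x)`, `x ∈ L`. `bdd`: `L` has a finite basis `b_i`, `exists_CVge` for each `f (1 ⊗ b_i)`, integer combinations. `cart`: `coord_h`
  (`31 * h` integral), `Vge_of_integral`, `Vge_31`.
* `div31_core`: for all `y : L` the integer `B x y = - bf (co x) (co y)` (`C.bf`) has `Vge ((m + 30) - 29)` (`Vge_bf`, `low_core`), so `31 ∣ B x y` (`dvd_of_Vge`). `y ↦ B x y / 31` is in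
  the dual of `L`, so `= B x'` for some `x'` (`hL.uni`), `x = 31 x'` (injectivity), `CVge m (co x')` (`CVge_31`, `co_smul`).
* `conv0`: `C.conv`: `co x = 31^N • y`; `CVge 0 y` (integral coordinates); `CVge (30 N) (co x)`; induction on `N` with `div31_core`.
-/

set_option autoImplicit false

open scoped TensorProduct

namespace Pool.Agent.Helper73.E8.Ez

open Chev
open Pool.Agent.Helper2.E8A (K ζ σ hζ P0)
open Pool.Agent.Helper58.E8Z (Fil)

variable {L : Type} [LieRing L] [Module.Free ℤ L] [Module.Finite ℤ L] {B : LinearMap.BilinForm ℤ L}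

/-- The vectors with `CVge m` as a subgroup. -/
private def h94_S (m : ℤ) : AddSubgroup (Chev K) where
  carrier := {y | CVge m y}
  add_mem' := fun hx hy => CVge_add hx hy
  zero_mem' := CVge_zero m
  neg_mem' := fun hx => CVge_neg hx

/-- The map `x ↦ f (1 ⊗ x)`. -/
private noncomputable def h94_phi (f : K ⊗[ℤ] L ≃ₗ⁅K⁆ Chev K) : L →+ Chev K where
  toFun x := f (1 ⊗ₜ x)
  map_zero' := by rw [TensorProduct.tmul_zero, _root_.map_zero]
  map_add' x y := by rw [TensorProduct.tmul_add, _root_.map_add]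

omit [Module.Free ℤ L] [Module.Finite ℤ L] in
private theorem h94_phi_apply (f : K ⊗[ℤ] L ≃ₗ⁅K⁆ Chev K) (x : L) : h94_phi f x = f (1 ⊗ₜ x) := rfl

theorem low_lat (hL : IsLat L B) {f : K ⊗[ℤ] L ≃ₗ⁅K⁆ Chev K} {g : L ≃ₗ⁅ℤ⁆ L}
    (hfg : ∀ y : L, f (1 ⊗ₜ g y) = gz ζ (f (1 ⊗ₜ y))) {η : Lat → ℤˣ}
    (hs : ∀ y : L, sV η (f (1 ⊗ₜ y)) = f (1 ⊗ₜ y)) (x : L) : CVge (-29) (f (1 ⊗ₜ x)) := by
  refine low_abs (h94_phi f).range (η := η) ?_ ?_ ?_ ?_ ?_ _ ⟨x, rfl⟩
  · rintro _ ⟨y, rfl⟩ _ ⟨z, rfl⟩
    refine ⟨⁅y, z⁆, ?_⟩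
    rw [h94_phi_apply, h94_phi_apply, h94_phi_apply, ← LieEquiv.map_lie]
    congr 1
    simp
  · rintro _ ⟨y, rfl⟩
    exact ⟨g y, hfg y⟩
  · rintro _ ⟨y, rfl⟩
    exact hs y
  · let b := Module.Free.chooseBasis ℤ L
    choose m hm using fun i => exists_CVge (h94_phi f (b i))
    obtain ⟨k, hk⟩ := (Set.finite_range m).bddBelow
    refine ⟨k, ?_⟩
    rintro _ ⟨y, rfl⟩
    have h1 : ∀ i, h94_phi f (b i) ∈ h94_S k := fun i => CVge_anti (hk ⟨i, rfl⟩) (hm i)
    have h2 : h94_phi f y ∈ h94_S k := by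
      rw [← b.sum_repr y, map_sum]
      refine sum_mem fun i _ => ?_
      rw [map_zsmul]
      exact zsmul_mem (h1 i) _
    exact h2
  · rintro _ ⟨y, rfl⟩ i
    have h1 := Vge_of_integral (coord_h hL hfg y i)
    have h2 : (0 : ℤ) = -30 + 30 := by norm_num
    rw [h2] at h1
    exact Vge_31.1 h1

theorem low_core (C : Core L B) (x : L) : CVge (-29) (C.co x) :=
  low_lat C.hL (g := toLie C.g) C.hg C.co_sV x

theorem div31_core (C : Core L B) (m : ℤ) (hm : 0 ≤ m) (x : L) (hx : CVge (m + 30) (C.co x)) :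
    ∃ x' : L, CVge m (C.co x') ∧ x = (31 : ℤ) • x' := by
  have h1 : ∀ y : L, (31 : ℤ) ∣ B x y := by
    intro y
    apply dvd_of_Vge
    rw [C.bf x y]
    apply Vge_neg
    have h2 := Vge_bf hx (low_core C y)
    exact Vge_anti (by omega) h2
  let l : L →ₗ[ℤ] ℤ :=
    { toFun := fun y => B x y / 31
      map_add' := fun y z => by
        rw [_root_.map_add, Int.add_ediv_of_dvd_left (h1 y)]
      map_smul' := fun c y => by
        rw [_root_.map_smul, smul_eq_mul, RingHom.id_apply, smul_eq_mul, Int.mul_ediv_assoc _ (h1 y)] }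
  obtain ⟨x', hx'⟩ := C.hL.uni.2 l
  have h2 : x = (31 : ℤ) • x' := by
    apply C.hL.uni.1
    rw [_root_.map_smul, hx']
    apply LinearMap.ext
    intro y
    rw [LinearMap.smul_apply, smul_eq_mul]
    exact (Int.mul_ediv_cancel' (h1 y)).symm
  refine ⟨x', ?_, h2⟩
  rw [h2, C.co_smul] at hx
  have h3 : ((31 : ℤ) : K) = 31 := by norm_num
  rw [h3] at hx
  exact CVge_31.1 hx

/-- The filtration of `L`. -/
noncomputable def fil (C : Core L B) : Fil L (Chev (ZMod 31)) where
  G m :=
    { carrier := {x | CVge m (C.co x)}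
      add_mem' := by
        intro x y hx hy
        change CVge m (C.co (x + y))
        rw [C.co_add]
        exact CVge_add hx hy
      zero_mem' := by
        change CVge m (C.co 0)
        have h : C.co 0 = 0 := by
          have h1 := C.co_add 0 0
          rw [add_zero] at h1
          exact left_eq_add.1 h1
        rw [h]
        exact CVge_zero m
      neg_mem' := by
        intro x hx
        change CVge m (C.co (-x))
        have h : C.co (-x) = -C.co x := by
          have h1 := C.co_smul (-1) x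
          rw [neg_smul, one_smul, Int.cast_neg, Int.cast_one, neg_smul, one_smul] at h1
          exact h1
        rw [h]
        exact CVge_neg hx }
  lt m x := clc m (C.co x)
  anti m x hx := CVge_anti (by omega) hx
  lt_add m x hx y hy := by rw [C.co_add]; exact clc_add hx hy
  lt_zero m x hx := clc_eq_zero hx
  low x := low_core C x
  sep x hx := by
    have h1 : C.co x = 0 := eq_zero_of_CVge hx
    have h2 : C.co 0 = 0 := by
      have h1 := C.co_add 0 0
      rw [add_zero] at h1
      exact left_eq_add.1 h1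
    exact C.co_injective (h1.trans h2.symm)
  mul31 m x hx := by
    have h : C.co ((31 : ℤ) • x) = (31 : K) • C.co x := by
      rw [C.co_smul]
      norm_num
    change CVge (m + 30) (C.co ((31 : ℤ) • x)) ∧ clc (m + 30) (C.co ((31 : ℤ) • x)) = -clc m (C.co x)
    rw [h]
    exact ⟨CVge_31.2 hx, clc_31 hx⟩
  div31 m hm x hx := div31_core C m hm x hx

theorem mem_fil (C : Core L B) (m : ℤ) (x : L) : x ∈ (fil C).G m ↔ CVge m (C.co x) := Iff.rfl

theorem lt_fil (C : Core L B) (m : ℤ) (x : L) : (fil C).lt m x = clc m (C.co x) := rfl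

theorem conv0 (C : Core L B) (y : Chev K) (hh : ∀ i, IsIntegral ℤ (y.h i)) (hx : ∀ a, IsIntegral ℤ (y.x a))
    (hs : sV C.η y = y) : ∃ x : L, C.co x = y := by
  obtain ⟨N, x, hN⟩ := C.conv y hh hx hs
  have h0 : CVge 0 y := ⟨fun i => Vge_of_integral (hh i), fun a => Vge_of_integral (hx a)⟩
  have h1 : ∀ n : ℕ, CVge (30 * (n : ℤ)) ((31 : K) ^ n • y) := by
    intro n
    induction n with
    | zero => rw [pow_zero, one_smul]; exact h0
    | succ n ih =>
      rw [pow_succ', mul_smul]
      have h2 : 30 * ((n + 1 : ℕ) : ℤ) = 30 * (n : ℤ) + 30 := by push_cast; ring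
      rw [h2]
      exact CVge_31.2 ih
  have h2 : ∀ (N : ℕ) (x : L), C.co x = (31 : K) ^ N • y → ∃ x : L, C.co x = y := by
    intro N
    induction N with
    | zero =>
      intro x h
      exact ⟨x, by rw [h, pow_zero, one_smul]⟩
    | succ N ih =>
      intro x h
      have h3 := h1 (N + 1)
      rw [← h] at h3
      have h4 : 30 * ((N + 1 : ℕ) : ℤ) = 30 * (N : ℤ) + 30 := by push_cast; ring
      rw [h4] at h3
      obtain ⟨x', -, h5⟩ := div31_core C (30 * (N : ℤ)) (by positivity) x h3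
      apply ih x'
      have h6 : (31 : K) ≠ 0 := by norm_num
      have h7 : ((31 : ℤ) : K) = 31 := by norm_num
      rw [h5, C.co_smul, h7, pow_succ', mul_smul] at h
      exact smul_right_injective _ h6 h
  exact h2 N x hN

end Pool.Agent.Helper73.E8.Ez
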