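import Pool.Agent.Helper58.E8Z.HbDef
import Pool.Agent.Helper58.E8Z.FilOf

/-!
# Block E8Z-HB: the elements `hb j` in `L`

Proof. `nR_hb`: as in `TRelC.lean` (`mm_W`, `yy`, `sV_yy`: `hbz η j (onRoot W W_isom a) = η a * hbz η j a`, because `sg η j 30 = 1` by `lift_W_fifteen` and
`rr j 30 = sr j`). `sV_hb`, `map_hb`: the coordinates are integers. `CVge_hb`, `clc_hb`: `Vge_of_integral`, `lc_intCast`. `exists_h`: `conv0` and
`C.co_injective`, `C.co_t`. `nn_add`, ..., `InE_...`: `mono_add`, `mono_smul`, `mono_lie` (`isCoc_lift`). `InE_hb`: `nR_hb` for `ZMod 31`.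
-/

set_option autoImplicit false

open scoped TensorProduct

namespace Pool.Agent.Helper73.E8.Ez

open Chev
open Pool.Agent.Helper2.E8A (K ζ σ hζ P0)

variable {L : Type} [LieRing L] [Module.Free ℤ L] [Module.Finite ℤ L] {B : LinearMap.BilinForm ℤ L}

private theorem rr0_h5 (j : Fin 8) : rr j 0 = sr j := rfl

private theorem rrs_h5 (j : Fin 8) (k : ℕ) : rr j (k + 1) = onRoot W W_isom (rr j k) :=
  Function.iterate_succ_apply' _ _ _

private theorem rrv_h5 (j : Fin 8) (k : ℕ) : (rr j k).1 = W^[k] (al j) := by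
  induction k with
  | zero => rfl
  | succ k ih => rw [rrs_h5, onRoot_val, ih, Function.iterate_succ_apply']

private theorem W30_h5 (x : Lat) : W^[30] x = x := by
  have h : W^[30] x = W^[15] (W^[15] x) := by
    rw [← Function.iterate_add_apply]
  rw [h, W_fifteen, W_fifteen, neg_neg]

private theorem rr30_h5 (j : Fin 8) : rr j 30 = sr j := root_ext (by rw [rrv_h5, W30_h5]; rfl)

private theorem sg30_h5 (η : Lat → ℤˣ) (hη : IsLift W η) (i : Fin 8) : sg η i 30 = 1 := by
  have h1 := lift_W_fifteen η hη (sr i)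
  have h2 := lift_W_fifteen η hη (-sr i)
  have h3 : sg η i (15 + 15) = (∏ j ∈ Finset.range 15, η (W^[j] (al i))) *
      ∏ j ∈ Finset.range 15, η (W^[15 + j] (al i)) := Finset.prod_range_add _ _ _
  have h4 : ∏ j ∈ Finset.range 15, η (W^[15 + j] (al i)) = 1 := by
    rw [← h2]
    refine Finset.prod_congr rfl fun j _ => ?_
    rw [add_comm, Function.iterate_add_apply, W_fifteen]
    rfl
  change sg η i (15 + 15) = 1
  rw [h3, h4, mul_one]
  exact h1

theorem hbz_W {η : Lat → ℤˣ} (hη : IsLift W η) (j : Fin 8) (a : Root) :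
    hbz η j (onRoot W W_isom a) = ((η a.1 : ℤˣ) : ℤ) * hbz η j a := by
  have h1 : ((η a.1 : ℤˣ) : ℤ) * hbz η j a =
      ∑ k ∈ Finset.range 30, if onRoot W W_isom a = rr j (k + 1) then ((sg η j (k + 1) : ℤˣ) : ℤ) else 0 := by
    unfold hbz
    rw [Finset.mul_sum]
    refine Finset.sum_congr rfl fun k _ => ?_
    by_cases h : a = rr j k
    · have h' : onRoot W W_isom a = rr j (k + 1) := by rw [rrs_h5, h]
      rw [if_pos h, if_pos h']
      have h2 : sg η j (k + 1) = sg η j k * η (W^[k] (al j)) := Finset.prod_range_succ _ _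
      rw [h2, h, rrv_h5, mul_comm]
      push_cast
      rfl
    · have h' : onRoot W W_isom a ≠ rr j (k + 1) := by
        rw [rrs_h5]
        exact fun h2 => h ((onRoot W W_isom).injective h2)
      rw [if_neg h, if_neg h', mul_zero]
  rw [h1]
  unfold hbz
  set F : ℕ → ℤ := fun k => if onRoot W W_isom a = rr j k then ((sg η j k : ℤˣ) : ℤ) else 0 with hF
  change ∑ k ∈ Finset.range 30, F k = ∑ k ∈ Finset.range 30, F (k + 1)
  have h2 : F 30 = F 0 := by
    simp only [hF, rr30_h5, rr0_h5, sg30_h5 η hη]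
    simp [sg]
  have h3 := Finset.sum_range_succ F 30
  have h4 := Finset.sum_range_succ' F 30
  rw [h2] at h3
  have h5 := h3.symm.trans h4
  exact add_right_cancel h5

theorem mono_hb {R : Type} [CommRing R] {η : Lat → ℤˣ} (hη : IsLift W η) (τ : R →+* R) (j : Fin 8) :
    mono τ W W_isom (fun a => ((η a.1 : ℤ) : R)) (hb R η j) = hb R η j := by
  ext i
  · simp [mono, hb]
  · change (((η ((onRoot W W_isom).symm i).1 : ℤˣ) : ℤ) : R) *
      τ ((hbz η j ((onRoot W W_isom).symm i) : ℤ) : R) = ((hbz η j i : ℤ) : R)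
    rw [map_intCast]
    have h := hbz_W hη j ((onRoot W W_isom).symm i)
    rw [Equiv.apply_symm_apply] at h
    rw [h]
    push_cast
    rfl

theorem sV_hb {η : Lat → ℤˣ} (hη : IsLift W η) (j : Fin 8) : sV η (hb K η j) = hb K η j :=
  mono_hb hη _ j

theorem map_hb (η : Lat → ℤˣ) (j : Fin 8) : map (σ : K →+* K) (hb K η j) = hb K η j := by
  ext i
  · simp [map, hb]
  · change (σ : K →+* K) ((hbz η j i : ℤ) : K) = ((hbz η j i : ℤ) : K)
    rw [map_intCast]

theorem CVge_hb (η : Lat → ℤˣ) (j : Fin 8) : CVge 0 (hb K η j) :=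
  ⟨fun _ => Vge_zero 0, fun a => Vge_of_integral (by
    change IsIntegral ℤ ((hbz η j a : ℤ) : K)
    exact isIntegral_algebraMap)⟩

theorem clc_hb (η : Lat → ℤˣ) (j : Fin 8) : clc 0 (hb K η j) = hb (ZMod 31) η j := by
  ext i
  · change lc 0 (0 : K) = 0
    exact lc_zero 0
  · change lc 0 ((hbz η j i : ℤ) : K) = ((hbz η j i : ℤ) : ZMod 31)
    exact lc_intCast _

theorem exists_h (C : Core L B) (j : Fin 8) : ∃ h : L, C.co h = hb K C.η j ∧ C.t.1 h = h := by
  obtain ⟨x, hx⟩ := conv0 C (hb K C.η j) (fun i => by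
    change IsIntegral ℤ (0 : K)
    exact isIntegral_zero) (fun a => by
    change IsIntegral ℤ ((hbz C.η j a : ℤ) : K)
    exact isIntegral_algebraMap) (sV_hb C.hη j)
  refine ⟨x, hx, ?_⟩
  apply C.co_injective
  rw [C.co_t, hx, map_hb]

theorem InE_zero (η : Lat → ℤˣ) (m : ℤ) : InE η m 0 := by
  unfold InE nn
  rw [smul_zero]
  ext i
  · simp [mono]
  · simp [mono]

theorem InE_add {η : Lat → ℤˣ} {m : ℤ} {y z : Chev (ZMod 31)} (hy : InE η m y) (hz : InE η m z) : InE η m (y + z) := by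
  unfold InE nn at *
  rw [mono_add, hy, hz, smul_add]

theorem InE_smul {η : Lat → ℤˣ} {m : ℤ} (c : ZMod 31) {z : Chev (ZMod 31)} (hz : InE η m z) : InE η m (c • z) := by
  unfold InE nn at *
  rw [mono_smul, hz, RingHom.id_apply, smul_comm]

theorem InE_lie {η : Lat → ℤˣ} (hη : IsLift W η) {m m' : ℤ} {y z : Chev (ZMod 31)} (hy : InE η m y) (hz : InE η m' z) :
    InE η (m + m') ⁅y, z⁆ := by
  unfold InE nn at *
  rw [mono_lie _ _ _ _ (isCoc_lift W η hη), hy, hz, lie_smul, smul_lie, smul_smul, neg_add,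
    zpow_add₀ (by decide), mul_comm]

theorem InE_hb {η : Lat → ℤˣ} (hη : IsLift W η) (j : Fin 8) : InE η 0 (hb (ZMod 31) η j) := by
  unfold InE nn
  rw [mono_hb hη, neg_zero, zpow_zero, one_smul]

/-- `E_m` depends only on `m` modulo 30. -/
theorem InE_congr {η : Lat → ℤˣ} {m m' : ℤ} (h : 30 ∣ m' - m) (z : Chev (ZMod 31)) : InE η m z ↔ InE η m' z := by
  obtain ⟨k, hk⟩ := h
  have h3 : (3 : ZMod 31) ^ (-m') = 3 ^ (-m) := by
    have h30 : (3 : ZMod 31) ^ (30 : ℤ) = 1 := by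
      have h4 : (3 : ZMod 31) ^ (30 : ℕ) = 1 := by decide
      exact_mod_cast h4
    have h5 : -m' = -m + 30 * (-k) := by linarith
    rw [h5, zpow_add₀ (by decide), zpow_mul, h30, one_zpow, mul_one]
  unfold InE
  rw [h3]

theorem InE_clc (C : Core L B) {m : ℤ} {x : L} (hx : CVge m (C.co x)) : InE C.η m (clc m (C.co x)) :=
  nn_clc hx (C.co_sV x)

end Pool.Agent.Helper73.E8.Ez
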