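import Pool.Agent.Helper58.E8Z.ValCh

/-!
# Project E8Z, (E3): the elements `hb j` (orbit sums of root vectors) and the graded pieces `E_m` over `ZMod 31`
-/

set_option autoImplicit false

namespace Pool.Agent.Helper73.E8.Ez

open Chev
open Pool.Agent.Helper2.E8A (K ζ σ hζ P0)

/-- The orbit of the simple root `al j` under `W`. -/
noncomputable def rr (j : Fin 8) (k : ℕ) : Root := (onRoot W W_isom)^[k] (sr j)

/-- The signs. -/
noncomputable def sg (η : Lat → ℤˣ) (j : Fin 8) (k : ℕ) : ℤˣ := ∏ i ∈ Finset.range k, η (W^[i] (al j))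

/-- The integer coordinates of `hb j`. -/
noncomputable def hbz (η : Lat → ℤˣ) (j : Fin 8) (a : Root) : ℤ :=
  ∑ k ∈ Finset.range 30, if a = rr j k then ((sg η j k : ℤˣ) : ℤ) else 0

/-- The sum of the orbit of the root vector at the simple root `al j` under the lift of `W`. -/
noncomputable def hb (R : Type) [CommRing R] (η : Lat → ℤˣ) (j : Fin 8) : Chev R := ⟨0, fun a => ((hbz η j a : ℤ) : R)⟩

/-- The graded piece of degree `m`. -/
def InE (η : Lat → ℤˣ) (m : ℤ) (z : Chev (ZMod 31)) : Prop := nn η z = (3 : ZMod 31) ^ (-m) • z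

/-- The product of the operators `ad (hb j) - μ`, `μ` in the list. -/
noncomputable def lop (η : Lat → ℤˣ) (j : Fin 8) : List ℤ → Chev (ZMod 31) → Chev (ZMod 31)
  | [], z => z
  | μ :: l, z => ⁅hb (ZMod 31) η j, lop η j l z⁆ - μ • lop η j l z

end Pool.Agent.Helper73.E8.Ez
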