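import Pool.Agent.Helper58.E8Z.LineDat
import Pool.Agent.Helper58.E8Z.HbDef
import Pool.Agent.Helper64.E8C.Brc

/-!
# Project E8Z, (E3): eigenvectors of `ad (hb 0)`, `ad (hb 4)` on the graded pieces
-/

set_option autoImplicit false

namespace Pool.Agent.Helper73.E8.Ez

open Chev
open Pool.Agent.Helper2.E8A (K ζ σ hζ P0)
open Pool.Agent.Helper64.E8C (F toE brc un Ev et dm en vmT rt etk rW toE_brc exists_toE rt_val lift_unique)
open Pool.Agent.Helper58.E8Z

/-- `toE` as a linear function of the nine coordinates in `F`. -/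
noncomputable def TE (v : ℕ) (w : ℕ → F) : Chev F where
  h := fun i => w 8 * (en vmT v i : F)
  x := fun a => ∑ k ∈ Finset.range 30, ∑ j : Fin 8, if rt k j = a then
    (etk k j : F) * 3 ^ (v * k) * w j else 0

theorem toE_TE (v : ℕ) (s : List ℕ) : toE v s = TE v (fun i => (s.getD i 0 : F)) := rfl

theorem TE_congr (v : ℕ) {w w' : ℕ → F} (h : ∀ i < 9, w i = w' i) : TE v w = TE v w' := by
  ext i
  · simp only [TE, h 8 (by norm_num)]
  · simp only [TE]
    refine Finset.sum_congr rfl fun k _ => Finset.sum_congr rfl fun j _ => ?_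
    rw [h j (by have := j.2; omega)]

theorem TE_add (v : ℕ) (w w' : ℕ → F) : TE v (w + w') = TE v w + TE v w' := by
  ext i
  · simp only [TE, Chev.add_h, Pi.add_apply, add_mul]
  · simp only [TE, Chev.add_x, Pi.add_apply]
    rw [← Finset.sum_add_distrib]
    refine Finset.sum_congr rfl fun k _ => ?_
    rw [← Finset.sum_add_distrib]
    refine Finset.sum_congr rfl fun j _ => ?_
    split_ifs
    · ring
    · simp

theorem TE_smul (v : ℕ) (c : F) (w : ℕ → F) : TE v (c • w) = c • TE v w := by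
  ext i
  · simp only [TE, Chev.smul_h, Pi.smul_apply, smul_eq_mul, mul_assoc]
  · simp only [TE, Chev.smul_x, Pi.smul_apply, smul_eq_mul, Finset.mul_sum]
    refine Finset.sum_congr rfl fun k _ => Finset.sum_congr rfl fun j _ => ?_
    split_ifs
    · ring
    · simp

theorem TE_zero (v : ℕ) : TE v 0 = 0 := by
  have h := TE_smul v 0 0
  simpa using h

theorem TE_sum (v : ℕ) {ι : Type*} (S : Finset ι) (w : ι → ℕ → F) :
    TE v (∑ i ∈ S, w i) = ∑ i ∈ S, TE v (w i) := by
  classical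
  induction S using Finset.induction_on with
  | empty => simpa using TE_zero v
  | insert a S ha ih => rw [Finset.sum_insert ha, Finset.sum_insert ha, TE_add, ih]

theorem foldl_sum58 (n : ℕ) (f : ℕ → ℕ) :
    (List.range n).foldl (fun acc j => acc + f j) 0 = ∑ j ∈ Finset.range n, f j := by
  induction n with
  | zero => simp
  | succ n ih => rw [List.range_succ, List.foldl_append, ih, Finset.sum_range_succ]; simp

theorem cast31_58 (n : ℕ) : ((n % 31 : ℕ) : F) = (n : F) := ZMod.natCast_mod n 31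

theorem toE_map (v c : ℕ) (s : List ℕ) :
    toE v ((List.range 9).map fun k => (c * s.getD k 0) % 31) = (c : F) • toE v s := by
  rw [toE_TE, toE_TE, ← TE_smul]
  refine TE_congr _ fun i hi => ?_
  simp only [Pi.smul_apply, smul_eq_mul]
  rw [List.getD_eq_getElem _ _ (by simpa using hi)]
  simp only [List.getElem_map, List.getElem_range, cast31_58, Nat.cast_mul]

private theorem vm_zero58 : ∀ v < 30, 1 ≤ v → dm v = 8 → ∀ i < 8, en vmT v i = 0 := by
  decide +kernel

private theorem dm_or58 : ∀ v < 30, 1 ≤ v → dm v = 8 ∨ dm v = 9 := by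
  decide +kernel

/-- Every element of `E_v` is a combination of the eigenvectors. -/
theorem exists_comb {v : ℕ} (hv : v < 30) (hv1 : 1 ≤ v) {u : Chev F} (hu : Ev v u) :
    ∃ c : ℕ → F, u = ∑ j ∈ Finset.range (dm v), c j • toE v (lev v j) := by
  obtain ⟨l, hl, -, rfl⟩ := exists_toE hu
  refine ⟨fun j => ∑ i ∈ Finset.range (dm v), (l.getD i 0 : F) * (lei v i j : F), ?_⟩
  -- the right side
  have hR : ∑ j ∈ Finset.range (dm v), (∑ i ∈ Finset.range (dm v), (l.getD i 0 : F) * (lei v i j : F)) •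
      toE v (lev v j) = TE v (∑ j ∈ Finset.range (dm v), (∑ i ∈ Finset.range (dm v),
        (l.getD i 0 : F) * (lei v i j : F)) • fun k => ((lev v j).getD k 0 : F)) := by
    rw [TE_sum]
    exact Finset.sum_congr rfl fun j _ => by rw [TE_smul, toE_TE]
  have h2 : ∀ i < dm v, ∀ k < 9, ∑ j ∈ Finset.range (dm v), (lei v i j : F) * ((lev v j).getD k 0 : F) =
      if i = k then 1 else 0 := by
    intro i hi k hk
    have h3 := lk_inv v hv hv1 i hi k hk
    rw [foldl_sum58] at h3
    have h4 : (((∑ j ∈ Finset.range (dm v), lei v i j * (lev v j).getD k 0) % 31 : ℕ) : F) =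
        ((if i = k then 1 else 0 : ℕ) : F) := by rw [h3]
    rw [cast31_58] at h4
    push_cast at h4
    exact h4
  have h5 : ∀ k < 9, (∑ j ∈ Finset.range (dm v), (∑ i ∈ Finset.range (dm v),
      (l.getD i 0 : F) * (lei v i j : F)) • fun k => ((lev v j).getD k 0 : F)) k =
      if k < dm v then (l.getD k 0 : F) else 0 := by
    intro k hk
    simp only [Finset.sum_apply, Pi.smul_apply, smul_eq_mul]
    have h6 : ∑ j ∈ Finset.range (dm v), (∑ i ∈ Finset.range (dm v), (l.getD i 0 : F) * (lei v i j : F)) *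
        ((lev v j).getD k 0 : F) = ∑ i ∈ Finset.range (dm v), (l.getD i 0 : F) *
          ∑ j ∈ Finset.range (dm v), (lei v i j : F) * ((lev v j).getD k 0 : F) := by
      simp only [Finset.sum_mul, Finset.mul_sum, mul_assoc]
      exact Finset.sum_comm
    rw [h6, Finset.sum_congr rfl fun i hi => by rw [h2 i (Finset.mem_range.1 hi) k hk]]
    simp
  rw [hR, toE_TE]
  rcases dm_or58 v hv hv1 with hd | hd
  · -- the coordinate 8 plays no role
    ext i
    · simp only [TE, vm_zero58 v hv hv1 hd i i.2, Nat.cast_zero, mul_zero]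
    · simp only [TE]
      refine Finset.sum_congr rfl fun k _ => Finset.sum_congr rfl fun j _ => ?_
      have h7 := h5 j (by have := j.2; omega)
      rw [if_pos (by have := j.2; omega)] at h7
      rw [h7]
  · refine TE_congr _ fun k hk => ?_
    rw [h5 k hk, if_pos (by omega)]

private theorem getD_un58 (j i : ℕ) (hi : i < 9) : (un j).getD i 0 = if i = j then 1 else 0 := by
  unfold un
  rw [List.getD_eq_getElem _ _ (by simpa using hi)]
  simp only [List.getElem_map, List.getElem_range]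

/-- `hb j` over `ZMod 31` in the coordinates `toE`. -/
theorem hb_toE (j : Fin 8) : hb (ZMod 31) et j = toE 0 (un j) := by
  ext a
  · change (0 : F) = ((un j).getD 8 0 : F) * _
    rw [getD_un58 _ _ (by norm_num), if_neg (by have := j.2; omega), Nat.cast_zero, zero_mul]
  · change ((hbz et j a : ℤ) : F) = ∑ k ∈ Finset.range 30, ∑ j' : Fin 8, if rt k j' = a then
      (etk k j' : F) * 3 ^ (0 * k) * ((un j).getD j' 0 : F) else 0
    unfold hbz
    rw [Int.cast_sum]
    refine Finset.sum_congr rfl fun k _ => ?_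
    rw [Finset.sum_eq_single j]
    · rw [getD_un58 _ _ (by have := j.2; omega), if_pos rfl, zero_mul, pow_zero, Nat.cast_one, mul_one, mul_one]
      have h1 : rr j k = rt k j := rfl
      have h2 : ((sg et j k : ℤˣ) : ℤ) = etk k j := by
        unfold sg etk
        rw [Units.coe_prod]
        exact Finset.prod_congr rfl fun i _ => by rw [rt_val]
      rw [h1, h2]
      by_cases h : a = rt k j
      · rw [if_pos h, if_pos h.symm]
      · rw [if_neg h, if_neg (Ne.symm h), Int.cast_zero]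
    · intro j' _ hj'
      rw [getD_un58 _ _ (by have := j'.2; omega), if_neg (fun h => hj' (Fin.ext h)), Nat.cast_zero, mul_zero]
      exact ite_self _
    · intro h
      exact absurd (Finset.mem_univ _) h

theorem lop_comb {η : Lat → ℤˣ} {j : Fin 8} {n : ℕ} {w : ℕ → Chev F} {μ : ℕ → F}
    (hT : ∀ i < n, ⁅hb (ZMod 31) η j, w i⁆ = μ i • w i) (l : List ℤ) (c : ℕ → F) :
    lop η j l (∑ i ∈ Finset.range n, c i • w i) =
      ∑ i ∈ Finset.range n, (c i * (l.map fun ν : ℤ => μ i - (ν : F)).prod) • w i := by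
  induction l with
  | nil => simp [lop]
  | cons ν l ih =>
    have h1 : lop η j (ν :: l) (∑ i ∈ Finset.range n, c i • w i) =
        ⁅hb (ZMod 31) η j, lop η j l (∑ i ∈ Finset.range n, c i • w i)⁆ -
          ν • lop η j l (∑ i ∈ Finset.range n, c i • w i) := rfl
    rw [h1, ih, ← Int.cast_smul_eq_zsmul (ZMod 31) ν, lie_sum, Finset.smul_sum, ← Finset.sum_sub_distrib]
    refine Finset.sum_congr rfl fun i hi => ?_
    rw [lie_smul, hT i (Finset.mem_range.1 hi), smul_smul, smul_smul, ← sub_smul, List.map_cons, List.prod_cons]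
    congr 1
    ring

/-- The eigenvalues without number `i`. -/
private def ls58 (n : ℕ) (m : ℕ → ℕ) (i : ℕ) : List ℤ :=
  ((List.range n).filter (fun k => k ≠ i)).map fun k => (m k : ℤ)

private theorem prod_zero58 {n : ℕ} {m : ℕ → ℕ} {i k : ℕ} (hk : k < n) (hki : k ≠ i) :
    ((ls58 n m i).map fun ν : ℤ => ((m k : ℕ) : F) - (ν : F)).prod = 0 := by
  have : Fact (Nat.Prime 31) := ⟨by norm_num⟩
  apply List.prod_eq_zero
  rw [List.mem_map]
  refine ⟨(m k : ℤ), ?_, ?_⟩
  · unfold ls58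
    rw [List.mem_map]
    exact ⟨k, by simp [hk, hki], rfl⟩
  · rw [Int.cast_natCast, sub_self]

private theorem prod_ne58 {n : ℕ} {m : ℕ → ℕ} (hm : ∀ i < n, m i < 31 ∧ ∀ j < n, i ≠ j → m i ≠ m j) {i : ℕ} (hi : i < n) :
    ((ls58 n m i).map fun ν : ℤ => ((m i : ℕ) : F) - (ν : F)).prod ≠ 0 := by
  have : Fact (Nat.Prime 31) := ⟨by norm_num⟩
  rw [Ne, List.prod_eq_zero_iff, List.mem_map]
  rintro ⟨ν, hν, h0⟩
  unfold ls58 at hν
  rw [List.mem_map] at hν
  obtain ⟨k, hk, rfl⟩ := hν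
  rw [List.mem_filter, List.mem_range] at hk
  have hki : k ≠ i := by simpa using hk.2
  rw [Int.cast_natCast, sub_eq_zero] at h0
  have h1 := (ZMod.natCast_eq_natCast_iff' _ _ 31).1 h0
  rw [Nat.mod_eq_of_lt (hm i hi).1, Nat.mod_eq_of_lt (hm k hk.1).1] at h1
  exact (hm i hi).2 k hk.1 (Ne.symm hki) h1

private theorem W_al58 (j i : Fin 8) : W (al j) i = Wmat j i := by
  rw [W_apply, Finset.sum_eq_single j]
  · simp [al]
  · intro k _ hk
    simp [al, hk]
  · intro h
    exact absurd (Finset.mem_univ _) h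

/-- `InE` in the form `Ev`. -/
theorem Ev_of_InE {m : ℤ} {v : ℕ} (hv : 30 ∣ m - v) {z : Chev F} (hz : InE et m z) : Ev v z := by
  have h3 : (3 : ZMod 31) ≠ 0 := by decide
  have h300 : (3 : ZMod 31) ^ (30 : ℕ) = 1 := by decide
  have : Fact (Nat.Prime 31) := ⟨by norm_num⟩
  have h30 : (3 : ZMod 31) ^ (30 : ℤ) = 1 := by exact_mod_cast h300
  have hq : (3 : ZMod 31) ^ m = 3 ^ v := by
    obtain ⟨k, hk⟩ := hv
    have h1 : m = 30 * k + v := by omega
    rw [h1, zpow_add₀ h3, zpow_mul, h30, one_zpow, one_mul, zpow_natCast]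
  have hne : (3 : ZMod 31) ^ m ≠ 0 := zpow_ne_zero _ h3
  have h4 : (3 : ZMod 31) ^ m • nn et z = z := by
    rw [hz, smul_smul, ← zpow_add₀ h3, add_neg_cancel, zpow_zero, one_smul]
  rw [hq] at h4
  constructor
  · intro i
    have h5 := congrArg (fun y : Chev F => y.h i) h4
    change (3 : F) ^ v * (∑ j, z.h j * ((W (al j) i : ℤ) : F)) = z.h i at h5
    rw [← h5, Finset.mul_sum]
    refine Finset.sum_congr rfl fun j _ => ?_
    rw [W_al58]
    ring
  · intro a
    have h5 := congrArg (fun y : Chev F => y.x (rW a)) h4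
    change (3 : F) ^ v * (((et ((onRoot W W_isom).symm (rW a)).1 : ℤ) : F) * z.x ((onRoot W W_isom).symm (rW a))) =
      z.x (rW a) at h5
    have h6 : (onRoot W W_isom).symm (rW a) = a := (onRoot W W_isom).symm_apply_apply a
    rw [h6] at h5
    rw [← h5]
    ring

private theorem lj_or58 (v : ℕ) : lj v = 0 ∨ lj v = 4 := by
  unfold lj
  split_ifs
  · exact Or.inr rfl
  · exact Or.inl rfl

private def lf58 (v : ℕ) : Fin 8 := if v ∈ [12, 14, 16, 18] then 4 else 0

private theorem lf_val58 (v : ℕ) : ((lf58 v : Fin 8) : ℕ) = lj v := by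
  unfold lf58 lj
  split_ifs <;> rfl

private theorem eig58 {v : ℕ} (hv : v < 30) (hv1 : 1 ≤ v) (i : ℕ) (hi : i < dm v) :
    ⁅hb (ZMod 31) et (lf58 v), toE v (lev v i)⁆ = (lmu v i : F) • toE v (lev v i) := by
  rw [hb_toE, toE_brc, zero_add, lf_val58, lk_eig v hv hv1 i hi, toE_map]

private theorem mod58 {m : ℤ} (hm : ¬ 30 ∣ m) : ∃ v : ℕ, v < 30 ∧ 1 ≤ v ∧ 30 ∣ m - v := by
  refine ⟨(m % 30).toNat, ?_, ?_, ?_⟩ <;> omega

theorem line {η : Lat → ℤˣ} (hη : IsLift W η) (m : ℤ) (hm : ¬ 30 ∣ m) :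
    ∃ j : Fin 8, (j = 0 ∨ j = 4) ∧ ∀ u, InE η m u → u ≠ 0 → ∃ (l : List ℤ) (w : Chev (ZMod 31)),
      lop η j l u ≠ 0 ∧ ∀ z, InE η m z → ∃ a : ZMod 31, lop η j l z = a • w := by
  obtain rfl := lift_unique hη
  obtain ⟨v, hv, hv1, hvm⟩ := mod58 hm
  refine ⟨lf58 v, ?_, ?_⟩
  · unfold lf58
    split_ifs
    · exact Or.inr rfl
    · exact Or.inl rfl
  intro u hu hu0
  have : Fact (Nat.Prime 31) := ⟨by norm_num⟩
  have hT := fun i hi => eig58 hv hv1 i hi
  obtain ⟨c, hc⟩ := exists_comb hv hv1 (Ev_of_InE hvm hu)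
  obtain ⟨i, hi, hci⟩ : ∃ i ∈ Finset.range (dm v), c i • toE v (lev v i) ≠ 0 := by
    by_contra h
    push Not at h
    exact hu0 (by rw [hc]; exact Finset.sum_eq_zero h)
  have hi' := Finset.mem_range.1 hi
  have key : ∀ d : ℕ → F, lop et (lf58 v) (ls58 (dm v) (lmu v) i)
      (∑ k ∈ Finset.range (dm v), d k • toE v (lev v k)) =
      (d i * ((ls58 (dm v) (lmu v) i).map fun ν : ℤ => ((lmu v i : ℕ) : F) - (ν : F)).prod) • toE v (lev v i) := by
    intro d
    rw [lop_comb hT, Finset.sum_eq_single i]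
    · intro k hk hki
      rw [prod_zero58 (Finset.mem_range.1 hk) hki, mul_zero, zero_smul]
    · intro h
      exact absurd hi h
  refine ⟨ls58 (dm v) (lmu v) i, toE v (lev v i), ?_, ?_⟩
  · rw [hc, key, mul_comm, ← smul_smul]
    exact smul_ne_zero (prod_ne58 (lk_mu v hv hv1) hi') hci
  · intro z hz
    obtain ⟨d, hd⟩ := exists_comb hv hv1 (Ev_of_InE hvm hz)
    exact ⟨_, by rw [hd, key]⟩

theorem joint {η : Lat → ℤˣ} (hη : IsLift W η) (m : ℤ) (hm : ¬ 30 ∣ m) (u : Chev (ZMod 31)) (hu : InE η m u)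
    (h0 : ⁅hb (ZMod 31) η 0, u⁆ = 0) (h4 : ⁅hb (ZMod 31) η 4, u⁆ = 0) : u = 0 := by
  obtain rfl := lift_unique hη
  obtain ⟨v, hv, hv1, hvm⟩ := mod58 hm
  have : Fact (Nat.Prime 31) := ⟨by norm_num⟩
  have hT := fun i hi => eig58 hv hv1 i hi
  obtain ⟨c, hc⟩ := exists_comb hv hv1 (Ev_of_InE hvm hu)
  -- the operator
  have hj : ⁅hb (ZMod 31) et (lf58 v), u⁆ = 0 := by
    unfold lf58
    split_ifs
    · exact h4
    · exact h0
  -- components with non-zero eigenvalue vanish
  have hcomp : ∀ i < dm v, lmu v i ≠ 0 → c i • toE v (lev v i) = 0 := by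
    intro i hi hmu
    have h1 : lop et (lf58 v) ((ls58 (dm v) (lmu v) i)) (⁅hb (ZMod 31) et (lf58 v), u⁆) = 0 := by
      rw [hj]
      have h2 := lop_comb (n := 0) (w := fun _ => 0) (μ := fun _ => 0) (η := et) (j := lf58 v)
        (fun i hi => absurd hi (Nat.not_lt_zero i)) (ls58 (dm v) (lmu v) i) (fun _ => 0)
      simpa using h2
    have h3 : ⁅hb (ZMod 31) et (lf58 v), u⁆ = ∑ k ∈ Finset.range (dm v), (c k * (lmu v k : F)) • toE v (lev v k) := by
      rw [hc, lie_sum]
      refine Finset.sum_congr rfl fun k hk => ?_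
      rw [lie_smul, hT k (Finset.mem_range.1 hk), smul_smul]
    rw [h3, lop_comb hT, Finset.sum_eq_single i] at h1
    · have h5 : ((lmu v i : ℕ) : F) ≠ 0 := by
        intro h
        rw [ZMod.natCast_eq_zero_iff] at h
        have := (lk_mu v hv hv1 i hi).1
        omega
      have h6 := prod_ne58 (lk_mu v hv hv1) hi
      rw [mul_assoc, mul_comm (c i), ← smul_smul] at h1
      exact (smul_eq_zero.1 h1).resolve_left (mul_ne_zero h5 h6)
    · intro k hk hki
      rw [prod_zero58 (Finset.mem_range.1 hk) hki, mul_zero, zero_smul]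
    · intro h
      exact absurd (Finset.mem_range.2 hi) h
  -- at most one eigenvalue is zero
  by_cases hz : ∃ i < dm v, lmu v i = 0
  · obtain ⟨i, hi, hi0⟩ := hz
    have hu1 : u = c i • toE v (lev v i) := by
      rw [hc, Finset.sum_eq_single i]
      · intro k hk hki
        refine hcomp k (Finset.mem_range.1 hk) fun h => ?_
        exact (lk_mu v hv hv1 k (Finset.mem_range.1 hk)).2 i hi hki (h.trans hi0.symm)
      · intro h
        exact absurd (Finset.mem_range.2 hi) h
    obtain ⟨h5, h6⟩ := lk_zero v hv hv1 i hi hi0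
    have h7 : ⁅hb (ZMod 31) et 4, u⁆ = ((lzT.getD v 0 : ℕ) : F) • u := by
      rw [hu1, lie_smul, hb_toE, toE_brc, zero_add]
      have h8 : (((4 : Fin 8) : ℕ)) = 4 := rfl
      rw [h8, h5, toE_map, smul_comm]
    rw [h4] at h7
    refine (smul_eq_zero.1 h7.symm).resolve_left fun h => h6 ?_
    exact Nat.mod_eq_zero_of_dvd ((ZMod.natCast_eq_zero_iff _ _).1 h)
  · push Not at hz
    rw [hc]
    exact Finset.sum_eq_zero fun i hi => hcomp i (Finset.mem_range.1 hi) (hz i (Finset.mem_range.1 hi))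

private theorem hb_map58 (R : Type) [CommRing R] (η : Lat → ℤˣ) (j : Fin 8) :
    hb R η j = map (Int.castRingHom R) (hb ℤ η j) := by
  ext a
  · change (0 : R) = Int.castRingHom R 0
    rw [map_zero]
  · rfl

private theorem rt_inj58 {k k' : ℕ} {j j' : Fin 8} (hk : k < 30) (hk' : k' < 30) (h : rr j k = rr j' k') :
    k = k' ∧ j = j' := Pool.Agent.Helper64.E8C.rt_inj hk hk' h

private theorem sg_abs58 (η : Lat → ℤˣ) (j : Fin 8) (k : ℕ) : |((sg η j k : ℤˣ) : ℤ)| = 1 := by
  rcases Int.units_eq_one_or (sg η j k) with h | h <;> simp [h]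

private theorem hbz_rr58 (η : Lat → ℤˣ) (j : Fin 8) {k : ℕ} (hk : k < 30) : hbz η j (rr j k) = ((sg η j k : ℤˣ) : ℤ) := by
  unfold hbz
  rw [Finset.sum_eq_single k]
  · rw [if_pos rfl]
  · intro k' hk' hne
    rw [if_neg]
    intro h
    exact hne (rt_inj58 hk (Finset.mem_range.1 hk') h).1.symm
  · intro h
    exact absurd (Finset.mem_range.2 hk) h

private theorem hbz_ne58 (η : Lat → ℤˣ) (j : Fin 8) {a : Root} (h : hbz η j a ≠ 0) : ∃ k < 30, a = rr j k := by
  by_contra hc
  push Not at hc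
  apply h
  unfold hbz
  refine Finset.sum_eq_zero fun k hk => ?_
  rw [if_neg (hc k (Finset.mem_range.1 hk))]

private theorem hbz_abs58 (η : Lat → ℤˣ) (j : Fin 8) (a : Root) : |hbz η j a| ≤ 1 := by
  by_cases h : hbz η j a = 0
  · rw [h]
    norm_num
  · obtain ⟨k, hk, rfl⟩ := hbz_ne58 η j h
    rw [hbz_rr58 η j hk, sg_abs58]

private theorem hbz_sum58 (η : Lat → ℤˣ) (j : Fin 8) : ∑ a : Root, |hbz η j a| ≤ 30 := by
  have h1 : ∀ a : Root, |hbz η j a| ≤ ∑ k ∈ Finset.range 30, if a = rr j k then (1 : ℤ) else 0 := by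
    intro a
    unfold hbz
    refine (Finset.abs_sum_le_sum_abs _ _).trans (Finset.sum_le_sum fun k _ => ?_)
    split_ifs
    · exact (sg_abs58 η j k).le
    · simp
  refine (Finset.sum_le_sum fun a _ => h1 a).trans ?_
  rw [Finset.sum_comm]
  have h2 : ∀ k ∈ Finset.range 30, (∑ a : Root, if a = rr j k then (1 : ℤ) else 0) = 1 := by
    intro k _
    rw [Finset.sum_ite_eq' Finset.univ (rr j k) (fun _ => (1 : ℤ)), if_pos (Finset.mem_univ _)]
  rw [Finset.sum_congr rfl h2]
  simp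

theorem hbZ_comm {η : Lat → ℤˣ} (hη : IsLift W η) : ⁅hb ℤ η 0, hb ℤ η 4⁆ = 0 := by
  obtain rfl := lift_unique hη
  have hF : map (Int.castRingHom F) ⁅hb ℤ et 0, hb ℤ et 4⁆ = 0 := by
    have h00 : (((0 : Fin 8) : ℕ)) = 0 := rfl
    have h44 : (((4 : Fin 8) : ℕ)) = 4 := rfl
    rw [map_lie, ← hb_map58, ← hb_map58, hb_toE, hb_toE, toE_brc, h00, h44, lk_comm, toE_TE]
    have h1 := TE_zero (0 + 0)
    rw [← h1]
    refine TE_congr _ fun i hi => ?_
    interval_cases i <;> simp
  ext c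
  · rw [brk_h]
    change -_ = (0 : ℤ)
    rw [neg_eq_zero]
    refine Finset.sum_eq_zero fun a _ => ?_
    change _ * (((hbz et 0 a : ℤ)) * ((hbz et 4 (-a) : ℤ))) = (0 : ℤ)
    by_cases h : hbz et 0 a = 0
    · rw [h, zero_mul, mul_zero]
    · by_cases h' : hbz et 4 (-a) = 0
      · rw [h', mul_zero, mul_zero]
      · exfalso
        obtain ⟨k, hk, rfl⟩ := hbz_ne58 et 0 h
        obtain ⟨k', hk', h2⟩ := hbz_ne58 et 4 h'
        have h3 : rr 4 (k' + 15) = rr 0 k := by
          have h4 := Pool.Agent.Helper64.E8C.rt_fifteen k' 4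
          change rr 4 (k' + 15) = -rr 4 k' at h4
          rw [h4, ← h2, neg_neg]
        have h5 : rr 4 ((k' + 15) % 30) = rr 4 (k' + 15) := by
          by_cases h6 : k' + 15 < 30
          · rw [Nat.mod_eq_of_lt h6]
          · have h7 : k' + 15 = (k' + 15) % 30 + 30 := by omega
            conv_rhs => rw [h7]
            exact (Pool.Agent.Helper64.E8C.rt_thirty _ _).symm
        rw [← h5] at h3
        have h8 := (rt_inj58 (Nat.mod_lt _ (by norm_num)) hk h3).2
        revert h8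
        decide
  · have h31 : (31 : ℤ) ∣ (⁅hb ℤ et 0, hb ℤ et 4⁆).x c := by
      have h1 : ((((⁅hb ℤ et 0, hb ℤ et 4⁆).x c : ℤ)) : F) = 0 := congrArg (fun y : Chev F => y.x c) hF
      exact (ZMod.intCast_zmod_eq_zero_iff_dvd _ 31).1 h1
    have hb30 : |(⁅hb ℤ et 0, hb ℤ et 4⁆).x c| ≤ 30 := by
      rw [brk_x]
      have e1 : pr (hb ℤ et 0).h c.1 = 0 := pr_zero c.1
      have e2 : pr (hb ℤ et 4).h c.1 = 0 := pr_zero c.1
      rw [e1, e2, zero_mul, zero_mul, sub_zero, zero_add]
      refine le_trans ?_ (hbz_sum58 et 0)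
      refine (Finset.abs_sum_le_sum_abs _ _).trans (Finset.sum_le_sum fun a _ => ?_)
      by_cases hd : ∃ b : Root, a.1 + b.1 = c.1
      · obtain ⟨b, hbc⟩ := hd
        rw [Finset.sum_eq_single b]
        · rw [if_pos hbc, abs_mul, abs_mul]
          have h2 : |((eps a.1 b.1 : ℤˣ) : ℤ)| = 1 := by
            rcases Int.units_eq_one_or (eps a.1 b.1) with h | h <;> simp [h]
          have h3 : |(hb ℤ et 4).x b| ≤ 1 := hbz_abs58 et 4 b
          have h4 : |(hb ℤ et 0).x a| = |hbz et 0 a| := rfl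
          have h5 : |(((eps a.1 b.1 : ℤˣ) : ℤ) : ℤ)| = 1 := h2
          rw [Int.cast_id, h5, one_mul, h4]
          have h6 : 0 ≤ |hbz et 0 a| := abs_nonneg _
          nlinarith
        · intro b' _ hb'
          rw [if_neg]
          intro h
          exact hb' (root_ext (add_left_cancel (h.trans hbc.symm)))
        · intro h
          exact absurd (Finset.mem_univ _) h
      · rw [Finset.sum_eq_zero]
        · simp
        · intro b _
          rw [if_neg fun h => hd ⟨b, h⟩]
    change (⁅hb ℤ et 0, hb ℤ et 4⁆).x c = 0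
    refine Int.eq_zero_of_abs_lt_dvd h31 ?_
    omega

theorem hb_comm {η : Lat → ℤˣ} (hη : IsLift W η) : ⁅hb K η 0, hb K η 4⁆ = 0 := by
  rw [hb_map58 K η 0, hb_map58 K η 4, ← map_lie, hbZ_comm hη]
  ext a
  · change Int.castRingHom K 0 = 0
    rw [map_zero]
  · change Int.castRingHom K 0 = 0
    rw [map_zero]

end Pool.Agent.Helper73.E8.Ez
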