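import Pool.Agent.Helper58.E8Z.Core
import Pool.Agent.Helper2.E8A.Sig

/-!
# Block E8Z-TRELA: relations of `g` and `t`

Proof. Everything is checked after applying the injective map `C.co` (`C.co_injective`, `C.co_g`, `C.co_t`; elements of `AutL L` are equal if they agree on
`L`; `pow_apply` in `Grp.lean` for powers).
* `g_pow`: `gz ζ` iterated 31 times is `gz (ζ^31) = gz 1 = id`. `g_ne`: otherwise `gz ζ (f (1 ⊗ y)) = f (1 ⊗ y)` for all `y ∈ L`, so
  `gz ζ z = z` for all `z ∈ Chev K` (`K`-linear, the `1 ⊗ y` span), but `gz ζ (e (sr 0)) = ζ • e (sr 0)`.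
* `t_conj`: `t g = g^3 t`: `map σ (gz ζ z) = gz (ζ^3) (map σ z)` (`σ ζ = ζ^3`: `Helper2/E8A/Fr.lean` or `Gom.lean`: from the definition of `σ`).
* `t_order`: `σ^30 = 1` (`σ ζ = ζ^3` and `3^30 = 1` modulo 31; an automorphism of `K` is determined by the image of `ζ`), so `t^30 = 1`; if `t^j = 1`
  then `g = t^j g t^(-j) = g^(3^j)`, so `3^j = 1` modulo 31 (`g` has order 31) and `30 ∣ j` (3 is a primitive root modulo 31, finite check).
-/

set_option autoImplicit false

open scoped TensorProduct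

namespace Pool.Agent.Helper73.E8.Ez

open Chev
open Pool.Agent.Helper2.E8A (K ζ σ)

variable {L : Type} [LieRing L] [Module.Free ℤ L] [Module.Finite ℤ L] {B : LinearMap.BilinForm ℤ L} (C : Core L B)

private theorem gz_gz1 (z w : K) (y : Chev K) : gz z (gz w y) = gz (z * w) y := by
  unfold gz
  congr 1
  funext a
  rw [mul_zpow, mul_assoc]

private theorem gz_one1 (y : Chev K) : gz (1 : K) y = y := by
  ext a
  · rfl
  · simp only [gz, one_zpow, one_mul]

private theorem gz_iter1 (n : ℕ) (y : Chev K) : (gz ζ)^[n] y = gz (ζ ^ n) y := by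
  induction n with
  | zero => rw [Function.iterate_zero, pow_zero, gz_one1]; rfl
  | succ n ih => rw [Function.iterate_succ_apply', ih, gz_gz1, pow_succ']

private theorem co_g_iter1 (n : ℕ) (x : L) : C.co (C.g.1^[n] x) = gz (ζ ^ n) (C.co x) := by
  rw [← gz_iter1]
  induction n with
  | zero => rfl
  | succ n ih => rw [Function.iterate_succ_apply', Function.iterate_succ_apply', C.co_g, ih]

private theorem ext1 {a b : AutL L} (h : ∀ x, C.co (a.1 x) = C.co (b.1 x)) : a = b :=
  Subtype.ext (LinearEquiv.ext fun x => C.co_injective (h x))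

theorem g_pow : C.g ^ 31 = 1 := by
  apply ext1 C
  intro x
  rw [pow_apply, co_g_iter1, Helper2.E8A.hζ.pow_eq_one, gz_one1]
  rfl

private theorem gz_add1 (z : K) (y w : Chev K) : gz z (y + w) = gz z y + gz z w := by
  ext a
  · rfl
  · simp only [gz, add_x, Pi.add_apply, mul_add]

private theorem gz_smul1 (z c : K) (y : Chev K) : gz z (c • y) = c • gz z y := by
  ext a
  · rfl
  · simp only [gz, smul_x, Pi.smul_apply, smul_eq_mul]
    ring

private theorem gz_zero1 (z : K) : gz z (0 : Chev K) = 0 := by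
  ext a
  · rfl
  · simp [gz]

theorem g_ne : C.g ≠ 1 := by
  intro h
  have h1 : ∀ x : L, gz ζ (C.co x) = C.co x := by
    intro x
    rw [← C.co_g, h]
    rfl
  have h2 : ∀ w : K ⊗[ℤ] L, gz ζ (C.f w) = C.f w := by
    intro w
    induction w using TensorProduct.induction_on with
    | zero => rw [_root_.map_zero, gz_zero1]
    | tmul a x =>
      have e : a ⊗ₜ[ℤ] x = a • ((1 : K) ⊗ₜ[ℤ] x) := by
        rw [TensorProduct.smul_tmul', smul_eq_mul, mul_one]
      rw [e, _root_.map_smul, gz_smul1]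
      congr 1
      exact h1 x
    | add y z hy hz => rw [_root_.map_add, gz_add1, hy, hz]
  have h3 := h2 (C.f.symm (e (sr 0)))
  rw [LieEquiv.apply_symm_apply] at h3
  have h4 := congrFun (congrArg Chev.x h3) (sr 0)
  have h5 : ht (sr 0).1 = 1 := by
    change ht (al 0) = 1
    unfold ht al
    rw [Finset.sum_eq_single 0 (fun k _ hk => by simp [hk]) (fun h => absurd (Finset.mem_univ _) h)]
    simp
  simp only [gz, e_x, Pi.single_eq_same, mul_one, h5, zpow_one] at h4
  exact Helper2.E8A.hζ.ne_one (by norm_num) h4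

private theorem map_gz1 (y : Chev K) :
    map (σ : K →+* K) (gz ζ y) = gz (ζ ^ 3) (map (σ : K →+* K) y) := by
  ext a
  · rfl
  · simp only [gz, map, map_mul, map_zpow₀]
    have h : ((σ : K →+* K) ζ) = ζ ^ 3 := Helper2.E8A.σ_ζ
    rw [h]

theorem t_conj : C.t * C.g * C.t⁻¹ = C.g ^ 3 := by
  rw [mul_inv_eq_iff_eq_mul]
  apply ext1 C
  intro x
  have h1 : (C.t * C.g).1 x = C.t.1 (C.g.1 x) := rfl
  have h2 : (C.g ^ 3 * C.t).1 x = (C.g ^ 3).1 (C.t.1 x) := rfl
  rw [h1, h2, pow_apply, co_g_iter1, C.co_t, C.co_t, C.co_g, map_gz1]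

private theorem map_iter1 (n : ℕ) (y : Chev K) :
    (map (σ : K →+* K))^[n] y = map ((σ ^ n : K ≃ₐ[ℚ] K) : K →+* K) y := by
  induction n with
  | zero => rfl
  | succ n ih =>
    rw [Function.iterate_succ_apply', ih, pow_succ']
    rfl

private theorem t_pow1 : C.t ^ 30 = 1 := by
  apply ext1 C
  intro x
  have h1 : ∀ n : ℕ, C.co (C.t.1^[n] x) = (map (σ : K →+* K))^[n] (C.co x) := by
    intro n
    induction n with
    | zero => rfl
    | succ n ih => rw [Function.iterate_succ_apply', Function.iterate_succ_apply', C.co_t, ih]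
  rw [pow_apply, h1, map_iter1, Helper2.E8A.σ30]
  rfl

private theorem conj_iter1 (j : ℕ) : C.t ^ j * C.g * (C.t ^ j)⁻¹ = C.g ^ 3 ^ j := by
  induction j with
  | zero => simp
  | succ j ih =>
    have e : C.t ^ (j + 1) * C.g * (C.t ^ (j + 1))⁻¹ = C.t * (C.t ^ j * C.g * (C.t ^ j)⁻¹) * C.t⁻¹ := by
      rw [pow_succ']
      group
    rw [e, ih, ← conj_pow, t_conj, ← pow_mul]
    congr 1
    ring

private theorem g_order1 : orderOf C.g = 31 := orderOf_eq_prime (g_pow C) (g_ne C)

private theorem ne_of1 (j : ℕ) (hj : ¬ 3 ^ j ≡ 1 [MOD 31]) : C.t ^ j ≠ 1 := by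
  intro h
  have h1 := conj_iter1 C j
  rw [h, one_mul, inv_one, mul_one] at h1
  apply hj
  have h2 : C.g ^ 3 ^ j = C.g ^ 1 := by rw [← h1, pow_one]
  have h3 := pow_eq_pow_iff_modEq.mp h2
  rwa [g_order1] at h3

theorem t_order : orderOf C.t = 30 := by
  refine orderOf_eq_of_pow_and_pow_div_prime (by norm_num) (t_pow1 C) ?_
  intro p hp hdvd
  have hmem : p ∈ Nat.primeFactors 30 := Nat.mem_primeFactors.mpr ⟨hp, hdvd, by norm_num⟩
  have h30 : Nat.primeFactors 30 = {2, 3, 5} := by
    ext q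
    rw [Nat.mem_primeFactors]
    constructor
    · rintro ⟨h1, h2, _⟩
      have h3 : q ∣ 2 * (3 * 5) := by norm_num; exact h2
      rcases (h1.dvd_mul).mp h3 with h4 | h4
      · rw [(Nat.prime_dvd_prime_iff_eq h1 (by norm_num)).mp h4]; simp
      · rcases (h1.dvd_mul).mp h4 with h5 | h5
        · rw [(Nat.prime_dvd_prime_iff_eq h1 (by norm_num)).mp h5]; simp
        · rw [(Nat.prime_dvd_prime_iff_eq h1 (by norm_num)).mp h5]; simp
    · intro h
      simp only [Finset.mem_insert, Finset.mem_singleton] at h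
      rcases h with rfl | rfl | rfl <;> norm_num
  rw [h30] at hmem
  simp only [Finset.mem_insert, Finset.mem_singleton] at hmem
  rcases hmem with rfl | rfl | rfl
  · exact ne_of1 C 15 (by decide)
  · exact ne_of1 C 10 (by decide)
  · exact ne_of1 C 6 (by decide)

end Pool.Agent.Helper73.E8.Ez
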