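import Pool.Agent.Helper58.E8Z.ComA
import Pool.Agent.Helper58.E8Z.Hb
import Pool.Agent.Helper58.E8Z.Line
import Pool.Agent.Helper58.E8Z.TRelA

/-!
# Block E8Z-COMB: an automorphism which is trivial on the fixed vectors of `t` commutes with `t`

Proof. Let `h₀, h₄ ∈ L` with `co h_j = hb K η j`, `t h_j = h_j` (`exists_h`), `⁅h₀, h₄⁆ = 0` (`hb_comm`, `co_injective`). Let `D` be maximal (Noetherian) among the submodules of `L`
with `h₀, h₄ ∈ D` and `⁅x, y⁆ = 0` for all `x y ∈ D` (start with the span of `h₀, h₄`). If `v` commutes with `D` then `D + ℤ v` is such a submodule, so `v ∈ D`.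
Claim: `t v = v` for all `v ∈ D`. Let `S v = ∑_(i<30) t^i v`; `t (S v) = S v` (`C.t_order`: `t^30 = 1`). `w := 30 • v - S v` commutes with `h₀` and `h₄` (`⁅h_j, t^i v⁆ = t^i ⁅h_j, v⁆ = 0`) and
`S w = 0`. If `w ≠ 0` then there is `m` with `CVge m (co w)` and not `CVge (m + 1) (co w)` (`low_core`, `eq_zero_of_CVge`, `C.co_injective`); `u := clc m (co w) ≠ 0`
(`clc_eq_zero`), `InE η m u` (`InE_clc`). If `30 ∣ m`: `clc m (co (t^i w)) = 3^(m i) • u = u` (`co_t`, `clc_map`), so `0 = clc m (co (S w)) = 30 • u`, contradiction. If not: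
`0 = clc (0 + m) ⁅co h_j, co w⁆ = ⁅hb (ZMod 31) η j, u⁆` for `j = 0, 4` (`clc_lie`, `clc_hb`), so `u = 0` by `joint`, contradiction. So `30 • v = S v`, `30 • (t v - v) = 0`, `t v = v`.
By `comm_of_cartan` for `D`, `y`, `t`: done.
-/

set_option autoImplicit false

open scoped TensorProduct

namespace Pool.Agent.Helper73.E8.Ez

open Chev
open Pool.Agent.Helper2.E8A (K ζ σ hζ P0)

variable {L : Type} [LieRing L] [Module.Free ℤ L] [Module.Finite ℤ L] {B : LinearMap.BilinForm ℤ L}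

private theorem co_zero6 (C : Core L B) : C.co 0 = 0 := by
  have h1 := C.co_add 0 0
  rw [add_zero] at h1
  exact left_eq_add.1 h1

/-- There is a maximal commutative submodule containing two commuting elements. -/
private theorem exists_max6 {p q : L} (hpq : ⁅p, q⁆ = 0) : ∃ D : Submodule ℤ L, p ∈ D ∧ q ∈ D ∧
    (∀ x ∈ D, ∀ y ∈ D, ⁅x, y⁆ = 0) ∧ ∀ v, (∀ x ∈ D, ⁅x, v⁆ = 0) → v ∈ D := by
  let S : Set (Submodule ℤ L) := {D | p ∈ D ∧ q ∈ D ∧ ∀ x ∈ D, ∀ y ∈ D, ⁅x, y⁆ = 0}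
  have hqp : ⁅q, p⁆ = 0 := by rw [← lie_skew, hpq, neg_zero]
  have hne : S.Nonempty := by
    refine ⟨Submodule.span ℤ {p, q}, Submodule.subset_span (by simp),
      Submodule.subset_span (by simp), fun x hx y hy => ?_⟩
    obtain ⟨a, b, rfl⟩ := Submodule.mem_span_pair.1 hx
    obtain ⟨c, d, rfl⟩ := Submodule.mem_span_pair.1 hy
    simp only [add_lie, lie_add, zsmul_lie, lie_zsmul, hpq, hqp, lie_self, smul_zero, add_zero]
  obtain ⟨D, ⟨hp, hq, hD⟩, hmax⟩ := (wellFounded_gt (α := Submodule ℤ L)).has_min S hne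
  refine ⟨D, hp, hq, hD, fun v hv => ?_⟩
  by_contra hvD
  have hv' : ∀ x ∈ D, ⁅v, x⁆ = 0 := fun x hx => by rw [← lie_skew, hv x hx, neg_zero]
  refine hmax (D ⊔ Submodule.span ℤ {v}) ⟨Submodule.mem_sup_left hp, Submodule.mem_sup_left hq,
    fun x hx y hy => ?_⟩ ?_
  · obtain ⟨x1, hx1, x2, hx2, rfl⟩ := Submodule.mem_sup.1 hx
    obtain ⟨y1, hy1, y2, hy2, rfl⟩ := Submodule.mem_sup.1 hy
    obtain ⟨a, rfl⟩ := Submodule.mem_span_singleton.1 hx2
    obtain ⟨b, rfl⟩ := Submodule.mem_span_singleton.1 hy2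
    simp only [add_lie, lie_add, zsmul_lie, lie_zsmul, hD x1 hx1 y1 hy1, hv x1 hx1, hv' y1 hy1,
      lie_self, smul_zero, add_zero]
  · refine lt_of_le_of_ne le_sup_left fun h => hvD ?_
    rw [h]
    exact Submodule.mem_sup_right (Submodule.mem_span_singleton_self v)

private theorem iter_t6 (C : Core L B) (v : L) (n : ℕ) : (C.t ^ n).1 v = C.t.1^[n] v :=
  pow_apply C.t n v

private theorem t30_6 (C : Core L B) (v : L) : C.t.1^[30] v = v := by
  rw [← iter_t6]
  have h : C.t ^ 30 = 1 := by rw [← t_order C, pow_orderOf_eq_one]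
  rw [h]
  rfl

/-- The sum over the orbit. -/
private noncomputable def S6 (C : Core L B) (v : L) : L := ∑ i ∈ Finset.range 30, C.t.1^[i] v

private theorem t_S6 (C : Core L B) (v : L) : C.t.1 (S6 C v) = S6 C v := by
  unfold S6
  rw [map_sum]
  have h1 : ∀ i ∈ Finset.range 30, C.t.1 (C.t.1^[i] v) = C.t.1^[i + 1] v := fun i _ => by
    rw [Function.iterate_succ_apply']
  rw [Finset.sum_congr rfl h1, Finset.sum_range_succ, t30_6,
    Finset.sum_range_succ' (fun i => C.t.1^[i] v)]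
  rfl

private theorem iter_sub6 (C : Core L B) (v w : L) (n : ℕ) :
    C.t.1^[n] (v - w) = C.t.1^[n] v - C.t.1^[n] w := by
  rw [← iter_t6, ← iter_t6, ← iter_t6, map_sub]

private theorem iter_fix6 (C : Core L B) {v : L} (h : C.t.1 v = v) (n : ℕ) : C.t.1^[n] v = v :=
  Function.iterate_fixed h n

private theorem S_fix6 (C : Core L B) {v : L} (h : C.t.1 v = v) : S6 C v = (30 : ℤ) • v := by
  unfold S6
  rw [Finset.sum_congr rfl (fun i _ => iter_fix6 C h i), Finset.sum_const, Finset.card_range,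
    ← natCast_zsmul]
  rfl

private theorem S_smul6 (C : Core L B) (v : L) : S6 C ((30 : ℤ) • v) = (30 : ℤ) • S6 C v := by
  unfold S6
  rw [Finset.smul_sum]
  refine Finset.sum_congr rfl fun i _ => ?_
  rw [← iter_t6, ← iter_t6, map_zsmul]

private theorem S_w6 (C : Core L B) (v : L) : S6 C ((30 : ℤ) • v - S6 C v) = 0 := by
  have h1 : S6 C ((30 : ℤ) • v - S6 C v) = S6 C ((30 : ℤ) • v) - S6 C (S6 C v) := by
    unfold S6
    rw [← Finset.sum_sub_distrib]
    exact Finset.sum_congr rfl fun i _ => iter_sub6 C _ _ i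
  rw [h1, S_smul6, S_fix6 C (t_S6 C v), sub_self]

private theorem lie_iter6 (C : Core L B) {h v : L} (hh : C.t.1 h = h) (hv : ⁅h, v⁆ = 0) (n : ℕ) :
    ⁅h, C.t.1^[n] v⁆ = 0 := by
  have h1 : (C.t ^ n).1 ⁅h, v⁆ = ⁅(C.t ^ n).1 h, (C.t ^ n).1 v⁆ := (C.t ^ n).2 h v
  rw [iter_t6, iter_t6, iter_t6, iter_fix6 C hh, hv] at h1
  rw [← h1, ← iter_t6, map_zero]

private theorem lie_w6 (C : Core L B) {h v : L} (hh : C.t.1 h = h) (hv : ⁅h, v⁆ = 0) :
    ⁅h, (30 : ℤ) • v - S6 C v⁆ = 0 := by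
  unfold S6
  rw [lie_sub, lie_zsmul, hv, smul_zero, lie_sum,
    Finset.sum_eq_zero (fun i _ => lie_iter6 C hh hv i), sub_zero]

private theorem exists_lead6 (C : Core L B) {w : L} (hw : w ≠ 0) :
    ∃ m : ℤ, CVge m (C.co w) ∧ ¬ CVge (m + 1) (C.co w) := by
  by_contra hcon
  push Not at hcon
  apply hw
  apply C.co_injective
  rw [co_zero6]
  apply eq_zero_of_CVge
  intro m
  rcases le_total (-29) m with h | h
  · induction m, h using Int.leInduction with
    | base => exact low_core C w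
    | succ n _ ih => exact hcon n ih
  · exact CVge_anti h (low_core C w)

private theorem lead_iter6 (C : Core L B) {w : L} {m : ℤ} (hm : 30 ∣ m) (h : CVge m (C.co w))
    (n : ℕ) : CVge m (C.co (C.t.1^[n] w)) ∧ clc m (C.co (C.t.1^[n] w)) = clc m (C.co w) := by
  have h3 : (3 : ZMod 31) ^ m = 1 := by
    obtain ⟨k, rfl⟩ := hm
    rw [zpow_mul]
    have h4 : (3 : ZMod 31) ^ (30 : ℤ) = 1 := by
      rw [show (30 : ℤ) = ((30 : ℕ) : ℤ) from rfl, zpow_natCast]
      decide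
    rw [h4, one_zpow]
  induction n with
  | zero => exact ⟨h, rfl⟩
  | succ n ih =>
    rw [Function.iterate_succ_apply', C.co_t]
    refine ⟨CVge_map ih.1, ?_⟩
    rw [clc_map ih.1, h3, one_smul, ih.2]

private theorem lead_sum6 (C : Core L B) {w : L} {m : ℤ} (hm : 30 ∣ m) (h : CVge m (C.co w))
    (n : ℕ) : CVge m (C.co (∑ i ∈ Finset.range n, C.t.1^[i] w)) ∧
      clc m (C.co (∑ i ∈ Finset.range n, C.t.1^[i] w)) = (n : ZMod 31) • clc m (C.co w) := by
  induction n with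
  | zero =>
    rw [Finset.range_zero, Finset.sum_empty, co_zero6]
    refine ⟨CVge_zero m, ?_⟩
    rw [clc_zero, Nat.cast_zero, zero_smul]
  | succ n ih =>
    have h1 := lead_iter6 C hm h n
    rw [Finset.sum_range_succ, C.co_add]
    refine ⟨CVge_add ih.1 h1.1, ?_⟩
    rw [clc_add ih.1 h1.1, ih.2, h1.2, Nat.cast_succ, add_smul, one_smul]

/-- An element commuting with `h₀` and `h₄` is fixed by `t`. -/
private theorem fix6 (C : Core L B) {h0 h4 v : L} (e0 : C.co h0 = hb K C.η 0)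
    (e4 : C.co h4 = hb K C.η 4) (t0 : C.t.1 h0 = h0) (t4 : C.t.1 h4 = h4) (v0 : ⁅h0, v⁆ = 0)
    (v4 : ⁅h4, v⁆ = 0) : C.t.1 v = v := by
  have hw : (30 : ℤ) • v - S6 C v = 0 := by
    by_contra hw
    have hS := S_w6 C v
    have k0 := lie_w6 C t0 v0
    have k4 := lie_w6 C t4 v4
    generalize (30 : ℤ) • v - S6 C v = w at hw hS k0 k4
    obtain ⟨m, hm1, hm2⟩ := exists_lead6 C hw
    have hu : clc m (C.co w) ≠ 0 := fun h => hm2 ((clc_eq_zero hm1).1 h)
    apply hu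
    by_cases h30 : 30 ∣ m
    · have h1 := (lead_sum6 C h30 hm1 30).2
      change clc m (C.co (S6 C w)) = _ at h1
      rw [hS, co_zero6, clc_zero] at h1
      have h2 : ((30 : ℕ) : ZMod 31) ≠ 0 := by decide
      exact (smul_eq_zero_iff_right h2).1 h1.symm
    · have key : ∀ (j : Fin 8) (h : L), C.co h = hb K C.η j → ⁅h, w⁆ = 0 →
          ⁅hb (ZMod 31) C.η j, clc m (C.co w)⁆ = 0 := by
        intro j h e k
        have h1 : CVge 0 (C.co h) := by rw [e]; exact CVge_hb C.η j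
        have h2 := clc_lie h1 hm1
        rw [← C.co_lie, k, co_zero6, clc_zero, e, clc_hb] at h2
        exact h2.symm
      exact joint C.hη m h30 _ (InE_clc C hm1) (key 0 h0 e0 k0) (key 4 h4 e4 k4)
  have h1 : (30 : ℤ) • v = S6 C v := sub_eq_zero.1 hw
  have h2 : (30 : ℤ) • (C.t.1 v - v) = 0 := by
    rw [smul_sub, ← map_zsmul, h1, t_S6, sub_self]
  rcases smul_eq_zero.1 h2 with h3 | h3
  · norm_num at h3
  · exact sub_eq_zero.1 h3

theorem comm_t (C : Core L B) (y : AutL L) (hy : ∀ x, C.t.1 x = x → y.1 x = x) : y * C.t = C.t * y := by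
  obtain ⟨h0, e0, t0⟩ := exists_h C 0
  obtain ⟨h4, e4, t4⟩ := exists_h C 4
  have h04 : ⁅h0, h4⁆ = 0 := by
    apply C.co_injective
    rw [C.co_lie, e0, e4, hb_comm C.hη, co_zero6]
  obtain ⟨D, hp, hq, hD, hself⟩ := exists_max6 h04
  have hfix : ∀ d ∈ D, C.t.1 d = d := fun d hd =>
    fix6 C e0 e4 t0 t4 (hD h0 hp d hd) (hD h4 hq d hd)
  exact comm_of_cartan C.hL D hD hself y C.t (fun d hd => hy d (hfix d hd)) hfix

end Pool.Agent.Helper73.E8.Ez
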