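import Pool.Agent.Helper73.E8.Grp
import Pool.Agent.Helper73.E8.Gz
import Pool.Agent.Helper73.E8.Ct
import Pool.Agent.Helper73.E8.Mono
import Pool.Agent.Helper73.E8.Semi
import Pool.Agent.Helper73.E8.HomExt
import Pool.Agent.Helper73.E8.Dyn
import Pool.Agent.Helper73.E8.Lift
import Pool.Agent.Helper2.E8A.Defs

/-!
# Project E8Z (MP_90bd9d_al): the data with which the endgame works

`L` is a compact form over `ℤ`, `K = ℚ(ζ)`, `ζ` a primitive 31st root of unity, `σ ζ = ζ ^ 3`; `f : K ⊗ L ≃ Chev K`; `g` acts on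
`1 ⊗ L` (in the coordinates of `Chev K`) by `e_a ↦ ζ^(ht a) e_a` and `t` by applying `σ` to the coordinates. `σ ⊗ 1` is
`mono σ W η`: `L` lies in the `ℚ`-form of the `y` with `mono σ W η y = y`.
-/

set_option autoImplicit false

open scoped TensorProduct

namespace Pool.Agent.Helper73.E8.Ez

open Chev
open Pool.Agent.Helper2.E8A (K ζ σ)

/-- The semilinear map `σ_V` on `Chev K`. -/
noncomputable def sV (η : Lat → ℤˣ) (y : Chev K) : Chev K :=
  mono (σ : K →+* K) W W_isom (fun a => ((η a.1 : ℤ) : K)) y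

/-- The data. -/
structure Core (L : Type) [LieRing L] [Module.Free ℤ L] [Module.Finite ℤ L] (B : LinearMap.BilinForm ℤ L) where
  hL : IsLat L B
  /-- the isomorphism over `K` -/
  f : K ⊗[ℤ] L ≃ₗ⁅K⁆ Chev K
  /-- element of order 31 -/
  g : AutL L
  /-- element of order 30 -/
  t : AutL L
  /-- the signs of the lift of `W` -/
  η : Lat → ℤˣ
  hη : IsLift W η
  hg : ∀ y : L, f (1 ⊗ₜ g.1 y) = gz ζ (f (1 ⊗ₜ y))
  ht : ∀ y : L, f (1 ⊗ₜ t.1 y) = map (σ : K →+* K) (f (1 ⊗ₜ y))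
  hσ : ∀ z : K ⊗[ℤ] L, f (cT L (σ : K →+* K) z) = sV η (f z)
  bf : ∀ x y : L, ((B x y : ℤ) : K) = -Chev.bf (f (1 ⊗ₜ x)) (f (1 ⊗ₜ y))
  /-- every vector with coordinates in `ℤ[ζ]` fixed by `sV` is, up to a power of 31, in `L` -/
  conv : ∀ y : Chev K, (∀ i, IsIntegral ℤ (y.h i)) → (∀ a, IsIntegral ℤ (y.x a)) → sV η y = y →
    ∃ (N : ℕ) (x : L), f (1 ⊗ₜ x) = (31 : K) ^ N • y

variable {L : Type} [LieRing L] [Module.Free ℤ L] [Module.Finite ℤ L] {B : LinearMap.BilinForm ℤ L}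

namespace Core

variable (C : Core L B)

/-- The coordinates of an element of `L`. -/
noncomputable def co (x : L) : Chev K := C.f (1 ⊗ₜ x)

theorem co_add (x y : L) : C.co (x + y) = C.co x + C.co y := by
  unfold co
  rw [TensorProduct.tmul_add, _root_.map_add]

theorem co_lie (x y : L) : C.co ⁅x, y⁆ = ⁅C.co x, C.co y⁆ := by
  unfold co
  rw [← LieEquiv.map_lie]
  congr 1
  simp

theorem co_smul (m : ℤ) (x : L) : C.co (m • x) = (m : K) • C.co x := by
  unfold co
  rw [TensorProduct.tmul_smul, ← _root_.map_smul]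
  congr 1
  rw [Int.cast_smul_eq_zsmul]

theorem co_injective : Function.Injective C.co := by
  intro x y h
  have h1 : (1 : K) ⊗ₜ[ℤ] x = 1 ⊗ₜ y := C.f.injective h
  let b := Module.Free.chooseBasis ℤ L
  have h2 := congrArg (Algebra.TensorProduct.basis K b).repr h1
  rw [Algebra.TensorProduct.basis_repr_tmul, Algebra.TensorProduct.basis_repr_tmul, one_smul, one_smul] at h2
  refine b.repr.injective (Finsupp.ext fun i => ?_)
  have h3 := DFunLike.congr_fun h2 i
  rw [Finsupp.mapRange_apply, Finsupp.mapRange_apply] at h3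
  exact (algebraMap ℤ K).injective_int h3

theorem co_g (x : L) : C.co (C.g.1 x) = gz ζ (C.co x) := C.hg x

theorem co_t (x : L) : C.co (C.t.1 x) = map (σ : K →+* K) (C.co x) := C.ht x

theorem co_sV (x : L) : sV C.η (C.co x) = C.co x := by
  unfold co
  rw [← C.hσ, cT_tmul, map_one]

end Core

end Pool.Agent.Helper73.E8.Ez
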