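import Pool.Agent.Helper58.E8Z.FilDef

/-!
# Block E8Z-FILG: the elements which preserve the filtration normalise `<g>`

Proof. Let `U` be the set of the `x : F` with `rho x z - z ∈ G (m+1)` for all `m` and `z ∈ G m`. It is closed under multiplication
(`rho (x x') z - z = rho x (rho x' z) - rho x' z + (rho x' z - z)`), so it is a subgroup (`F` is finite). `g ∈ U` (`hg`).
`y g y⁻¹ ∈ U`: for `z ∈ G m`, `y⁻¹ z ∈ G m` (`hy'`), `g y⁻¹ z - y⁻¹ z ∈ G (m+1)`, apply `y` (`hy`).
(1) `U` is a 31-group: let `x ∈ U`, `x^q = 1` with a prime `q ≠ 31`, `N = rho x - 1`. Then `q N = -∑_{i ≥ 2} (q choose i) N^i`. If `N (G m) ⊆ G (m+j)` for all `m`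
with some `j ≥ 1`, then `q • N z ∈ G (m + 2j) ⊆ G (m+j+1)` for `z ∈ G m`, so `N z ∈ G (m + j + 1)`: if `N z ∈ G (m+j)` were not in `G (m+j+1)`, then
`lt (m+j) (N z) ≠ 0` and `lt (m+j) (q • N z) = (q : ZMod 31) • lt (m+j) (N z) ≠ 0` because `q` is a unit modulo 31. So `N z ∈ G m'` for all `m'`
(all `z` are in `G (-29)`), `N z = 0` (`sep`), `rho x = 1`, `x = 1` (`hinj`).
(2) `P = zpowers g ≤ U`. If `u ∈ U` normalises `P`, `u g u⁻¹ = g^s` (`s` natural), `u^(31^a) = 1`, then `g = g^(s^(31^a))`, so `s^(31^a) = 1` modulo 31 and, by Fermat,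
`s = s^31 = ... = s^(31^a) = 1` modulo 31: `u` commutes with `g`, `u ∈ P` (`hcent`). So `P` is its own normaliser in the 31-group `U`, hence
`U = P` (`IsPGroup.isNilpotent`, `normalizerCondition_of_isNilpotent`). So `y g y⁻¹ = g^k` for some natural `k`.
(3) `31 ∤ k` (`y g y⁻¹ ≠ 1`, `g^31 = 1`), so `k = 3^j` modulo 31 for some `j` (3 is a primitive root modulo 31) and
`t^j g t^(-j) = g^(3^j) = g^k` (`htg`), so `t^(-j) y` commutes with `g`, `t^(-j) y = g^i`.
(4) `y = t^j g^i` fixes `e`, so `rho (g^i) e = rho (t^(-j)) e = e` and `31 ∣ i` (`hge`), `y = t^j`.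
-/

set_option autoImplicit false

namespace Pool.Agent.Helper58.E8Z

variable {M E : Type} [AddCommGroup M] [AddCommGroup E] [Module (ZMod 31) E]

private theorem prim24 : ∀ k : ZMod 31, k ≠ 0 → ∃ j : Fin 30, (3 : ZMod 31) ^ (j : ℕ) = k := by
  decide

private theorem lt_nsmul24 (Φ : Fil M E) (m : ℤ) (x : M) (hx : x ∈ Φ.G m) (n : ℕ) :
    Φ.lt m (n • x) = (n : ZMod 31) • Φ.lt m x := by
  induction n with
  | zero =>
    rw [zero_smul, Nat.cast_zero, zero_smul]
    exact (Φ.lt_zero m 0 (zero_mem _)).2 (zero_mem _)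
  | succ n ih =>
    rw [succ_nsmul, Φ.lt_add m _ (nsmul_mem hx n) x hx, ih, Nat.cast_succ, add_smul, one_smul]

private theorem anti24 (Φ : Fil M E) (m : ℤ) (n : ℕ) : Φ.G (m + n) ≤ Φ.G m := by
  induction n with
  | zero => rw [Nat.cast_zero, add_zero]
  | succ n ih =>
    rw [Nat.cast_succ, ← add_assoc]
    exact (Φ.anti _).trans ih

private theorem one_of_prime24 (Φ : Fil M E) {F : Type} [Group F] (rho : F →* AddMonoid.End M)
    (hinj : Function.Injective rho) (y : F)
    (hy : ∀ i : ℕ, ∀ m, ∀ z ∈ Φ.G m, rho (y ^ i) z - z ∈ Φ.G (m + 1)) (q : ℕ) (hq : q.Prime)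
    (hq31 : q ≠ 31) (hyq : y ^ q = 1) : y = 1 := by
  have hstep : ∀ j : ℕ, ∀ m, ∀ z ∈ Φ.G m, rho y z - z ∈ Φ.G (m + (j + 1 : ℕ)) := by
    intro j
    induction j with
    | zero =>
      intro m z hz
      have h1 := hy 1 m z hz
      rw [pow_one] at h1
      rw [zero_add, Nat.cast_one]
      exact h1
    | succ j ih =>
      intro m z hz
      have hv := ih m z hz
      have hsum : ∀ n : ℕ, ∑ i ∈ Finset.range n, rho (y ^ i) (rho y z - z) =
          rho (y ^ n) z - z := by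
        intro n
        induction n with
        | zero =>
          rw [Finset.sum_range_zero, pow_zero, map_one]
          exact (sub_self _).symm
        | succ n ih2 =>
          rw [Finset.sum_range_succ, ih2, map_sub, pow_succ, map_mul]
          change rho (y ^ n) z - z + (rho (y ^ n) (rho y z) - rho (y ^ n) z) =
            rho (y ^ n) (rho y z) - z
          abel
      have h0 := hsum q
      rw [hyq, map_one] at h0
      have h0' : ∑ i ∈ Finset.range q, rho (y ^ i) (rho y z - z) = 0 := h0.trans (sub_self _)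
      have h1 : ∑ i ∈ Finset.range q, (rho (y ^ i) (rho y z - z) - (rho y z - z)) ∈
          Φ.G (m + (j + 1 : ℕ) + 1) :=
        sum_mem fun i _ => hy i _ _ hv
      rw [Finset.sum_sub_distrib, h0', zero_sub, Finset.sum_const, Finset.card_range] at h1
      have h2 : q • (rho y z - z) ∈ Φ.G (m + (j + 1 : ℕ) + 1) := by
        have h3 := neg_mem h1
        rwa [neg_neg] at h3
      have h3 := (Φ.lt_zero _ _ (nsmul_mem hv q)).2 h2
      rw [lt_nsmul24 Φ _ _ hv] at h3
      have hq0 : (q : ZMod 31) ≠ 0 := by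
        intro h4
        rw [ZMod.natCast_eq_zero_iff] at h4
        exact hq31 ((Nat.prime_dvd_prime_iff_eq (by norm_num) hq).1 h4).symm
      have hinv : ((q : ZMod 31))⁻¹ * (q : ZMod 31) = 1 := by
        have : Fact (Nat.Prime 31) := ⟨by norm_num⟩
        exact inv_mul_cancel₀ hq0
      have h4 : Φ.lt (m + (j + 1 : ℕ)) (rho y z - z) = 0 := by
        have h5 := congrArg (fun v => ((q : ZMod 31))⁻¹ • v) h3
        simp only [smul_smul, hinv, one_smul, smul_zero] at h5
        exact h5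
      have h5 := (Φ.lt_zero _ _ hv).1 h4
      have h6 : m + ((j + 1 + 1 : ℕ) : ℤ) = m + (j + 1 : ℕ) + 1 := by push_cast; ring
      rw [h6]
      exact h5
  have hz : ∀ z, rho y z = z := by
    intro z
    have h1 : rho y z - z = 0 := by
      apply Φ.sep
      intro m
      have h2 := hstep (m + 29).toNat (-29) z (Φ.low z)
      have h3 : ∃ n : ℕ, -29 + (((m + 29).toNat + 1 : ℕ) : ℤ) = m + n := by
        refine ⟨(-29 + (((m + 29).toNat + 1 : ℕ) : ℤ) - m).toNat, ?_⟩
        omega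
      obtain ⟨n, hn⟩ := h3
      rw [hn] at h2
      exact anti24 Φ m n h2
    exact sub_eq_zero.1 h1
  apply hinj
  rw [map_one]
  ext z
  exact hz z

theorem fil_group (Φ : Fil M E) {F : Type} [Group F] [Finite F] (rho : F →* AddMonoid.End M)
    (hinj : Function.Injective rho) (g t y : F) (hg1 : g ≠ 1) (hg31 : g ^ 31 = 1)
    (hg : ∀ m, ∀ z ∈ Φ.G m, rho g z - z ∈ Φ.G (m + 1)) (htg : t * g * t⁻¹ = g ^ 3)
    (hcent : ∀ x : F, x * g = g * x → x ∈ Subgroup.zpowers g)
    (hy : ∀ m, ∀ z ∈ Φ.G m, rho y z ∈ Φ.G m) (hy' : ∀ m, ∀ z ∈ Φ.G m, rho y⁻¹ z ∈ Φ.G m)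
    (e : M) (hte : rho t e = e) (hye : rho y e = e) (hge : ∀ i : ℕ, rho (g ^ i) e = e → 31 ∣ i) :
    y ∈ Subgroup.zpowers t := by
  have hp31 : Fact (Nat.Prime 31) := ⟨by norm_num⟩
  have hord : orderOf g = 31 := orderOf_eq_prime hg31 hg1
  -- the group of the unipotent elements
  let Um : Submonoid F :=
    { carrier := {x | ∀ m, ∀ z ∈ Φ.G m, rho x z - z ∈ Φ.G (m + 1)}
      one_mem' := by
        intro m z _
        rw [map_one]
        have h1 : (1 : AddMonoid.End M) z - z = 0 := sub_self z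
        rw [h1]
        exact zero_mem _
      mul_mem' := by
        intro x x' hx hx' m z hz
        have h1 := hx' m z hz
        have h2 : rho x' z ∈ Φ.G m := by
          have h3 := add_mem (Φ.anti m h1) hz
          rwa [sub_add_cancel] at h3
        have h3 := hx m _ h2
        rw [map_mul]
        have h4 : (rho x * rho x') z - z = (rho x (rho x' z) - rho x' z) + (rho x' z - z) := by
          rw [sub_add_sub_cancel]
          rfl
        rw [h4]
        exact add_mem h3 h1 }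
  let U : Subgroup F :=
    { Um with
      inv_mem' := by
        intro x hx
        have h1 : x * x ^ (orderOf x - 1) = 1 := by
          rw [← pow_succ', Nat.sub_add_cancel (orderOf_pos x), pow_orderOf_eq_one]
        have h2 : x⁻¹ = x ^ (orderOf x - 1) := inv_eq_of_mul_eq_one_right h1
        change x⁻¹ ∈ Um
        rw [h2]
        exact Um.pow_mem hx _ }
  have hUmem : ∀ x, x ∈ U ↔ ∀ m, ∀ z ∈ Φ.G m, rho x z - z ∈ Φ.G (m + 1) := fun x => Iff.rfl
  have hgU : g ∈ U := hg
  have hUp : IsPGroup 31 U := by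
    rw [IsPGroup.iff_orderOf]
    rintro ⟨x, hx⟩
    rw [Subgroup.orderOf_mk]
    refine ⟨_, Nat.eq_prime_pow_of_unique_prime_dvd (orderOf_pos x).ne' fun {d} hd hdx => ?_⟩
    by_contra hne
    have h1 : x ^ (orderOf x / d) = 1 := by
      refine one_of_prime24 Φ rho hinj _ (fun i => ?_) d hd hne ?_
      · exact (hUmem _).1 (U.pow_mem (U.pow_mem hx _) _)
      · rw [← pow_mul, Nat.div_mul_cancel hdx, pow_orderOf_eq_one]
    have h2 := orderOf_dvd_of_pow_eq_one h1
    have h3 : orderOf x / d < orderOf x := Nat.div_lt_self (orderOf_pos x) hd.one_lt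
    have h4 : 0 < orderOf x / d := Nat.div_pos (Nat.le_of_dvd (orderOf_pos x) hdx) hd.pos
    exact absurd (Nat.le_of_dvd h4 h2) (not_le.2 h3)
  -- conjugation
  have hconj : ∀ (u : F) (s : ℕ), u * g * u⁻¹ = g ^ s → ∀ n : ℕ,
      u ^ n * g * (u ^ n)⁻¹ = g ^ (s ^ n) := by
    intro u s hu n
    induction n with
    | zero => simp
    | succ n ih =>
      have h1 : u ^ (n + 1) * g * (u ^ (n + 1))⁻¹ = u * (u ^ n * g * (u ^ n)⁻¹) * u⁻¹ := by
        rw [pow_succ']
        group
      have h2 : u * g ^ (s ^ n) * u⁻¹ = (u * g * u⁻¹) ^ (s ^ n) := by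
        rw [conj_pow]
      rw [h1, ih, h2, hu, ← pow_mul, pow_succ']
  have hmod : ∀ a b : ℕ, (a : ZMod 31) = (b : ZMod 31) → g ^ a = g ^ b := by
    intro a b h
    rw [pow_eq_pow_iff_modEq, hord]
    exact (ZMod.natCast_eq_natCast_iff a b 31).1 h
  have hmod' : ∀ a b : ℕ, g ^ a = g ^ b → (a : ZMod 31) = (b : ZMod 31) := by
    intro a b h
    rw [pow_eq_pow_iff_modEq, hord] at h
    exact (ZMod.natCast_eq_natCast_iff a b 31).2 h
  have hpow : ∀ x ∈ Subgroup.zpowers g, ∃ n : ℕ, x = g ^ n := by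
    intro x hx
    obtain ⟨n, hn⟩ := mem_powers_iff_mem_zpowers.2 hx
    exact ⟨n, hn.symm⟩
  have hUP : ∀ x ∈ U, x ∈ Subgroup.zpowers g := by
    have hnil : Group.IsNilpotent U := hUp.isNilpotent
    have hnc : NormalizerCondition U := Group.normalizerCondition_of_isNilpotent
    have htop : (Subgroup.zpowers g).subgroupOf U = ⊤ := by
      refine normalizerCondition_iff_only_full_group_self_normalizing.1 hnc _ ?_
      refine le_antisymm ?_ Subgroup.le_normalizer
      rintro ⟨u, hu⟩ hun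
      rw [Subgroup.mem_subgroupOf]
      change u ∈ Subgroup.zpowers g
      have h1 : (⟨u, hu⟩ * ⟨g, hgU⟩ * ⟨u, hu⟩⁻¹ : U) ∈ (Subgroup.zpowers g).subgroupOf U :=
        (Subgroup.mem_normalizer_iff.1 hun ⟨g, hgU⟩).1
          (by rw [Subgroup.mem_subgroupOf]; exact Subgroup.mem_zpowers g)
      rw [Subgroup.mem_subgroupOf] at h1
      have h2 : u * g * u⁻¹ ∈ Subgroup.zpowers g := h1
      obtain ⟨s, hs⟩ := hpow _ h2
      obtain ⟨a, ha⟩ := hUp ⟨u, hu⟩
      have ha' : u ^ 31 ^ a = 1 := congrArg Subtype.val ha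
      have h3 := hconj u s hs (31 ^ a)
      rw [ha', one_mul, inv_one, mul_one] at h3
      have h4 : ((1 : ℕ) : ZMod 31) = ((s ^ 31 ^ a : ℕ) : ZMod 31) :=
        hmod' 1 (s ^ 31 ^ a) ((pow_one g).trans h3)
      rw [Nat.cast_pow, ZMod.pow_card_pow] at h4
      have h5 := hmod _ _ h4
      rw [pow_one, ← hs] at h5
      apply hcent
      have h6 : u * g * u⁻¹ * u = g * u := by rw [← h5]
      rw [inv_mul_cancel_right] at h6
      exact h6
    intro x hx
    have h1 : (⟨x, hx⟩ : U) ∈ (Subgroup.zpowers g).subgroupOf U := by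
      rw [htop]
      trivial
    rw [Subgroup.mem_subgroupOf] at h1
    exact h1
  have hyU : y * g * y⁻¹ ∈ U := by
    rw [hUmem]
    intro m z hz
    have h1 := hg m _ (hy' m z hz)
    have h2 := hy _ _ h1
    have h3 : rho y (rho y⁻¹ z) = z := by
      have h4 : (rho y * rho y⁻¹) z = z := by
        rw [← map_mul, mul_inv_cancel, map_one]
        rfl
      exact h4
    rw [map_sub, h3] at h2
    rw [map_mul, map_mul]
    exact h2
  obtain ⟨k, hk⟩ := hpow _ (hUP _ hyU)
  have hk0 : (k : ZMod 31) ≠ 0 := by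
    intro h0
    have h1 := hmod k 0 (by rw [h0, Nat.cast_zero])
    rw [← hk, pow_zero] at h1
    apply hg1
    have h2 : y⁻¹ * (y * g * y⁻¹) * y = y⁻¹ * 1 * y := by rw [h1]
    have h3 : y⁻¹ * (y * g * y⁻¹) * y = g := by group
    have h4 : y⁻¹ * 1 * y = 1 := by group
    rw [← h3, h2, h4]
  obtain ⟨j, hj⟩ := prim24 _ hk0
  have h1 := hconj t 3 htg j
  have h2 : g ^ (3 ^ (j : ℕ)) = g ^ k := hmod _ _ (by rw [Nat.cast_pow]; exact hj)
  rw [h2, ← hk] at h1
  have hc : ((t ^ (j : ℕ))⁻¹ * y) * g = g * ((t ^ (j : ℕ))⁻¹ * y) := by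
    have h3 : y * g = t ^ (j : ℕ) * g * (t ^ (j : ℕ))⁻¹ * y := by
      rw [h1]
      group
    rw [mul_assoc, h3]
    group
  obtain ⟨i, hi⟩ := hpow _ (hcent _ hc)
  have ht' : ∀ n : ℕ, rho (t ^ n) e = e := by
    intro n
    induction n with
    | zero =>
      rw [pow_zero, map_one]
      rfl
    | succ n ih =>
      rw [pow_succ, map_mul]
      change rho (t ^ n) (rho t e) = e
      rw [hte, ih]
  have ht'' : rho (t ^ (j : ℕ))⁻¹ e = e := by
    have h3 : (rho (t ^ (j : ℕ))⁻¹ * rho (t ^ (j : ℕ))) e = e := by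
      rw [← map_mul, inv_mul_cancel, map_one]
      rfl
    have h4 : rho (t ^ (j : ℕ))⁻¹ (rho (t ^ (j : ℕ)) e) = e := h3
    rwa [ht'] at h4
  have h5 : rho (g ^ i) e = e := by
    rw [← hi, map_mul]
    change rho (t ^ (j : ℕ))⁻¹ (rho y e) = e
    rw [hye, ht'']
  obtain ⟨r, hr⟩ := hge i h5
  have h6 : g ^ i = 1 := by rw [hr, pow_mul, hg31, one_pow]
  rw [h6] at hi
  have h7 : y = t ^ (j : ℕ) := by
    have h8 : t ^ (j : ℕ) * ((t ^ (j : ℕ))⁻¹ * y) = t ^ (j : ℕ) * 1 := by rw [hi]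
    rwa [mul_inv_cancel_left, mul_one] at h8
  rw [h7]
  exact Subgroup.npow_mem_zpowers t _

end Pool.Agent.Helper58.E8Z
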