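import Pool.Agent.Helper58.E8Z.FilDef

/-!
# Block E8Z-FILP: an automorphism which commutes with enough operators preserves the filtration

Proof. Write `G m` for `Φ.G m`, `lt` for `Φ.lt`. `G` is decreasing (iterate `anti`), `lt m` is additive on `G m`, so
`lt m (a • x) = (a : ZMod 31) • lt m x` for integers `a` and `x ∈ G m`, and `lt (m + 30 e) (31^e • x) = (-1)^e • lt m x`,
`31^e • x ∈ G (m + 30 e)`.

For an integer `D ≥ 0` let `S(D)` be the statement: for all `m` and `x ∈ G m`, `y x ∈ G (m - D)`.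
(0) `S(58)`: if `m ≤ 29` then `m - 58 ≤ -29`: `low`. If `m ≥ 30`: by induction with `div31`, `x = 31^a • x'` with `x' ∈ G (m - 30 a)`,
`0 ≤ m - 30 a ≤ 29`, and `y x = 31^a • y x' ∈ G (30 a - 29) ⊆ G (m - 58)`.
(1) `S(D)` implies `S(D-1)` for `D ≥ 1`. Suppose `x ∈ G b` and `y x ∉ G (b - D + 1)`. Put `a = b - D`, `u = lt a (y x) ≠ 0`.
 (1a) `30 ∣ D`: otherwise `c a ≠ c b` (`hc`). Let `k` be an integer with `(k : ZMod 31) = c b` and `x₁ = t x - k • x`: `lt b x₁ = c b • lt b x - c b • lt b x = 0`, so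
 `x₁ ∈ G (b+1)`, `y x₁ ∈ G (b + 1 - D) = G (a + 1)` by `S(D)`; but `y x₁ = t (y x) - k • y x` has leading term `(c a - c b) • u ≠ 0` in degree `a`
 (`ZMod 31` is a field), contradiction.
 (1b) `30 ∣ a` is impossible: let `x₁ = ∑ i < 30, t^i x` (`t x₁ = x₁` by `ht30`), `y x₁ = x₁` by `hfix`; `x₁ ∈ G b ⊆ G (a+1)`, but
 `y x₁ = ∑ i < 30, t^i (y x)` has the leading term `30 • u ≠ 0` in degree `a` (`c a = 1`).
 (1c) So `30 ∤ a`, `D = 30 e`, `e ≥ 1`, `b ≡ a`. Take `A, w` from `line` for `m = a` and the element `y x`. Put `x_i = y^i (A x) = A (y^i x)`.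
 By `S(D)`, `y^i x ∈ G (b - i D)`, so `x_i ∈ G (b - i D)` and `lt (b - i D) x_i = c_i • w` for some `c_i`. `c_1 • w = lt a (A (y x)) ≠ 0`.
 `c_0 • w ≠ 0`: otherwise `x_0 ∈ G (b+1)` and `x_1 = y x_0 ∈ G (a + 1)`, contradiction. Claim: `c_i • w ≠ 0` for all `i`. Induction: let `i ≥ 1`,
 `c_(i-1) w, c_i w ≠ 0` (so `w ≠ 0`, `c_(i-1), c_i ≠ 0`). Choose an integer `k` with `k c_(i-1) = (-1)^e c_i` in `ZMod 31`; `k ≠ 0` modulo 31.
 `z = 31^e • x_i - k • x_(i-1)` is in `G (b - (i-1) D)` and its leading term there is `(-1)^e c_i w - k c_(i-1) w = 0`, so `z ∈ G (b - (i-1) D + 1)` and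
 `y z ∈ G (b - i D + 1)` by `S(D)`. `y z = 31^e • x_(i+1) - k • x_i`, so `lt (b - i D) (31^e • x_(i+1)) = k c_i w ≠ 0`, i.e.
 `(-1)^e • lt (b - (i+1) D) x_(i+1) ≠ 0`.
 So `x_i ∉ G (b - i D + 1)` for all `i`; for large `i` this contradicts `low`.
(2) `S(0)` is the theorem.
-/

set_option autoImplicit false

namespace Pool.Agent.Helper58.E8Z

variable {M E : Type} [AddCommGroup M] [AddCommGroup E] [Module (ZMod 31) E]

private lemma mono74 (Φ : Fil M E) {m m' : ℤ} (h : m ≤ m') : Φ.G m' ≤ Φ.G m := by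
  have h1 : ∀ n : ℕ, Φ.G (m + n) ≤ Φ.G m := by
    intro n
    induction n with
    | zero => simp
    | succ n ih =>
      have h2 := Φ.anti (m + n)
      have e : m + ((n + 1 : ℕ) : ℤ) = m + n + 1 := by
        push_cast
        ring
      rw [e]
      exact h2.trans ih
  obtain ⟨n, hn⟩ := Int.eq_ofNat_of_zero_le (sub_nonneg.2 h)
  have e : m' = m + n := by omega
  rw [e]
  exact h1 n

/-- the leading term as a homomorphism -/
private def hom74 (Φ : Fil M E) (m : ℤ) : Φ.G m →+ E where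
  toFun x := Φ.lt m x
  map_zero' := by
    have h := Φ.lt_add m 0 (Φ.G m).zero_mem 0 (Φ.G m).zero_mem
    rw [add_zero] at h
    exact left_eq_add.1 h
  map_add' x y := Φ.lt_add m x x.2 y y.2

private lemma lt_zsmul74 (Φ : Fil M E) {m : ℤ} {x : M} (hx : x ∈ Φ.G m) (k : ℤ) :
    Φ.lt m (k • x) = (k : ZMod 31) • Φ.lt m x := by
  have h := map_zsmul (hom74 Φ m) k ⟨x, hx⟩
  have h2 : k • Φ.lt m x = (k : ZMod 31) • Φ.lt m x := (Int.cast_smul_eq_zsmul (ZMod 31) k _).symm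
  rw [← h2]
  exact h

private lemma lt_sub74 (Φ : Fil M E) {m : ℤ} {x y : M} (hx : x ∈ Φ.G m) (hy : y ∈ Φ.G m) :
    Φ.lt m (x - y) = Φ.lt m x - Φ.lt m y :=
  map_sub (hom74 Φ m) ⟨x, hx⟩ ⟨y, hy⟩

private lemma lt_sum74 (Φ : Fil M E) {m : ℤ} (s : Finset ℕ) {x : ℕ → M} (hx : ∀ i, x i ∈ Φ.G m) :
    Φ.lt m (∑ i ∈ s, x i) = ∑ i ∈ s, Φ.lt m (x i) := by
  have h := map_sum (hom74 Φ m) (fun i => (⟨x i, hx i⟩ : Φ.G m)) s
  refine Eq.trans ?_ h
  change Φ.lt m _ = Φ.lt m ((∑ i ∈ s, (⟨x i, hx i⟩ : Φ.G m) : Φ.G m) : M)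
  congr 1
  rw [AddSubgroup.val_finsetSum]

private lemma pow74 (Φ : Fil M E) (e : ℕ) {m : ℤ} {x : M} (hx : x ∈ Φ.G m) :
    (31 ^ e : ℤ) • x ∈ Φ.G (m + 30 * e) ∧
      Φ.lt (m + 30 * e) ((31 ^ e : ℤ) • x) = ((-1) ^ e : ZMod 31) • Φ.lt m x := by
  induction e with
  | zero => simp [hx]
  | succ e ih =>
    obtain ⟨h1, h2⟩ := ih
    obtain ⟨h3, h4⟩ := Φ.mul31 _ _ h1
    have e1 : m + 30 * ((e + 1 : ℕ) : ℤ) = m + 30 * e + 30 := by
      push_cast
      ring
    have e2 : (31 ^ (e + 1) : ℤ) • x = (31 : ℤ) • ((31 ^ e : ℤ) • x) := by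
      rw [smul_smul, pow_succ, mul_comm]
    rw [e1, e2]
    refine ⟨h3, ?_⟩
    rw [h4, h2, pow_succ, mul_neg, mul_one, neg_smul]

private lemma div74 (Φ : Fil M E) (a : ℕ) {m : ℤ} (hm : 0 ≤ m) : ∀ x ∈ Φ.G (m + 30 * a),
    ∃ x' ∈ Φ.G m, x = (31 ^ a : ℤ) • x' := by
  induction a with
  | zero =>
    intro x hx
    exact ⟨x, by simpa using hx, by simp⟩
  | succ a ih =>
    intro x hx
    have e1 : m + 30 * ((a + 1 : ℕ) : ℤ) = m + 30 * a + 30 := by
      push_cast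
      ring
    rw [e1] at hx
    obtain ⟨x1, hx1, e2⟩ := Φ.div31 _ (by positivity) x hx
    obtain ⟨x', hx', e3⟩ := ih x1 hx1
    refine ⟨x', hx', ?_⟩
    rw [e2, e3, smul_smul, pow_succ, mul_comm]

private lemma start74 (Φ : Fil M E) (y : M →+ M) (m : ℤ) (x : M) (hx : x ∈ Φ.G m) :
    y x ∈ Φ.G (m - 58) := by
  by_cases h0 : m < 0
  · exact mono74 Φ (by omega : m - 58 ≤ -29) (Φ.low _)
  · push Not at h0
    obtain ⟨a, ha⟩ := Int.eq_ofNat_of_zero_le (Int.ediv_nonneg h0 (by norm_num : (0 : ℤ) ≤ 30))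
    have h1 : m = m % 30 + 30 * a := by
      rw [← ha]
      omega
    have h2 : 0 ≤ m % 30 := by omega
    have h3 : m % 30 < 30 := by omega
    rw [h1] at hx
    obtain ⟨x', hx', e⟩ := div74 Φ a h2 x hx
    have h4 := (pow74 Φ a (Φ.low (y x'))).1
    rw [e, map_zsmul]
    exact mono74 Φ (by omega) h4

theorem fil_preserved (Φ : Fil M E) (y t : M →+ M) (c : ℤ → ZMod 31)
    (hyt : ∀ x, t (y x) = y (t x)) (ht30 : ∀ x, t^[30] x = x)
    (htG : ∀ m, ∀ x ∈ Φ.G m, t x ∈ Φ.G m ∧ Φ.lt m (t x) = c m • Φ.lt m x)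
    (hc : ∀ m m', c m = c m' → 30 ∣ m - m') (hc1 : ∀ m, 30 ∣ m → c m = 1)
    (hfix : ∀ x, t x = x → y x = x)
    (line : ∀ m, ¬ 30 ∣ m → ∀ x ∈ Φ.G m, Φ.lt m x ≠ 0 →
      ∃ A : M →+ M, (∀ z, A (y z) = y (A z)) ∧ (∀ m', ∀ z ∈ Φ.G m', A z ∈ Φ.G m') ∧ Φ.lt m (A x) ≠ 0 ∧
        ∃ w : E, ∀ m', 30 ∣ m' - m → ∀ z ∈ Φ.G m', ∃ a : ZMod 31, Φ.lt m' (A z) = a • w) :
    ∀ m, ∀ x ∈ Φ.G m, y x ∈ Φ.G m := by
  have h30' : ((30 : ℕ) : ZMod 31) ≠ 0 := by decide
  have hm1' : (-1 : ZMod 31) ≠ 0 := by decide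
  have hp : Fact (Nat.Prime 31) := ⟨by norm_num⟩
  have hcast : ∀ a : ZMod 31, ((a.val : ℤ) : ZMod 31) = a := by
    intro a
    rw [Int.cast_natCast, ZMod.natCast_zmod_val]
  have htit : ∀ (i : ℕ) (m : ℤ), ∀ x ∈ Φ.G m, t^[i] x ∈ Φ.G m ∧
      Φ.lt m (t^[i] x) = (c m) ^ i • Φ.lt m x := by
    intro i m x hx
    induction i with
    | zero => simp [hx]
    | succ i ih =>
      rw [Function.iterate_succ_apply']
      obtain ⟨h1, h2⟩ := htG m _ ih.1
      refine ⟨h1, ?_⟩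
      rw [h2, ih.2, smul_smul, pow_succ, mul_comm]
  have hyti : ∀ (i : ℕ) x, t^[i] (y x) = y (t^[i] x) := by
    intro i x
    induction i with
    | zero => rfl
    | succ i ih => rw [Function.iterate_succ_apply', Function.iterate_succ_apply', ih, hyt]
  have hstep : ∀ D : ℕ, (∀ m, ∀ x ∈ Φ.G m, y x ∈ Φ.G (m - (D + 1 : ℕ))) →
      ∀ m, ∀ x ∈ Φ.G m, y x ∈ Φ.G (m - D) := by
    intro D hD b x hx
    by_contra hcon
    set a : ℤ := b - (D + 1 : ℕ) with ha
    have ha1 : a + 1 = b - D := by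
      rw [ha]
      push_cast
      ring
    have hyx : y x ∈ Φ.G a := hD b x hx
    have hu : Φ.lt a (y x) ≠ 0 := by
      intro h
      rw [Φ.lt_zero a _ hyx, ha1] at h
      exact hcon h
    -- (1a)
    have h30 : (30 : ℤ) ∣ (D + 1 : ℕ) := by
      by_contra h30
      have hne : c a ≠ c b := by
        intro h
        apply h30
        have := hc a b h
        have e : a - b = -((D + 1 : ℕ) : ℤ) := by
          rw [ha]
          ring
        rw [e, dvd_neg] at this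
        exact this
      obtain ⟨h1, h2⟩ := htG b x hx
      have hkx : ((c b).val : ℤ) • x ∈ Φ.G b := (Φ.G b).zsmul_mem hx _
      have h3 : Φ.lt b (t x - ((c b).val : ℤ) • x) = 0 := by
        rw [lt_sub74 Φ h1 hkx, h2, lt_zsmul74 Φ hx, hcast, sub_self]
      have h4 : t x - ((c b).val : ℤ) • x ∈ Φ.G (b + 1) :=
        (Φ.lt_zero b _ ((Φ.G b).sub_mem h1 hkx)).1 h3
      have h5 := hD _ _ h4
      have e1 : b + 1 - ((D + 1 : ℕ) : ℤ) = a + 1 := by
        rw [ha]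
        ring
      rw [e1, map_sub, map_zsmul, ← hyt] at h5
      obtain ⟨h6, h7⟩ := htG a _ hyx
      have h8 : ((c b).val : ℤ) • y x ∈ Φ.G a := (Φ.G a).zsmul_mem hyx _
      have h9 := (Φ.lt_zero a _ ((Φ.G a).sub_mem h6 h8)).2 h5
      rw [lt_sub74 Φ h6 h8, h7, lt_zsmul74 Φ hyx, hcast, ← sub_smul] at h9
      rcases smul_eq_zero.1 h9 with h | h
      · exact hne (sub_eq_zero.1 h)
      · exact hu h
    -- (1b)
    have hna : ¬ (30 : ℤ) ∣ a := by
      intro hda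
      have hc1a := hc1 a hda
      have hsum : t (∑ i ∈ Finset.range 30, t^[i] x) = ∑ i ∈ Finset.range 30, t^[i] x := by
        have h1 := Finset.sum_range_succ (fun i => t^[i] x) 30
        have h2 := Finset.sum_range_succ' (fun i => t^[i] x) 30
        rw [h1] at h2
        have h3 : t^[30] x = t^[0] x := ht30 x
        rw [h3] at h2
        have h4 := add_right_cancel h2
        rw [map_sum, h4]
        refine Finset.sum_congr rfl fun i _ => ?_
        rw [Function.iterate_succ_apply']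
      have h1 := hfix _ hsum
      have h2 : ∑ i ∈ Finset.range 30, t^[i] x ∈ Φ.G b :=
        (Φ.G b).sum_mem fun i _ => (htit i b x hx).1
      have h3 : ∑ i ∈ Finset.range 30, t^[i] x ∈ Φ.G (a + 1) :=
        mono74 Φ (by rw [ha1]; omega) h2
      rw [← h1, map_sum] at h3
      have h4 : ∑ i ∈ Finset.range 30, y (t^[i] x) = ∑ i ∈ Finset.range 30, t^[i] (y x) :=
        Finset.sum_congr rfl fun i _ => (hyti i x).symm
      rw [h4] at h3
      have h5 := (Φ.lt_zero a _ ((Φ.G a).sum_mem fun i _ => (htit i a _ hyx).1)).2 h3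
      rw [lt_sum74 Φ _ fun i => (htit i a _ hyx).1] at h5
      have h6 : ∀ i, Φ.lt a (t^[i] (y x)) = Φ.lt a (y x) := by
        intro i
        rw [(htit i a _ hyx).2, hc1a, one_pow, one_smul]
      rw [Finset.sum_congr rfl fun i _ => h6 i, Finset.sum_const, Finset.card_range,
        ← Nat.cast_smul_eq_nsmul (ZMod 31)] at h5
      rcases smul_eq_zero.1 h5 with h | h
      · exact h30' h
      · exact hu h
    -- (1c)
    obtain ⟨e, he⟩ := h30
    have he0 : 0 < e := by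
      have : (0 : ℤ) < (D + 1 : ℕ) := by positivity
      omega
    obtain ⟨e, rfl⟩ := Int.eq_ofNat_of_zero_le he0.le
    obtain ⟨A, hAy, hAG, hne, w, hw⟩ := line a hna (y x) hyx hu
    have hAyi : ∀ i, A (y^[i] x) = y^[i] (A x) := by
      intro i
      induction i with
      | zero => rfl
      | succ i ih => rw [Function.iterate_succ_apply', Function.iterate_succ_apply', hAy, ih]
    have hmem : ∀ (i : ℕ) (z : M), z ∈ Φ.G b → y^[i] z ∈ Φ.G (b - i * (D + 1 : ℕ)) := by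
      intro i z hz
      induction i with
      | zero => simpa using hz
      | succ i ih =>
        rw [Function.iterate_succ_apply']
        have h1 := hD _ _ ih
        have e1 : b - ((i + 1 : ℕ) : ℤ) * (D + 1 : ℕ) = b - i * (D + 1 : ℕ) - (D + 1 : ℕ) := by
          push_cast
          ring
        rw [e1]
        exact h1
    have hAx : A x ∈ Φ.G b := hAG b x hx
    have hXm : ∀ i : ℕ, y^[i] (A x) ∈ Φ.G (b - i * (D + 1 : ℕ)) := fun i => hmem i _ hAx
    have hXw : ∀ i : ℕ, ∃ q : ZMod 31, Φ.lt (b - i * (D + 1 : ℕ)) (y^[i] (A x)) = q • w := by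
      intro i
      rw [← hAyi]
      apply hw _ _ _ (hmem i x hx)
      have e1 : b - i * ((D + 1 : ℕ) : ℤ) - a = 30 * (e * (1 - i)) := by
        rw [ha, he]
        ring
      rw [e1]
      exact dvd_mul_right _ _
    have key : ∀ i : ℕ, Φ.lt (b - i * (D + 1 : ℕ)) (y^[i] (A x)) ≠ 0 ∧
        Φ.lt (b - (i + 1 : ℕ) * (D + 1 : ℕ)) (y^[i + 1] (A x)) ≠ 0 := by
      intro i
      induction i with
      | zero =>
        have e1 : b - ((0 + 1 : ℕ) : ℤ) * (D + 1 : ℕ) = a := by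
          rw [ha]
          push_cast
          ring
        have h1 : Φ.lt (b - ((0 + 1 : ℕ) : ℤ) * (D + 1 : ℕ)) (y^[0 + 1] (A x)) ≠ 0 := by
          rw [e1]
          have e2 : y^[0 + 1] (A x) = A (y x) := by
            rw [zero_add, Function.iterate_one, hAy]
          rw [e2]
          exact hne
        refine ⟨fun h0 => h1 ?_, h1⟩
        have e0 : b - ((0 : ℕ) : ℤ) * (D + 1 : ℕ) = b := by
          push_cast
          ring
        rw [e0] at h0
        have h2 : A x ∈ Φ.G (b + 1) := (Φ.lt_zero b _ hAx).1 h0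
        have h3 := hD _ _ h2
        have e3 : b + 1 - ((D + 1 : ℕ) : ℤ) = a + 1 := by
          rw [ha]
          ring
        rw [e3] at h3
        rw [e1]
        have e2 : y^[0 + 1] (A x) = y (A x) := by
          rw [zero_add, Function.iterate_one]
        rw [e2]
        exact (Φ.lt_zero a _ (mono74 Φ (by omega) h3)).2 h3
      | succ i ih =>
        refine ⟨ih.2, fun hz => ?_⟩
        obtain ⟨hi0, hi1⟩ := ih
        obtain ⟨q0, hq0⟩ := hXw i
        obtain ⟨q1, hq1⟩ := hXw (i + 1)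
        rw [hq0] at hi0
        rw [hq1] at hi1
        have hq0' : q0 ≠ 0 := fun h => hi0 (by rw [h, zero_smul])
        have hq1' : q1 ≠ 0 := fun h => hi1 (by rw [h, zero_smul])
        set kk : ZMod 31 := (-1) ^ e * q1 / q0 with hkk
        have hkk0 : kk ≠ 0 := by
          rw [hkk]
          exact div_ne_zero (mul_ne_zero (pow_ne_zero _ hm1') hq1') hq0'
        have hkq : kk * q0 = (-1) ^ e * q1 := by
          rw [hkk]
          field_simp
        have ed : ∀ j : ℕ, b - ((j + 1 : ℕ) : ℤ) * (D + 1 : ℕ) + 30 * e = b - j * (D + 1 : ℕ) := by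
          intro j
          have he' : ((D + 1 : ℕ) : ℤ) = 30 * (e : ℤ) := he
          rw [he']
          push_cast
          ring
        have hp1 := pow74 Φ e (hXm (i + 1))
        rw [ed i] at hp1
        have hk1 : ((kk.val : ℤ)) • y^[i] (A x) ∈ Φ.G (b - i * (D + 1 : ℕ)) :=
          (Φ.G _).zsmul_mem (hXm i) _
        have hz1 : Φ.lt (b - i * (D + 1 : ℕ)) ((31 ^ e : ℤ) • y^[i + 1] (A x) -
            ((kk.val : ℤ)) • y^[i] (A x)) = 0 := by
          rw [lt_sub74 Φ hp1.1 hk1, hp1.2, hq1, lt_zsmul74 Φ (hXm i), hcast, hq0, smul_smul,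
            smul_smul, hkq, sub_self]
        have hz2 := (Φ.lt_zero _ _ ((Φ.G _).sub_mem hp1.1 hk1)).1 hz1
        have hz3 := hD _ _ hz2
        have e4 : b - (i : ℤ) * (D + 1 : ℕ) + 1 - (D + 1 : ℕ) = b - (i + 1 : ℕ) * (D + 1 : ℕ) + 1 := by
          push_cast
          ring
        rw [e4, map_sub, map_zsmul, map_zsmul, ← Function.iterate_succ_apply' (f := y),
          ← Function.iterate_succ_apply' (f := y)] at hz3
        have hp2 := pow74 Φ e (hXm (i + 1 + 1))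
        rw [ed (i + 1)] at hp2
        have hk2 : ((kk.val : ℤ)) • y^[i + 1] (A x) ∈ Φ.G (b - (i + 1 : ℕ) * (D + 1 : ℕ)) :=
          (Φ.G _).zsmul_mem (hXm (i + 1)) _
        have hz4 := (Φ.lt_zero _ _ ((Φ.G _).sub_mem hp2.1 hk2)).2 hz3
        rw [lt_sub74 Φ hp2.1 hk2, hp2.2, hz, smul_zero, zero_sub, neg_eq_zero,
          lt_zsmul74 Φ (hXm (i + 1)), hcast, hq1] at hz4
        rcases smul_eq_zero.1 hz4 with h | h
        · exact hkk0 h
        · exact hi1 h
    obtain ⟨n, hn⟩ : ∃ n : ℕ, b + 30 ≤ n := ⟨(b + 30).toNat, Int.self_le_toNat _⟩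
    apply (key n).1
    rw [Φ.lt_zero _ _ (hXm n)]
    refine mono74 Φ ?_ (Φ.low _)
    have h1 : (n : ℤ) ≤ n * (D + 1 : ℕ) := by
      push_cast
      nlinarith [Int.natCast_nonneg n, Int.natCast_nonneg D]
    omega
  have hall : ∀ n : ℕ, n ≤ 58 → ∀ m, ∀ x ∈ Φ.G m, y x ∈ Φ.G (m - (58 - n : ℕ)) := by
    intro n
    induction n with
    | zero =>
      intro _ m x hx
      exact start74 Φ y m x hx
    | succ n ih =>
      intro hn
      have h1 := ih (by omega)
      apply hstep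
      have e : 58 - (n + 1) + 1 = 58 - n := by omega
      rw [e]
      exact h1
  intro m x hx
  have h := hall 58 le_rfl m x hx
  simpa using h

end Pool.Agent.Helper58.E8Z
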