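import Pool.Agent.Helper58.E8Z.Core

/-!
# Block E8Z-TRELC: a vector fixed by `t` with trivial stabiliser in `⟨g⟩`

Proof. Let `y = ∑_{k < 30} n^k (e (sr 0))` with `n = mono (RingHom.id K) W W_isom η` (a root vector with sign at each root of the `W`-orbit of `al 0`,
all coordinates are integers, 30 different roots; `n^30 = 1` by `lift_W_fifteen`: `∏_{k<15} η(W^k a) = 1` for all roots `a`, `W^15 = -1`). `n y = y`, the
coordinates are rational integers, so `map σ y = y` and `sV η y = n y = y`. By `C.conv`: `f (1 ⊗ e) = 31^N • y` for some `e ∈ L`.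
`co (t e) = map σ (31^N • y) = 31^N • y = co e`, so `t e = e`. If `g^i e = e` then the coordinate at `al 0` (height 1) gives
`ζ^i * 31^N * y_(al 0) = 31^N * y_(al 0)` with `y_(al 0) = 1` (the roots `W^k (al 0)`, `k < 30`, are different, since `ht (W^k (al 0)) = 3^k` modulo 31, `ht_W`),
so `ζ^i = 1`, `31 ∣ i`. (`C.co_injective`, `C.co_g`, `C.co_t`, `pow_apply` in `Grp.lean`.)
-/

set_option autoImplicit false

open scoped TensorProduct

namespace Pool.Agent.Helper73.E8.Ez

open Chev
open Pool.Agent.Helper2.E8A (K ζ σ)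

variable {L : Type} [LieRing L] [Module.Free ℤ L] [Module.Finite ℤ L] {B : LinearMap.BilinForm ℤ L} (C : Core L B)

/-- the orbit of the simple root `al 0` under `W` -/
private noncomputable def rr (k : ℕ) : Root := (onRoot W W_isom)^[k] (sr 0)

private theorem rr_zero : rr 0 = sr 0 := rfl

private theorem rr_succ (k : ℕ) : rr (k + 1) = onRoot W W_isom (rr k) :=
  Function.iterate_succ_apply' _ _ _

private theorem rr_val (k : ℕ) : (rr k).1 = W^[k] (al 0) := by
  induction k with
  | zero => rfl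
  | succ k ih => rw [rr_succ, onRoot_val, ih, Function.iterate_succ_apply']

private theorem W_thirty (x : Lat) : W^[30] x = x := by
  have h : W^[30] x = W^[15] (W^[15] x) := by
    rw [← Function.iterate_add_apply]
  rw [h, W_fifteen, W_fifteen, neg_neg]

private theorem rr_thirty : rr 30 = sr 0 := root_ext (by rw [rr_val, W_thirty]; rfl)

private theorem ht_rr (k : ℕ) : ((ht (rr k).1 : ℤ) : ZMod 31) = 3 ^ k := by
  induction k with
  | zero =>
    have h : ht (al 0) = 1 := by
      simp [ht, al]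
    change ((ht (al 0) : ℤ) : ZMod 31) = 3 ^ 0
    rw [h]
    simp
  | succ k ih => rw [rr_succ, onRoot_val, ht_W, ih, pow_succ, mul_comm]

private theorem three_pow : ∀ k : Fin 30, k.1 ≠ 0 → (3 : ZMod 31) ^ k.1 ≠ 1 := by
  decide

private theorem rr_ne {k : ℕ} (hk : k < 30) (h0 : k ≠ 0) : sr 0 ≠ rr k := by
  intro h
  have h1 := ht_rr k
  have h2 := ht_rr 0
  rw [rr_zero, pow_zero] at h2
  rw [← h, h2] at h1
  exact three_pow ⟨k, hk⟩ h0 h1.symm

/-- the signs -/
private noncomputable def sg (η : Lat → ℤˣ) (k : ℕ) : ℤˣ := ∏ j ∈ Finset.range k, η (W^[j] (al 0))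

private theorem sg_thirty (η : Lat → ℤˣ) (hη : IsLift W η) : sg η 30 = 1 := by
  have h1 := lift_W_fifteen η hη (sr 0)
  have h2 := lift_W_fifteen η hη (-sr 0)
  have h3 : sg η (15 + 15) = (∏ j ∈ Finset.range 15, η (W^[j] (al 0))) *
      ∏ j ∈ Finset.range 15, η (W^[15 + j] (al 0)) := Finset.prod_range_add _ _ _
  have h4 : ∏ j ∈ Finset.range 15, η (W^[15 + j] (al 0)) = 1 := by
    rw [← h2]
    refine Finset.prod_congr rfl fun j _ => ?_
    rw [add_comm, Function.iterate_add_apply, W_fifteen]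
    rfl
  change sg η (15 + 15) = 1
  rw [h3, h4, mul_one]
  exact h1

/-- the integer coordinates -/
private noncomputable def mm (η : Lat → ℤˣ) (a : Root) : ℤ :=
  ∑ k ∈ Finset.range 30, if a = rr k then ((sg η k : ℤˣ) : ℤ) else 0

private theorem mm_sr (η : Lat → ℤˣ) : mm η (sr 0) = 1 := by
  unfold mm
  rw [Finset.sum_eq_single 0]
  · rw [if_pos rr_zero.symm]
    simp [sg]
  · intro k hk h0
    rw [if_neg (rr_ne (Finset.mem_range.1 hk) h0)]
  · intro h
    exact absurd (Finset.mem_range.2 (by norm_num)) h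

private theorem mm_W (η : Lat → ℤˣ) (hη : IsLift W η) (b : Root) :
    mm η (onRoot W W_isom b) = ((η b.1 : ℤˣ) : ℤ) * mm η b := by
  have h1 : ((η b.1 : ℤˣ) : ℤ) * mm η b =
      ∑ k ∈ Finset.range 30, if onRoot W W_isom b = rr (k + 1) then ((sg η (k + 1) : ℤˣ) : ℤ) else 0 := by
    unfold mm
    rw [Finset.mul_sum]
    refine Finset.sum_congr rfl fun k _ => ?_
    by_cases h : b = rr k
    · have h' : onRoot W W_isom b = rr (k + 1) := by rw [rr_succ, h]
      rw [if_pos h, if_pos h']
      have h2 : sg η (k + 1) = sg η k * η (W^[k] (al 0)) := Finset.prod_range_succ _ _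
      rw [h2, h, rr_val, mul_comm]
      push_cast
      rfl
    · have h' : onRoot W W_isom b ≠ rr (k + 1) := by
        rw [rr_succ]
        exact fun h2 => h ((onRoot W W_isom).injective h2)
      rw [if_neg h, if_neg h', mul_zero]
  rw [h1]
  unfold mm
  set F : ℕ → ℤ := fun k => if onRoot W W_isom b = rr k then ((sg η k : ℤˣ) : ℤ) else 0 with hF
  change ∑ k ∈ Finset.range 30, F k = ∑ k ∈ Finset.range 30, F (k + 1)
  have h2 : F 30 = F 0 := by
    simp only [hF, rr_thirty, rr_zero, sg_thirty η hη]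
    simp [sg]
  have h3 := Finset.sum_range_succ F 30
  have h4 := Finset.sum_range_succ' F 30
  rw [h2] at h3
  have h5 := h3.symm.trans h4
  exact add_right_cancel h5

/-- the vector -/
private noncomputable def yy (η : Lat → ℤˣ) : Chev K := ⟨0, fun a => ((mm η a : ℤ) : K)⟩

private theorem map_yy (η : Lat → ℤˣ) (N : ℕ) : map (σ : K →+* K) ((31 : K) ^ N • yy η) = (31 : K) ^ N • yy η := by
  ext i
  · simp [map, yy]
  · change (σ : K →+* K) ((31 : K) ^ N * ((mm η i : ℤ) : K)) = (31 : K) ^ N * ((mm η i : ℤ) : K)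
    have h31 : (σ : K →+* K) (31 : K) = 31 := map_ofNat _ 31
    rw [map_mul, map_pow, h31, map_intCast]

private theorem sV_yy (η : Lat → ℤˣ) (hη : IsLift W η) : sV η (yy η) = yy η := by
  ext i
  · simp [sV, mono, yy]
  · change (((η ((onRoot W W_isom).symm i).1 : ℤˣ) : ℤ) : K) *
      (σ : K →+* K) ((mm η ((onRoot W W_isom).symm i) : ℤ) : K) = ((mm η i : ℤ) : K)
    rw [map_intCast]
    have h := mm_W η hη ((onRoot W W_isom).symm i)
    rw [Equiv.apply_symm_apply] at h
    rw [h]
    push_cast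
    rfl

private theorem gz_iter (z : Chev K) (i : ℕ) :
    ((gz ζ)^[i] z).x (sr 0) = ζ ^ i * z.x (sr 0) := by
  induction i with
  | zero => simp
  | succ i ih =>
    rw [Function.iterate_succ_apply']
    have h : ht (sr 0).1 = 1 := by
      change ht (al 0) = 1
      simp [ht, al]
    change ζ ^ (ht (sr 0).1) * ((gz ζ)^[i] z).x (sr 0) = _
    rw [h, ih, zpow_one, pow_succ]
    ring

private theorem co_iter (i : ℕ) (x : L) : C.co (C.g.1^[i] x) = (gz ζ)^[i] (C.co x) := by
  induction i with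
  | zero => rfl
  | succ i ih => rw [Function.iterate_succ_apply', Function.iterate_succ_apply', C.co_g, ih]

theorem exists_e : ∃ e : L, C.t.1 e = e ∧ ∀ i : ℕ, (C.g ^ i).1 e = e → 31 ∣ i := by
  obtain ⟨N, x, hx⟩ := C.conv (yy C.η) (fun i => by
    change IsIntegral ℤ (0 : K)
    exact isIntegral_zero) (fun a => by
    change IsIntegral ℤ ((mm C.η a : ℤ) : K)
    exact isIntegral_algebraMap) (sV_yy C.η C.hη)
  have hco : C.co x = (31 : K) ^ N • yy C.η := hx
  refine ⟨x, ?_, fun i hi => ?_⟩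
  · apply C.co_injective
    rw [C.co_t, hco, map_yy]
  · rw [pow_apply] at hi
    have h1 := congrArg C.co hi
    rw [co_iter] at h1
    have h2 := congrArg (fun z : Chev K => z.x (sr 0)) h1
    simp only [gz_iter] at h2
    have h3 : (C.co x).x (sr 0) = (31 : K) ^ N := by
      rw [hco]
      change (31 : K) ^ N * ((mm C.η (sr 0) : ℤ) : K) = (31 : K) ^ N
      rw [mm_sr, Int.cast_one, mul_one]
    have h4 : (31 : K) ^ N ≠ 0 := pow_ne_zero _ (by norm_num)
    rw [h3] at h2
    have h5 : ζ ^ i = 1 := mul_right_cancel₀ h4 (h2.trans (one_mul _).symm)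
    exact (Pool.Agent.Helper2.E8A.hζ.pow_eq_one_iff_dvd i).1 h5

end Pool.Agent.Helper73.E8.Ez
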