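import Pool.Agent.Helper58.E8Z.ComB
import Pool.Agent.Helper58.E8Z.FilPres
import Pool.Agent.Helper58.E8Z.FilGrp
import Pool.Agent.Helper58.E8Z.Cent
import Pool.Agent.Helper58.E8Z.TRelC

/-!
# Project E8Z, (E3): an automorphism which is trivial on the fixed vectors of `t` is a power of `t`
-/

set_option autoImplicit false

open scoped TensorProduct

namespace Pool.Agent.Helper73.E8.Ez

open Chev
open Pool.Agent.Helper2.E8A (K ζ σ hζ P0)
open Pool.Agent.Helper58.E8Z (Fil fil_preserved fil_group)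

variable {L : Type} [LieRing L] [Module.Free ℤ L] [Module.Finite ℤ L] {B : LinearMap.BilinForm ℤ L}

private theorem dec3 : ∀ r : Fin 30, (3 : ZMod 31) ^ (r : ℕ) = 1 → r = 0 := by decide

theorem dvd_of_three_zpow {n : ℤ} (h : (3 : ZMod 31) ^ n = 1) : 30 ∣ n := by
  have h3 : (3 : ZMod 31) ≠ 0 := by decide
  have h300 : (3 : ZMod 31) ^ (30 : ℕ) = 1 := by decide
  have : Fact (Nat.Prime 31) := ⟨by norm_num⟩
  have h30 : (3 : ZMod 31) ^ (30 : ℤ) = 1 := by exact_mod_cast h300
  have h1 : n = 30 * (n / 30) + n % 30 := (Int.mul_ediv_add_emod n 30).symm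
  have h2 : 0 ≤ n % 30 := Int.emod_nonneg n (by norm_num)
  have h4 : n % 30 < 30 := Int.emod_lt_of_pos n (by norm_num)
  rw [h1, zpow_add₀ h3, zpow_mul, h30, one_zpow, one_mul] at h
  obtain ⟨k, hk⟩ := Int.eq_ofNat_of_zero_le h2
  rw [hk] at h h4
  have h5 : k < 30 := by omega
  have h6 := dec3 ⟨k, h5⟩ (by simpa using h)
  have h7 : k = 0 := congrArg Fin.val h6
  rw [h7] at hk
  exact Int.dvd_of_emod_eq_zero (by simpa using hk)

theorem three_zpow_of_dvd {n : ℤ} (h : 30 ∣ n) : (3 : ZMod 31) ^ n = 1 := by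
  obtain ⟨k, rfl⟩ := h
  have h30 : (3 : ZMod 31) ^ (30 : ℤ) = 1 := by
    have : (3 : ZMod 31) ^ (30 : ℕ) = 1 := by decide
    exact_mod_cast this
  have : Fact (Nat.Prime 31) := ⟨by norm_num⟩
  rw [zpow_mul, h30, one_zpow]

/-- An element of `AutL L` as an additive map. -/
def toAdd (y : AutL L) : L →+ L := (y.1 : L →ₗ[ℤ] L).toAddMonoidHom

@[simp] theorem toAdd_apply (y : AutL L) (x : L) : toAdd y x = y.1 x := rfl

/-- The product of the operators `ad h - μ`. -/
def lopL (h : L) : List ℤ → L → L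
  | [], z => z
  | μ :: l, z => ⁅h, lopL h l z⁆ - μ • lopL h l z

theorem lopL_add (h : L) (l : List ℤ) (x y : L) : lopL h l (x + y) = lopL h l x + lopL h l y := by
  induction l with
  | nil => rfl
  | cons μ l ih =>
    simp only [lopL, ih, lie_add, smul_add]
    abel

theorem lopL_aut (h : L) (l : List ℤ) (y : AutL L) (hy : y.1 h = h) (x : L) :
    lopL h l (y.1 x) = y.1 (lopL h l x) := by
  induction l with
  | nil => rfl
  | cons μ l ih =>
    simp only [lopL, ih]
    rw [map_sub, y.2, hy, map_zsmul]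

theorem lopL_clc (C : Core L B) (j : Fin 8) (h : L) (hh : C.co h = hb K C.η j) (l : List ℤ) (m : ℤ) (x : L)
    (hx : CVge m (C.co x)) :
    CVge m (C.co (lopL h l x)) ∧ clc m (C.co (lopL h l x)) = lop C.η j l (clc m (C.co x)) := by
  induction l with
  | nil => exact ⟨hx, rfl⟩
  | cons μ l ih =>
    obtain ⟨h1, h2⟩ := ih
    have h3 : CVge m (C.co ⁅h, lopL h l x⁆) := by
      rw [C.co_lie, hh]
      have := CVge_lie (CVge_hb C.η j) h1
      rwa [zero_add] at this
    have h4 : clc m (C.co ⁅h, lopL h l x⁆) = ⁅hb (ZMod 31) C.η j, lop C.η j l (clc m (C.co x))⁆ := by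
      rw [C.co_lie, hh]
      have := clc_lie (CVge_hb C.η j) h1
      rwa [zero_add, clc_hb, h2] at this
    have h5 : CVge m (C.co ((-μ) • lopL h l x)) ∧
        clc m (C.co ((-μ) • lopL h l x)) = -(μ • lop C.η j l (clc m (C.co x))) := by
      rw [C.co_smul]
      have h6 : Vge 0 (((-μ : ℤ) : K)) := Vge_of_integral (isIntegral_algebraMap)
      have h7 := CVge_smul h6 h1
      have h8 := clc_smul h6 h1
      rw [zero_add] at h7 h8
      refine ⟨h7, ?_⟩
      rw [h8, lc_intCast, h2, Int.cast_neg, neg_smul, Int.cast_smul_eq_zsmul]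
    have h6 : lopL h (μ :: l) x = ⁅h, lopL h l x⁆ + (-μ) • lopL h l x := by
      simp only [lopL, neg_smul, sub_eq_add_neg]
    rw [h6, C.co_add]
    refine ⟨CVge_add h3 h5.1, ?_⟩
    rw [clc_add h3 h5.1, h4, h5.2, ← sub_eq_add_neg]
    rfl

theorem pres (C : Core L B) (y : AutL L) (hy : ∀ x, C.t.1 x = x → y.1 x = x) (m : ℤ) (x : L)
    (hx : x ∈ (fil C).G m) : y.1 x ∈ (fil C).G m := by
  have h3 : (3 : ZMod 31) ≠ 0 := by decide
  have : Fact (Nat.Prime 31) := ⟨by norm_num⟩
  have hcomm := comm_t C y hy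
  refine fil_preserved (fil C) (toAdd y) (toAdd C.t) (fun m => (3 : ZMod 31) ^ m) ?_ ?_ ?_ ?_ ?_ hy ?_ m x hx
  · intro x
    have h1 := congrArg (fun z : AutL L => z.1 x) hcomm
    exact h1.symm
  · intro x
    have h1 := pow_apply C.t 30 x
    have h2 : C.t ^ 30 = 1 := by
      rw [← t_order C]
      exact pow_orderOf_eq_one _
    rw [h2] at h1
    exact h1.symm
  · intro m x hx
    change CVge m (C.co (C.t.1 x)) ∧ clc m (C.co (C.t.1 x)) = _
    rw [C.co_t]
    exact ⟨CVge_map hx, clc_map hx⟩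
  · intro m m' h
    apply dvd_of_three_zpow
    change (3 : ZMod 31) ^ m = (3 : ZMod 31) ^ m' at h
    rw [zpow_sub₀ h3, h, div_self (zpow_ne_zero _ h3)]
  · intro m hm
    exact three_zpow_of_dvd hm
  · intro m hm x hx hne
    obtain ⟨j, hj, H⟩ := line C.hη m hm
    obtain ⟨h, hh, hth⟩ := exists_h C j
    obtain ⟨l, w, h1, h2⟩ := H (clc m (C.co x)) (InE_clc C hx) hne
    refine ⟨AddMonoidHom.mk' (lopL h l) (lopL_add h l), ?_, ?_, ?_, w, ?_⟩
    · intro z
      exact lopL_aut h l y (hy h hth) z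
    · intro m' z hz
      exact (lopL_clc C j h hh l m' z hz).1
    · change clc m (C.co (lopL h l x)) ≠ 0
      rw [(lopL_clc C j h hh l m x hx).2]
      exact h1
    · intro m' hm' z hz
      change ∃ a : ZMod 31, clc m' (C.co (lopL h l z)) = a • w
      rw [(lopL_clc C j h hh l m' z hz).2]
      exact h2 _ ((InE_congr hm' _).2 (InE_clc C hz))

/-- The action of `AutL L` on `L`. -/
def rhoL (L : Type) [LieRing L] : AutL L →* AddMonoid.End L where
  toFun y := toAdd y
  map_one' := rfl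
  map_mul' _ _ := rfl

theorem e3 (C : Core L B) (y : AutL L) (hy : ∀ x, C.t.1 x = x → y.1 x = x) : y ∈ Subgroup.zpowers C.t := by
  have := AutL_finite C.hL
  obtain ⟨e, he, hge⟩ := exists_e C
  have hy' : ∀ x, C.t.1 x = x → (y⁻¹).1 x = x := by
    intro x hx
    have h1 := hy x hx
    have h2 : (y⁻¹).1 (y.1 x) = x := y.1.symm_apply_apply x
    rwa [h1] at h2
  refine fil_group (fil C) (rhoL L) ?_ C.g C.t y (g_ne C) (g_pow C) ?_ (t_conj C) (centralizer C)
    (fun m z hz => pres C y hy m z hz) (fun m z hz => pres C y⁻¹ hy' m z hz) e he (hy e he) hge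
  · intro a b hab
    refine Subtype.ext (LinearEquiv.ext fun x => ?_)
    exact congrArg (fun z : AddMonoid.End L => z x) hab
  · intro m z hz
    change CVge (m + 1) (C.co (C.g.1 z - z))
    have h1 : C.co (C.g.1 z - z) = gz ζ (C.co z) - C.co z := by
      have h2 := C.co_add (C.g.1 z - z) z
      rw [sub_add_cancel, C.co_g] at h2
      rw [h2, add_sub_cancel_right]
    rw [h1]
    exact CVge_gz hz

end Pool.Agent.Helper73.E8.Ez
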