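import Pool.Agent.Helper58.E8Z.Core

/-!
# Block E8Z-FIX: the fixed space of `g` has dimension 8

Proof. Let `M` be the integer matrix of `g` in the basis `b`. The dimension of the kernel of `M - 1` is the same over `ℚ` and over `K`
(rank of a matrix and field extension: row echelon form, or determinants of minors, or flatness of `K` over `ℚ`: `ker` commutes with base change).
Over `K` the basis `1 ⊗ b i` of `K ⊗ L` identifies `M - 1` with `cG K g - 1`, and `f` with `gz ζ - 1` on `Chev K`, the kernel of which is
`{y : y.x = 0}` (because `ζ^(ht a) ≠ 1` for roots: `|ht a| ≤ 29`, `ht a ≠ 0`), of dimension 8.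
-/

set_option autoImplicit false

open scoped TensorProduct

namespace Pool.Agent.Helper73.E8.Ez

open Chev
open Pool.Agent.Helper2.E8A (K ζ σ)

variable {L : Type} [LieRing L] [Module.Free ℤ L] [Module.Finite ℤ L] {B : LinearMap.BilinForm ℤ L}

private theorem ker_conj {F V V' : Type*} [Field F] [AddCommGroup V] [Module F V] [AddCommGroup V'] [Module F V']
    (e : V ≃ₗ[F] V') (f : V →ₗ[F] V) (g : V' →ₗ[F] V') (h : ∀ v, e (f v) = g (e v)) :
    Module.finrank F (LinearMap.ker f) = Module.finrank F (LinearMap.ker g) := by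
  have h1 : LinearMap.ker g = (LinearMap.ker f).map (e : V →ₗ[F] V') := by
    ext w
    rw [Submodule.mem_map]
    constructor
    · intro hw
      refine ⟨e.symm w, ?_, e.apply_symm_apply w⟩
      rw [LinearMap.mem_ker]
      apply e.injective
      rw [h, e.apply_symm_apply, map_zero]
      exact hw
    · rintro ⟨v, hv, rfl⟩
      rw [LinearMap.mem_ker] at hv ⊢
      show g (e v) = 0
      rw [← h, hv, map_zero]
  rw [h1]
  exact (e.finrank_map_eq _).symm

/-- `gz ζ` as a linear map -/
private noncomputable def gzL : Chev K →ₗ[K] Chev K where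
  toFun := gz ζ
  map_add' y z := by
    ext i
    · rfl
    · simp only [gz, add_x, Pi.add_apply]
      ring
  map_smul' c y := by
    ext i
    · rfl
    · simp only [gz, smul_x, Pi.smul_apply, smul_eq_mul, RingHom.id_apply]
      ring

private theorem zpow_ht_ne (a : Root) : (ζ : K) ^ (ht a.1) ≠ 1 := by
  rw [Ne, Pool.Agent.Helper2.E8A.hζ.zpow_eq_one_iff_dvd]
  intro h
  have h1 := ht_root_ne_zero a
  have h2 := abs_le.1 (abs_ht_root_le a)
  obtain ⟨m, hm⟩ := h
  push_cast at hm
  omega

private theorem mem_ker_gz (y : Chev K) : y ∈ LinearMap.ker (gzL - LinearMap.id) ↔ y.x = 0 := by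
  rw [LinearMap.mem_ker, LinearMap.sub_apply, LinearMap.id_apply, sub_eq_zero]
  constructor
  · intro h
    funext a
    have h1 : (ζ : K) ^ (ht a.1) * y.x a = y.x a := congrFun (congrArg Chev.x h) a
    have h2 : ((ζ : K) ^ (ht a.1) - 1) * y.x a = 0 := by rw [sub_mul, h1, one_mul, sub_self]
    rcases mul_eq_zero.1 h2 with h3 | h3
    · exact absurd (sub_eq_zero.1 h3) (zpow_ht_ne a)
    · exact h3
  · intro h
    show gz ζ y = y
    ext i
    · rfl
    · simp only [gz, h, Pi.zero_apply, mul_zero]

private theorem finrank_ker_gz : Module.finrank K (LinearMap.ker (gzL - LinearMap.id)) = 8 := by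
  let e : LinearMap.ker (gzL - LinearMap.id) ≃ₗ[K] (Fin 8 → K) :=
    { toFun := fun y => y.1.h
      map_add' := fun _ _ => rfl
      map_smul' := fun _ _ => rfl
      invFun := fun h => ⟨c h, (mem_ker_gz _).2 rfl⟩
      left_inv := fun y => by
        apply Subtype.ext
        ext i
        · rfl
        · rw [(mem_ker_gz y.1).1 y.2]
          rfl
      right_inv := fun _ => rfl }
  rw [e.finrank_eq, Module.finrank_pi, Fintype.card_fin]

private theorem basis_tmul {R M ι : Type} [CommRing R] [Algebra R K] [AddCommGroup M] [Module R M]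
    [Fintype ι] (b : Module.Basis ι R M) (a : K) (m : M) (i : ι) :
    (Algebra.TensorProduct.basis K b).equivFun (a ⊗ₜ m) i = a * algebraMap R K (b.repr m i) := by
  rw [Module.Basis.equivFun_apply, Algebra.TensorProduct.basis_repr_tmul, Finsupp.smul_apply,
    Finsupp.mapRange_apply, smul_eq_mul]

theorem fix_dim (C : Core L B) {n : ℕ} (b : Module.Basis (Fin n) ℤ L) :
    Module.finrank ℚ (LinearMap.ker (((LinearMap.toMatrix b b (C.g.1 : L →ₗ[ℤ] L)).map
      (algebraMap ℤ ℚ)).mulVecLin - LinearMap.id)) = 8 := by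
  set M := LinearMap.toMatrix b b (C.g.1 : L →ₗ[ℤ] L) with hM
  set A : (Fin n → ℚ) →ₗ[ℚ] (Fin n → ℚ) := (M.map (algebraMap ℤ ℚ)).mulVecLin - LinearMap.id with hA
  set AK : (Fin n → K) →ₗ[K] (Fin n → K) := (M.map (algebraMap ℤ K)).mulVecLin - LinearMap.id with hAK
  -- from `ℚ` to `K`
  have h1 : Module.finrank K (LinearMap.ker (A.baseChange K)) = Module.finrank ℚ (LinearMap.ker A) := by
    have e := LinearMap.tensorKerEquiv K K A
    have h := e.finrank_eq
    rw [Module.finrank_baseChange] at h
    exact h.symm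
  have h2 : Module.finrank K (LinearMap.ker (A.baseChange K)) = Module.finrank K (LinearMap.ker AK) := by
    refine ker_conj (Algebra.TensorProduct.basis K (Pi.basisFun ℚ (Fin n))).equivFun _ _ fun z => ?_
    induction z using TensorProduct.induction_on with
    | zero => rw [map_zero, map_zero, map_zero]
    | add y z hy hz => rw [_root_.map_add, _root_.map_add, _root_.map_add, _root_.map_add, hy, hz]
    | tmul a v =>
      funext i
      rw [LinearMap.baseChange_tmul, basis_tmul, Pi.basisFun_repr]
      rw [hA, hAK, LinearMap.sub_apply, LinearMap.sub_apply, LinearMap.id_apply, LinearMap.id_apply,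
        Pi.sub_apply, Pi.sub_apply, basis_tmul, Pi.basisFun_repr, Matrix.mulVecLin_apply,
        Matrix.mulVecLin_apply]
      rw [map_sub, mul_sub]
      congr 1
      simp only [Matrix.mulVec, dotProduct, Matrix.map_apply, basis_tmul, Pi.basisFun_repr, map_sum, map_mul,
        Finset.mul_sum]
      refine Finset.sum_congr rfl fun j _ => ?_
      simp only [eq_intCast, map_intCast]
      ring
  -- from `K ⊗ L` to the coordinates
  let T : K ⊗[ℤ] L →ₗ[K] K ⊗[ℤ] L := (C.g.1 : L →ₗ[ℤ] L).baseChange K - LinearMap.id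
  have h3 : Module.finrank K (LinearMap.ker T) = Module.finrank K (LinearMap.ker AK) := by
    refine ker_conj (Algebra.TensorProduct.basis K b).equivFun _ _ fun z => ?_
    show (Algebra.TensorProduct.basis K b).equivFun ((C.g.1 : L →ₗ[ℤ] L).baseChange K z - z) = _
    induction z using TensorProduct.induction_on with
    | zero => rw [map_zero, sub_zero, map_zero, map_zero]
    | add y z hy hz =>
      rw [_root_.map_add (LinearMap.baseChange K (C.g.1 : L →ₗ[ℤ] L)), add_sub_add_comm, _root_.map_add,
        _root_.map_add, _root_.map_add, hy, hz]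
    | tmul a x =>
      rw [LinearMap.baseChange_tmul, map_sub]
      funext i
      rw [Pi.sub_apply, basis_tmul, basis_tmul, hAK, LinearMap.sub_apply, LinearMap.id_apply,
        Pi.sub_apply, basis_tmul, Matrix.mulVecLin_apply]
      congr 1
      have h := congrFun (LinearMap.toMatrix_mulVec_repr b b (C.g.1 : L →ₗ[ℤ] L) x) i
      rw [← h, ← hM]
      simp only [Matrix.mulVec, dotProduct, Matrix.map_apply, basis_tmul, map_sum, map_mul, Finset.mul_sum]
      refine Finset.sum_congr rfl fun j _ => ?_
      ring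
  -- from `K ⊗ L` to `Chev K`
  have h4 : Module.finrank K (LinearMap.ker T) = Module.finrank K (LinearMap.ker (gzL - LinearMap.id)) := by
    refine ker_conj (C.f : K ⊗[ℤ] L ≃ₗ[K] Chev K) _ _ fun z => ?_
    show C.f ((C.g.1 : L →ₗ[ℤ] L).baseChange K z - z) = gzL (C.f z) - C.f z
    have h5 : ∀ z : K ⊗[ℤ] L, C.f ((C.g.1 : L →ₗ[ℤ] L).baseChange K z) = gzL (C.f z) := by
      intro z
      induction z using TensorProduct.induction_on with
      | zero =>
        have e0 : C.f (0 : K ⊗[ℤ] L) = 0 := _root_.map_zero C.f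
        rw [_root_.map_zero, e0, _root_.map_zero]
      | add y z hy hz =>
        have e0 : ∀ u w : K ⊗[ℤ] L, C.f (u + w) = C.f u + C.f w := fun u w => _root_.map_add C.f u w
        rw [_root_.map_add, e0, e0, _root_.map_add, hy, hz]
      | tmul a x =>
        have e1 : ∀ y : L, (a ⊗ₜ[ℤ] y : K ⊗[ℤ] L) = a • (1 ⊗ₜ y) := by
          intro y
          rw [TensorProduct.smul_tmul', smul_eq_mul, mul_one]
        rw [LinearMap.baseChange_tmul, e1, e1]
        have e2 := C.hg x
        have e3 : ∀ w : K ⊗[ℤ] L, C.f (a • w) = a • C.f w := fun w => _root_.map_smul C.f a w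
        rw [e3, e3, _root_.map_smul]
        congr 1
    have h6 : C.f ((C.g.1 : L →ₗ[ℤ] L).baseChange K z - z) =
        C.f ((C.g.1 : L →ₗ[ℤ] L).baseChange K z) - C.f z := _root_.map_sub C.f _ _
    rw [h6, h5]
  rw [← h1, h2, ← h3, h4, finrank_ker_gz]

end Pool.Agent.Helper73.E8.Ez
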