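import Pool.Agent.Helper58.E8Z.Core

/-!
# Block E8Z-TRELB: `Φ_30(t) = 0` on the vectors fixed by `g`

Proof. It is enough to show that `C.co` of the left side is 0 (`C.co_injective`, `C.co_add`, `C.co_t`, `pow_apply` in `Grp.lean`).
Let `g x = x`, `z = co x`. `gz ζ z = z` (`co_g`) gives `z.x = 0` (`ζ^(ht a) ≠ 1`: `|ht a| ≤ 29` and `ht a ≠ 0`, see `Roots.lean`).
`sV η z = z` (`co_sV`) gives `z.h i = ∑ j, σ (z.h j) * W (al j) i`, i.e. with `h = z.h` and the `K`-linear extension of `W`: `h = W (σ h)`;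
so `σ h = W⁻¹ h` and `σ^k h = W^(-k) h`. `Φ_30` is palindromic and `Φ_30(W) = 0` (`W_phi`), so
`Φ_30(W⁻¹) = W^(-8) Φ_30(W) = 0`, and `co` of the left side, with Cartan component `(W^(-8) + W^(-7) - W^(-5) - W^(-4) - W^(-3) + W^(-1) + 1) h`,
is 0. (It may be easier to take `h'' = σ^8 h` and to express `σ^j h = W^(8-j) h''` for `j ≤ 8`.)
-/

set_option autoImplicit false

open scoped TensorProduct

namespace Pool.Agent.Helper73.E8.Ez

open Chev
open Pool.Agent.Helper2.E8A (K ζ σ)

variable {L : Type} [LieRing L] [Module.Free ℤ L] [Module.Finite ℤ L] {B : LinearMap.BilinForm ℤ L} (C : Core L B)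

/-- The `K`-linear extension of `W`. -/
private noncomputable def h80_W : (Fin 8 → K) →ₗ[K] (Fin 8 → K) where
  toFun v := fun i => ∑ j, v j * ((W (al j) i : ℤ) : K)
  map_add' v w := by
    funext i
    simp only [Pi.add_apply, add_mul, Finset.sum_add_distrib]
  map_smul' c v := by
    funext i
    simp only [Pi.smul_apply, smul_eq_mul, RingHom.id_apply, Finset.mul_sum, mul_assoc]

private theorem h80_W_apply (v : Fin 8 → K) (i : Fin 8) :
    h80_W v i = ∑ j, v j * ((W (al j) i : ℤ) : K) := rfl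

private theorem h80_W_al (j i : Fin 8) : W (al j) i = Wmat j i := by
  rw [W_apply, Finset.sum_eq_single j]
  · simp [al]
  · intro k _ hk
    simp [al, hk]
  · intro h
    exact absurd (Finset.mem_univ _) h

private theorem h80_W_cast (v : Lat) :
    h80_W (fun i => ((v i : ℤ) : K)) = fun i => ((W v i : ℤ) : K) := by
  funext i
  rw [h80_W_apply, W_apply]
  push_cast
  refine Finset.sum_congr rfl fun j _ => ?_
  rw [h80_W_al]

private theorem h80_W_iter (k : ℕ) (v : Lat) :
    (h80_W ^ k) (fun i => ((v i : ℤ) : K)) = fun i => ((W^[k] v i : ℤ) : K) := by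
  induction k with
  | zero => rfl
  | succ n ih =>
    rw [pow_succ', Module.End.mul_apply, ih, h80_W_cast, Function.iterate_succ_apply']

private theorem h80_phi : h80_W ^ 8 + h80_W ^ 7 - h80_W ^ 5 - h80_W ^ 4 - h80_W ^ 3 + h80_W + 1 = 0 := by
  refine (Pi.basisFun K (Fin 8)).ext fun j => ?_
  have e1 : (Pi.basisFun K (Fin 8)) j = fun i => ((al j i : ℤ) : K) := by
    funext i
    rw [Pi.basisFun_apply]
    by_cases h : i = j
    · subst h
      simp [al]
    · simp [al, h]
  have h1 : h80_W ((Pi.basisFun K (Fin 8)) j) = fun i => ((W^[1] (al j) i : ℤ) : K) := by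
    have h2 := h80_W_iter 1 (al j)
    rw [pow_one] at h2
    rw [e1, h2]
  rw [LinearMap.add_apply, LinearMap.add_apply, LinearMap.sub_apply, LinearMap.sub_apply,
    LinearMap.sub_apply, LinearMap.add_apply, Module.End.one_apply, LinearMap.zero_apply, h1, e1,
    h80_W_iter, h80_W_iter, h80_W_iter, h80_W_iter, h80_W_iter]
  funext i
  have h2 := congrArg (fun v : Lat => ((v i : ℤ) : K)) (W_phi (al j))
  simp only [Pi.add_apply, Pi.sub_apply, Pi.zero_apply, Int.cast_add, Int.cast_sub, Int.cast_zero] at h2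
  simp only [Pi.add_apply, Pi.sub_apply, Pi.zero_apply, Function.iterate_one]
  exact h2

theorem phi (x : L) (hx : C.g.1 x = x) :
    (C.t ^ 8).1 x + (C.t ^ 7).1 x - (C.t ^ 5).1 x - (C.t ^ 4).1 x - (C.t ^ 3).1 x + C.t.1 x + x = 0 := by
  -- the coordinates of the iterates
  have hx0 : ∀ a : Root, (C.co x).x a = 0 := by
    intro a
    have h1 := C.co_g x
    rw [hx] at h1
    have h2 : (C.co x).x a = ζ ^ (ht a.1) * (C.co x).x a := congrArg (fun z : Chev K => z.x a) h1
    have h3 : ζ ^ (ht a.1) ≠ 1 := by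
      rw [Ne, Pool.Agent.Helper2.E8A.hζ.zpow_eq_one_iff_dvd]
      intro h4
      have h5 := abs_ht_root_le a
      have h6 := ht_root_ne_zero a
      obtain ⟨m, hm⟩ := h4
      rw [abs_le] at h5
      omega
    have h4 : (ζ ^ (ht a.1) - 1) * (C.co x).x a = 0 := by linear_combination -h2
    exact (mul_eq_zero.1 h4).resolve_left (sub_ne_zero.2 h3)
  have hh0 : (C.co x).h = h80_W (fun j => σ ((C.co x).h j)) := by
    have h1 := C.co_sV x
    funext i
    exact (congrArg (fun z : Chev K => z.h i) h1).symm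
  have hco : ∀ k, C.co (C.t.1^[k + 1] x) = map (σ : K →+* K) (C.co (C.t.1^[k] x)) := by
    intro k
    rw [Function.iterate_succ_apply', C.co_t]
  have hxk : ∀ k, ∀ a : Root, (C.co (C.t.1^[k] x)).x a = 0 := by
    intro k
    induction k with
    | zero => exact hx0
    | succ n ih =>
      intro a
      rw [hco]
      change (σ : K →+* K) ((C.co (C.t.1^[n] x)).x a) = 0
      rw [ih, map_zero]
  have hhs : ∀ k i, (C.co (C.t.1^[k + 1] x)).h i = σ ((C.co (C.t.1^[k] x)).h i) := by
    intro k i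
    rw [hco]
    rfl
  have hhk : ∀ k, (C.co (C.t.1^[k] x)).h = h80_W (C.co (C.t.1^[k + 1] x)).h := by
    intro k
    induction k with
    | zero =>
      have h1 : (C.co (C.t.1^[0 + 1] x)).h = fun j => σ ((C.co x).h j) := by
        funext j
        exact hhs 0 j
      rw [h1]
      exact hh0
    | succ n ih =>
      funext i
      rw [hhs, ih, h80_W_apply, h80_W_apply, map_sum]
      refine Finset.sum_congr rfl fun j _ => ?_
      rw [map_mul, map_intCast, hhs (n + 1)]
  set u : Fin 8 → K := (C.co (C.t.1^[8] x)).h with hu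
  have e7 : (C.co (C.t.1^[7] x)).h = (h80_W ^ 1) u := by rw [hhk 7, pow_one]
  have e6 : (C.co (C.t.1^[6] x)).h = (h80_W ^ 2) u := by
    rw [hhk 6, e7, ← Module.End.mul_apply, ← pow_succ']
  have e5 : (C.co (C.t.1^[5] x)).h = (h80_W ^ 3) u := by
    rw [hhk 5, e6, ← Module.End.mul_apply, ← pow_succ']
  have e4 : (C.co (C.t.1^[4] x)).h = (h80_W ^ 4) u := by
    rw [hhk 4, e5, ← Module.End.mul_apply, ← pow_succ']
  have e3 : (C.co (C.t.1^[3] x)).h = (h80_W ^ 5) u := by
    rw [hhk 3, e4, ← Module.End.mul_apply, ← pow_succ']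
  have e2 : (C.co (C.t.1^[2] x)).h = (h80_W ^ 6) u := by
    rw [hhk 2, e3, ← Module.End.mul_apply, ← pow_succ']
  have e1 : (C.co (C.t.1^[1] x)).h = (h80_W ^ 7) u := by
    rw [hhk 1, e2, ← Module.End.mul_apply, ← pow_succ']
  have e0 : (C.co (C.t.1^[0] x)).h = (h80_W ^ 8) u := by
    rw [hhk 0, e1, ← Module.End.mul_apply, ← pow_succ']
  apply C.co_injective
  let F : L →+ Chev K := AddMonoidHom.mk' C.co C.co_add
  have hF : ∀ y, C.co y = F y := fun _ => rfl
  rw [pow_apply, pow_apply, pow_apply, pow_apply, pow_apply, hF, hF, _root_.map_add, _root_.map_add,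
    _root_.map_sub, _root_.map_sub, _root_.map_sub, _root_.map_add, _root_.map_zero]
  simp only [← hF]
  have f1 : (C.co (C.t.1 x)).h = (h80_W ^ 7) u := e1
  have f0 : (C.co x).h = (h80_W ^ 8) u := e0
  have f1' : ∀ a : Root, (C.co (C.t.1 x)).x a = 0 := hxk 1
  ext i
  · simp only [add_h, sub_h, zero_h, e7, e5, e4, e3, f1, f0]
    have h1 := congrArg (fun f : Module.End K (Fin 8 → K) => f u i) h80_phi
    simp only [LinearMap.add_apply, LinearMap.sub_apply, LinearMap.zero_apply, Module.End.one_apply,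
      Pi.add_apply, Pi.sub_apply, Pi.zero_apply] at h1
    simp only [Pi.add_apply, Pi.sub_apply, Pi.zero_apply, pow_one]
    rw [← hu]
    linear_combination h1
  · simp only [add_x, sub_x, zero_x, Pi.add_apply, Pi.sub_apply, Pi.zero_apply, hxk, f1', hx0]
    ring

end Pool.Agent.Helper73.E8.Ez
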