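import Pool.Agent.Helper58.E8Z.Cent
import Pool.Agent.Helper58.E8Z.TRelA
import Pool.Agent.Helper58.E8Z.TRelB
import Pool.Agent.Helper58.E8Z.FixDim
import Pool.Agent.Helper58.E8Z.ChFin

/-!
# Block E8Z-CD: from `Core` to `CD`

Proof. Let `b` be a basis of `L` indexed by `Fin n` (`Module.Free.chooseBasis` reindexed, `n = finrank`), `F = AutL L` (a finite group, `AutL_finite`,
`Fintype.ofFinite`), `rho x = (LinearMap.toMatrix b b x.1).map (Int.cast : ℤ → ℚ)` (a monoid homomorphism: `LinearMap.toMatrix_mul`, `Matrix.map_mul`), `S` = the Gram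
matrix `B (b i) (b j)` mapped to `ℚ` (`LinearMap.toMatrix₂`). `symm`: `hL.symm`. `inv`: `AutL_B`. `pos`: `hL.pos` for the real vector
`∑ v i ⊗ b i` (`B.baseChange ℝ` in the basis `1 ⊗ b i` of `ℝ ⊗ L` is given by the Gram matrix). `irr`: `Irr L`, transported along the linear equivalence
`ℝ ⊗ L ≃ (Fin n → ℝ)` of the basis `1 ⊗ b i` (`Algebra.TensorProduct.basis`); `(x.1).baseChange ℝ` corresponds to `mulVec` of the mapped matrix.
`g, t`: `C.g, C.t`, `r = 3`; `hr'`: `3^j % 31 = 1 → 30 ∣ j` (finite check on `j % 30`, `3^30 % 31 = 1`). `fix_dim`: `FixDim.lean`.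
`phi`: for a rational vector `v` fixed by `rho g`: multiply by a common denominator to get an integer vector `m v`, which corresponds to `x ∈ L` with
`g x = x`; apply `phi` of `TRelB.lean`. `norm`: `hN`. Then `CD.false`.
-/

set_option autoImplicit false

open scoped TensorProduct

namespace Pool.Agent.Helper73.E8.Ez

open Chev
open Pool.Agent.Helper2.E8A (K ζ σ)

variable {L : Type} [LieRing L] [Module.Free ℤ L] [Module.Finite ℤ L] {B : LinearMap.BilinForm ℤ L}

section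

variable {n : ℕ} (b : Module.Basis (Fin n) ℤ L)

/-- The representation by rational matrices. -/
noncomputable def cdRho : AutL L →* Matrix (Fin n) (Fin n) ℚ where
  toFun x := (LinearMap.toMatrix b b (x.1 : L →ₗ[ℤ] L)).map (algebraMap ℤ ℚ)
  map_one' := by
    have h : (((1 : AutL L).1 : L ≃ₗ[ℤ] L) : L →ₗ[ℤ] L) = LinearMap.id := rfl
    rw [h, LinearMap.toMatrix_id, Matrix.map_one _ (map_zero _) (map_one _)]
  map_mul' x y := by
    have h : (((x * y : AutL L).1 : L ≃ₗ[ℤ] L) : L →ₗ[ℤ] L)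
        = (x.1 : L →ₗ[ℤ] L) ∘ₗ (y.1 : L →ₗ[ℤ] L) := rfl
    rw [h, LinearMap.toMatrix_comp b b b, Matrix.map_mul]

theorem cdRho_apply (x : AutL L) :
    cdRho b x = (LinearMap.toMatrix b b (x.1 : L →ₗ[ℤ] L)).map (algebraMap ℤ ℚ) := rfl

/-- The Gram matrix. -/
noncomputable def cdS (B : LinearMap.BilinForm ℤ L) : Matrix (Fin n) (Fin n) ℚ :=
  (LinearMap.toMatrix₂ b b B).map (algebraMap ℤ ℚ)

theorem cd_symm (hL : IsLat L B) : (cdS b B).transpose = cdS b B := by
  ext i j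
  simp only [cdS, Matrix.transpose_apply, Matrix.map_apply, LinearMap.toMatrix₂_apply]
  rw [hL.symm]

theorem cd_inv (hL : IsLat L B) (x : AutL L) : (cdRho b x).transpose * cdS b B * cdRho b x = cdS b B := by
  have h := LinearMap.toMatrix₂_compl₁₂ b b b b B (x.1 : L →ₗ[ℤ] L) (x.1 : L →ₗ[ℤ] L)
  have h2 : B.compl₁₂ (x.1 : L →ₗ[ℤ] L) (x.1 : L →ₗ[ℤ] L) = B := by
    ext u v
    exact AutL_B hL x u v
  rw [h2] at h
  rw [cdRho_apply, cdS, ← Matrix.transpose_map, ← Matrix.map_mul, ← Matrix.map_mul, ← h]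

/-- The coordinates on the real space. -/
noncomputable def cdE : (ℝ ⊗[ℤ] L) ≃ₗ[ℝ] (Fin n → ℝ) := (Algebra.TensorProduct.basis ℝ b).equivFun

theorem cdE_map (f : L →ₗ[ℤ] L) (z : ℝ ⊗[ℤ] L) :
    cdE b (f.baseChange ℝ z) = ((LinearMap.toMatrix b b f).map (algebraMap ℤ ℝ)).mulVec (cdE b z) := by
  rw [← LinearMap.toMatrix_baseChange]
  exact (LinearMap.toMatrix_mulVec_repr (Algebra.TensorProduct.basis ℝ b) (Algebra.TensorProduct.basis ℝ b)
    (f.baseChange ℝ) z).symm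

theorem cd_mapR (M : Matrix (Fin n) (Fin n) ℤ) : (M.map (algebraMap ℤ ℚ)).map (algebraMap ℚ ℝ) = M.map (algebraMap ℤ ℝ) := by
  ext i j
  simp

theorem cd_pos (hL : IsLat L B) (v : Fin n → ℝ) (hv : v ≠ 0) :
    0 < v ⬝ᵥ ((cdS b B).map (algebraMap ℚ ℝ)).mulVec v := by
  have hz : (cdE b).symm v ≠ 0 := fun h => hv (by
    have := congrArg (cdE b) h
    rwa [LinearEquiv.apply_symm_apply, _root_.map_zero] at this)
  have h := hL.pos _ hz
  have e : (cdE b).symm v = ∑ i, v i • ((1 : ℝ) ⊗ₜ[ℤ] b i) := by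
    rw [cdE, Module.Basis.equivFun_symm_apply]
    simp only [Algebra.TensorProduct.basis_apply]
  rw [e] at h
  have h2 : B.baseChange ℝ (∑ i, v i • ((1 : ℝ) ⊗ₜ[ℤ] b i)) (∑ i, v i • ((1 : ℝ) ⊗ₜ[ℤ] b i))
      = v ⬝ᵥ ((cdS b B).map (algebraMap ℚ ℝ)).mulVec v := by
    rw [cdS, cd_mapR]
    simp only [_root_.map_sum, LinearMap.sum_apply, _root_.map_smul, LinearMap.smul_apply, LinearMap.BilinForm.baseChange_tmul,
      dotProduct, Matrix.mulVec, Matrix.map_apply, LinearMap.toMatrix₂_apply, smul_eq_mul, Finset.mul_sum]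
    rw [Finset.sum_comm]
    refine Finset.sum_congr rfl fun i _ => Finset.sum_congr rfl fun j _ => ?_
    simp
    ring
  rwa [h2] at h

theorem cd_irr (hirr : Irr L) (U : Submodule ℝ (Fin n → ℝ))
    (hU : ∀ x : AutL L, ∀ u ∈ U, ((cdRho b x).map (algebraMap ℚ ℝ)).mulVec u ∈ U) : U = ⊥ ∨ U = ⊤ := by
  have h := hirr (U.comap (cdE b).toLinearMap) (by
    intro g
    rw [Submodule.map_le_iff_le_comap]
    intro z hz
    rw [Submodule.mem_comap, Submodule.mem_comap] at *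
    have h1 := hU g _ hz
    rw [cdRho_apply, cd_mapR] at h1
    change cdE b _ ∈ U
    rw [cdE_map]
    exact h1)
  rcases h with h | h
  · left
    rw [eq_bot_iff]
    intro u hu
    have h1 : (cdE b).symm u ∈ U.comap (cdE b).toLinearMap := by
      rw [Submodule.mem_comap]
      change cdE b ((cdE b).symm u) ∈ U
      rwa [LinearEquiv.apply_symm_apply]
    rw [h, Submodule.mem_bot] at h1
    rw [Submodule.mem_bot]
    have := congrArg (cdE b) h1
    rwa [LinearEquiv.apply_symm_apply, _root_.map_zero] at this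
  · right
    rw [eq_top_iff]
    intro u _
    have h1 : (cdE b).symm u ∈ U.comap (cdE b).toLinearMap := by rw [h]; trivial
    rw [Submodule.mem_comap] at h1
    change cdE b ((cdE b).symm u) ∈ U at h1
    rwa [LinearEquiv.apply_symm_apply] at h1

theorem cd_hr (j : ℕ) (h : 3 ^ j % 31 = 1) : 30 ∣ j := by
  have h1 : 3 ^ (j % 30) % 31 = 1 := by
    have h2 : 3 ^ j % 31 = 3 ^ (j % 30) % 31 := by
      conv_lhs => rw [← Nat.div_add_mod j 30, pow_add, pow_mul, Nat.mul_mod, Nat.pow_mod]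
      norm_num
    rw [← h2, h]
  have h3 : j % 30 < 30 := Nat.mod_lt _ (by norm_num)
  have h4 : ∀ i < 30, 3 ^ i % 31 = 1 → i = 0 := by decide
  exact Nat.dvd_of_mod_eq_zero (h4 _ h3 h1)

/-- Clearing denominators. -/
theorem cd_den (v : Fin n → ℚ) : ∃ (m : ℤ) (w : Fin n → ℤ), m ≠ 0 ∧ ∀ i, (m : ℚ) * v i = w i := by
  refine ⟨∏ i, ((v i).den : ℤ), fun i => (v i).num * ∏ j ∈ Finset.univ.erase i, ((v j).den : ℤ), ?_, ?_⟩
  · exact Finset.prod_ne_zero_iff.2 fun i _ => by exact_mod_cast (v i).den_nz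
  · intro i
    rw [← Finset.mul_prod_erase Finset.univ _ (Finset.mem_univ i)]
    push_cast
    have h : ((v i).den : ℚ) * v i = (v i).num := by
      rw [mul_comm]
      exact Rat.mul_den_eq_num (v i)
    calc ((v i).den : ℚ) * (∏ j ∈ Finset.univ.erase i, ((v j).den : ℚ)) * v i
        = (((v i).den : ℚ) * v i) * ∏ j ∈ Finset.univ.erase i, ((v j).den : ℚ) := by ring
      _ = _ := by rw [h]

theorem cd_coord (x : AutL L) (m : ℚ) (v : Fin n → ℚ) (w : Fin n → ℤ) (h : ∀ i, m * v i = w i) (i : Fin n) :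
    m * (cdRho b x).mulVec v i = ((b.repr (x.1 (b.equivFun.symm w)) i : ℤ) : ℚ) := by
  have h1 := congrFun (LinearMap.toMatrix_mulVec_repr b b (x.1 : L →ₗ[ℤ] L) (b.equivFun.symm w)) i
  have h2 : (⇑(b.repr (b.equivFun.symm w)) : Fin n → ℤ) = w := by
    have := b.equivFun.apply_symm_apply w
    exact this
  rw [h2] at h1
  rw [LinearEquiv.coe_coe] at h1
  rw [← h1, cdRho_apply]
  simp only [Matrix.mulVec, dotProduct, Matrix.map_apply, Finset.mul_sum]
  push_cast
  refine Finset.sum_congr rfl fun j _ => ?_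
  rw [← h j]
  simp
  ring

theorem cd_phi (C : Core L B) (v : Fin n → ℚ) (hv : (cdRho b C.g).mulVec v = v) :
    (cdRho b (C.t ^ 8)).mulVec v + (cdRho b (C.t ^ 7)).mulVec v - (cdRho b (C.t ^ 5)).mulVec v
      - (cdRho b (C.t ^ 4)).mulVec v - (cdRho b (C.t ^ 3)).mulVec v + (cdRho b C.t).mulVec v + v = 0 := by
  obtain ⟨m, w, hm, hw⟩ := cd_den v
  have hm' : (m : ℚ) ≠ 0 := by exact_mod_cast hm
  obtain ⟨x, hx⟩ : ∃ x : L, x = b.equivFun.symm w := ⟨_, rfl⟩
  have hxw : ∀ i, b.repr x i = w i := fun i => by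
    rw [hx]
    exact congrFun (b.equivFun.apply_symm_apply w) i
  have hg : C.g.1 x = x := by
    apply b.repr.injective
    ext i
    have h1 := cd_coord b C.g m v w hw i
    rw [hv, hw i, ← hx] at h1
    rw [hxw]
    exact_mod_cast h1.symm
  have hp := phi C x hg
  funext i
  have h2 := congrArg (fun y => ((b.repr y i : ℤ) : ℚ)) hp
  simp only [_root_.map_add, _root_.map_sub, Finsupp.add_apply, Finsupp.sub_apply, _root_.map_zero, Finsupp.coe_zero, Pi.zero_apply,
    Int.cast_add, Int.cast_sub, Int.cast_zero, hxw] at h2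
  rw [hx] at h2
  rw [← cd_coord b (C.t ^ 8) m v w hw i, ← cd_coord b (C.t ^ 7) m v w hw i, ← cd_coord b (C.t ^ 5) m v w hw i,
    ← cd_coord b (C.t ^ 4) m v w hw i, ← cd_coord b (C.t ^ 3) m v w hw i, ← cd_coord b C.t m v w hw i, ← hw i] at h2
  simp only [Pi.add_apply, Pi.sub_apply, Pi.zero_apply]
  have h3 : (m : ℚ) * ((cdRho b (C.t ^ 8)).mulVec v i + (cdRho b (C.t ^ 7)).mulVec v i - (cdRho b (C.t ^ 5)).mulVec v i
      - (cdRho b (C.t ^ 4)).mulVec v i - (cdRho b (C.t ^ 3)).mulVec v i + (cdRho b C.t).mulVec v i + v i) = 0 := by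
    linear_combination h2
  exact (mul_eq_zero.1 h3).resolve_left hm'

end

theorem endgame (C : Core L B) (hirr : Irr L)
    (hN : ∀ y : AutL L, y * C.t ^ 5 * y⁻¹ ∈ Subgroup.zpowers (C.t ^ 5) → y ∈ Subgroup.zpowers C.t) : False := by
  have hfin := AutL_finite C.hL
  have hft : Fintype (AutL L) := Fintype.ofFinite _
  let b : Module.Basis (Fin (Module.finrank ℤ L)) ℤ L := Module.finBasis ℤ L
  exact (⟨cdRho b, cdS b B, cd_symm b C.hL, fun v hv => cd_pos b C.hL v hv, fun x => cd_inv b C.hL x,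
    fun U hU => cd_irr b hirr U hU, C.g, C.t, 3, g_pow C, t_order C, t_conj C, cd_hr, fix_dim C b,
    fun v hv => cd_phi b C v hv, hN⟩ : Pool.Agent.Helper58.E8Z.CD (Module.finrank ℤ L) (AutL L)).false

end Pool.Agent.Helper73.E8.Ez
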