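import Pool.Agent.Helper58.E8Z.E3
import Pool.Agent.Helper58.E8Z.ToCD

/-!
# Project E8Z: the end of the proof, given (E2)
-/

set_option autoImplicit false

open scoped TensorProduct

namespace Pool.Agent.Helper73.E8.Ez

open Chev
open Pool.Agent.Helper2.E8A (K ζ σ hζ P0)

variable {L : Type} [LieRing L] [Module.Free ℤ L] [Module.Finite ℤ L] {B : LinearMap.BilinForm ℤ L}

/-- (E2): an element which normalises `⟨t^5⟩` acts on the fixed vectors of `t^5` as a power of `t`. -/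
def E2 (C : Core L B) : Prop := ∀ y : AutL L, y * C.t ^ 5 * y⁻¹ ∈ Subgroup.zpowers (C.t ^ 5) →
  ∃ j : ℕ, ∀ x, (C.t ^ 5).1 x = x → y.1 x = (C.t ^ j).1 x

theorem norm_of_e2 (C : Core L B) (h2 : E2 C) (y : AutL L)
    (hy : y * C.t ^ 5 * y⁻¹ ∈ Subgroup.zpowers (C.t ^ 5)) : y ∈ Subgroup.zpowers C.t := by
  obtain ⟨j, hj⟩ := h2 y hy
  have ht : ∀ (n : ℕ) (x : L), C.t.1 x = x → (C.t ^ n).1 x = x := by
    intro n x hx
    rw [pow_apply]
    exact Function.iterate_fixed hx n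
  have h1 : (C.t ^ j)⁻¹ * y ∈ Subgroup.zpowers C.t := by
    refine e3 C _ fun x hx => ?_
    have h3 : y.1 x = x := by
      rw [hj x (ht 5 x hx)]
      exact ht j x hx
    have h4 : ((C.t ^ j)⁻¹ * y).1 x = ((C.t ^ j)⁻¹).1 (y.1 x) := rfl
    have h5 : ((C.t ^ j)⁻¹).1 ((C.t ^ j).1 x) = x := (C.t ^ j).1.symm_apply_apply x
    rw [ht j x hx] at h5
    rw [h4, h3, h5]
  have h2 : y = C.t ^ j * ((C.t ^ j)⁻¹ * y) := by group
  rw [h2]
  exact Subgroup.mul_mem _ (Subgroup.pow_mem _ (Subgroup.mem_zpowers _) _) h1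

theorem false_of_e2 (C : Core L B) (hirr : Irr L) (h2 : E2 C) : False :=
  endgame C hirr (norm_of_e2 C h2)

end Pool.Agent.Helper73.E8.Ez
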