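import Mathlib

/-!
# Enumeration of the short vectors of a positive definite integral quadratic form (kernel-checked)

The form is given in the shape `N * Q(x) = ∑_i d_i (r_i x_i + ∑_{j > i} c_ij x_j)^2` (rows `(d_i, r_i, [c_i,i+1, c_i,i+2, ...])`,
`d_i, r_i > 0`). `enum rows x rem P` runs through all the extensions `y ++ x` of the partial vector `x` (the last coordinates) with
`∑_i d_i (...)^2 ≤ rem` and tests `P` on them.
-/

set_option autoImplicit false

namespace Pool.Agent.Helper58.E8Z.Enum

/-- Scalar product of lists. -/
def dot : List ℤ → List ℤ → ℤ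
  | a :: l, b :: m => a * b + dot l m
  | _, _ => 0

/-- Newton iteration for the square root. -/
def newt : ℕ → ℕ → ℕ → ℕ
  | 0, _, x => x
  | f + 1, n, x => if (x + n / x) / 2 < x then newt f n ((x + n / x) / 2) else x

/-- Square root (rounded down; correctness is checked afterwards). -/
def isq (n : ℕ) : ℕ := newt 100 n (2 ^ (Nat.log2 n / 2 + 1))

/-- The enumeration. The rows are listed from the last to the first. -/
def enum : List (ℤ × ℤ × List ℤ) → List ℤ → ℤ → (List ℤ → Bool) → Bool
  | [], x, _, P => P x
  | (d, r, c) :: rows, x, rem, P =>
    let t := dot c x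
    let q := rem / d
    let s : ℤ := isq q.toNat
    let lo := -((s + t) / r)
    let hi := (s - t) / r
    decide (0 < d) && decide (0 < r) && decide (q < (s + 1) * (s + 1)) &&
      (List.range (hi - lo + 1).toNat).all fun m =>
        enum rows ((lo + m) :: x) (rem - d * ((r * (lo + m) + t) * (r * (lo + m) + t))) P

/-- The value of the rows at `y ++ x`, where the rows are listed from the last to the first and `y` is listed from the last
coordinate to the first. -/
def val : List (ℤ × ℤ × List ℤ) → List ℤ → List ℤ → ℤ
  | (d, r, c) :: rows, k :: y, x => d * ((r * k + dot c x) * (r * k + dot c x)) + val rows y (k :: x)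
  | _, _, _ => 0

theorem val_nonneg (rows : List (ℤ × ℤ × List ℤ)) (h : ∀ p ∈ rows, 0 < p.1) (y x : List ℤ) : 0 ≤ val rows y x := by
  induction rows generalizing y x with
  | nil => simp [val]
  | cons p rows ih =>
    obtain ⟨d, r, c⟩ := p
    cases y with
    | nil => simp [val]
    | cons k y =>
      have h1 := ih (fun p hp => h p (List.mem_cons_of_mem _ hp)) y (k :: x)
      have h2 : 0 < d := h _ List.mem_cons_self
      have h3 := mul_self_nonneg (r * k + dot c x)
      simp only [val]
      positivity

theorem enum_spec (rows : List (ℤ × ℤ × List ℤ)) (hpos : ∀ p ∈ rows, 0 < p.1) (x : List ℤ) (rem : ℤ) (P : List ℤ → Bool)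
    (h : enum rows x rem P = true) (y : List ℤ) (hy : y.length = rows.length) (hv : val rows y x ≤ rem) :
    P (y.reverse ++ x) = true := by
  induction rows generalizing x rem y with
  | nil =>
    have : y = [] := List.length_eq_zero_iff.1 hy
    subst this
    simpa [enum] using h
  | cons p rows ih =>
    obtain ⟨d, r, c⟩ := p
    cases y with
    | nil => simp at hy
    | cons k y =>
      simp only [enum, Bool.and_eq_true, decide_eq_true_eq, List.all_eq_true, List.mem_range] at h
      obtain ⟨⟨⟨hd, hr⟩, hs⟩, hall⟩ := h
      simp only [val] at hv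
      have hpos' : ∀ p ∈ rows, 0 < p.1 := fun p hp => hpos p (List.mem_cons_of_mem _ hp)
      have hn := val_nonneg rows hpos' y (k :: x)
      set t := dot c x with ht
      set q := rem / d with hq
      set s : ℤ := (isq q.toNat : ℤ) with hsd
      have hs0 : 0 ≤ s := by positivity
      -- the square is at most q
      have h1 : (r * k + t) * (r * k + t) ≤ q := by
        rw [hq, Int.le_ediv_iff_mul_le hd]
        nlinarith
      have h2 : (r * k + t) * (r * k + t) < (s + 1) * (s + 1) := lt_of_le_of_lt h1 hs
      have h3 : r * k + t ≤ s := by
        by_contra hc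
        push Not at hc
        have : s + 1 ≤ r * k + t := hc
        nlinarith
      have h4 : -s ≤ r * k + t := by
        by_contra hc
        push Not at hc
        have : s + 1 ≤ -(r * k + t) := by omega
        nlinarith
      have h5 : k ≤ (s - t) / r := by
        rw [Int.le_ediv_iff_mul_le hr]
        nlinarith
      have h6 : -((s + t) / r) ≤ k := by
        have : -k ≤ (s + t) / r := by
          rw [Int.le_ediv_iff_mul_le hr]
          nlinarith
        omega
      obtain ⟨m, hm⟩ := Int.eq_ofNat_of_zero_le (sub_nonneg.2 h6)
      have hk : k = -((s + t) / r) + m := by omega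
      have hm2 : m < ((s - t) / r - -((s + t) / r) + 1).toNat := by omega
      have h7 := hall m hm2
      rw [← hk] at h7
      have h8 := ih hpos' (k :: x) (rem - d * ((r * k + t) * (r * k + t))) h7 y (by simpa using hy) (by linarith)
      simpa using h8

end Pool.Agent.Helper58.E8Z.Enum
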