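import Mathlib

/-!
# Project E8Z (MP_90bd9d_al), endgame (E3): abstract filtrations with leading terms (definitions)

In the application `M` is the integral form `L`, `G m` is the set of the `x` whose coordinates in the Chevalley algebra over
`Q(zeta_31)` have valuation `≥ m` at the prime above 31 (uniformiser `1 - zeta`, so that `31` has valuation 30) and `lt m x` is
the leading coefficient, an element of the Chevalley algebra over the residue field `ZMod 31`.
-/

set_option autoImplicit false

namespace Pool.Agent.Helper58.E8Z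

/-- A decreasing filtration with leading terms in a vector space over `ZMod 31`. -/
structure Fil (M E : Type) [AddCommGroup M] [AddCommGroup E] [Module (ZMod 31) E] where
  /-- the filtration -/
  G : ℤ → AddSubgroup M
  /-- the leading term in degree `m` (only meaningful on `G m`) -/
  lt : ℤ → M → E
  anti : ∀ m, G (m + 1) ≤ G m
  lt_add : ∀ m, ∀ x ∈ G m, ∀ y ∈ G m, lt m (x + y) = lt m x + lt m y
  lt_zero : ∀ m, ∀ x ∈ G m, lt m x = 0 ↔ x ∈ G (m + 1)
  low : ∀ x, x ∈ G (-29)
  sep : ∀ x, (∀ m, x ∈ G m) → x = 0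
  mul31 : ∀ m, ∀ x ∈ G m, (31 : ℤ) • x ∈ G (m + 30) ∧ lt (m + 30) ((31 : ℤ) • x) = -lt m x
  div31 : ∀ m, 0 ≤ m → ∀ x ∈ G (m + 30), ∃ x' ∈ G m, x = (31 : ℤ) • x'

end Pool.Agent.Helper58.E8Z
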