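import Pool.Agent.Helper64.E8C.Num

/-!
# Project E8Z, (E3): eigenvectors of `ad (hb 0)` (`ad (hb 4)` for `v = 12, 14, 16, 18`) on `E_v` (kernel computations)
-/

set_option autoImplicit false

namespace Pool.Agent.Helper58.E8Z

open Pool.Agent.Helper64.E8C

/-- Eigenvalues. -/
def lmuT : List (List ℕ) := [[], [4, 9, 14, 17, 19, 21, 22, 23, 26], [5, 6, 8, 9, 14, 18, 25, 28], [1, 4, 6, 13, 18, 22, 23, 28], [8, 13, 14, 15,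
  20, 22, 23, 27], [0, 1, 5, 9, 10, 11, 17, 29], [1, 5, 9, 14, 19, 20, 24, 28], [5, 6, 7, 10, 18, 19, 23, 26, 28], [2,
  11, 14, 18, 22, 23, 27, 29], [0, 1, 2, 6, 13, 15, 24, 25], [1, 10, 16, 19, 23, 27, 28, 29], [2, 9, 10, 14, 15, 18,
  19, 20, 30], [3, 7, 11, 12, 17, 22, 26, 30], [2, 7, 15, 16, 20, 23, 24, 27, 29], [2, 11, 14, 18, 22, 23, 27, 29],
  [1, 2, 7, 10, 21, 24, 29, 30], [2, 4, 8, 9, 13, 17, 20, 29], [2, 4, 7, 8, 11, 15, 16, 24, 29], [1, 5, 9, 14, 19, 20,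
  24, 28], [1, 11, 12, 13, 16, 17, 21, 22, 29], [2, 3, 4, 8, 12, 15, 21, 30], [0, 6, 7, 16, 18, 25, 29, 30], [2, 4, 8,
  9, 13, 17, 20, 29], [3, 5, 8, 12, 13, 21, 24, 25, 26], [3, 7, 11, 12, 17, 22, 26, 30], [0, 2, 14, 20, 21, 22, 26,
  30], [4, 8, 9, 11, 16, 17, 18, 23], [3, 8, 9, 13, 18, 25, 27, 30], [3, 6, 13, 17, 22, 23, 25, 26], [5, 8, 9, 10, 12,
  14, 17, 22, 27]]

/-- Eigenvectors. -/
def levT : List (List (List ℕ)) := [[], [[18, 7, 6, 6, 10, 28, 30, 9, 1], [25, 14, 25, 14, 17, 6, 6, 14, 1], [1, 6, 5, 23, 26, 13, 9, 19, 1], [30, 9, 29,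
  3, 11, 24, 17, 29, 1], [8, 25, 6, 1, 21, 16, 18, 3, 1], [17, 23, 19, 22, 19, 5, 27, 15, 1], [6, 28, 10, 19, 6, 20,
  26, 16, 1], [26, 22, 3, 14, 16, 11, 12, 28, 1], [24, 24, 7, 24, 24, 7, 24, 7, 1]], [[20, 28, 13, 21, 8, 29, 24, 1,
  0], [8, 12, 10, 23, 9, 19, 15, 1, 0], [16, 11, 1, 14, 10, 19, 7, 1, 0], [22, 26, 21, 14, 6, 28, 26, 1, 0], [14, 8,
  12, 15, 4, 18, 21, 1, 0], [21, 6, 13, 8, 27, 28, 23, 1, 0], [2, 18, 11, 11, 8, 10, 24, 1, 0], [4, 1, 4, 1, 30, 27,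
  27, 1, 0]], [[18, 17, 29, 7, 16, 27, 28, 1, 0], [8, 25, 1, 21, 19, 13, 21, 1, 0], [20, 20, 8, 18, 13, 7, 4, 1, 0],
  [2, 18, 11, 11, 8, 10, 24, 1, 0], [28, 21, 22, 7, 11, 13, 27, 1, 0], [16, 11, 1, 14, 10, 19, 7, 1, 0], [13, 24, 3,
  11, 19, 14, 27, 1, 0], [7, 27, 5, 6, 30, 12, 23, 1, 0]], [[26, 17, 14, 29, 18, 9, 19, 1, 0], [9, 12, 8, 20, 7, 4,
  19, 1, 0], [16, 11, 1, 14, 10, 19, 7, 1, 0], [29, 10, 14, 6, 5, 23, 28, 1, 0], [22, 5, 11, 10, 27, 16, 4, 1, 0],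
  [21, 3, 25, 2, 3, 26, 11, 1, 0], [23, 2, 22, 3, 22, 21, 29, 1, 0], [29, 29, 25, 8, 12, 30, 30, 1, 0]], [[16, 20, 5,
  6, 19, 12, 3, 1, 0], [16, 19, 12, 5, 27, 30, 18, 1, 0], [21, 15, 23, 21, 4, 6, 7, 1, 0], [16, 11, 1, 14, 10, 19, 7,
  1, 0], [21, 10, 15, 28, 8, 4, 30, 1, 0], [21, 9, 16, 15, 23, 16, 5, 1, 0], [21, 3, 25, 2, 3, 26, 11, 1, 0], [16, 22,
  17, 11, 15, 7, 21, 1, 0]], [[27, 24, 27, 5, 14, 21, 21, 1, 0], [1, 6, 1, 18, 6, 27, 2, 1, 0], [28, 19, 21, 15, 19,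
  21, 25, 1, 0], [19, 12, 9, 16, 19, 22, 24, 1, 0], [6, 5, 7, 28, 5, 6, 12, 1, 0], [7, 16, 8, 17, 6, 3, 16, 1, 0],
  [18, 29, 30, 26, 5, 18, 16, 1, 0], [16, 11, 1, 14, 10, 19, 7, 1, 0]], [[21, 16, 14, 20, 15, 29, 20, 25, 1], [19, 3,
  29, 14, 7, 21, 6, 12, 1], [17, 19, 10, 23, 5, 1, 5, 6, 1], [11, 29, 11, 30, 9, 22, 1, 2, 1], [26, 2, 12, 24, 23, 8,
  11, 26, 1], [24, 17, 26, 1, 20, 16, 13, 24, 1], [16, 21, 10, 6, 10, 2, 30, 28, 1], [10, 5, 22, 4, 25, 25, 18, 25,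
  1], [6, 12, 18, 25, 1, 10, 10, 21, 1]], [[16, 7, 22, 4, 1, 14, 20, 1, 0], [23, 21, 6, 20, 4, 3, 26, 1, 0], [26, 5,
  11, 3, 19, 26, 1, 1, 0], [19, 25, 17, 20, 1, 1, 28, 1, 0], [2, 14, 28, 1, 22, 13, 29, 1, 0], [21, 19, 4, 29, 20, 15,
  14, 1, 0], [30, 8, 5, 27, 29, 25, 16, 1, 0], [13, 18, 19, 17, 5, 11, 14, 1, 0]], [[2, 14, 28, 1, 22, 13, 29, 1, 0],
  [6, 2, 11, 5, 10, 8, 17, 1, 0], [4, 21, 24, 27, 14, 27, 6, 1, 0], [26, 4, 28, 24, 24, 8, 5, 1, 0], [23, 13, 26, 27,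
  3, 6, 29, 1, 0], [5, 20, 20, 6, 15, 1, 11, 1, 0], [28, 5, 21, 20, 14, 14, 25, 1, 0], [25, 24, 2, 1, 26, 12, 1, 1,
  0]], [[3, 18, 8, 30, 16, 14, 3, 1, 0], [3, 16, 15, 13, 30, 9, 23, 1, 0], [2, 25, 30, 28, 28, 21, 6, 1, 0], [2, 14,
  28, 1, 22, 13, 29, 1, 0], [3, 20, 29, 1, 27, 19, 28, 1, 0], [2, 26, 4, 10, 12, 2, 11, 1, 0], [2, 12, 7, 30, 21, 20,
  2, 1, 0], [3, 29, 18, 12, 5, 26, 26, 1, 0]], [[5, 19, 17, 28, 25, 7, 24, 22, 1], [7, 14, 23, 20, 17, 8, 3, 18, 1],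
  [25, 28, 2, 9, 28, 2, 7, 26, 1], [4, 24, 12, 3, 15, 4, 6, 1, 1], [22, 10, 25, 10, 12, 19, 4, 25, 1], [14, 9, 8, 12,
  18, 11, 27, 10, 1], [1, 11, 30, 8, 14, 29, 10, 20, 1], [19, 30, 14, 18, 13, 30, 11, 26, 1], [13, 20, 26, 13, 19, 29,
  1, 24, 1]], [[12, 2, 10, 11, 18, 30, 7, 1, 0], [24, 25, 14, 28, 2, 16, 8, 1, 0], [26, 26, 22, 20, 15, 27, 8, 1, 0],
  [6, 2, 11, 1, 2, 4, 24, 1, 0], [9, 18, 3, 8, 13, 28, 26, 1, 0], [26, 13, 12, 23, 13, 12, 11, 1, 0], [14, 15, 30, 2,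
  15, 5, 25, 1, 0], [10, 1, 12, 3, 7, 4, 13, 1, 0]], [[24, 15, 6, 2, 6, 21, 1, 18, 1], [22, 23, 24, 23, 22, 20, 11,
  15, 1], [25, 19, 7, 15, 2, 28, 28, 19, 1], [6, 25, 3, 28, 8, 24, 14, 29, 1], [23, 13, 4, 1, 12, 27, 15, 4, 1], [28,
  24, 27, 25, 17, 5, 8, 16, 1], [9, 30, 16, 26, 23, 22, 25, 13, 1], [14, 27, 12, 16, 14, 20, 2, 11, 1], [7, 11, 21,
  15, 20, 13, 3, 10, 1]], [[14, 16, 1, 2, 16, 26, 25, 1, 0], [10, 2, 15, 11, 4, 28, 12, 1, 0], [3, 30, 22, 22, 14, 26,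
  3, 1, 0], [18, 16, 14, 16, 18, 22, 9, 1, 0], [23, 4, 13, 19, 26, 7, 20, 1, 0], [21, 15, 3, 18, 1, 23, 12, 1, 0], [4,
  28, 8, 29, 23, 9, 3, 1, 0], [12, 12, 21, 25, 25, 11, 21, 1, 0]], [[18, 16, 14, 16, 18, 22, 9, 1, 0], [12, 1, 24, 26,
  2, 19, 2, 1, 0], [12, 19, 10, 25, 6, 20, 21, 1, 0], [18, 5, 13, 29, 30, 3, 26, 1, 0], [18, 26, 18, 29, 1, 28, 26, 1,
  0], [12, 12, 21, 25, 25, 11, 21, 1, 0], [12, 30, 7, 26, 29, 12, 2, 1, 0], [18, 15, 17, 16, 13, 9, 9, 1, 0]], [[11,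
  12, 15, 14, 1, 26, 15, 1, 0], [14, 28, 19, 15, 22, 10, 11, 1, 0], [27, 15, 11, 20, 5, 29, 13, 1, 0], [3, 4, 27, 28,
  6, 25, 1, 1, 0], [1, 16, 10, 4, 28, 21, 2, 1, 0], [26, 30, 29, 21, 8, 22, 11, 1, 0], [4, 2, 24, 26, 20, 7, 13, 1,
  0], [18, 16, 14, 16, 18, 22, 9, 1, 0]], [[24, 30, 26, 14, 25, 23, 14, 15, 1], [17, 6, 6, 17, 2, 2, 30, 1, 1], [22,
  17, 8, 16, 21, 27, 3, 4, 1], [3, 26, 29, 13, 29, 16, 27, 24, 1], [8, 27, 2, 3, 15, 12, 8, 6, 1], [25, 9, 17, 22, 10,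
  21, 24, 28, 1], [6, 18, 19, 14, 18, 9, 17, 13, 1], [9, 12, 12, 7, 12, 2, 10, 7, 1], [7, 24, 3, 6, 23, 30, 15, 27,
  1]], [[18, 1, 6, 17, 7, 2, 22, 1, 0], [19, 15, 15, 1, 15, 18, 28, 1, 0], [22, 13, 6, 27, 13, 6, 21, 1, 0], [10, 18,
  17, 4, 13, 14, 13, 1, 0], [17, 2, 21, 16, 2, 2, 12, 1, 0], [22, 26, 11, 10, 15, 29, 4, 1, 0], [6, 25, 7, 14, 2, 8,
  4, 1, 0], [3, 2, 5, 21, 18, 15, 19, 1, 0]], [[18, 14, 22, 7, 20, 13, 23, 8, 1], [12, 21, 19, 24, 30, 22, 5, 19, 1],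
  [30, 17, 23, 21, 18, 13, 13, 17, 1], [17, 28, 2, 16, 1, 6, 1, 24, 1], [9, 7, 14, 3, 11, 16, 30, 29, 1], [27, 23, 3,
  4, 6, 5, 14, 21, 1], [6, 1, 16, 12, 5, 18, 6, 19, 1], [24, 16, 29, 6, 13, 10, 7, 6, 1], [26, 4, 12, 27, 10, 1, 25,
  28, 1]], [[15, 29, 28, 12, 1, 26, 6, 1, 0], [10, 12, 4, 30, 29, 20, 10, 1, 0], [10, 26, 20, 10, 21, 2, 24, 1, 0],
  [15, 20, 21, 1, 24, 19, 16, 1, 0], [10, 14, 16, 1, 23, 13, 21, 1, 0], [10, 25, 26, 28, 18, 21, 30, 1, 0], [15, 16,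
  13, 13, 6, 9, 22, 1, 0], [15, 18, 9, 30, 28, 14, 15, 1, 0]], [[4, 17, 24, 8, 9, 20, 15, 1, 0], [19, 7, 15, 8, 5, 28,
  8, 1, 0], [25, 26, 18, 5, 17, 12, 14, 1, 0], [10, 11, 26, 17, 16, 23, 26, 1, 0], [15, 18, 9, 30, 28, 14, 15, 1, 0],
  [21, 27, 24, 6, 7, 29, 9, 1, 0], [8, 10, 25, 30, 17, 1, 17, 1, 0], [12, 29, 5, 9, 21, 29, 12, 1, 0]], [[29, 18, 20,
  3, 25, 22, 18, 1, 0], [24, 8, 2, 23, 21, 19, 25, 1, 0], [23, 19, 14, 27, 7, 30, 18, 1, 0], [14, 14, 5, 2, 17, 26,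
  24, 1, 0], [9, 25, 13, 9, 5, 2, 5, 1, 0], [27, 5, 23, 6, 2, 21, 19, 1, 0], [6, 21, 21, 9, 20, 6, 29, 1, 0], [19, 7,
  15, 8, 5, 28, 8, 1, 0]], [[25, 22, 5, 21, 20, 4, 11, 8, 1], [21, 4, 13, 17, 4, 10, 26, 11, 1], [15, 23, 20, 10, 14,
  7, 2, 21, 1], [7, 26, 21, 12, 28, 25, 5, 18, 1], [5, 14, 24, 9, 26, 28, 9, 4, 1], [20, 17, 22, 19, 25, 15, 29, 17,
  1], [14, 9, 20, 28, 7, 19, 21, 20, 1], [12, 21, 27, 13, 16, 27, 19, 9, 1], [10, 19, 28, 23, 21, 24, 22, 11, 1]],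
  [[8, 11, 4, 25, 10, 14, 28, 1, 0], [9, 29, 27, 11, 5, 10, 2, 1, 0], [19, 16, 1, 6, 6, 12, 2, 1, 0], [3, 5, 28, 19,
  5, 24, 17, 1, 0], [25, 12, 5, 2, 19, 26, 3, 1, 0], [14, 19, 22, 29, 19, 22, 7, 1, 0], [16, 6, 4, 10, 6, 15, 8, 1,
  0], [29, 24, 15, 20, 14, 22, 22, 1, 0]], [[28, 11, 30, 6, 29, 19, 13, 1, 0], [28, 9, 9, 11, 18, 24, 29, 1, 0], [29,
  28, 26, 2, 16, 5, 27, 1, 0], [29, 22, 3, 15, 9, 15, 1, 1, 0], [29, 21, 28, 28, 22, 27, 6, 1, 0], [28, 20, 6, 14, 12,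
  12, 20, 1, 0], [29, 16, 14, 21, 11, 25, 20, 1, 0], [28, 12, 10, 5, 20, 1, 16, 1, 0]], [[11, 29, 8, 2, 21, 23, 22, 1,
  0], [13, 2, 12, 24, 23, 13, 13, 1, 0], [24, 3, 8, 16, 13, 22, 6, 1, 0], [3, 5, 6, 18, 24, 4, 5, 1, 0], [11, 10, 2,
  17, 1, 29, 4, 1, 0], [5, 11, 9, 19, 2, 28, 1, 1, 0], [28, 12, 10, 5, 20, 1, 16, 1, 0], [12, 17, 2, 15, 16, 10, 16,
  1, 0]], [[28, 4, 21, 12, 1, 7, 15, 1, 0], [21, 7, 25, 22, 12, 3, 23, 1, 0], [2, 20, 29, 28, 21, 24, 14, 1, 0], [19,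
  10, 18, 14, 20, 5, 23, 1, 0], [8, 13, 9, 22, 23, 11, 17, 1, 0], [18, 11, 15, 5, 18, 17, 8, 1, 0], [1, 6, 29, 11, 12,
  5, 11, 1, 0], [10, 14, 4, 14, 15, 8, 25, 1, 0]], [[25, 1, 19, 16, 26, 29, 12, 1, 0], [28, 18, 29, 21, 9, 5, 21, 1,
  0], [15, 6, 23, 4, 11, 14, 24, 1, 0], [10, 8, 26, 23, 20, 9, 30, 1, 0], [29, 26, 30, 7, 30, 14, 15, 1, 0], [7, 11,
  28, 7, 19, 25, 10, 1, 0], [19, 12, 1, 27, 14, 25, 17, 1, 0], [1, 28, 23, 26, 9, 30, 21, 1, 0]], [[7, 22, 25, 5, 23,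
  5, 25, 22, 1], [5, 15, 24, 21, 5, 30, 28, 26, 1], [25, 5, 18, 13, 29, 1, 9, 6, 1], [14, 3, 28, 2, 4, 8, 1, 25, 1],
  [23, 10, 17, 17, 24, 7, 11, 5, 1], [1, 16, 15, 20, 17, 26, 19, 7, 1], [30, 21, 9, 19, 12, 27, 21, 11, 1], [6, 18,
  14, 21, 15, 22, 14, 13, 1], [13, 9, 17, 9, 7, 20, 8, 15, 1]]]

/-- The unit vectors as combinations of the eigenvectors. -/
def leiT : List (List (List ℕ)) := [[], [[8, 27, 11, 17, 21, 22, 13, 30, 6], [27, 19, 17, 24, 28, 18, 15, 28, 10], [20, 1, 25, 7, 29, 13, 23, 20, 17],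
  [27, 17, 8, 30, 29, 12, 8, 2, 22], [21, 21, 23, 10, 30, 24, 25, 30, 2], [29, 6, 13, 8, 1, 17, 3, 25, 22], [24, 1,
  17, 13, 6, 6, 27, 13, 17], [14, 12, 3, 26, 14, 26, 18, 1, 10], [29, 28, 28, 30, 25, 27, 29, 27, 26]], [[23, 23, 10,
  1, 26, 23, 4, 14], [24, 8, 29, 18, 27, 3, 7, 8], [2, 11, 9, 16, 18, 27, 13, 28], [9, 18, 10, 12, 4, 2, 3, 4], [21,
  30, 5, 16, 21, 21, 19, 22], [8, 27, 18, 24, 11, 7, 14, 15], [18, 1, 1, 8, 16, 12, 3, 3], [23, 11, 28, 15, 15, 16, 9,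
  8]], [[23, 12, 22, 30, 28, 26, 3, 11], [26, 10, 10, 10, 18, 12, 1, 6], [3, 7, 8, 26, 20, 5, 8, 16], [26, 8, 13, 5,
  19, 23, 12, 18], [19, 20, 22, 1, 5, 25, 15, 17], [6, 29, 7, 18, 9, 2, 27, 26], [11, 8, 27, 25, 29, 27, 21, 7], [24,
  12, 15, 27, 8, 13, 9, 17]], [[18, 14, 29, 11, 6, 23, 9, 14], [10, 6, 8, 10, 10, 30, 30, 20], [3, 5, 15, 2, 12, 18,
  25, 13], [7, 18, 11, 17, 5, 5, 19, 11], [24, 10, 24, 1, 17, 6, 4, 7], [15, 16, 26, 29, 8, 3, 9, 18], [24, 8, 12, 4,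
  10, 29, 9, 28], [17, 16, 12, 1, 2, 10, 15, 21]], [[3, 15, 21, 13, 23, 22, 21, 6], [20, 2, 18, 27, 22, 6, 16, 13],
  [1, 12, 8, 5, 19, 29, 6, 13], [25, 6, 12, 22, 19, 21, 10, 9], [2, 24, 24, 10, 26, 25, 18, 26], [12, 26, 1, 10, 15,
  21, 25, 14], [18, 13, 7, 27, 24, 20, 11, 4], [30, 26, 5, 6, 4, 20, 5, 29]], [[17, 22, 1, 2, 14, 24, 24, 20], [13,
  16, 8, 27, 13, 30, 5, 12], [12, 21, 6, 19, 17, 29, 10, 10], [16, 6, 22, 20, 6, 19, 19, 16], [5, 16, 8, 4, 13, 19, 3,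
  25], [30, 9, 6, 12, 19, 7, 6, 4], [30, 11, 16, 30, 7, 27, 26, 8], [7, 13, 20, 10, 15, 29, 13, 18]], [[30, 24, 21,
  10, 23, 2, 30, 21, 25], [26, 11, 29, 24, 21, 3, 15, 4, 22], [22, 23, 30, 11, 5, 6, 9, 13, 5], [7, 26, 11, 25, 29,
  30, 20, 17, 21], [1, 1, 26, 28, 8, 8, 28, 4, 20], [10, 23, 13, 23, 11, 16, 14, 10, 4], [4, 7, 16, 30, 29, 28, 4, 26,
  11], [2, 18, 30, 24, 6, 14, 11, 11, 8], [25, 27, 28, 30, 28, 26, 27, 29, 29]], [[25, 3, 19, 24, 25, 16, 16, 27],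
  [19, 26, 15, 15, 25, 24, 26, 5], [23, 26, 7, 14, 20, 3, 22, 9], [4, 20, 18, 24, 8, 8, 5, 6], [18, 10, 6, 3, 6, 17,
  14, 19], [14, 3, 1, 26, 11, 2, 23, 13], [4, 30, 26, 3, 3, 26, 27, 5], [16, 16, 3, 13, 4, 29, 11, 2]], [[3, 22, 14,
  12, 28, 20, 16, 9], [5, 17, 2, 11, 15, 22, 3, 18], [18, 4, 5, 27, 23, 21, 14, 12], [6, 1, 6, 30, 25, 3, 28, 25],
  [30, 23, 22, 4, 13, 1, 27, 4], [15, 17, 25, 21, 22, 15, 30, 10], [19, 22, 22, 14, 28, 21, 4, 25], [24, 7, 25, 5, 6,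
  2, 18, 7]], [[30, 11, 4, 7, 23, 5, 14, 30], [5, 20, 10, 16, 10, 13, 23, 27], [18, 24, 29, 5, 26, 10, 18, 25], [29,
  24, 5, 10, 16, 5, 11, 24], [25, 23, 1, 13, 12, 26, 22, 2], [28, 19, 27, 6, 25, 1, 28, 21], [30, 12, 12, 24, 8, 12,
  14, 12], [2, 9, 19, 10, 16, 16, 20, 2]], [[4, 14, 30, 25, 14, 18, 7, 18, 25], [3, 30, 5, 19, 4, 26, 5, 16, 16], [9,
  4, 18, 20, 8, 24, 25, 13, 3], [28, 19, 29, 6, 15, 6, 8, 5, 8], [23, 5, 25, 9, 24, 12, 29, 14, 14], [24, 11, 28, 23,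
  18, 10, 2, 2, 6], [11, 17, 30, 21, 26, 12, 2, 23, 13], [21, 19, 2, 16, 21, 9, 5, 13, 18], [29, 26, 28, 27, 28, 30,
  29, 27, 25]], [[11, 28, 28, 16, 5, 13, 29, 25], [28, 3, 19, 11, 9, 26, 18, 10], [8, 12, 14, 7, 24, 12, 18, 29], [15,
  24, 24, 26, 2, 23, 26, 15], [4, 30, 5, 11, 22, 26, 18, 8], [24, 27, 20, 11, 7, 12, 3, 20], [18, 29, 22, 4, 22, 11,
  15, 3], [14, 15, 21, 21, 16, 2, 26, 10]], [[10, 28, 28, 17, 18, 15, 24, 19, 27], [21, 27, 22, 21, 22, 6, 27, 14,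
  26], [22, 27, 6, 19, 20, 21, 20, 14, 6], [13, 8, 24, 10, 30, 3, 9, 19, 8], [24, 27, 22, 13, 26, 21, 6, 15, 1], [3,
  20, 11, 18, 27, 18, 21, 15, 22], [17, 7, 7, 25, 18, 11, 23, 8, 8], [12, 8, 9, 24, 29, 27, 10, 23, 13], [26, 27, 25,
  28, 27, 29, 30, 28, 29]], [[25, 5, 25, 26, 26, 4, 21, 23], [5, 18, 5, 13, 14, 16, 11, 11], [16, 30, 10, 12, 17, 20,
  13, 6], [5, 17, 19, 11, 5, 11, 7, 18], [25, 25, 22, 15, 21, 26, 2, 19], [3, 1, 14, 19, 10, 2, 15, 29], [28, 24, 7,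
  21, 19, 18, 1, 6], [10, 9, 26, 26, 19, 30, 17, 19]], [[29, 15, 3, 15, 15, 3, 15, 29], [19, 22, 3, 1, 30, 28, 9, 12],
  [5, 1, 13, 15, 16, 18, 30, 26], [12, 17, 14, 19, 19, 14, 17, 12], [2, 13, 14, 6, 25, 17, 18, 29], [30, 15, 26, 13,
  18, 5, 16, 1], [30, 18, 13, 1, 1, 13, 18, 30], [24, 9, 8, 6, 6, 8, 9, 24]], [[11, 6, 10, 3, 3, 16, 28, 16], [11, 11,
  16, 14, 13, 5, 18, 5], [27, 12, 28, 30, 23, 14, 11, 10], [10, 28, 13, 20, 13, 14, 6, 20], [10, 19, 30, 29, 3, 23, 5,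
  5], [23, 29, 8, 9, 14, 25, 4, 12], [27, 20, 19, 8, 17, 16, 15, 2], [19, 17, 30, 19, 26, 26, 9, 10]], [[4, 12, 7, 16,
  13, 14, 3, 3, 21], [24, 1, 13, 27, 6, 17, 6, 13, 17], [12, 28, 9, 11, 9, 7, 12, 23, 13], [13, 27, 3, 1, 10, 24, 8,
  13, 25], [7, 12, 11, 23, 27, 29, 30, 3, 13], [3, 26, 24, 25, 22, 25, 17, 14, 30], [15, 15, 16, 9, 26, 12, 17, 17,
  28], [19, 5, 17, 18, 9, 16, 6, 26, 8], [29, 28, 30, 29, 27, 28, 25, 27, 26]], [[7, 23, 21, 20, 2, 19, 19, 13], [10,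
  18, 26, 9, 11, 19, 3, 28], [27, 5, 24, 17, 14, 28, 24, 16], [30, 21, 15, 4, 21, 17, 17, 30], [8, 18, 26, 22, 11, 5,
  30, 4], [9, 6, 24, 14, 22, 9, 23, 17], [6, 30, 22, 13, 8, 13, 27, 5], [10, 26, 2, 16, 21, 21, 15, 14]], [[6, 13, 24,
  13, 17, 6, 1, 17, 27], [14, 14, 16, 15, 19, 5, 16, 3, 22], [12, 21, 7, 3, 1, 18, 10, 16, 5], [6, 27, 6, 20, 19, 20,
  14, 22, 21], [4, 4, 26, 30, 29, 7, 16, 28, 11], [11, 14, 14, 8, 2, 6, 10, 15, 13], [10, 1, 23, 14, 20, 9, 4, 25,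
  18], [23, 8, 15, 27, 1, 17, 6, 26, 1], [25, 27, 29, 30, 28, 27, 28, 26, 29]], [[6, 9, 1, 17, 20, 7, 27, 6], [27, 23,
  13, 10, 16, 10, 20, 5], [5, 16, 2, 30, 1, 12, 11, 16], [24, 11, 5, 16, 10, 5, 24, 29], [10, 17, 6, 29, 3, 5, 22, 1],
  [21, 28, 1, 25, 6, 27, 19, 28], [21, 9, 21, 14, 11, 21, 21, 6], [2, 20, 16, 16, 10, 19, 9, 2]], [[17, 20, 8, 10, 14,
  6, 7, 11], [26, 13, 28, 9, 16, 20, 29, 14], [21, 14, 6, 9, 1, 16, 11, 15], [24, 7, 19, 12, 7, 27, 24, 4], [1, 27, 4,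
  30, 18, 27, 9, 8], [2, 22, 4, 2, 5, 9, 24, 25], [14, 7, 16, 22, 19, 25, 26, 26], [24, 7, 18, 2, 6, 5, 25, 7]], [[26,
  20, 20, 8, 30, 16, 27, 8], [5, 26, 24, 25, 15, 15, 26, 19], [7, 24, 23, 19, 4, 2, 3, 11], [3, 18, 4, 4, 12, 9, 10,
  2], [10, 9, 22, 26, 13, 26, 2, 16], [22, 27, 1, 21, 13, 16, 17, 7], [28, 21, 3, 23, 23, 3, 13, 10], [2, 11, 29, 4,
  13, 3, 16, 16]], [[6, 10, 1, 29, 8, 21, 10, 7, 1], [12, 5, 11, 27, 3, 30, 13, 6, 17], [18, 22, 20, 3, 18, 21, 15,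
  27, 11], [25, 4, 12, 18, 5, 15, 19, 28, 29], [1, 25, 20, 19, 19, 20, 23, 14, 14], [10, 25, 4, 9, 12, 11, 17, 11,
  25], [10, 18, 29, 17, 1, 16, 23, 12, 29], [21, 25, 25, 29, 8, 1, 9, 24, 13], [29, 29, 27, 26, 28, 30, 28, 27, 25]],
  [[9, 17, 17, 28, 4, 2, 13, 3], [12, 5, 30, 13, 27, 8, 16, 13], [18, 18, 15, 12, 28, 17, 13, 3], [4, 28, 28, 17, 5,
  21, 17, 4], [25, 3, 19, 13, 4, 8, 16, 5], [1, 17, 25, 28, 3, 17, 10, 23], [2, 22, 30, 25, 23, 4, 26, 23], [18, 13,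
  29, 15, 10, 20, 13, 7]], [[15, 30, 12, 17, 22, 3, 12, 13], [11, 18, 15, 25, 9, 4, 13, 29], [26, 28, 1, 10, 29, 6,
  22, 2], [25, 9, 10, 21, 19, 22, 12, 6], [12, 1, 15, 26, 1, 29, 20, 20], [19, 17, 6, 10, 16, 21, 30, 5], [28, 20, 24,
  7, 27, 11, 4, 3], [30, 29, 5, 20, 4, 6, 5, 26]], [[20, 4, 24, 13, 29, 6, 20, 8], [20, 30, 30, 10, 10, 8, 6, 10],
  [29, 20, 2, 22, 14, 12, 4, 21], [13, 14, 20, 20, 6, 13, 10, 28], [4, 20, 30, 23, 5, 27, 19, 27], [10, 5, 12, 1, 23,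
  11, 2, 29], [10, 1, 17, 8, 28, 22, 25, 13], [21, 15, 10, 2, 1, 12, 16, 17]], [[26, 24, 22, 7, 23, 21, 3, 29], [25,
  30, 19, 13, 21, 21, 21, 5], [23, 27, 13, 21, 18, 27, 12, 14], [9, 6, 27, 25, 18, 22, 4, 13], [14, 16, 6, 26, 30, 9,
  11, 12], [18, 2, 30, 11, 22, 12, 1, 28], [19, 26, 29, 30, 28, 29, 4, 21], [17, 9, 13, 8, 27, 15, 12, 24]], [[1, 18,
  26, 24, 20, 14, 26, 26], [8, 7, 3, 27, 18, 29, 8, 24], [1, 6, 22, 25, 5, 28, 17, 20], [8, 6, 4, 8, 24, 20, 5, 18],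
  [23, 10, 29, 29, 28, 1, 6, 29], [30, 28, 14, 22, 17, 5, 23, 16], [30, 30, 27, 5, 18, 10, 10, 25], [8, 9, 16, 15, 15,
  28, 11, 23]], [[25, 1, 18, 9, 10, 14, 20, 4, 23], [25, 8, 22, 14, 8, 29, 27, 1, 21], [6, 18, 30, 21, 23, 28, 7, 4,
  18], [25, 22, 26, 8, 9, 20, 26, 1, 18], [25, 3, 18, 21, 3, 1, 24, 30, 30], [6, 4, 29, 30, 20, 5, 12, 27, 22], [25,
  10, 16, 7, 7, 10, 25, 27, 28], [6, 13, 17, 28, 27, 28, 8, 1, 27], [26, 27, 29, 27, 25, 30, 28, 28, 29]]]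

/-- Eigenvalue of `ad (hb 4)` on the kernel of `ad (hb 0)`. -/
def lzT : List ℕ := [0, 0, 0, 0, 0, 17, 0, 0, 0, 18, 0, 0, 0, 0, 0, 0, 0, 0, 0, 0, 0, 13, 0, 0, 0, 14, 0, 0, 0, 0]

/-- The index of the operator. -/
def lj (v : ℕ) : ℕ := if v ∈ [12, 14, 16, 18] then 4 else 0

/-- Eigenvalue number `i`. -/
def lmu (v i : ℕ) : ℕ := (lmuT.getD v []).getD i 0

/-- Eigenvector number `i`. -/
def lev (v i : ℕ) : List ℕ := (levT.getD v []).getD i []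

/-- Entry of the inverse matrix. -/
def lei (v i j : ℕ) : ℕ := ((leiT.getD v []).getD i []).getD j 0

set_option maxRecDepth 100000

theorem lk_eig : ∀ v < 30, 1 ≤ v → ∀ i < dm v, brc 0 v (un (lj v)) (lev v i) =
    (List.range 9).map fun k => (lmu v i * (lev v i).getD k 0) % 31 := by
  decide +kernel

theorem lk_inv : ∀ v < 30, 1 ≤ v → ∀ i < dm v, ∀ k < 9,
    ((List.range (dm v)).foldl (fun acc j => acc + lei v i j * (lev v j).getD k 0) 0) % 31 = if i = k then 1 else 0 := by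
  decide +kernel

theorem lk_lt : ∀ v < 30, ∀ i < 9, lmu v i < 31 := by
  decide +kernel

private def ne1 (v i j : ℕ) : Bool := v == 0 || i == j || lmu v i != lmu v j

private theorem lk_ne1 : ∀ v < 30, ∀ i < dm v, ∀ j < dm v, ne1 v i j = true := by
  decide +kernel

theorem lk_mu (v : ℕ) (hv : v < 30) (hv1 : 1 ≤ v) (i : ℕ) (hi : i < dm v) :
    lmu v i < 31 ∧ ∀ j < dm v, i ≠ j → lmu v i ≠ lmu v j := by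
  refine ⟨lk_lt v hv i ?_, fun j hj hij h => ?_⟩
  swap
  · have h1 := lk_ne1 v hv i hi j hj
    unfold ne1 at h1
    simp only [Bool.or_eq_true, beq_iff_eq, bne_iff_ne] at h1
    rcases h1 with (h1 | h1) | h1
    · omega
    · exact hij h1
    · exact h1 h
  have : dm v ≤ 9 := by
    unfold dm
    split_ifs <;> norm_num
  omega

private theorem lk_zero1 : ∀ v < 30, ∀ i < dm v, lmu v i = 0 → 1 ≤ v → brc 0 v (un 4) (lev v i) =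
    ((List.range 9).map fun k => (lzT.getD v 0 * (lev v i).getD k 0) % 31) := by
  decide +kernel

private theorem lk_zero2 : ∀ v < 30, ∀ i < dm v, lmu v i = 0 → 1 ≤ v → lzT.getD v 0 % 31 ≠ 0 := by
  decide +kernel

theorem lk_zero (v : ℕ) (hv : v < 30) (hv1 : 1 ≤ v) (i : ℕ) (hi : i < dm v) (h0 : lmu v i = 0) :
    brc 0 v (un 4) (lev v i) = ((List.range 9).map fun k => (lzT.getD v 0 * (lev v i).getD k 0) % 31) ∧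
      lzT.getD v 0 % 31 ≠ 0 :=
  ⟨lk_zero1 v hv i hi h0 hv1, lk_zero2 v hv i hi h0 hv1⟩

theorem lk_comm : brc 0 0 (un 0) (un 4) = [0, 0, 0, 0, 0, 0, 0, 0, 0] := by decide +kernel

end Pool.Agent.Helper58.E8Z
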