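import Pool.Agent.Helper2.E8A.Sig

/-!
# Block E8Z-RES: the local ring of `K = ℚ(ζ₃₁)` at `P0 = (1 - ζ)` and its residue map

`O31` is the ring of the fractions `a / b` with `a b : 𝓞 K`, `b ∉ P0`; `pp = 1 - ζ`.

Proof.
* `exists_res`: `r0 : 𝓞 K →+* ZMod 31` with kernel `P0.asIdeal`: e.g. `(hζ.integralPowerBasis' ...).lift` with `ζ ↦ 1` (`cyclotomic 31` at 1 is 31 = 0 in `ZMod 31`),
  the kernel is a proper ideal containing the maximal ideal `P0.asIdeal = (ζ - 1)`; or `𝓞 K ⧸ P0.asIdeal` has 31 elements (`absNorm`). Extend to fractions: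
  `x * b = a ↦ r0 a / r0 b` (well defined, since `r0 b ≠ 0` for `b ∉ P0`; or use `Localization.subalgebra.isLocalization_ofField` and `IsLocalization.lift`).
  Kernel: `r0 a = 0` iff `a ∈ P0 = (1 - ζ)` iff `a = (1 - ζ) a'`.
* `exists_pow`: `x = a / b`, and `a = (1 - ζ)^i a'`, `b = (1 - ζ)^j b'` with `a' b' ∉ P0` (`𝓞 K` Noetherian: `FiniteMultiplicity`, `WfDvdMonoid`).
* `inv_mem`: `x * b = a`, `r0 a ≠ 0`, so `a ∉ P0`.
* `mem_of_integral`: `b = 1`. `res_zeta`: `1 - ζ` has residue 0.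
* `sigma_mem`: `σ` maps `𝓞 K` to itself and `P0` onto `P0` (`Pool.Agent.Helper2.E8A.sV_P0` in `Dvs.lean`, or: `σ (1 - ζ) = (1 - ζ)(1 + ζ + ζ²)`, and `1 + ζ + ζ²` has residue 3 ≠ 0).
* `res_sigma`: for `x ∈ O31` choose an integer `n` with `res x = n` (cast); `x - n = (1 - ζ) y` with `y ∈ O31`, so `σ x - n = σ (1 - ζ) σ y` has residue 0.
* `thirtyone`: `31 = ∏_{0 < k < 31} (1 - ζ^k)` (`cyclotomic 31` at 1 is 31; `IsPrimitiveRoot` product formulas), `1 - ζ^k = (1 - ζ) (1 + ζ + ... + ζ^(k-1))`, and the residue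
  of the second factor is `k`; `30! = -1` modulo 31. (Alternative: `31 = (1 - ζ)^30 u` up to a unit: `IsCyclotomicExtension.Rat.associated_zeta_sub_one_pow_prime`; the residue of
  `w = 31 / (1 - ζ)^30` is computed from `Φ_31(X + 1)`: Eisenstein polynomial: `(ζ-1)^30 + 31 (...) (ζ-1) + 31 = 0` with `...` integral, so `w = -1` modulo `P0`.)
-/

set_option autoImplicit false

namespace Pool.Agent.Helper73.E8.Ez

open NumberField
open Pool.Agent.Helper2.E8A (K ζ σ hζ P0 σ_ζ)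

/-- The uniformiser. -/
noncomputable def pp : K := 1 - ζ

theorem pp_ne_zero : pp ≠ 0 := sub_ne_zero.mpr (fun h => hζ.ne_one (by norm_num) h.symm)

/-- The local ring of `K` at `P0`. -/
noncomputable def O31 : Subring K where
  carrier := {x | ∃ a b : 𝓞 K, b ∉ P0.asIdeal ∧ x * algebraMap (𝓞 K) K b = algebraMap (𝓞 K) K a}
  mul_mem' := by
    rintro x y ⟨a, b, hb, h⟩ ⟨c, d, hd, h'⟩
    refine ⟨a * c, b * d, fun hbd => (P0.isPrime.mem_or_mem hbd).elim hb hd, ?_⟩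
    rw [map_mul, map_mul, ← h, ← h']
    ring
  one_mem' := ⟨1, 1, fun h => P0.isPrime.ne_top ((Ideal.eq_top_iff_one _).2 h), by simp⟩
  add_mem' := by
    rintro x y ⟨a, b, hb, h⟩ ⟨c, d, hd, h'⟩
    refine ⟨a * d + c * b, b * d, fun hbd => (P0.isPrime.mem_or_mem hbd).elim hb hd, ?_⟩
    rw [map_mul, map_add, map_mul, map_mul, ← h, ← h']
    ring
  zero_mem' := ⟨0, 1, fun h => P0.isPrime.ne_top ((Ideal.eq_top_iff_one _).2 h), by simp⟩
  neg_mem' := by
    rintro x ⟨a, b, hb, h⟩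
    refine ⟨-a, b, hb, ?_⟩
    rw [map_neg, ← h]
    ring

theorem mem_O31 (x : K) : x ∈ O31 ↔
    ∃ a b : 𝓞 K, b ∉ P0.asIdeal ∧ x * algebraMap (𝓞 K) K b = algebraMap (𝓞 K) K a := Iff.rfl

private theorem h99_minpoly : minpoly ℤ (hζ.integralPowerBasis.gen) = Polynomial.cyclotomic 31 ℤ := by
  rw [IsPrimitiveRoot.integralPowerBasis_gen]
  have h1 : minpoly ℤ (algebraMap (𝓞 K) K hζ.toInteger) = minpoly ℤ hζ.toInteger :=
    minpoly.algebraMap_eq (FaithfulSMul.algebraMap_injective (𝓞 K) K) _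
  rw [← h1]
  have h2 : algebraMap (𝓞 K) K hζ.toInteger = ζ := rfl
  rw [h2]
  exact (Polynomial.cyclotomic_eq_minpoly hζ (by norm_num)).symm

private theorem h99_r0 : ∃ r : 𝓞 K →+* ZMod 31, ∀ a, r a = 0 ↔ a ∈ P0.asIdeal := by
  let f : 𝓞 K →ₐ[ℤ] ZMod 31 := hζ.integralPowerBasis.lift 1 (by
    rw [h99_minpoly, Polynomial.aeval_def, Polynomial.eval₂_eq_eval_map, Polynomial.map_cyclotomic]
    rw [Polynomial.eval_one_cyclotomic_prime]
    decide)
  have hf : f hζ.toInteger = 1 := by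
    have h1 : f hζ.integralPowerBasis.gen = 1 := PowerBasis.lift_gen _ _ _
    rwa [IsPrimitiveRoot.integralPowerBasis_gen] at h1
  refine ⟨(f : 𝓞 K →+* ZMod 31), fun a => ?_⟩
  have hmax : P0.asIdeal.IsMaximal := P0.isMaximal
  have hle : P0.asIdeal ≤ RingHom.ker (f : 𝓞 K →+* ZMod 31) := by
    change Ideal.span {hζ.toInteger - 1} ≤ _
    rw [Ideal.span_le, Set.singleton_subset_iff]
    change (f : 𝓞 K →+* ZMod 31) (hζ.toInteger - 1) = 0
    rw [map_sub, map_one]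
    change f hζ.toInteger - 1 = 0
    rw [hf, sub_self]
  have heq : P0.asIdeal = RingHom.ker (f : 𝓞 K →+* ZMod 31) :=
    hmax.eq_of_le (RingHom.ker_ne_top _) hle
  rw [heq, RingHom.mem_ker]

private theorem h99_ppi : algebraMap (𝓞 K) K (1 - hζ.toInteger) = pp := by
  rw [map_sub, map_one]
  rfl

private theorem h99_mem_P0 (a : 𝓞 K) : a ∈ P0.asIdeal ↔ ∃ c : 𝓞 K, a = (1 - hζ.toInteger) * c := by
  change a ∈ Ideal.span {hζ.toInteger - 1} ↔ _
  rw [Ideal.mem_span_singleton]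
  constructor
  · rintro ⟨c, hc⟩
    exact ⟨-c, by rw [hc]; ring⟩
  · rintro ⟨c, hc⟩
    exact ⟨-c, by rw [hc]; ring⟩

private theorem h99_one_notMem : (1 : 𝓞 K) ∉ P0.asIdeal := fun h =>
  P0.isPrime.ne_top ((Ideal.eq_top_iff_one _).2 h)

/-- An element `a / b` with `a` in `P0` is divisible by `pp`. -/
private theorem h99_div {x : K} {a b : 𝓞 K} (hb : b ∉ P0.asIdeal)
    (h : x * algebraMap (𝓞 K) K b = algebraMap (𝓞 K) K a) : a ∈ P0.asIdeal ↔ x * pp⁻¹ ∈ O31 := by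
  constructor
  · intro ha
    obtain ⟨c, hc⟩ := (h99_mem_P0 a).1 ha
    refine (mem_O31 _).2 ⟨c, b, hb, ?_⟩
    rw [hc, map_mul, h99_ppi] at h
    have h1 := pp_ne_zero
    calc x * pp⁻¹ * algebraMap (𝓞 K) K b = pp⁻¹ * (x * algebraMap (𝓞 K) K b) := by ring
      _ = algebraMap (𝓞 K) K c := by rw [h, ← mul_assoc, inv_mul_cancel₀ h1, one_mul]
  · intro hx
    obtain ⟨c, d, hd, hcd⟩ := (mem_O31 _).1 hx
    have h1 := pp_ne_zero
    have h2 : algebraMap (𝓞 K) K (a * d) = algebraMap (𝓞 K) K ((1 - hζ.toInteger) * (c * b)) := by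
      rw [map_mul, map_mul, map_mul, h99_ppi, ← h, ← hcd]
      field_simp
    have h3 : a * d = (1 - hζ.toInteger) * (c * b) := FaithfulSMul.algebraMap_injective (𝓞 K) K h2
    have h4 : a * d ∈ P0.asIdeal := (h99_mem_P0 _).2 ⟨_, h3⟩
    exact (P0.isPrime.mem_or_mem h4).resolve_right hd

theorem exists_res : ∃ r : O31 →+* ZMod 31, ∀ x : O31, r x = 0 ↔ (x : K) * pp⁻¹ ∈ O31 := by
  classical
  obtain ⟨r0, hr0⟩ := h99_r0
  have hex : ∀ x : O31, ∃ c : ZMod 31, ∀ a b : 𝓞 K, b ∉ P0.asIdeal →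
      (x : K) * algebraMap (𝓞 K) K b = algebraMap (𝓞 K) K a → r0 a = c * r0 b := by
    intro x
    obtain ⟨a, b, hb, h⟩ := (mem_O31 _).1 x.2
    have hb0 : r0 b ≠ 0 := fun h0 => hb ((hr0 b).1 h0)
    refine ⟨r0 a * (r0 b)⁻¹, fun a' b' hb' h' => ?_⟩
    have h1 : algebraMap (𝓞 K) K (a' * b) = algebraMap (𝓞 K) K (a * b') := by
      rw [map_mul, map_mul, ← h, ← h']
      ring
    have h2 : a' * b = a * b' := FaithfulSMul.algebraMap_injective (𝓞 K) K h1
    have h3 := congrArg r0 h2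
    rw [map_mul, map_mul] at h3
    have h4 : r0 a' = r0 a * r0 b' * (r0 b)⁻¹ := by
      rw [← h3, mul_assoc, mul_inv_cancel₀ hb0, mul_one]
    rw [h4]
    ring
  choose r hr using hex
  have key : ∀ (x : O31) (c : ZMod 31) (a b : 𝓞 K), b ∉ P0.asIdeal →
      (x : K) * algebraMap (𝓞 K) K b = algebraMap (𝓞 K) K a → r0 a = c * r0 b → r x = c := by
    intro x c a b hb h hc
    have hb0 : r0 b ≠ 0 := fun h0 => hb ((hr0 b).1 h0)
    have h1 := hr x a b hb h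
    rw [hc] at h1
    exact (mul_right_cancel₀ hb0 h1).symm
  refine ⟨⟨⟨⟨r, ?_⟩, ?_⟩, ?_, ?_⟩, ?_⟩
  · exact key 1 1 1 1 h99_one_notMem (by simp) (by simp)
  · intro x y
    obtain ⟨a, b, hb, h⟩ := (mem_O31 _).1 x.2
    obtain ⟨c, d, hd, h'⟩ := (mem_O31 _).1 y.2
    refine key (x * y) (r x * r y) (a * c) (b * d)
      (fun hbd => (P0.isPrime.mem_or_mem hbd).elim hb hd) ?_ ?_
    · rw [map_mul, map_mul, ← h, ← h']
      push_cast
      ring
    · rw [map_mul, map_mul, hr x a b hb h, hr y c d hd h']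
      ring
  · exact key 0 0 0 1 h99_one_notMem (by simp) (by simp)
  · intro x y
    obtain ⟨a, b, hb, h⟩ := (mem_O31 _).1 x.2
    obtain ⟨c, d, hd, h'⟩ := (mem_O31 _).1 y.2
    refine key (x + y) (r x + r y) (a * d + c * b) (b * d)
      (fun hbd => (P0.isPrime.mem_or_mem hbd).elim hb hd) ?_ ?_
    · rw [map_mul, map_add, map_mul, map_mul, ← h, ← h']
      push_cast
      ring
    · rw [map_mul, map_add, map_mul, map_mul, hr x a b hb h, hr y c d hd h']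
      ring
  · intro x
    obtain ⟨a, b, hb, h⟩ := (mem_O31 _).1 x.2
    have hb0 : r0 b ≠ 0 := fun h0 => hb ((hr0 b).1 h0)
    rw [← h99_div hb h, ← hr0]
    change r x = 0 ↔ _
    rw [hr x a b hb h]
    constructor
    · intro h1
      rw [h1, zero_mul]
    · intro h1
      exact (mul_eq_zero.1 h1).resolve_right hb0

/-- The residue map. -/
noncomputable def res : O31 →+* ZMod 31 := exists_res.choose

theorem res_eq_zero (x : O31) : res x = 0 ↔ (x : K) * pp⁻¹ ∈ O31 := exists_res.choose_spec x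

theorem mem_of_integral {x : K} (hx : IsIntegral ℤ x) : x ∈ O31 := by
  refine (mem_O31 _).2 ⟨⟨x, hx⟩, 1, h99_one_notMem, ?_⟩
  rw [map_one, mul_one]
  rfl

private theorem h99_int (a : 𝓞 K) : algebraMap (𝓞 K) K a ∈ O31 :=
  (mem_O31 _).2 ⟨a, 1, h99_one_notMem, by rw [map_one, mul_one]⟩

private theorem h99_res_int (a : 𝓞 K) : res ⟨algebraMap (𝓞 K) K a, h99_int a⟩ = 0 ↔ a ∈ P0.asIdeal := by
  rw [res_eq_zero, h99_div (x := algebraMap (𝓞 K) K a) (a := a) h99_one_notMem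
    (by rw [map_one, mul_one])]

theorem pp_mem : pp ∈ O31 := by
  rw [← h99_ppi]
  exact h99_int _

theorem zeta_mem : ζ ∈ O31 := by
  exact h99_int hζ.toInteger

theorem res_zeta : res ⟨ζ, zeta_mem⟩ = 1 := by
  have h1 : res (1 - ⟨ζ, zeta_mem⟩) = 0 := by
    rw [res_eq_zero]
    have h2 : ((1 - ⟨ζ, zeta_mem⟩ : O31) : K) = pp := rfl
    rw [h2, mul_inv_cancel₀ pp_ne_zero]
    exact O31.one_mem
  rw [map_sub, map_one, sub_eq_zero] at h1
  exact h1.symm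

theorem inv_mem (x : O31) (hx : res x ≠ 0) : (x : K)⁻¹ ∈ O31 := by
  obtain ⟨a, b, hb, h⟩ := (mem_O31 _).1 x.2
  have ha : a ∉ P0.asIdeal := by
    intro ha
    exact hx ((res_eq_zero x).2 ((h99_div hb h).1 ha))
  have hx0 : (x : K) ≠ 0 := by
    intro h0
    apply hx
    have h1 : x = 0 := Subtype.ext h0
    rw [h1, map_zero]
  refine (mem_O31 _).2 ⟨b, a, ha, ?_⟩
  rw [← h, ← mul_assoc, inv_mul_cancel₀ hx0, one_mul]

private theorem h99_frac {a b : 𝓞 K} (ha : a ∉ P0.asIdeal) (hb : b ∉ P0.asIdeal) :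
    ∃ u : O31, res u ≠ 0 ∧ (u : K) = algebraMap (𝓞 K) K a / algebraMap (𝓞 K) K b := by
  have hb0 : algebraMap (𝓞 K) K b ≠ 0 := by
    intro h0
    apply hb
    have h1 : b = 0 := FaithfulSMul.algebraMap_injective (𝓞 K) K (by rw [h0, map_zero])
    rw [h1]
    exact P0.asIdeal.zero_mem
  have hu : algebraMap (𝓞 K) K a / algebraMap (𝓞 K) K b ∈ O31 :=
    (mem_O31 _).2 ⟨a, b, hb, div_mul_cancel₀ _ hb0⟩
  refine ⟨⟨_, hu⟩, fun h0 => ha ?_, rfl⟩
  rw [res_eq_zero] at h0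
  exact (h99_div hb (div_mul_cancel₀ _ hb0)).2 h0

private theorem h99_factor (a : 𝓞 K) (ha : a ≠ 0) : ∃ (i : ℕ) (c : 𝓞 K), c ∉ P0.asIdeal ∧
    a = (1 - hζ.toInteger) ^ i * c := by
  have hp : Prime (hζ.toInteger - 1) := hζ.zeta_sub_one_prime'
  obtain ⟨i, c, hc, h⟩ := WfDvdMonoid.max_power_factor ha hp.irreducible
  have hc' : c ∉ P0.asIdeal := by
    intro h1
    exact hc (Ideal.mem_span_singleton.1 h1)
  refine ⟨i, (-1) ^ i * c, fun h1 => ?_, ?_⟩
  · rcases P0.isPrime.mem_or_mem h1 with h2 | h2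
    · have h3 : (-1 : 𝓞 K) ^ i * (-1) ^ i = 1 := by rw [← mul_pow]; simp
      exact h99_one_notMem (h3 ▸ P0.asIdeal.mul_mem_left _ h2)
    · exact hc' h2
  · rw [h, ← mul_assoc, ← mul_pow]
    congr 2
    ring

theorem exists_pow {x : K} (hx : x ≠ 0) : ∃ (m : ℤ) (u : O31), res u ≠ 0 ∧ x = pp ^ m * (u : K) := by
  obtain ⟨a, b, hb, h⟩ := IsFractionRing.div_surjective (A := 𝓞 K) x
  have hb0 : b ≠ 0 := nonZeroDivisors.ne_zero hb
  have ha0 : a ≠ 0 := by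
    rintro rfl
    rw [map_zero, zero_div] at h
    exact hx h.symm
  obtain ⟨i, c, hc, rfl⟩ := h99_factor a ha0
  obtain ⟨j, d, hd, rfl⟩ := h99_factor b hb0
  obtain ⟨u, hu, hu'⟩ := h99_frac hc hd
  refine ⟨(i : ℤ) - j, u, hu, ?_⟩
  have hd0 : algebraMap (𝓞 K) K d ≠ 0 := by
    intro h0
    apply hd
    have h1 : d = 0 := FaithfulSMul.algebraMap_injective (𝓞 K) K (by rw [h0, map_zero])
    rw [h1]
    exact P0.asIdeal.zero_mem
  have hp0 := pp_ne_zero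
  rw [← h, hu', map_mul, map_mul, map_pow, map_pow, h99_ppi, zpow_sub₀ hp0, zpow_natCast,
    zpow_natCast]
  field_simp

/-- The automorphism of the ring of integers. -/
private noncomputable def h99_τ : 𝓞 K ≃+* 𝓞 K := RingOfIntegers.mapRingEquiv (σ : K ≃+* K)

private theorem h99_τ_coe (a : 𝓞 K) : algebraMap (𝓞 K) K (h99_τ a) = σ (algebraMap (𝓞 K) K a) := rfl

private theorem h99_τ_P0 (a : 𝓞 K) : h99_τ a ∈ P0.asIdeal ↔ a ∈ P0.asIdeal := by
  have h1 : P0.asIdeal ≤ P0.asIdeal.comap (h99_τ : 𝓞 K →+* 𝓞 K) := by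
    intro b hb
    obtain ⟨c, hc⟩ := (h99_mem_P0 b).1 hb
    rw [Ideal.mem_comap]
    refine (h99_mem_P0 _).2 ⟨(1 + hζ.toInteger + hζ.toInteger ^ 2) * h99_τ c, ?_⟩
    have h2 : h99_τ hζ.toInteger = hζ.toInteger ^ 3 := by
      apply FaithfulSMul.algebraMap_injective (𝓞 K) K
      rw [h99_τ_coe, map_pow]
      exact σ_ζ
    change h99_τ b = _
    rw [hc, map_mul, map_sub, map_one, h2]
    ring
  have hmax : P0.asIdeal.IsMaximal := P0.isMaximal
  have h2 : P0.asIdeal.comap (h99_τ : 𝓞 K →+* 𝓞 K) ≠ ⊤ := Ideal.comap_ne_top _ hmax.ne_top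
  have h3 := hmax.eq_of_le h2 h1
  constructor
  · intro h
    rw [h3]
    exact h
  · intro h
    exact h1 h

theorem sigma_mem (x : K) : σ x ∈ O31 ↔ x ∈ O31 := by
  constructor
  · intro h
    obtain ⟨a, b, hb, h⟩ := (mem_O31 _).1 h
    refine (mem_O31 _).2 ⟨h99_τ.symm a, h99_τ.symm b, fun h1 => hb ?_, ?_⟩
    · have h2 := (h99_τ_P0 _).2 h1
      rwa [RingEquiv.apply_symm_apply] at h2
    · apply σ.injective
      rw [map_mul, ← h99_τ_coe, ← h99_τ_coe, RingEquiv.apply_symm_apply, RingEquiv.apply_symm_apply]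
      exact h
  · intro h
    obtain ⟨a, b, hb, h⟩ := (mem_O31 _).1 h
    refine (mem_O31 _).2 ⟨h99_τ a, h99_τ b, fun h1 => hb ((h99_τ_P0 _).1 h1), ?_⟩
    rw [h99_τ_coe, h99_τ_coe, ← map_mul, h]

private theorem h99_sigma_pp : σ pp = pp * (1 + ζ + ζ ^ 2) := by
  unfold pp
  rw [map_sub, map_one, σ_ζ]
  ring

theorem res_sigma (x : K) (hx : x ∈ O31) (hx' : σ x ∈ O31) : res ⟨σ x, hx'⟩ = res ⟨x, hx⟩ := by
  have hn : ((res ⟨x, hx⟩).val : ZMod 31) = res ⟨x, hx⟩ := ZMod.natCast_zmod_val _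
  generalize (res ⟨x, hx⟩).val = n at hn
  have h1 : res (⟨x, hx⟩ - (n : O31)) = 0 := by rw [map_sub, map_natCast, hn, sub_self]
  rw [res_eq_zero] at h1
  have h2 : ((⟨x, hx⟩ - (n : O31) : O31) : K) = x - n := by push_cast; rfl
  rw [h2] at h1
  have h3 : σ ((x - n) * pp⁻¹) ∈ O31 := (sigma_mem _).2 h1
  have h4 : res (⟨σ x, hx'⟩ - (n : O31)) = 0 := by
    rw [res_eq_zero]
    have h5 : ((⟨σ x, hx'⟩ - (n : O31) : O31) : K) = σ x - n := by push_cast; rfl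
    rw [h5]
    have h6 : (σ x - n) * pp⁻¹ = σ ((x - n) * pp⁻¹) * (1 + ζ + ζ ^ 2) := by
      have h7 : σ pp ≠ 0 := (map_ne_zero σ).2 pp_ne_zero
      have h8 := pp_ne_zero
      have h9 : (x : K) - n = ((x - n) * pp⁻¹) * pp := by field_simp
      have h10 : σ x - n = σ (x - n) := by rw [map_sub, map_natCast]
      rw [h10]
      conv_lhs => rw [h9]
      rw [map_mul, h99_sigma_pp]
      field_simp
    rw [h6]
    exact O31.mul_mem h3 (O31.add_mem (O31.add_mem O31.one_mem zeta_mem) (O31.pow_mem zeta_mem 2))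
  rw [map_sub, map_natCast, hn, sub_eq_zero] at h4
  exact h4

theorem sigma_pp : σ pp = pp * (1 + ζ + ζ ^ 2) := by
  unfold pp
  rw [map_sub, map_one, σ_ζ]
  ring

theorem thirtyone : ∃ w : O31, res w = -1 ∧ (31 : K) = pp ^ (30 : ℕ) * (w : K) := by
  let z : O31 := ⟨ζ, zeta_mem⟩
  refine ⟨∏ k ∈ Finset.range 30, ∑ j ∈ Finset.range (k + 1), z ^ j, ?_, ?_⟩
  · rw [map_prod]
    have h1 : ∀ k ∈ Finset.range 30, res (∑ j ∈ Finset.range (k + 1), z ^ j) = ((k + 1 : ℕ) : ZMod 31) := by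
      intro k _
      rw [map_sum]
      have h2 : ∀ j ∈ Finset.range (k + 1), res (z ^ j) = 1 := by
        intro j _
        rw [map_pow, res_zeta, one_pow]
      rw [Finset.sum_congr rfl h2, Finset.sum_const, Finset.card_range, nsmul_eq_mul, mul_one]
    rw [Finset.prod_congr rfl h1]
    decide +kernel
  · have h1 : IsPrimitiveRoot ζ (30 + 1) := hζ
    have h2 := h1.prod_one_sub_pow_eq_order
    have h3 : ∀ k ∈ Finset.range 30, (1 : K) - ζ ^ (k + 1) = pp * ∑ j ∈ Finset.range (k + 1), ζ ^ j := by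
      intro k _
      unfold pp
      rw [mul_comm, ← neg_sub ζ 1, mul_neg, geom_sum_mul]
      ring
    rw [Finset.prod_congr rfl h3, Finset.prod_mul_distrib, Finset.prod_const, Finset.card_range] at h2
    have h4 : ((∏ k ∈ Finset.range 30, ∑ j ∈ Finset.range (k + 1), z ^ j : O31) : K) =
        ∏ k ∈ Finset.range 30, ∑ j ∈ Finset.range (k + 1), ζ ^ j := by
      push_cast
      rfl
    rw [h4, h2]
    norm_num

end Pool.Agent.Helper73.E8.Ez
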