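import Pool.Agent.Helper58.E8Z.Res

/-!
# Block E8Z-VAL: valuation at `P0` and leading coefficients in `K = ℚ(ζ₃₁)`

`Vge m x`: the valuation of `x` at `P0` is at least `m`; `lc m x`: the residue of `x * pp ^ (-m)` (only meaningful if `Vge m x`).

Proof. Everything follows from the lemmas of `Res.lean` (`res` is a ring homomorphism with kernel `pp * O31`, `exists_pow`, ...). E.g. `lc_eq_zero`:
`res (x pp^(-m)) = 0` iff `x pp^(-m) pp⁻¹ ∈ O31`. `lc_sigma`: `σ x * pp^(-m) = σ (x pp^(-m)) * (1 + ζ + ζ²)^m` (`sigma_pp`; `1 + ζ + ζ²` has residue 3, `inv_mem`).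
`lc_zeta`: `ζ^k - 1 = - pp (1 + ζ + ... + ζ^(k-1))` for `k ≥ 0` and `ζ^(-k) - 1 = - ζ^(-k) (ζ^k - 1)`. `dvd_of_Vge`: `res (n : O31) = n`. `sep`: `exists_pow`
and `pp ^ k` (with `k > 0`) has residue 0.
-/

set_option autoImplicit false

namespace Pool.Agent.Helper73.E8.Ez

open NumberField
open Pool.Agent.Helper2.E8A (K ζ σ hζ P0)

/-- The valuation of `x` at `P0` is at least `m`. -/
def Vge (m : ℤ) (x : K) : Prop := x * pp ^ (-m) ∈ O31

open scoped Classical in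
/-- The leading coefficient in degree `m`. -/
noncomputable def lc (m : ℤ) (x : K) : ZMod 31 := if h : x * pp ^ (-m) ∈ O31 then res ⟨_, h⟩ else 0

theorem lc_def {m : ℤ} {x : K} (h : Vge m x) : lc m x = res ⟨x * pp ^ (-m), h⟩ := by
  unfold lc
  exact dif_pos h

private theorem neg_add45 (a b : ℤ) : pp ^ (-(a + b)) = pp ^ (-a) * pp ^ (-b) := by
  rw [neg_add, zpow_add₀ pp_ne_zero]

private theorem res_congr45 {x y : K} (hx : x ∈ O31) (hy : y ∈ O31) (h : x = y) : res ⟨x, hx⟩ = res ⟨y, hy⟩ := by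
  subst h
  rfl

theorem Vge_zero (m : ℤ) : Vge m 0 := by
  unfold Vge
  rw [zero_mul]
  exact O31.zero_mem

theorem Vge_add {m : ℤ} {x y : K} (hx : Vge m x) (hy : Vge m y) : Vge m (x + y) := by
  unfold Vge at *
  rw [add_mul]
  exact O31.add_mem hx hy

theorem Vge_neg {m : ℤ} {x : K} (hx : Vge m x) : Vge m (-x) := by
  unfold Vge at *
  rw [neg_mul]
  exact O31.neg_mem hx

theorem Vge_sum {m : ℤ} {ι : Type*} (s : Finset ι) (f : ι → K) (h : ∀ i ∈ s, Vge m (f i)) : Vge m (∑ i ∈ s, f i) := by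
  classical
  induction s using Finset.induction_on with
  | empty => exact Vge_zero m
  | insert a s ha ih =>
    rw [Finset.sum_insert ha]
    exact Vge_add (h a (Finset.mem_insert_self _ _)) (ih fun i hi => h i (Finset.mem_insert_of_mem hi))

theorem Vge_mul {m m' : ℤ} {x y : K} (hx : Vge m x) (hy : Vge m' y) : Vge (m + m') (x * y) := by
  unfold Vge at *
  have h : x * y * pp ^ (-(m + m')) = (x * pp ^ (-m)) * (y * pp ^ (-m')) := by
    rw [neg_add45]
    ring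
  rw [h]
  exact O31.mul_mem hx hy

theorem Vge_anti {m m' : ℤ} {x : K} (h : m ≤ m') (hx : Vge m' x) : Vge m x := by
  unfold Vge at *
  obtain ⟨n, rfl⟩ := Int.le.dest h
  have h1 : x * pp ^ (-m) = (x * pp ^ (-(m + (n : ℤ)))) * pp ^ n := by
    rw [neg_add45, zpow_neg pp (n : ℤ), zpow_natCast]
    have := pow_ne_zero n pp_ne_zero
    field_simp
  rw [h1]
  exact O31.mul_mem hx (O31.pow_mem pp_mem n)

theorem Vge_of_integral {x : K} (hx : IsIntegral ℤ x) : Vge 0 x := by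
  unfold Vge
  rw [neg_zero, zpow_zero, mul_one]
  exact mem_of_integral hx

theorem exists_Vge (x : K) : ∃ m : ℤ, Vge m x := by
  by_cases hx : x = 0
  · exact ⟨0, by rw [hx]; exact Vge_zero 0⟩
  · obtain ⟨m, u, -, h⟩ := exists_pow hx
    refine ⟨m, ?_⟩
    unfold Vge
    rw [h, mul_comm (pp ^ m), mul_assoc, ← zpow_add₀ pp_ne_zero, add_neg_cancel, zpow_zero, mul_one]
    exact u.2

theorem eq_zero_of_Vge {x : K} (h : ∀ m : ℤ, Vge m x) : x = 0 := by
  by_contra hx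
  obtain ⟨m, u, hu, hxu⟩ := exists_pow hx
  apply hu
  rw [res_eq_zero]
  have h1 := h (m + 1)
  unfold Vge at h1
  have h2 : x * pp ^ (-(m + 1)) = (u : K) * pp⁻¹ := by
    rw [hxu, neg_add45, zpow_neg_one, zpow_neg]
    have := zpow_ne_zero m pp_ne_zero
    field_simp
  rwa [h2] at h1

theorem Vge_pp (m : ℤ) : Vge m (pp ^ m) := by
  unfold Vge
  rw [← zpow_add₀ pp_ne_zero, add_neg_cancel, zpow_zero]
  exact O31.one_mem

theorem lc_pp (m : ℤ) : lc m (pp ^ m) = 1 := by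
  rw [lc_def (Vge_pp m)]
  exact (res_congr45 _ O31.one_mem (by
    rw [← zpow_add₀ pp_ne_zero, add_neg_cancel, zpow_zero])).trans (map_one res)

theorem lc_zero (m : ℤ) : lc m 0 = 0 := by
  rw [lc_def (Vge_zero m)]
  exact (res_congr45 _ O31.zero_mem (zero_mul _)).trans (map_zero res)

theorem lc_add {m : ℤ} {x y : K} (hx : Vge m x) (hy : Vge m y) : lc m (x + y) = lc m x + lc m y := by
  rw [lc_def hx, lc_def hy, lc_def (Vge_add hx hy), ← map_add]
  exact res_congr45 _ _ (add_mul _ _ _)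

theorem lc_neg {m : ℤ} {x : K} (hx : Vge m x) : lc m (-x) = -lc m x := by
  rw [lc_def hx, lc_def (Vge_neg hx), ← map_neg]
  exact res_congr45 _ _ (neg_mul _ _)

theorem lc_sum {m : ℤ} {ι : Type*} (s : Finset ι) (f : ι → K) (h : ∀ i ∈ s, Vge m (f i)) :
    lc m (∑ i ∈ s, f i) = ∑ i ∈ s, lc m (f i) := by
  classical
  induction s using Finset.induction_on with
  | empty => exact lc_zero m
  | insert a s ha ih =>
    have h1 : ∀ i ∈ s, Vge m (f i) := fun i hi => h i (Finset.mem_insert_of_mem hi)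
    rw [Finset.sum_insert ha, Finset.sum_insert ha,
      lc_add (h a (Finset.mem_insert_self _ _)) (Vge_sum s f h1), ih h1]

theorem lc_mul {m m' : ℤ} {x y : K} (hx : Vge m x) (hy : Vge m' y) : lc (m + m') (x * y) = lc m x * lc m' y := by
  rw [lc_def hx, lc_def hy, lc_def (Vge_mul hx hy), ← map_mul]
  refine res_congr45 _ _ ?_
  change x * y * pp ^ (-(m + m')) = (x * pp ^ (-m)) * (y * pp ^ (-m'))
  rw [neg_add45]
  ring

theorem lc_eq_zero {m : ℤ} {x : K} (hx : Vge m x) : lc m x = 0 ↔ Vge (m + 1) x := by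
  rw [lc_def hx, res_eq_zero]
  unfold Vge
  rw [neg_add45, zpow_neg_one, mul_assoc]

theorem lc_intCast (n : ℤ) : lc 0 (n : K) = (n : ZMod 31) := by
  have h : Vge 0 (n : K) := by
    unfold Vge
    rw [neg_zero, zpow_zero, mul_one]
    exact intCast_mem O31 n
  rw [lc_def h]
  exact (res_congr45 _ (intCast_mem O31 n) (by rw [neg_zero, zpow_zero, mul_one])).trans (map_intCast res n)

theorem dvd_of_Vge {n : ℤ} (h : Vge 1 (n : K)) : (31 : ℤ) ∣ n := by
  have h0 : Vge 0 (n : K) := Vge_anti (by norm_num) h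
  have h1 : lc 0 (n : K) = 0 := (lc_eq_zero h0).2 (by rw [zero_add]; exact h)
  rw [lc_intCast] at h1
  exact (ZMod.intCast_zmod_eq_zero_iff_dvd n 31).1 h1

private theorem Vge_31_45 {m : ℤ} {x : K} : Vge (m + 30) (31 * x) ↔ Vge m x := by
  obtain ⟨w, hw, h31⟩ := thirtyone
  have hw0 : res w ≠ 0 := by
    rw [hw]
    decide
  have hw' : (w : K) ≠ 0 := by
    intro h
    apply hw0
    have h1 : w = 0 := Subtype.ext h
    rw [h1, map_zero]
  have h1 : 31 * x * pp ^ (-(m + 30)) = (w : K) * (x * pp ^ (-m)) := by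
    rw [neg_add45, h31, zpow_neg pp 30]
    have h2 : pp ^ (30 : ℤ) = pp ^ (30 : ℕ) := by norm_cast
    have h3 := pow_ne_zero 30 pp_ne_zero
    rw [h2]
    calc pp ^ 30 * (w : K) * x * (pp ^ (-m) * (pp ^ 30)⁻¹) =
        (w : K) * (x * pp ^ (-m)) * (pp ^ 30 * (pp ^ 30)⁻¹) := by ring
      _ = _ := by rw [mul_inv_cancel₀ h3, mul_one]
  unfold Vge
  rw [h1]
  constructor
  · intro h
    have h2 := O31.mul_mem (inv_mem w hw0) h
    rwa [← mul_assoc, inv_mul_cancel₀ hw', one_mul] at h2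
  · intro h
    exact O31.mul_mem w.2 h

/-- Rational numbers with small negative valuation are integral at 31. -/
theorem Vge_zero_of_int {n : ℤ} {k : ℕ} (h : Vge (30 * (k : ℤ) - 29) (n : K)) : (31 : ℤ) ^ k ∣ n := by
  induction k generalizing n with
  | zero => simp
  | succ k ih =>
    have h1 : Vge 1 (n : K) := Vge_anti (by push_cast; omega) h
    obtain ⟨n', rfl⟩ := dvd_of_Vge h1
    have h2 : Vge (30 * (k : ℤ) - 29) (n' : K) := by
      rw [← Vge_31_45]
      have h3 : (30 * (k : ℤ) - 29 + 30) = 30 * ((k + 1 : ℕ) : ℤ) - 29 := by push_cast; ring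
      rw [h3]
      push_cast at h ⊢
      exact h
    rw [pow_succ, mul_comm]
    exact mul_dvd_mul_left 31 (ih h2)

private noncomputable def w45 : O31 := 1 + ⟨ζ, zeta_mem⟩ + ⟨ζ, zeta_mem⟩ ^ 2

private theorem res_w45 : res w45 = 3 := by
  unfold w45
  rw [map_add, map_add, map_one, map_pow, res_zeta]
  norm_num

private theorem w45_coe : (w45 : K) = 1 + ζ + ζ ^ 2 := rfl

private theorem w45_ne : (w45 : K) ≠ 0 := by
  intro h
  have h1 : w45 = 0 := Subtype.ext h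
  have h2 := res_w45
  rw [h1, map_zero] at h2
  exact absurd h2 (by decide)

private theorem zw45 (m : ℤ) : ∃ u : O31, (u : K) = (w45 : K) ^ m ∧ res u = 3 ^ m := by
  have h3 : (3 : ZMod 31) ≠ 0 := by decide
  induction m using Int.induction_on with
  | zero => exact ⟨1, by simp, by simp⟩
  | succ n ih =>
    obtain ⟨u, hu, hr⟩ := ih
    refine ⟨u * w45, ?_, ?_⟩
    · rw [zpow_add_one₀ w45_ne, ← hu]
      rfl
    · rw [map_mul, hr, res_w45, zpow_add_one₀ h3]
  | pred n ih =>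
    obtain ⟨u, hu, hr⟩ := ih
    have hi : (w45 : K)⁻¹ ∈ O31 := inv_mem w45 (by rw [res_w45]; decide)
    have hri : res ⟨_, hi⟩ = 3⁻¹ := by
      have h1 : res ⟨_, hi⟩ * res w45 = 1 := by
        rw [← map_mul, ← map_one res]
        congr 1
        apply Subtype.ext
        exact inv_mul_cancel₀ w45_ne
      rw [res_w45] at h1
      exact eq_inv_of_mul_eq_one_left h1
    refine ⟨u * ⟨_, hi⟩, ?_, ?_⟩
    · rw [zpow_sub_one₀ w45_ne, ← hu]
      rfl
    · rw [map_mul, hr, hri, zpow_sub_one₀ h3]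

private theorem sig45 (m : ℤ) (x : K) : σ (x * pp ^ (-m)) * (w45 : K) ^ m = σ x * pp ^ (-m) := by
  rw [map_mul, map_zpow₀, sigma_pp, ← w45_coe, mul_zpow, zpow_neg (w45 : K)]
  have := zpow_ne_zero m w45_ne
  field_simp

theorem Vge_sigma {m : ℤ} {x : K} : Vge m (σ x) ↔ Vge m x := by
  unfold Vge
  rw [← sigma_mem (x * pp ^ (-m)), ← sig45]
  constructor
  · intro h
    obtain ⟨u, hu, -⟩ := zw45 (-m)
    have h1 := O31.mul_mem h u.2
    rw [hu, mul_assoc, ← zpow_add₀ w45_ne, add_neg_cancel, zpow_zero, mul_one] at h1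
    exact h1
  · intro h
    obtain ⟨u, hu, -⟩ := zw45 m
    rw [← hu]
    exact O31.mul_mem h u.2

theorem lc_sigma {m : ℤ} {x : K} (hx : Vge m x) : lc m (σ x) = 3 ^ m * lc m x := by
  obtain ⟨u, hu, hr⟩ := zw45 m
  have h1 : σ (x * pp ^ (-m)) ∈ O31 := (sigma_mem _).2 hx
  rw [lc_def hx, lc_def (Vge_sigma.2 hx), ← hr, ← res_sigma _ hx h1, ← map_mul]
  refine res_congr45 _ _ ?_
  change σ x * pp ^ (-m) = (u : K) * σ (x * pp ^ (-m))
  rw [hu, mul_comm ((w45 : K) ^ m), sig45]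

theorem Vge_31 {m : ℤ} {x : K} : Vge (m + 30) (31 * x) ↔ Vge m x := by
  exact Vge_31_45

theorem lc_31 {m : ℤ} {x : K} (hx : Vge m x) : lc (m + 30) (31 * x) = -lc m x := by
  obtain ⟨w, hw, h31⟩ := thirtyone
  rw [lc_def hx, lc_def (Vge_31.2 hx), ← neg_one_mul (res _), ← hw, ← map_mul]
  refine res_congr45 _ _ ?_
  change 31 * x * pp ^ (-(m + 30)) = (w : K) * (x * pp ^ (-m))
  rw [neg_add45, h31, zpow_neg pp 30]
  have h2 : pp ^ (30 : ℤ) = pp ^ (30 : ℕ) := by norm_cast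
  have h3 := pow_ne_zero 30 pp_ne_zero
  rw [h2]
  calc pp ^ 30 * (w : K) * x * (pp ^ (-m) * (pp ^ 30)⁻¹) =
      (w : K) * (x * pp ^ (-m)) * (pp ^ 30 * (pp ^ 30)⁻¹) := by ring
    _ = _ := by rw [mul_inv_cancel₀ h3, mul_one]

private theorem V0_45 {x : K} (hx : x ∈ O31) : Vge 0 x := by
  unfold Vge
  rw [neg_zero, zpow_zero, mul_one]
  exact hx

private theorem lc0_45 {x : K} (hx : x ∈ O31) : lc 0 x = res ⟨x, hx⟩ := by
  rw [lc_def (V0_45 hx)]
  exact res_congr45 _ _ (by rw [neg_zero, zpow_zero, mul_one])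

private theorem zinv45 : ζ⁻¹ ∈ O31 := inv_mem ⟨ζ, zeta_mem⟩ (by rw [res_zeta]; decide)

private theorem zne45 : ζ ≠ 0 := hζ.ne_zero (by norm_num)

private theorem lcz45 : lc 0 ζ = 1 := by
  rw [lc0_45 zeta_mem, res_zeta]

private theorem lczi45 : lc 0 ζ⁻¹ = 1 := by
  have h1 := lc_mul (V0_45 zinv45) (V0_45 zeta_mem)
  rw [inv_mul_cancel₀ zne45, lcz45, mul_one, add_zero] at h1
  rw [← h1, lc0_45 O31.one_mem]
  exact map_one res

private theorem z145 : Vge 1 (ζ - 1) ∧ lc 1 (ζ - 1) = -1 := by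
  have h1 : ζ - 1 = -(pp ^ (1 : ℤ)) := by
    rw [zpow_one]
    unfold pp
    ring
  rw [h1]
  exact ⟨Vge_neg (Vge_pp 1), by rw [lc_neg (Vge_pp 1), lc_pp]⟩

private theorem zk45 (k : ℤ) : Vge 1 (ζ ^ k - 1) ∧ lc 1 (ζ ^ k - 1) = -(k : ZMod 31) := by
  induction k using Int.induction_on with
  | zero =>
    rw [zpow_zero, sub_self]
    exact ⟨Vge_zero 1, by rw [lc_zero]; simp⟩
  | succ n ih =>
    obtain ⟨h1, h2⟩ := ih
    have h3 : ζ ^ ((n : ℤ) + 1) - 1 = ζ * (ζ ^ (n : ℤ) - 1) + (ζ - 1) := by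
      rw [zpow_add_one₀ zne45]
      ring
    have h4 : Vge 1 (ζ * (ζ ^ (n : ℤ) - 1)) := by
      have := Vge_mul (V0_45 zeta_mem) h1
      rwa [zero_add] at this
    have h5 : lc 1 (ζ * (ζ ^ (n : ℤ) - 1)) = -((n : ℤ) : ZMod 31) := by
      have := lc_mul (V0_45 zeta_mem) h1
      rw [zero_add, lcz45, h2, one_mul] at this
      exact this
    rw [h3]
    refine ⟨Vge_add h4 z145.1, ?_⟩
    rw [lc_add h4 z145.1, h5, z145.2]
    push_cast
    ring
  | pred n ih =>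
    obtain ⟨h1, h2⟩ := ih
    have h3 : ζ ^ (-(n : ℤ) - 1) - 1 = ζ⁻¹ * ((ζ ^ (-(n : ℤ)) - 1) + -(ζ - 1)) := by
      rw [zpow_sub_one₀ zne45]
      have := zne45
      field_simp
      ring
    have h6 := Vge_neg z145.1
    have h7 := Vge_add h1 h6
    have h4 : Vge 1 (ζ⁻¹ * ((ζ ^ (-(n : ℤ)) - 1) + -(ζ - 1))) := by
      have := Vge_mul (V0_45 zinv45) h7
      rwa [zero_add] at this
    have h5 := lc_mul (V0_45 zinv45) h7
    rw [zero_add, lczi45, one_mul, lc_add h1 h6, h2, lc_neg z145.1, z145.2] at h5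
    rw [h3]
    refine ⟨h4, ?_⟩
    rw [h5]
    push_cast
    ring

theorem Vge_zeta {m : ℤ} {x : K} (k : ℤ) (hx : Vge m x) : Vge (m + 1) (ζ ^ k * x - x) := by
  have h := Vge_mul (zk45 k).1 hx
  rw [add_comm, sub_mul, one_mul] at h
  exact h

theorem lc_zeta {m : ℤ} {x : K} (k : ℤ) (hx : Vge m x) : lc (m + 1) (ζ ^ k * x - x) = -(k : ZMod 31) * lc m x := by
  have h := lc_mul (zk45 k).1 hx
  rw [add_comm, sub_mul, one_mul, (zk45 k).2] at h
  exact h

end Pool.Agent.Helper73.E8.Ez
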