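import Pool.Agent.Helper58.E8Z.Core
import Pool.Agent.Helper58.E8Z.Val

/-!
# Block E8Z-VCH: valuation at `P0` and leading terms in `Chev K`

`CVge m y`: all coordinates have valuation `≥ m`; `clc m y : Chev (ZMod 31)`: the leading coefficients; `nn η` is the lift of `W` over `ZMod 31`.

Proof. Additive statements: coordinatewise from `Val.lean`. `CVge_lie`, `clc_lie`: coordinates of the bracket are `brk_h`, `brk_x` (finite sums of products with integer
coefficients, `pr`); `lc_sum`, `lc_mul`, `lc_intCast`, `Vge_sum`, `Vge_mul` (an integer constant has `Vge 0`, `Vge_of_integral`). (Alternative: `pp^(-m) y = Chev.map O31.subtype y'`,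
`clc m y = Chev.map res y'`, `map_lie`.) `clc_bf`: the same with `bf`. `clc_sV`: definition of `mono`, `lc_sigma`. `clc_map`: `lc_sigma`. `clc_gz`: `lc_zeta` with `k = ht a`
(and `k = 0` for the Cartan part: `y.h - y.h = 0`).
-/

set_option autoImplicit false

namespace Pool.Agent.Helper73.E8.Ez

open Chev
open Pool.Agent.Helper2.E8A (K ζ σ hζ P0)

/-- All coordinates have valuation at least `m`. -/
def CVge (m : ℤ) (y : Chev K) : Prop := (∀ i, Vge m (y.h i)) ∧ ∀ a, Vge m (y.x a)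

/-- The leading term in degree `m`. -/
noncomputable def clc (m : ℤ) (y : Chev K) : Chev (ZMod 31) := ⟨fun i => lc m (y.h i), fun a => lc m (y.x a)⟩

/-- The lift of `W` over `ZMod 31`. -/
noncomputable def nn (η : Lat → ℤˣ) (z : Chev (ZMod 31)) : Chev (ZMod 31) :=
  mono (RingHom.id (ZMod 31)) W W_isom (fun a => ((η a.1 : ℤ) : ZMod 31)) z

private theorem Vge_int58 (n : ℤ) : Vge 0 (n : K) := Vge_of_integral (isIntegral_algebraMap (x := n))

private theorem Vge_mul_int58 {m : ℤ} {x : K} (hx : Vge m x) (n : ℤ) : Vge m (x * (n : K)) := by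
  have h := Vge_mul hx (Vge_int58 n)
  rwa [add_zero] at h

private theorem lc_mul_int58 {m : ℤ} {x : K} (hx : Vge m x) (n : ℤ) : lc m (x * (n : K)) = lc m x * (n : ZMod 31) := by
  have h := lc_mul hx (Vge_int58 n)
  rwa [add_zero, lc_intCast] at h

/-- The normalised vector, over the local ring. -/
private noncomputable def up58 (m : ℤ) (y : Chev K) (hy : CVge m y) : Chev O31 :=
  ⟨fun i => ⟨y.h i * pp ^ (-m), hy.1 i⟩, fun a => ⟨y.x a * pp ^ (-m), hy.2 a⟩⟩

private theorem map_up58 {m : ℤ} {y : Chev K} (hy : CVge m y) : map O31.subtype (up58 m y hy) = pp ^ (-m) • y := by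
  ext i
  · exact mul_comm _ _
  · exact mul_comm _ _

private theorem res_up58 {m : ℤ} {y : Chev K} (hy : CVge m y) : map res (up58 m y hy) = clc m y := by
  ext i
  · exact (lc_def (hy.1 i)).symm
  · exact (lc_def (hy.2 i)).symm

private theorem CVge_of58 {m : ℤ} {y : Chev K} {w : Chev O31} (h : map O31.subtype w = pp ^ (-m) • y) : CVge m y := by
  constructor
  · intro i
    have h1 : ((w.h i : O31) : K) = pp ^ (-m) * y.h i := congrFun (congrArg Chev.h h) i
    unfold Vge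
    rw [mul_comm, ← h1]
    exact (w.h i).2
  · intro a
    have h1 : ((w.x a : O31) : K) = pp ^ (-m) * y.x a := congrFun (congrArg Chev.x h) a
    unfold Vge
    rw [mul_comm, ← h1]
    exact (w.x a).2

private theorem clc_of58 {m : ℤ} {y : Chev K} {w : Chev O31} (h : map O31.subtype w = pp ^ (-m) • y) :
    clc m y = map res w := by
  have hy := CVge_of58 h
  rw [← res_up58 hy]
  congr 1
  have h2 := (map_up58 hy).trans h.symm
  ext i
  · exact congrFun (congrArg Chev.h h2) i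
  · exact congrFun (congrArg Chev.x h2) i

private theorem up_lie58 {m m' : ℤ} {y z : Chev K} (hy : CVge m y) (hz : CVge m' z) :
    map O31.subtype ⁅up58 m y hy, up58 m' z hz⁆ = pp ^ (-(m + m')) • ⁅y, z⁆ := by
  rw [map_lie, map_up58, map_up58, lie_smul, smul_lie, smul_smul, ← zpow_add₀ pp_ne_zero]
  congr 2
  ring

private theorem up_bf58 {m m' : ℤ} {y z : Chev K} (hy : CVge m y) (hz : CVge m' z) :
    ((bf (up58 m y hy) (up58 m' z hz) : O31) : K) = bf y z * pp ^ (-(m + m')) := by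
  have h1 : ((bf (up58 m y hy) (up58 m' z hz) : O31) : K) =
      bf (map O31.subtype (up58 m y hy)) (map O31.subtype (up58 m' z hz)) := (map_bf O31.subtype _ _).symm
  rw [h1, map_up58, map_up58, bf_smul_left, bf_smul_right, neg_add, zpow_add₀ pp_ne_zero]
  ring

theorem CVge_zero (m : ℤ) : CVge m 0 := by
  exact ⟨fun _ => Vge_zero m, fun _ => Vge_zero m⟩

theorem CVge_add {m : ℤ} {y z : Chev K} (hy : CVge m y) (hz : CVge m z) : CVge m (y + z) := by
  exact ⟨fun i => Vge_add (hy.1 i) (hz.1 i), fun a => Vge_add (hy.2 a) (hz.2 a)⟩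

theorem CVge_neg {m : ℤ} {y : Chev K} (hy : CVge m y) : CVge m (-y) := by
  exact ⟨fun i => Vge_neg (hy.1 i), fun a => Vge_neg (hy.2 a)⟩

theorem CVge_anti {m m' : ℤ} {y : Chev K} (h : m ≤ m') (hy : CVge m' y) : CVge m y := by
  exact ⟨fun i => Vge_anti h (hy.1 i), fun a => Vge_anti h (hy.2 a)⟩

theorem CVge_smul {m m' : ℤ} {c : K} {y : Chev K} (hc : Vge m c) (hy : CVge m' y) : CVge (m + m') (c • y) := by
  exact ⟨fun i => Vge_mul hc (hy.1 i), fun a => Vge_mul hc (hy.2 a)⟩

theorem exists_CVge (y : Chev K) : ∃ m : ℤ, CVge m y := by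
  choose f hf using fun i => exists_Vge (y.h i)
  choose g hg using fun a => exists_Vge (y.x a)
  obtain ⟨m, hm⟩ := (Set.finite_range f).bddBelow
  obtain ⟨m', hm'⟩ := (Set.finite_range g).bddBelow
  refine ⟨min m m', fun i => ?_, fun a => ?_⟩
  · exact Vge_anti ((min_le_left m m').trans (hm (Set.mem_range_self i))) (hf i)
  · exact Vge_anti ((min_le_right m m').trans (hm' (Set.mem_range_self a))) (hg a)

theorem eq_zero_of_CVge {y : Chev K} (h : ∀ m : ℤ, CVge m y) : y = 0 := by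
  ext i
  · exact eq_zero_of_Vge fun m => (h m).1 i
  · exact eq_zero_of_Vge fun m => (h m).2 i

theorem clc_zero (m : ℤ) : clc m 0 = 0 := by
  ext i
  · exact lc_zero m
  · exact lc_zero m

theorem clc_add {m : ℤ} {y z : Chev K} (hy : CVge m y) (hz : CVge m z) : clc m (y + z) = clc m y + clc m z := by
  ext i
  · exact lc_add (hy.1 i) (hz.1 i)
  · exact lc_add (hy.2 i) (hz.2 i)

theorem clc_neg {m : ℤ} {y : Chev K} (hy : CVge m y) : clc m (-y) = -clc m y := by
  ext i
  · exact lc_neg (hy.1 i)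
  · exact lc_neg (hy.2 i)

theorem clc_smul {m m' : ℤ} {c : K} {y : Chev K} (hc : Vge m c) (hy : CVge m' y) :
    clc (m + m') (c • y) = lc m c • clc m' y := by
  ext i
  · exact lc_mul hc (hy.1 i)
  · exact lc_mul hc (hy.2 i)

theorem clc_eq_zero {m : ℤ} {y : Chev K} (hy : CVge m y) : clc m y = 0 ↔ CVge (m + 1) y := by
  constructor
  · intro h
    exact ⟨fun i => (lc_eq_zero (hy.1 i)).1 (congrFun (congrArg Chev.h h) i),
      fun a => (lc_eq_zero (hy.2 a)).1 (congrFun (congrArg Chev.x h) a)⟩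
  · intro h
    ext i
    · exact (lc_eq_zero (hy.1 i)).2 (h.1 i)
    · exact (lc_eq_zero (hy.2 i)).2 (h.2 i)

theorem CVge_lie {m m' : ℤ} {y z : Chev K} (hy : CVge m y) (hz : CVge m' z) : CVge (m + m') ⁅y, z⁆ := by
  exact CVge_of58 (up_lie58 hy hz)

theorem clc_lie {m m' : ℤ} {y z : Chev K} (hy : CVge m y) (hz : CVge m' z) :
    clc (m + m') ⁅y, z⁆ = ⁅clc m y, clc m' z⁆ := by
  rw [clc_of58 (up_lie58 hy hz), map_lie, res_up58, res_up58]

theorem Vge_bf {m m' : ℤ} {y z : Chev K} (hy : CVge m y) (hz : CVge m' z) : Vge (m + m') (bf y z) := by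
  unfold Vge
  rw [← up_bf58 hy hz]
  exact (bf (up58 m y hy) (up58 m' z hz)).2

theorem lc_bf {m m' : ℤ} {y z : Chev K} (hy : CVge m y) (hz : CVge m' z) :
    lc (m + m') (bf y z) = bf (clc m y) (clc m' z) := by
  rw [lc_def (Vge_bf hy hz), ← res_up58 hy, ← res_up58 hz, map_bf]
  congr 1
  exact Subtype.ext (up_bf58 hy hz).symm

theorem CVge_sV {η : Lat → ℤˣ} {m : ℤ} {y : Chev K} (hy : CVge m y) : CVge m (sV η y) := by
  constructor
  · intro i
    change Vge m (∑ j, σ (y.h j) * ((W (al j) i : ℤ) : K))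
    exact Vge_sum _ _ fun j _ => Vge_mul_int58 (Vge_sigma.2 (hy.1 j)) _
  · intro a
    have h := Vge_mul_int58 (Vge_sigma.2 (hy.2 ((onRoot W W_isom).symm a))) ((η ((onRoot W W_isom).symm a).1 : ℤˣ) : ℤ)
    rw [mul_comm] at h
    exact h

theorem clc_sV {η : Lat → ℤˣ} {m : ℤ} {y : Chev K} (hy : CVge m y) :
    clc m (sV η y) = (3 : ZMod 31) ^ m • nn η (clc m y) := by
  ext i
  · change lc m (∑ j, σ (y.h j) * ((W (al j) i : ℤ) : K)) =
      (3 : ZMod 31) ^ m * ∑ j, lc m (y.h j) * ((W (al j) i : ℤ) : ZMod 31)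
    rw [lc_sum _ _ fun j _ => Vge_mul_int58 (Vge_sigma.2 (hy.1 j)) _, Finset.mul_sum]
    refine Finset.sum_congr rfl fun j _ => ?_
    rw [lc_mul_int58 (Vge_sigma.2 (hy.1 j)), lc_sigma (hy.1 j), mul_assoc]
  · change lc m (((η ((onRoot W W_isom).symm i).1 : ℤ) : K) * σ (y.x ((onRoot W W_isom).symm i))) =
      (3 : ZMod 31) ^ m * (((η ((onRoot W W_isom).symm i).1 : ℤ) : ZMod 31) * lc m (y.x ((onRoot W W_isom).symm i)))
    rw [mul_comm, lc_mul_int58 (Vge_sigma.2 (hy.2 _)), lc_sigma (hy.2 _)]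
    ring

theorem CVge_map {m : ℤ} {y : Chev K} (hy : CVge m y) : CVge m (map (σ : K →+* K) y) := by
  exact ⟨fun i => Vge_sigma.2 (hy.1 i), fun a => Vge_sigma.2 (hy.2 a)⟩

theorem clc_map {m : ℤ} {y : Chev K} (hy : CVge m y) :
    clc m (map (σ : K →+* K) y) = (3 : ZMod 31) ^ m • clc m y := by
  ext i
  · exact lc_sigma (hy.1 i)
  · exact lc_sigma (hy.2 i)

theorem CVge_gz {m : ℤ} {y : Chev K} (hy : CVge m y) : CVge (m + 1) (gz ζ y - y) := by
  constructor
  · intro i
    change Vge (m + 1) (y.h i - y.h i)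
    rw [sub_self]
    exact Vge_zero _
  · intro a
    exact Vge_zeta (ht a.1) (hy.2 a)

theorem clc_gz {m : ℤ} {y : Chev K} (hy : CVge m y) :
    clc (m + 1) (gz ζ y - y) = ⟨0, fun a => -(ht a.1 : ZMod 31) * lc m (y.x a)⟩ := by
  ext i
  · change lc (m + 1) (y.h i - y.h i) = 0
    rw [sub_self]
    exact lc_zero _
  · exact lc_zeta (ht i.1) (hy.2 i)

theorem CVge_31 {m : ℤ} {y : Chev K} : CVge (m + 30) ((31 : K) • y) ↔ CVge m y := by
  constructor
  · intro h
    exact ⟨fun i => Vge_31.1 (h.1 i), fun a => Vge_31.1 (h.2 a)⟩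
  · intro h
    exact ⟨fun i => Vge_31.2 (h.1 i), fun a => Vge_31.2 (h.2 a)⟩

theorem clc_31 {m : ℤ} {y : Chev K} (hy : CVge m y) : clc (m + 30) ((31 : K) • y) = -clc m y := by
  ext i
  · exact lc_31 (hy.1 i)
  · exact lc_31 (hy.2 i)

/-- The leading term of a fixed vector of `sV`. -/
theorem nn_clc {η : Lat → ℤˣ} {m : ℤ} {y : Chev K} (hy : CVge m y) (hs : sV η y = y) :
    nn η (clc m y) = (3 : ZMod 31) ^ (-m) • clc m y := by
  have h := clc_sV (η := η) hy
  rw [hs] at h
  have h3 : (3 : ZMod 31) ≠ 0 := by decide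
  conv_rhs => rw [h, smul_smul, ← zpow_add₀ h3, neg_add_cancel, zpow_zero, one_smul]

end Pool.Agent.Helper73.E8.Ez
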